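import Pool.Agent.H31.BE.EntD

/-! # EntF : independence, transport, small errors  (module EntF, ~130 lines)
* `ent_map`: if θ : Ω → Ω' is measure preserving and f : Ω' → α is Fm then H_P(f∘θ) = H_{P'}(f)
  (`MeasurePreserving.measure_preimage`, with `NullMeasurableSet` from `Fm`).
* `ent_indep_pi`: finite family with P(f_i = a_i for all i) = prod P(f_i = a_i) for all a: H((f_i)) = sum H(f_i).
  Proof: nml(prod x_i) = sum_i (prod_{j≠i} x_j) nml(x_i), sum over all a of prod_{j≠i} x_j(a_j) = 1. Easiest: induction on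
  the index type (`Fintype.induction_empty_option`) or on a Finset, using the two variable case
  `ent_indep_two`: nml(xy) = x nml y + y nml x (`Real.negMulLog_mul`).
* `entc_small`: for a fixed finite α: for every ε > 0 there is δ > 0 such that for every probability space and Fm functions f, g
  with values in α, P(f ≠ g) <= δ implies H(f|g) <= ε.
  Proof: let e := indicator of f ≠ g (Bool). H(f|g) <= H(e) + H(f|(e,g)) and
  H(f|(e,g)) <= P(e=1) log |α| (entc_le_count with N = 1 when e = 0, |α| when e = 1), H(e) = nml δ' + nml(1-δ') → 0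
  as δ' = P(f≠g) → 0 (continuity of negMulLog at 0 and 1; it is uniform in δ' <= δ because the bound depends on δ' only:
  choose δ by continuity of x ↦ nml x + nml (1-x) + x log|α| at 0).  (import EntD if you want entc_le_count) -/

set_option autoImplicit false

open MeasureTheory

namespace H31.BE

theorem ent_map {Ω Ω' α : Type} [MeasurableSpace Ω] [MeasurableSpace Ω'] [Finite α]
    {P : Measure Ω} {P' : Measure Ω'} {θ : Ω → Ω'} (hθ : MeasurePreserving θ P P')
    {f : Ω' → α} (hf : Fm f) : ent P (fun ω => f (θ ω)) = ent P' f := by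
  unfold ent
  apply Finset.sum_congr rfl
  intro a _
  congr 1
  have e : (fun ω => f (θ ω)) ⁻¹' {a} = θ ⁻¹' (f ⁻¹' {a}) := rfl
  rw [e, Measure.real, Measure.real, hθ.measure_preimage (hf a).nullMeasurableSet]

theorem Fm.comp_measurable {Ω Ω' α : Type} [MeasurableSpace Ω] [MeasurableSpace Ω'] {θ : Ω → Ω'}
    (hθ : Measurable θ) {f : Ω' → α} (hf : Fm f) : Fm (fun ω => f (θ ω)) :=
  fun a => hθ (hf a)

theorem entF_sum {Ω α : Type} [MeasurableSpace Ω] {P : Measure Ω} [IsProbabilityMeasure P]
    [Fintype α] {f : Ω → α} (hf : Fm f) : ∑ a, P.real (f ⁻¹' {a}) = 1 := by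
  rw [sum_measureReal_preimage_singleton Finset.univ (fun a _ => hf a)]
  simp

theorem ent_indep_two {Ω α β : Type} [MeasurableSpace Ω] {P : Measure Ω} [IsProbabilityMeasure P]
    [Finite α] [Finite β] {f : Ω → α} {g : Ω → β} (hf : Fm f) (hg : Fm g)
    (h : ∀ a b, P.real (f ⁻¹' {a} ∩ g ⁻¹' {b}) = P.real (f ⁻¹' {a}) * P.real (g ⁻¹' {b})) :
    ent P (fun ω => (f ω, g ω)) = ent P f + ent P g := by
  cases nonempty_fintype α
  cases nonempty_fintype β
  rw [ent_eq, ent_eq, ent_eq, Fintype.sum_prod_type]
  have e : ∀ a b, Real.negMulLog (P.real ((fun ω => (f ω, g ω)) ⁻¹' {(a, b)})) =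
      P.real (g ⁻¹' {b}) * Real.negMulLog (P.real (f ⁻¹' {a})) +
      P.real (f ⁻¹' {a}) * Real.negMulLog (P.real (g ⁻¹' {b})) := by
    intro a b
    have e1 : (fun ω => (f ω, g ω)) ⁻¹' {(a, b)} = f ⁻¹' {a} ∩ g ⁻¹' {b} := by
      ext ω; simp
    rw [e1, h a b, Real.negMulLog_mul]
  simp only [e, Finset.sum_add_distrib, ← Finset.sum_mul, ← Finset.mul_sum]
  rw [entF_sum hf, entF_sum hg]
  ring

theorem entF_nml_prod {ι : Type} [DecidableEq ι] (s : Finset ι) (x : ι → ℝ) :
    Real.negMulLog (∏ i ∈ s, x i) = ∑ i ∈ s, Real.negMulLog (x i) * ∏ j ∈ s.erase i, x j := by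
  induction s using Finset.induction_on with
  | empty => simp
  | insert a s ha ih =>
    rw [Finset.prod_insert ha, Real.negMulLog_mul, Finset.sum_insert ha, ih,
      Finset.erase_insert ha, Finset.mul_sum, mul_comm (∏ i ∈ s, x i)]
    congr 1
    apply Finset.sum_congr rfl
    intro i hi
    have hai : a ≠ i := fun e => ha (e ▸ hi)
    rw [Finset.erase_insert_of_ne hai, Finset.prod_insert (fun h => ha (Finset.mem_of_mem_erase h))]
    ring

theorem ent_indep_pi {Ω ι : Type} [MeasurableSpace Ω] {P : Measure Ω} [IsProbabilityMeasure P]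
    [Fintype ι] {κ : ι → Type} [∀ i, Finite (κ i)] {f : ∀ i, Ω → κ i} (hf : ∀ i, Fm (f i))
    (h : ∀ a : ∀ i, κ i, P.real {ω | ∀ i, f i ω = a i} = ∏ i, P.real (f i ⁻¹' {a i})) :
    ent P (fun ω => fun i => f i ω) = ∑ i, ent P (f i) := by
  classical
  have inst : ∀ i, Fintype (κ i) := fun i => Fintype.ofFinite (κ i)
  rw [ent_eq]
  simp only [ent_eq]
  have e : ∀ a : ∀ i, κ i, Real.negMulLog (P.real ((fun ω => fun i => f i ω) ⁻¹' {a})) =
      ∑ i, ∏ j, (if j = i then Real.negMulLog (P.real (f j ⁻¹' {a j}))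
        else P.real (f j ⁻¹' {a j})) := by
    intro a
    have e1 : (fun ω => fun i => f i ω) ⁻¹' {a} = {ω | ∀ i, f i ω = a i} := by
      ext ω; simp [funext_iff]
    rw [e1, h a, entF_nml_prod]
    apply Finset.sum_congr rfl
    intro i _
    rw [← Finset.mul_prod_erase Finset.univ _ (Finset.mem_univ i), if_pos rfl]
    congr 1
    apply Finset.prod_congr rfl
    intro j hj
    rw [if_neg (Finset.ne_of_mem_erase hj)]
  simp only [e]
  rw [Finset.sum_comm]
  apply Finset.sum_congr rfl
  intro i _
  have key := Finset.prod_univ_sum (fun j : ι => (Finset.univ : Finset (κ j)))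
    (fun j (c : κ j) => if j = i then Real.negMulLog (P.real (f j ⁻¹' {c}))
        else P.real (f j ⁻¹' {c}))
  rw [Fintype.piFinset_univ] at key
  rw [← key, ← Finset.mul_prod_erase Finset.univ _ (Finset.mem_univ i)]
  simp only [if_true]
  rw [Finset.prod_eq_one, mul_one]
  intro j hj
  simp only [if_neg (Finset.ne_of_mem_erase hj)]
  exact entF_sum (hf j)

theorem entc_small (α : Type) [Finite α] (ε : ℝ) (hε : 0 < ε) :
    ∃ δ : ℝ, 0 < δ ∧ ∀ (Ω : Type) [MeasurableSpace Ω] (P : Measure Ω) [IsProbabilityMeasure P]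
      (f g : Ω → α), Fm f → Fm g → P.real {ω | f ω ≠ g ω} ≤ δ → entc P f g ≤ ε := by
  classical
  -- the bound as a function of the probability
  let φ : ℝ → ℝ := fun x => Real.negMulLog x + Real.negMulLog (1 - x) +
    x * Real.log (Nat.card α)
  have hcont : Continuous φ := by
    have h1 := Real.continuous_negMulLog
    have h2 : Continuous (fun x : ℝ => Real.negMulLog (1 - x)) :=
      h1.comp (continuous_const.sub continuous_id)
    exact (h1.add h2).add (continuous_id.mul continuous_const)
  have hφ0 : φ 0 = 0 := by simp [φ]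
  obtain ⟨δ, hδ, hδ'⟩ := Metric.continuous_iff.1 hcont 0 ε hε
  refine ⟨δ / 2, by linarith, ?_⟩
  intro Ω _ P _ f g hf hg hfg
  have : Nonempty α := entC_nonempty f P
  set x : ℝ := P.real {ω | f ω ≠ g ω} with hx
  have hx0 : 0 ≤ x := measureReal_nonneg
  have hφx : φ x ≤ ε := by
    have h1 := hδ' x (by rw [Real.dist_eq, sub_zero, abs_of_nonneg hx0]; linarith)
    rw [Real.dist_eq, hφ0, sub_zero] at h1
    exact (le_abs_self _).trans h1.le
  refine le_trans ?_ hφx
  -- the error indicator
  let e : Ω → Bool := fun ω => decide (f ω ≠ g ω)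
  have he : Fm e := (hf.prodMk hg).comp (fun p : α × α => decide (p.1 ≠ p.2))
  have h1 := entc_comp_left (P := P) (hf.prodMk he) hg (Prod.fst : α × Bool → α)
  have h2 := entc_chain (P := P) hf he hg
  have h3 := entc_le_ent (P := P) he hg
  simp only at h1
  have het : e ⁻¹' {true} = {ω | f ω ≠ g ω} := by
    ext ω; simp [e]
  have hef : e ⁻¹' {false} = {ω | f ω ≠ g ω}ᶜ := by
    ext ω; simp [e]
  have hmeas : MeasurableSet {ω | f ω ≠ g ω} := by rw [← het]; exact he true
  have h4 : ent P e = Real.negMulLog x + Real.negMulLog (1 - x) := by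
    rw [ent_eq, Fintype.sum_bool, het, hef, measureReal_compl hmeas]
    simp [hx]
  have h5 : entc P f (fun ω => (e ω, g ω)) ≤ x * Real.log (Nat.card α) := by
    have h6 := entc_le_count (P := P) hf (he.prodMk hg)
      (fun p : Bool × α => if p.1 = true then Nat.card α else 1) ?_ ?_
    · refine h6.trans (le_of_eq ?_)
      have h7 : (fun ω => Real.log (((if (e ω, g ω).1 = true then Nat.card α else 1 : ℕ) : ℕ) : ℝ)) =
          {ω | f ω ≠ g ω}.indicator (fun _ => Real.log (Nat.card α)) := by
        funext ω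
        by_cases hω : f ω ≠ g ω
        · rw [Set.indicator_of_mem (by exact hω)]
          simp [e, hω]
        · rw [Set.indicator_of_notMem (by exact hω)]
          simp only [e, hω]
          simp
      rw [h7, integral_indicator_const _ hmeas]
      simp [hx]
    · intro b
      split_ifs
      · exact Nat.card_pos
      · exact le_refl 1
    · rintro ⟨b, c⟩
      split_ifs with hb
      · rw [← Set.ncard_univ]
        exact Set.ncard_le_ncard (Set.subset_univ _) (Set.toFinite _)
      · have hb' : b = false := by simpa using hb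
        subst hb'
        have hsub : {a | 0 < P.real (f ⁻¹' {a} ∩ (fun ω => (e ω, g ω)) ⁻¹' {(false, c)})} ⊆ {c} := by
          intro a ha
          simp only [Set.mem_setOf_eq] at ha
          by_contra hac
          have hemp : f ⁻¹' {a} ∩ (fun ω => (e ω, g ω)) ⁻¹' {(false, c)} = ∅ := by
            ext ω
            simp only [Set.mem_inter_iff, Set.mem_preimage, Set.mem_singleton_iff,
              Prod.mk.injEq, Set.mem_empty_iff_false, iff_false, not_and]
            intro hfa h1 h2
            simp only [e, decide_eq_false_iff_not, not_not] at h1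
            exact hac (by rw [← hfa, h1, h2]; rfl)
          rw [hemp] at ha
          simp at ha
        refine le_trans (Set.ncard_le_ncard hsub (Set.toFinite _)) ?_
        rw [Set.ncard_singleton]
  simp only [φ]
  linarith

end H31.BE
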