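import Pool.Agent.H31.BE.Bern

/-! # Appr : approximation by finite windows of finite partitions  (module Appr, ~150 lines)
For every Fm b : Bsh G → β (β finite) and δ > 0 there are k, an Fm q : ℝ → Fin k, a finite B and Φ with
P(b ≠ Φ(win (lab q) B)) <= δ.
Proof. Let 𝒜 := {s ⊆ Bsh G : s = {y | Φ (win (lab q) B y) = true} for some k, q : ℝ → Fin k Fm, B, Φ : (B → Fin k) → Bool}.
𝒜 is a ring of sets (complement, union: take B ∪ B', the product partition Fin k × Fin k' ≃ Fin (k k')), contains univ and
generates the sigma-algebra (it contains {y | y g ∈ U}, U measurable: q = indicator of U, B = {g⁻¹}; the elements of 𝒜 are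
measurable). Mathlib: `exists_measure_symmDiff_lt_of_generateFrom_isSetRing` (MeasureTheory/Measure/MeasuredSets.lean).
Approximate each fibre b⁻¹{c}, c ∈ β, by t_c ∈ 𝒜 up to δ/|β|; common q (product of the q_c), B (union), and
Φ(w) := some c with w ∈ t_c (default if none or choose any): where b ≠ Φ, with c = b y, either y ∉ t_c, or y ∈ t_{c'} for some c' ≠ c:
so y ∈ union over c of (t_c ∆ b⁻¹{c}).
(β is nonempty since Bsh G is nonempty.) -/

set_option autoImplicit false

open MeasureTheory

namespace H31.BE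

private def WD {G β : Type} [Group G] (f : Bsh G → β) : Prop :=
  ∃ (k : ℕ) (q : ℝ → Fin k) (_ : Fm q) (B : Finset G) (Φ : (B → Fin k) → β),
    ∀ y, f y = Φ (win (lab q) B y)

private theorem WD.comp {G β γ : Type} [Group G] {f : Bsh G → β} (h : WD f) (φ : β → γ) :
    WD (fun y => φ (f y)) := by
  obtain ⟨k, q, hq, B, Φ, hΦ⟩ := h
  exact ⟨k, q, hq, B, fun w => φ (Φ w), fun y => congrArg φ (hΦ y)⟩

private theorem WD.pi {G ι : Type} [Group G] [DecidableEq G] [Finite ι] {κ : ι → Type}
    {f : ∀ i, Bsh G → κ i} (h : ∀ i, WD (f i)) : WD (fun y i => f i y) := by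
  classical
  have := Fintype.ofFinite ι
  choose k q hq B Φ hΦ using h
  let e := Fintype.equivFin (∀ i, Fin (k i))
  refine ⟨_, fun x => e (fun i => q i x), (Fm.pi hq).comp e, Finset.univ.biUnion B,
    fun w i => Φ i (fun g => e.symm (w ⟨g, Finset.mem_biUnion.2 ⟨i, Finset.mem_univ _, g.2⟩⟩) i), ?_⟩
  intro y
  funext i
  show f i y = Φ i (fun g => e.symm (win (lab fun x => e fun i => q i x) (Finset.univ.biUnion B) y
    ⟨g, Finset.mem_biUnion.2 ⟨i, Finset.mem_univ _, g.2⟩⟩) i)
  rw [hΦ]
  congr 1
  funext g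
  simp only [win, lab, Equiv.symm_apply_apply]

private theorem WD.bin {G : Type} [Group G] [DecidableEq G] {s t : Set (Bsh G)}
    (hs : WD (fun y => y ∈ s)) (ht : WD (fun y => y ∈ t)) (φ : Prop → Prop → Prop) :
    WD (fun y => φ (y ∈ s) (y ∈ t)) := by
  have h : ∀ i : Bool, WD (fun y : Bsh G => y ∈ (bif i then s else t)) := by
    intro i
    cases i
    · exact ht
    · exact hs
  exact (WD.pi (κ := fun _ : Bool => Prop) h).comp (fun w => φ (w true) (w false))

private theorem Fm_win_lab {G α : Type} [Group G] [DecidableEq G] [Finite α] (μ : Measure ℝ)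
    [IsProbabilityMeasure μ] {q : ℝ → α} (hq : Fm q) (B : Finset G) :
    Fm (win (lab (G := G) q) B) :=
  Fm.pi (f := fun (i : B) (y : Bsh G) => lab q ((i : G) • y))
    (fun i => Fm.comp_measurable (inv_bern (G := G) μ i).measurable hq.lab)

theorem appr {G β : Type} [Group G] [DecidableEq G] [Finite β] (μ : Measure ℝ) [IsProbabilityMeasure μ]
    (b : Bsh G → β) (hb : Fm b) (δ : ℝ) (hδ : 0 < δ) :
    ∃ (k : ℕ) (q : ℝ → Fin k) (_ : Fm q) (B : Finset G) (Φ : (B → Fin k) → β),
      (bern G μ).real {y | b y ≠ Φ (win (lab q) B y)} ≤ δ := by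
  classical
  have := Fintype.ofFinite β
  have hne : Nonempty β := ⟨b (fun _ => (0 : ℝ))⟩
  let A : Set (Set (Bsh G)) := {s | WD (fun y => y ∈ s)}
  have hconst : ∀ (c : Prop), WD (fun _ : Bsh G => c) := fun c =>
    ⟨1, fun _ => 0, fun a => by
      by_cases h : (0 : Fin 1) = a
      · simp [h]
      · simp [h], ∅, fun _ => c, fun _ => rfl⟩
  have hring : IsSetRing A :=
    ⟨hconst False, fun s t hs ht => hs.bin ht Or, fun s t hs ht => hs.bin ht (fun a b => a ∧ ¬ b)⟩
  have huniv : Set.univ ∈ A := hconst True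
  have hgen : (inferInstance : MeasurableSpace (Bsh G)) = MeasurableSpace.generateFrom A := by
    refine le_antisymm ?_ (MeasurableSpace.generateFrom_le ?_)
    · refine iSup_le (fun g => ?_)
      rintro _ ⟨U, hU, rfl⟩
      refine MeasurableSpace.measurableSet_generateFrom ?_
      refine ⟨2, fun x => if x ∈ U then 1 else 0, ?_, {g⁻¹}, fun w => w ⟨g⁻¹, by simp⟩ = 1, ?_⟩
      · have hm : Measurable (fun x : ℝ => if x ∈ U then (1 : Fin 2) else 0) :=
          Measurable.ite hU measurable_const measurable_const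
        intro a
        exact hm (measurableSet_singleton a)
      · intro y
        simp only [win, lab, eq_iff_iff]
        have h1 : (g⁻¹ • y) 1 = y g := by rw [Bsh.smul_apply]; simp
        rw [h1]
        by_cases h : y g ∈ U
        · simp only [h, if_true]
          exact ⟨fun _ => trivial, fun _ => h⟩
        · simp only [h, if_false]
          exact ⟨fun h2 => absurd h2 h, fun h2 => absurd h2 (by decide)⟩
    · rintro s ⟨k, q, hq, B, Φ, hΦ⟩
      have h1 : s = (win (lab q) B) ⁻¹' {w | Φ w} := by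
        ext y
        exact iff_of_eq (hΦ y)
      rw [h1]
      exact (Fm_win_lab μ hq B).preimage _
  have hε : 0 < ENNReal.ofReal (δ / Fintype.card β) :=
    ENNReal.ofReal_pos.2 (div_pos hδ (by exact_mod_cast Fintype.card_pos))
  have happ : ∀ c : β, ∃ t ∈ A, bern G μ (symmDiff t (b ⁻¹' {c})) <
      ENNReal.ofReal (δ / Fintype.card β) := fun c =>
    exists_measure_symmDiff_lt_of_generateFrom_isSetRing hring
      ⟨{Set.univ}, Set.countable_singleton _, by simpa using huniv, by simp⟩ hgen (hb c) hε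
  choose t htA ht using happ
  obtain ⟨k, q, hq, B, Φ, hΦ⟩ := WD.pi (κ := fun _ : β => Prop) htA
  refine ⟨k, q, hq, B, fun w => if h : ∃ c, Φ w c then h.choose else hne.some, ?_⟩
  have hsub : {y | b y ≠ (fun w => if h : ∃ c, Φ w c then h.choose else hne.some)
      (win (lab q) B y)} ⊆ ⋃ c, symmDiff (t c) (b ⁻¹' {c}) := by
    intro y hy
    have hy' : ∀ c, (y ∈ t c) ↔ Φ (win (lab q) B y) c := fun c => iff_of_eq (congrFun (hΦ y) c)
    by_contra hcon
    simp only [Set.mem_iUnion, not_exists, Set.mem_symmDiff, not_or, not_and, not_not,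
      Set.mem_preimage, Set.mem_singleton_iff] at hcon
    apply hy
    have hex : ∃ c, Φ (win (lab q) B y) c := ⟨b y, (hy' _).1 ((hcon (b y)).2 rfl)⟩
    show b y = if h : ∃ c, Φ (win (lab q) B y) c then h.choose else hne.some
    rw [dif_pos hex]
    exact (hcon hex.choose).1 ((hy' _).2 hex.choose_spec)
  refine (measureReal_mono hsub).trans ?_
  refine (measureReal_iUnion_fintype_le _).trans ?_
  have h1 : ∀ c ∈ (Finset.univ : Finset β), (bern G μ).real (symmDiff (t c) (b ⁻¹' {c})) ≤
      δ / Fintype.card β := by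
    intro c _
    rw [measureReal_def]
    exact ENNReal.toReal_le_of_le_ofReal (div_nonneg hδ.le (Nat.cast_nonneg _)) (ht c).le
  refine (Finset.sum_le_sum h1).trans ?_
  rw [Finset.sum_const, Finset.card_univ, nsmul_eq_mul]
  have hpos : (0 : ℝ) < Fintype.card β := by exact_mod_cast Fintype.card_pos
  rw [mul_div_cancel₀ _ hpos.ne']

end H31.BE
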