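import Pool.Agent.H31.BE.EntF

/-! # Bern : the Bernoulli shift `Bsh G = (G → ℝ)`, `(g • y) h = y (g⁻¹ h)`   (module Bern, ~120 lines)
* `inv_bern`: the action preserves `bern μ`: uniqueness `Measure.eq_infinitePi` (map of the product measure by the
  permutation h ↦ g⁻¹h of the coordinates; check on finite rectangles with `infinitePi_pi`).
* `ent_lab`: the law of y ↦ q (y 1) is the law of q under μ.
* `win_lab`: (lab q)(g•y) = q (y g⁻¹); `hind`: H((lab q)^B) = |B| H(lab q) by `ent_indep_pi` and `infinitePi_pi`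
  (the coordinates g⁻¹, g ∈ B, are distinct). -/

set_option autoImplicit false

open MeasureTheory

namespace H31.BE

/-- the Bernoulli space -/
def Bsh (G : Type) : Type := G → ℝ

instance (G : Type) : MeasurableSpace (Bsh G) := inferInstanceAs (MeasurableSpace (G → ℝ))

instance (G : Type) [Group G] : MulAction G (Bsh G) where
  smul g y := fun h => y (g⁻¹ * h)
  one_smul y := by
    funext h
    show y (1⁻¹ * h) = y h
    simp
  mul_smul a b y := by
    funext h
    show y ((a * b)⁻¹ * h) = y (b⁻¹ * (a⁻¹ * h))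
    simp [mul_assoc]

theorem Bsh.smul_apply {G : Type} [Group G] (g : G) (y : Bsh G) (h : G) : (g • y) h = y (g⁻¹ * h) := rfl

noncomputable section

/-- the product measure -/
def bern (G : Type) (μ : Measure ℝ) : Measure (Bsh G) := Measure.infinitePi (fun _ : G => μ)

instance (G : Type) (μ : Measure ℝ) [IsProbabilityMeasure μ] : IsProbabilityMeasure (bern G μ) :=
  inferInstanceAs (IsProbabilityMeasure (Measure.infinitePi (fun _ : G => μ)))

/-- the label `q (y 1)` -/
def lab {G α : Type} [Group G] (q : ℝ → α) : Bsh G → α := fun y => q (y 1)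

variable {G α : Type} [Group G] [DecidableEq G] [Finite α] (μ : Measure ℝ) [IsProbabilityMeasure μ]

theorem measurable_eval (g : G) : Measurable (fun y : Bsh G => y g) :=
  measurable_pi_apply (X := fun _ : G => ℝ) g

theorem bern_pi (s : Finset G) (t : G → Set ℝ) (ht : ∀ i ∈ s, MeasurableSet (t i)) :
    bern G μ {y : Bsh G | ∀ i ∈ s, y i ∈ t i} = ∏ i ∈ s, μ (t i) :=
  Measure.infinitePi_pi (fun _ : G => μ) (s := s) (t := t) ht

theorem bern_unique (ν : Measure (Bsh G))
    (h : ∀ (s : Finset G) (t : G → Set ℝ), (∀ i, MeasurableSet (t i)) →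
      ν {y : Bsh G | ∀ i ∈ s, y i ∈ t i} = ∏ i ∈ s, μ (t i)) : ν = bern G μ :=
  Measure.eq_infinitePi (fun _ : G => μ) h

theorem measurableSet_rect (s : Finset G) (t : G → Set ℝ) (ht : ∀ i ∈ s, MeasurableSet (t i)) :
    MeasurableSet {y : Bsh G | ∀ i ∈ s, y i ∈ t i} := by
  have : {y : Bsh G | ∀ i ∈ s, y i ∈ t i} = ⋂ i ∈ s, {y : Bsh G | y i ∈ t i} := by
    ext y; simp
  rw [this]
  exact Finset.measurableSet_biInter s (fun i hi => (measurable_eval i) (ht i hi))

theorem inv_bern : Inv G (bern G μ) := by
  intro g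
  have hm : Measurable (fun y : Bsh G => g • y) :=
    measurable_pi_iff.2 (fun h => measurable_eval (g⁻¹ * h))
  refine ⟨hm, ?_⟩
  apply bern_unique
  intro s t ht
  rw [Measure.map_apply hm (measurableSet_rect s t (fun i _ => ht i))]
  have hset : (fun y : Bsh G => g • y) ⁻¹' {y : Bsh G | ∀ i ∈ s, y i ∈ t i} =
      {y : Bsh G | ∀ i ∈ s.image (fun h => g⁻¹ * h), y i ∈ t (g * i)} := by
    ext y
    simp only [Set.mem_preimage, Set.mem_setOf_eq, Finset.mem_image,
      forall_exists_index, and_imp, forall_apply_eq_imp_iff₂, mul_inv_cancel_left, Bsh.smul_apply]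
  rw [hset, bern_pi μ (s.image (fun h => g⁻¹ * h)) (fun k => t (g * k)) (fun i _ => ht _),
    Finset.prod_image (by intro a _ b _ hab; simpa using hab)]
  simp

theorem Fm.lab {q : ℝ → α} (hq : Fm q) : Fm (lab (G := G) q) := by
  intro a
  exact (measurable_eval (1 : G)) (hq a)

theorem ent_lab {q : ℝ → α} (hq : Fm q) : ent (bern G μ) (lab q) = ent μ q := by
  have h : MeasurePreserving (fun y : Bsh G => y 1) (bern G μ) μ :=
    measurePreserving_eval_infinitePi (fun _ : G => μ) 1
  exact ent_map h hq

theorem hind_lab {q : ℝ → α} (hq : Fm q) (B : Finset G) :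
    ent (bern G μ) (win (lab q) B) = B.card * ent (bern G μ) (lab (G := G) q) := by
  classical
  have hinv := inv_bern (G := G) μ
  have hF : ∀ i : B, Fm (fun y : Bsh G => lab q ((i : G) • y)) := fun i =>
    Fm.comp_measurable (hinv i).measurable hq.lab
  have hv : ∀ (i : G) (y : Bsh G), lab q (i • y) = q (y i⁻¹) := by
    intro i y
    show q (y (i⁻¹ * 1)) = _
    rw [mul_one]
  have h := ent_indep_pi (P := bern G μ) (f := fun (i : B) (y : Bsh G) => lab q ((i : G) • y)) hF ?_
  · have h2 : ∀ i : B, ent (bern G μ) (fun y : Bsh G => lab q ((i : G) • y)) =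
        ent (bern G μ) (lab (G := G) q) := fun i => ent_map (hinv i) hq.lab
    show ent (bern G μ) (fun y : Bsh G => fun i : B => lab q ((i : G) • y)) = _
    rw [h, Finset.sum_congr rfl (fun i _ => h2 i)]
    simp
  · intro a
    have e1 : {y : Bsh G | ∀ i : B, lab q ((i : G) • y) = a i} =
        {y : Bsh G | ∀ i ∈ B.image (fun g => g⁻¹), y i ∈
          (if h : i⁻¹ ∈ B then q ⁻¹' {a ⟨i⁻¹, h⟩} else Set.univ)} := by
      ext y
      simp only [Set.mem_setOf_eq, Finset.mem_image, forall_exists_index, and_imp,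
        forall_apply_eq_imp_iff₂, inv_inv, hv, Subtype.forall]
      refine forall₂_congr (fun i hi => ?_)
      rw [dif_pos hi]
      rfl
    have e2 : ∀ i : B, (bern G μ).real ((fun y : Bsh G => lab q ((i : G) • y)) ⁻¹' {a i}) =
        μ.real (q ⁻¹' {a i}) := by
      intro i
      have hp : MeasurePreserving (fun y : Bsh G => y (i : G)⁻¹) (bern G μ) μ :=
        measurePreserving_eval_infinitePi (fun _ : G => μ) (i : G)⁻¹
      have := hp.measure_preimage (hq (a i)).nullMeasurableSet
      rw [measureReal_def, measureReal_def, ← this]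
      congr 2
      ext y
      simp [hv]
    rw [e1, measureReal_def, bern_pi, Finset.prod_image (by intro x _ y _ hxy; simpa using hxy),
      ← Finset.prod_coe_sort, ENNReal.toReal_prod]
    · refine Finset.prod_congr rfl (fun i _ => ?_)
      rw [e2 i, measureReal_def]
      congr 2
      rw [dif_pos (by simp)]
      simp
    · intro i hi
      split_ifs with h
      · exact hq _
      · exact MeasurableSet.univ

end

end H31.BE
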