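import Pool.Agent.H31.BE.EntD

/-! # EntE : arrays known up to few errors  (module EntE, ~90 lines)
A random array `X : Ω → V → W` and a guess `Y : β → V → W` computed from `g`; the number of errors is at most `bb`.
Given g = b and bb = j, X is obtained from the array `Y b` by changing at most j places: number of such arrays
<= (|V| * |W|)^j  (choose an ordered list of j pairs (place, new value); every array that differs from `Y b` in at most j
places is obtained from some list in `Fin j → V × W`, needs V × W nonempty if j > 0). Then `entc_sparse` with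
M = |V| * |W|, n = |V|. `entc_pi_err` : W = a common finite type. -/

set_option autoImplicit false

open MeasureTheory

namespace H31.BE

/-- arrays that differ from `y` in at most `j` places -/
theorem ncard_close {V W : Type} [Fintype V] [Finite W] [Nonempty V] [Nonempty W] (y : V → W) (j : ℕ) :
    {x : V → W | {v | x v ≠ y v}.ncard ≤ j}.ncard ≤ (Nat.card V * Nat.card W) ^ j := by
  classical
  have : Fintype W := Fintype.ofFinite W
  -- the arrays described by a list of `j` changes
  let D : (Fin j → V × W) → (V → W) := fun l v =>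
    if h : ∃ i, (l i).1 = v then (l h.choose).2 else y v
  have hsub : {x : V → W | {v | x v ≠ y v}.ncard ≤ j} ⊆ D '' Set.univ := by
    intro x hx
    simp only [Set.mem_setOf_eq] at hx
    -- a surjection of `Fin j` onto the set of places where they differ, or a constant list
    obtain ⟨e, he⟩ : ∃ e : Fin j → V, ∀ v, x v ≠ y v → ∃ i, e i = v := by
      set A : Finset V := Finset.univ.filter (fun v => x v ≠ y v) with hA
      have hAc : A.card ≤ j := by
        have : {v | x v ≠ y v} = (A : Set V) := by
          ext v; simp [hA]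
        rw [this, Set.ncard_coe_finset] at hx
        exact hx
      obtain ⟨v0⟩ := (inferInstance : Nonempty V)
      let c := A.equivFin
      refine ⟨fun i => if h : (i : ℕ) < A.card then (c.symm ⟨i, h⟩ : V) else v0, fun v hv => ?_⟩
      have hvA : v ∈ A := by simp [hA, hv]
      refine ⟨⟨(c ⟨v, hvA⟩ : ℕ), lt_of_lt_of_le (c ⟨v, hvA⟩).2 hAc⟩, ?_⟩
      simp
    refine ⟨fun i => (e i, x (e i)), Set.mem_univ _, ?_⟩
    funext v
    simp only [D]
    split_ifs with h
    · exact congrArg x h.choose_spec
    · by_contra hne
      exact h (he v (fun e => hne e.symm))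
  calc {x : V → W | {v | x v ≠ y v}.ncard ≤ j}.ncard
      ≤ (D '' Set.univ).ncard := Set.ncard_le_ncard hsub (Set.toFinite _)
    _ ≤ (Set.univ : Set (Fin j → V × W)).ncard := Set.ncard_image_le (Set.toFinite _)
    _ = (Nat.card V * Nat.card W) ^ j := by
        rw [Set.ncard_univ, Nat.card_fun, Nat.card_prod]
        simp

theorem entc_array {Ω V W β : Type} [MeasurableSpace Ω] {P : Measure Ω} [IsProbabilityMeasure P]
    [Fintype V] [Nonempty V] [Finite W] [Nonempty W] [Finite β]
    (X : Ω → V → W) (hX : Fm X) (g : Ω → β) (hg : Fm g) (Y : β → V → W)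
    (bb : Ω → ℕ) (hbb : Fm bb) (hn : ∀ ω, bb ω ≤ Nat.card V)
    (h : ∀ᵐ ω ∂P, {v | X ω v ≠ Y (g ω) v}.ncard ≤ bb ω) :
    entc P X g ≤ Real.log (Nat.card V + 1) +
      (∫ ω, (bb ω : ℝ) ∂P) * Real.log (Nat.card V * Nat.card W) := by
  classical
  have hM : 1 ≤ Nat.card V * Nat.card W := Nat.succ_le_of_lt
    (Nat.mul_pos Nat.card_pos Nat.card_pos)
  have key := entc_sparse (P := P) hX hg (Nat.card V) (Nat.card V * Nat.card W) hM bb hbb hn ?_
  · have e : ((Nat.card V * Nat.card W : ℕ) : ℝ) = (Nat.card V : ℝ) * (Nat.card W : ℝ) := by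
      push_cast; ring
    rw [e] at key
    exact key
  intro b j
  refine le_trans (Set.ncard_le_ncard ?_ (Set.toFinite _)) (ncard_close (Y b) j)
  intro a ha
  simp only [Set.mem_setOf_eq] at ha ⊢
  -- some point of the event satisfies the almost sure property
  by_contra hcon
  have hz : P (X ⁻¹' {a} ∩ g ⁻¹' {b} ∩ bb ⁻¹' {j}) = 0 := by
    refine measure_mono_null ?_ (ae_iff.1 h)
    rintro ω ⟨⟨h1, h2⟩, h3⟩
    simp only [Set.mem_preimage, Set.mem_singleton_iff] at h1 h2 h3
    simp only [Set.mem_setOf_eq]
    rw [h1, h2, h3]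
    exact hcon
  rw [Measure.real, hz] at ha
  simp at ha

end H31.BE
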