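import Pool.Agent.H31.BE.ModDefs
import Pool.Agent.H31.BE.EntF
import Pool.Agent.H31.BE.EntE

/-! # ChDefs : the interface between the random model and the entropy chain. Definitions only. -/

set_option autoImplicit false

open MeasureTheory

namespace H31.BE

noncomputable section

/-- number of seam vertices of the factor `i` -/
def cs {G I : Type} [Group G] [DecidableEq G] (S F : I → Finset G) (t : I → ℕ) (i : I) : ℕ :=
  t i * ((F i).filter (fun f => ∃ s ∈ S i, s * f ∉ F i)).card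

/-- everything that is used of the random model and of the decoding -/
structure Mdl {G I Λ Y : Type} [Group G] [DecidableEq G] [Fintype I] [MeasurableSpace Y] [MulAction G Y]
    [Finite Λ] {S : I → Finset G} (L : Lab S Λ) (N R : ℕ) {J : Type} (wd : J → List (Gn S))
    (wR : ↥(ball S R) → List (Gn S)) (K : ℕ) (P : Measure Y) (lb : Y → Λ)
    (F : I → Finset G) (n : ℕ) (t : I → ℕ)
    {Ω : Type} [Fintype Ω] [MeasurableSpace Ω] (Q : Measure Ω)
    (z : Ω → Fin n → Ty S R Λ) (om : Ω → ∀ i, Fin (t i) → F i → Ty S R Λ)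
    (π : Ω → ∀ i, Fin n ≃ Fin (t i) × F i) (sg : Ω → Gn S → Fin n → Option (Fin n))
    (BB : Ω → Set (Fin n)) : Prop where
  e0 : ∑ i, ((t i : ℝ) * ent P (win (win lb (ball S R)) (F i)) + Real.log n.factorial) -
      ((Fintype.card I : ℝ) - 1) * (n * ent P (win lb (ball S R))) ≤ ent Q (fun ω => (z ω, om ω, π ω))
  law : ∀ v x, Q.real {ω | z ω v = x} = P.real ((win lb (ball S R)) ⁻¹' {x})
  un : ∀ i, ∫ ω, ((unm (z ω) (om ω) (π ω) i).ncard : ℝ) ∂Q ≤
      Nat.card (Ty S R Λ) * (Real.sqrt n + n / Real.sqrt (t i))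
  bb : ∫ ω, ((BB ω).ncard : ℝ) ∂Q ≤
      K * ∑ i, ((∫ ω, ((unm (z ω) (om ω) (π ω) i).ncard : ℝ) ∂Q) + cs S F t i)
  ok : ∀ᵐ ω ∂Q, ∀ v, v ∉ BB ω → DetOK L N R wd wR (z ω) (π ω) (sg ω) v

end

end H31.BE
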