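import Pool.Agent.H31.BE.ModDefs

/-! # PiFin : number of tilings with given steps, finite factor  (paper 4.7; module PiFin, ~110 lines)
F = H (a elements), S generates H. Let π0 be one element of the set, v_k := π0.symm (k, 1). For π in the set put σ k := (π v_k).1,
h k := (π v_k).2. If SP1 F π s v = SP1 F π0 s v for all s ∈ S, v (always some: F = H), then with π0 v = (k, f): π v = (σ k, f * h k)
[induction over f as a product of elements of S; H is finite, so S generates it as a monoid: or use `Subgroup.closure_induction` and both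
directions of a step: u = SP1 s v iff π0 u = (k, s f)]. So π is determined by (σ, h), and σ is injective, as π is
(σ k = σ k' = l: then π maps both blocks, of a points each, into the block l of a points): σ : Fin t ≃ Fin t. Number <= t! * a^t.
`pi_fin_exp`: kap H n = log (t!) + t log a, n / a = t.
`kap_le`: t! a^t <= (t a)!, induction on t: (t a + a)! >= (t a)! * (t a + a). -/

set_option autoImplicit false

namespace H31.BE

variable {G : Type} [Group G] [DecidableEq G]

/-- `u` is the `g`-translate of `v` inside the tile -/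
private def pfR (F : Finset G) {n t : ℕ} (π : Fin n ≃ Fin t × F) (g : G) (v u : Fin n) : Prop :=
  (π u).1 = (π v).1 ∧ ((π u).2 : G) = g * (π v).2

private theorem pfR_iff (F : Finset G) {n t : ℕ} (π : Fin n ≃ Fin t × F) (s : G) (v u : Fin n) :
    pfR F π s v u ↔ SP1 F π s v = some u := by
  unfold pfR SP1
  constructor
  · rintro ⟨h1, h2⟩
    have h3 : s * ((π v).2 : G) ∈ F := by rw [← h2]; exact (π u).2.2
    rw [dif_pos h3, Option.some_inj, Equiv.symm_apply_eq]
    refine Prod.ext h1.symm (Subtype.ext h2.symm)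
  · intro h
    split_ifs at h with h3
    rw [Option.some_inj, Equiv.symm_apply_eq] at h
    constructor
    · rw [← h]
    · rw [← h]

private theorem pfR_ext {H : Subgroup G} {S F : Finset G} (hS : Subgroup.closure (S : Set G) = H)
    (hF : ∀ g, g ∈ F ↔ g ∈ H) {n t : ℕ} (π π0 : Fin n ≃ Fin t × F)
    (h : ∀ (s : S) (v : Fin n), SP1 F π s v = SP1 F π0 s v) (g : G) (hg : g ∈ H) :
    ∀ v u, pfR F π0 g v u → pfR F π g v u := by
  rw [← hS] at hg
  induction hg using Subgroup.closure_induction with
  | mem s hs =>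
    intro v u hu
    rw [pfR_iff] at hu ⊢
    rw [← hu]
    exact h ⟨s, hs⟩ v
  | one =>
    intro v u hu
    have : u = v := by
      apply π0.injective
      exact Prod.ext hu.1 (Subtype.ext (by rw [hu.2, one_mul]))
    subst this
    exact ⟨rfl, by rw [one_mul]⟩
  | mul a b ha hb iha ihb =>
    intro v u hu
    rw [hS] at ha hb
    have hm : b * ((π0 v).2 : G) ∈ F := (hF _).2 (H.mul_mem hb ((hF _).1 (π0 v).2.2))
    set w := π0.symm ((π0 v).1, ⟨b * ((π0 v).2 : G), hm⟩) with hw
    have h1 : pfR F π0 b v w := by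
      constructor
      · rw [hw, Equiv.apply_symm_apply]
      · rw [hw, Equiv.apply_symm_apply]
    have h2 : pfR F π0 a w u := by
      constructor
      · rw [hu.1, h1.1]
      · rw [hu.2, h1.2, mul_assoc]
    have h3 := ihb v w h1
    have h4 := iha w u h2
    exact ⟨by rw [h4.1, h3.1], by rw [h4.2, h3.2, mul_assoc]⟩
  | inv a ha iha =>
    intro v u hu
    have h1 : pfR F π0 a u v := ⟨hu.1.symm, by rw [hu.2, mul_inv_cancel_left]⟩
    have h2 := iha u v h1
    exact ⟨h2.1.symm, by rw [h2.2, inv_mul_cancel_left]⟩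

private theorem ncard_injective (t : ℕ) :
    {σ : Fin t → Fin t | Function.Injective σ}.ncard = t.factorial := by
  rw [← Nat.card_coe_set_eq]
  have e : {σ : Fin t → Fin t // Function.Injective σ} ≃ (Fin t ↪ Fin t) :=
    Equiv.subtypeInjectiveEquivEmbedding _ _
  have h1 : Nat.card {σ : Fin t → Fin t // Function.Injective σ} = Nat.card (Fin t ↪ Fin t) :=
    Nat.card_congr e
  have h2 : Nat.card (Fin t ↪ Fin t) = t.factorial := by
    rw [Nat.card_eq_fintype_card, Fintype.card_embedding_eq, Fintype.card_fin, Nat.descFactorial_self]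
  rw [← h2, ← h1]
  rfl

theorem pi_fin (H : Subgroup G) (S F : Finset G) (hS : Subgroup.closure (S : Set G) = H)
    (hF : ∀ g, g ∈ F ↔ g ∈ H) (n t : ℕ) (sp0 : S → Fin n → Option (Fin n)) :
    {π : Fin n ≃ Fin t × F | (fun (s : S) v => SP1 F π s v) = sp0}.ncard ≤ t.factorial * F.card ^ t := by
  classical
  rcases Set.eq_empty_or_nonempty {π : Fin n ≃ Fin t × F | (fun (s : S) v => SP1 F π s v) = sp0}
    with he | ⟨π0, h0⟩
  · rw [he, Set.ncard_empty]
    exact Nat.zero_le _
  have h1F : (1 : G) ∈ F := (hF 1).2 H.one_mem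
  let Φ : (Fin n ≃ Fin t × F) → (Fin t → Fin t) × (Fin t → F) := fun π =>
    (fun k => (π (π0.symm (k, ⟨1, h1F⟩))).1, fun k => (π (π0.symm (k, ⟨1, h1F⟩))).2)
  have key : ∀ π ∈ {π : Fin n ≃ Fin t × F | (fun (s : S) v => SP1 F π s v) = sp0},
      ∀ (k : Fin t) (f : F), (π (π0.symm (k, f))).1 = (Φ π).1 k ∧
        ((π (π0.symm (k, f))).2 : G) = f * (Φ π).2 k := by
    intro π hπ k f
    have hSP : ∀ (s : S) (v : Fin n), SP1 F π s v = SP1 F π0 s v := by
      intro s v
      have hπ' : (fun (s : S) v => SP1 F π s v) = sp0 := hπ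
      have h0' : (fun (s : S) v => SP1 F π0 s v) = sp0 := h0
      have h1 := congrFun (congrFun hπ' s) v
      have h2 := congrFun (congrFun h0' s) v
      exact h1.trans h2.symm
    have h3 : pfR F π0 f (π0.symm (k, ⟨1, h1F⟩)) (π0.symm (k, f)) := by
      constructor
      · rw [Equiv.apply_symm_apply, Equiv.apply_symm_apply]
      · rw [Equiv.apply_symm_apply, Equiv.apply_symm_apply, mul_one]
    exact pfR_ext hS hF π π0 hSP f ((hF _).1 f.2) _ _ h3
  have hT : ({σ : Fin t → Fin t | Function.Injective σ} ×ˢ (Set.univ : Set (Fin t → F))).ncard =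
      t.factorial * F.card ^ t := by
    rw [Set.ncard_prod, ncard_injective, Set.ncard_univ, Nat.card_fun]
    simp
  rw [← hT]
  refine Set.ncard_le_ncard_of_injOn Φ ?_ ?_ (Set.toFinite _)
  · intro π hπ
    refine ⟨?_, Set.mem_univ _⟩
    intro k k' hkk
    have hm : ((Φ π).2 k' : G) * ((Φ π).2 k : G)⁻¹ ∈ F :=
      (hF _).2 (H.mul_mem ((hF _).1 ((Φ π).2 k').2) (H.inv_mem ((hF _).1 ((Φ π).2 k).2)))
    have h1 := key π hπ k ⟨_, hm⟩
    have h2 := key π hπ k' ⟨1, h1F⟩
    have h3 : π (π0.symm (k, ⟨_, hm⟩)) = π (π0.symm (k', ⟨1, h1F⟩)) := by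
      refine Prod.ext ?_ (Subtype.ext ?_)
      · rw [h1.1, h2.1]
        exact hkk
      · exact h1.2.trans ((inv_mul_cancel_right _ _).trans ((one_mul _).symm.trans h2.2.symm))
    have h4 := π0.symm.injective (π.injective h3)
    exact (Prod.ext_iff.1 h4).1
  · intro π hπ π' hπ' hΦ
    ext1 v
    obtain ⟨⟨k, f⟩, rfl⟩ := π0.symm.surjective v
    have h1 := key π hπ k f
    have h2 := key π' hπ' k f
    rw [← hΦ] at h2
    exact Prod.ext (h1.1.trans h2.1.symm) (Subtype.ext (h1.2.trans h2.2.symm))

theorem pi_fin_exp (H : Subgroup G) [Finite H] (S F : Finset G) (hS : Subgroup.closure (S : Set G) = H)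
    (hF : ∀ g, g ∈ F ↔ g ∈ H) (n t : ℕ) (hn : t * F.card = n) (sp0 : S → Fin n → Option (Fin n)) :
    ({π : Fin n ≃ Fin t × F | (fun (s : S) v => SP1 F π s v) = sp0}.ncard : ℝ) ≤ Real.exp (kap H n) := by
  have hc : Nat.card H = F.card := by
    have e : H ≃ F := Equiv.subtypeEquivRight fun g => (hF g).symm
    rw [Nat.card_congr e, Nat.card_eq_fintype_card, Fintype.card_coe]
  have hpos : 0 < F.card := by rw [← hc]; exact Nat.card_pos
  have hdiv : n / Nat.card H = t := by
    rw [hc, ← hn, Nat.mul_div_cancel _ hpos]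
  have hk : kap H n = Real.log ((t.factorial * F.card ^ t : ℕ) : ℝ) := by
    unfold kap
    rw [if_pos (inferInstance : Finite H), hdiv, hc]
    push_cast
    rw [Real.log_mul (by positivity) (by positivity), Real.log_pow]
  rw [hk, Real.exp_log (by positivity)]
  exact_mod_cast pi_fin H S F hS hF n t sp0

private theorem fact_pow_le (a : ℕ) (ha : 1 ≤ a) (t : ℕ) : t.factorial * a ^ t ≤ (t * a).factorial := by
  induction t with
  | zero => simp
  | succ t ih =>
    have h1 : (t + 1) * a = ((t + 1) * a - 1) + 1 := by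
      have : 1 ≤ (t + 1) * a := Nat.mul_pos (Nat.succ_pos _) ha
      omega
    have h2 : t * a ≤ (t + 1) * a - 1 := by
      rw [Nat.add_mul]
      omega
    calc (t + 1).factorial * a ^ (t + 1) = ((t + 1) * a) * (t.factorial * a ^ t) := by
          rw [Nat.factorial_succ, pow_succ]; ring
      _ ≤ ((t + 1) * a) * ((t + 1) * a - 1).factorial :=
          Nat.mul_le_mul_left _ (ih.trans (Nat.factorial_le h2))
      _ = ((t + 1) * a).factorial := by
          conv_rhs => rw [h1, Nat.factorial_succ, ← h1]

omit [DecidableEq G] in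
theorem kap_le (H : Subgroup G) (n : ℕ) (h : Finite H → Nat.card H ∣ n) : kap H n ≤ Real.log n.factorial := by
  classical
  unfold kap
  split_ifs with hfin
  · obtain ⟨t, ht⟩ := h hfin
    have hpos : 0 < Nat.card H := Nat.card_pos
    have hdiv : n / Nat.card H = t := by
      rw [ht, Nat.mul_div_cancel_left _ hpos]
    rw [hdiv]
    have h1 := fact_pow_le (Nat.card H) hpos t
    have h2 : Real.log ((t.factorial * Nat.card H ^ t : ℕ) : ℝ) =
        Real.log t.factorial + (t : ℕ) * Real.log (Nat.card H) := by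
      push_cast
      rw [Real.log_mul (by positivity) (by positivity), Real.log_pow]
    rw [← h2]
    apply Real.log_le_log
    · positivity
    · have h3 : t * Nat.card H = n := by rw [ht, mul_comm]
      rw [h3] at h1
      exact_mod_cast h1
  · apply Real.log_nonneg
    exact_mod_cast Nat.succ_le_of_lt (Nat.factorial_pos n)

omit [DecidableEq G] in
theorem kap_nonneg (H : Subgroup G) (n : ℕ) : 0 ≤ kap H n := by
  classical
  unfold kap
  split_ifs with hfin
  · have hpos : 0 < Nat.card H := Nat.card_pos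
    have h1 : 0 ≤ Real.log ((n / Nat.card H).factorial) := by
      apply Real.log_nonneg
      exact_mod_cast Nat.succ_le_of_lt (Nat.factorial_pos _)
    have h2 : 0 ≤ Real.log (Nat.card H) := by
      apply Real.log_nonneg
      exact_mod_cast hpos
    positivity
  · exact le_refl 0

end H31.BE
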