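import Pool.Agent.H31.BE.ModDefs

/-! # PiInf : number of tilings with given steps, infinite factor  (paper 4.7; module PiInf, ~110 lines)
If the set is empty nothing is to prove; let π0 be in it, Z := {v | ∃ s, sp0 s v = none} = {v | ∃ s ∈ S, s * (π0 v).2 ∉ F},
Z.ncard = t * (F.filter ..).card (via π0). Claim: π in the set is determined by its restriction to Z (n^|Z| possibilities, as Fin t × F has n
elements). Let π, π' be in the set, equal on Z, v a vertex. Let A := set of vertices reachable from v by steps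
(`Relation.ReflTransGen (fun x y => ∃ s, sp0 s x = some y)`). If A ∩ Z = ∅: with π0 v = (k, f), the set E of all g ∈ F with
π0.symm (k, g) ∈ A is finite, nonempty and s E ⊆ E for all s ∈ S, so s E = E, s⁻¹ E = E, so g E ⊆ E for all g in the closure of S
(`Subgroup.closure_induction`), which is infinite; but g ↦ g * f is injective into E: contradiction. So some u ∈ A ∩ Z, π u = π' u. Go back
along the steps: if sp0 s x = some y and π y = π' y then π x = π' x, because π y = ((π x).1, s * (π x).2). Hence π v = π' v. -/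

set_option autoImplicit false

namespace H31.BE

variable {G : Type} [Group G] [DecidableEq G]

private theorem pi_inf_core (H : Subgroup G) [Infinite H] (S F : Finset G)
    (hS : Subgroup.closure (S : Set G) = H)
    (n t : ℕ) (sp0 : S → Fin n → Option (Fin n)) (π0 π π' : Fin n ≃ Fin t × F)
    (h0 : (fun (s : S) v => SP1 F π0 s v) = sp0)
    (h1 : (fun (s : S) v => SP1 F π s v) = sp0)
    (h2 : (fun (s : S) v => SP1 F π' s v) = sp0)
    (hZ : ∀ v, (∃ s ∈ S, s * ((π0 v).2 : G) ∉ F) → π v = π' v) : π = π' := by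
  classical
  have key : ∀ (ρ : Fin n ≃ Fin t × F), (fun (s : S) v => SP1 F ρ s v) = sp0 →
      ∀ (s : S) (x y : Fin n), sp0 s x = some y →
        (ρ y).1 = (ρ x).1 ∧ ((ρ y).2 : G) = s * ((ρ x).2 : G) := by
    intro ρ hρ s x y hxy
    have e : SP1 F ρ s x = some y := by rw [← hxy, ← hρ]
    unfold SP1 at e
    split_ifs at e with h
    rw [Option.some.injEq] at e
    rw [← e, Equiv.apply_symm_apply]
    exact ⟨rfl, rfl⟩
  -- going back along a step
  have back : ∀ (s : S) (x y : Fin n), sp0 s x = some y → π y = π' y → π x = π' x := by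
    intro s x y hxy hy
    obtain ⟨a1, a2⟩ := key π h1 s x y hxy
    obtain ⟨b1, b2⟩ := key π' h2 s x y hxy
    rw [← hy] at b1 b2
    refine Prod.ext (a1.symm.trans b1) (Subtype.ext ?_)
    exact mul_left_cancel (a2.symm.trans b2)
  by_contra hne
  have hv : ∃ v, π v ≠ π' v := by
    by_contra hcon
    push Not at hcon
    exact hne (Equiv.ext hcon)
  obtain ⟨v, hv⟩ := hv
  let k := (π0 v).1
  let f : G := (π0 v).2
  let E : Finset G := F.filter fun g => ∃ h : g ∈ F, π (π0.symm (k, ⟨g, h⟩)) ≠ π' (π0.symm (k, ⟨g, h⟩))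
  have hfE : f ∈ E := by
    rw [Finset.mem_filter]
    refine ⟨(π0 v).2.2, (π0 v).2.2, ?_⟩
    have : π0.symm (k, ⟨f, (π0 v).2.2⟩) = v := by
      rw [Equiv.symm_apply_eq]
    rw [this]
    exact hv
  have hstep : ∀ s ∈ S, ∀ g ∈ E, s * g ∈ E := by
    intro s hs g hg
    rw [Finset.mem_filter] at hg
    obtain ⟨_, hgF, hg2⟩ := hg
    set x := π0.symm (k, ⟨g, hgF⟩) with hx
    have hπx : π0 x = (k, ⟨g, hgF⟩) := by rw [hx, Equiv.apply_symm_apply]
    have hsg : s * g ∈ F := by
      by_contra hcon
      exact hg2 (hZ x ⟨s, hs, by rw [hπx]; exact hcon⟩)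
    have hsp : sp0 ⟨s, hs⟩ x = some (π0.symm (k, ⟨s * g, hsg⟩)) := by
      rw [← h0]
      show SP1 F π0 s x = _
      unfold SP1
      have hh : s * ((π0 x).2 : G) ∈ F := by rw [hπx]; exact hsg
      rw [dif_pos hh]
      congr 1
      rw [EmbeddingLike.apply_eq_iff_eq]
      refine Prod.ext ?_ (Subtype.ext ?_)
      · show (π0 x).1 = k
        rw [hπx]
      · show s * ((π0 x).2 : G) = s * g
        rw [hπx]
    rw [Finset.mem_filter]
    refine ⟨hsg, hsg, ?_⟩
    intro hcon
    exact hg2 (back ⟨s, hs⟩ x _ hsp hcon)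
  have himg : ∀ g ∈ H, E.image (fun x => g * x) = E := by
    intro g hg
    rw [← hS] at hg
    induction hg using Subgroup.closure_induction with
    | mem s hs =>
      refine Finset.eq_of_subset_of_card_le ?_ ?_
      · intro y hy
        rw [Finset.mem_image] at hy
        obtain ⟨x, hx, rfl⟩ := hy
        exact hstep s hs x hx
      · rw [Finset.card_image_of_injective _ (mul_right_injective s)]
    | one => simp
    | mul a b _ _ ha hb =>
      have : E.image (fun x => a * b * x) = (E.image (fun x => b * x)).image (fun x => a * x) := by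
        rw [Finset.image_image]
        congr 1
        funext x
        simp [mul_assoc]
      rw [this, hb, ha]
    | inv a _ ha =>
      conv_lhs => rw [← ha]
      rw [Finset.image_image]
      have : ((fun x => a⁻¹ * x) ∘ fun x => a * x) = id := by
        funext x
        simp
      rw [this, Finset.image_id]
  have hfin : Finite H := by
    refine Finite.of_injective (fun h : H => (⟨(h : G) * f, ?_⟩ : E)) ?_
    · rw [← himg h h.2]
      exact Finset.mem_image_of_mem _ hfE
    · intro a b hab
      have : (a : G) * f = b * f := congrArg Subtype.val hab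
      exact Subtype.ext (mul_right_cancel this)
  exact not_finite H

theorem pi_inf (H : Subgroup G) [Infinite H] (S F : Finset G) (hS : Subgroup.closure (S : Set G) = H)
    (n t : ℕ) (hn : 1 ≤ n) (sp0 : S → Fin n → Option (Fin n)) :
    {π : Fin n ≃ Fin t × F | (fun (s : S) v => SP1 F π s v) = sp0}.ncard ≤
      n ^ (t * (F.filter (fun f => ∃ s ∈ S, s * f ∉ F)).card) := by
  classical
  set X := {π : Fin n ≃ Fin t × F | (fun (s : S) v => SP1 F π s v) = sp0} with hX
  rcases X.eq_empty_or_nonempty with he | ⟨π0, h0⟩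
  · rw [he, Set.ncard_empty]
    exact Nat.zero_le _
  let Z := {v : Fin n // ∃ s ∈ S, s * ((π0 v).2 : G) ∉ F}
  have hcardZ : Nat.card Z = t * (F.filter (fun f => ∃ s ∈ S, s * f ∉ F)).card := by
    have e : Z ≃ Fin t × {f : F // ∃ s ∈ S, s * (f : G) ∉ F} :=
      { toFun := fun v => ((π0 v.1).1, ⟨(π0 v.1).2, v.2⟩)
        invFun := fun q => ⟨π0.symm (q.1, q.2.1), by rw [Equiv.apply_symm_apply]; exact q.2.2⟩
        left_inv := fun v => Subtype.ext (by
          show π0.symm ((π0 v.1).1, (π0 v.1).2) = v.1
          rw [Prod.mk.eta, Equiv.symm_apply_apply])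
        right_inv := fun q => by
          refine Prod.ext ?_ (Subtype.ext ?_)
          · show (π0 (π0.symm (q.1, q.2.1))).1 = q.1
            rw [Equiv.apply_symm_apply]
          · show (π0 (π0.symm (q.1, q.2.1))).2 = q.2.1
            rw [Equiv.apply_symm_apply] }
    have e2 : {f : F // ∃ s ∈ S, s * (f : G) ∉ F} ≃ {f : G // f ∈ F.filter (fun f => ∃ s ∈ S, s * f ∉ F)} :=
      { toFun := fun q => ⟨q.1.1, Finset.mem_filter.2 ⟨q.1.2, q.2⟩⟩
        invFun := fun q => ⟨⟨q.1, (Finset.mem_filter.1 q.2).1⟩, (Finset.mem_filter.1 q.2).2⟩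
        left_inv := fun q => rfl
        right_inv := fun q => rfl }
    rw [Nat.card_congr e, Nat.card_prod, Nat.card_fin, Nat.card_congr e2, Nat.card_eq_fintype_card,
      Fintype.card_coe]
  have hnc : Nat.card (Fin t × F) = n := by
    rw [← Nat.card_congr π0, Nat.card_fin]
  have hfin : Finite (Z → Fin t × F) := inferInstance
  have hle : Nat.card X ≤ Nat.card (Z → Fin t × F) := by
    refine Nat.card_le_card_of_injective (fun π : X => fun z : Z => π.1 z.1) ?_
    intro π π' h
    refine Subtype.ext (pi_inf_core H S F hS n t sp0 π0 π.1 π'.1 h0 π.2 π'.2 ?_)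
    intro v hv
    exact congrFun h ⟨v, hv⟩
  rw [← Nat.card_coe_set_eq]
  refine hle.trans (le_of_eq ?_)
  rw [Nat.card_fun, hnc, hcardZ]

end H31.BE
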