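import Pool.Agent.H31.BE.ModDefs
import Pool.Agent.H31.BE.PiFin
import Pool.Agent.H31.BE.PiInf
import Pool.Agent.H31.BE.EntE

/-! # ChPi : entropy of the tilings given the decoded maps and the types  (paper 4.7; module ChPi, ~160 lines)
c i := t i * #{f ∈ F i | ∃ s ∈ S i, s * f ∉ F i}. sp ω := SP (π ω).
H(om, π|sg,z) <= H(sp|sg,z) + H(π|sp) + H(om|π,z)  (`entc_chain`, `entc_anti`).
 H(sp|sg,z) <= log(n+1) + E|BB| log(n (n+1)^(number of letters))   (`entc_array` for the array v ↦ (s ↦ sp ω s v), W := Gn S → Option (Fin n));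
 H(π|sp) <= ∑ i H(π i|sp) (`entc_pi_le`), H(π i|sp) <= kap (H i) n + c i log n by `entc_le_log_of_count` (or `entc_le_count`) and `pi_fin_exp` if H i is
 finite (then F i = H i, c i = 0), `pi_inf` if it is infinite (kap = 0). In `entc_le_log_of_count` take N := the natural number
 t! * a^t resp. n^(c i);
 H(om|π,z) <= ∑ i H(om i|π i, z), om i is a function of π i and of the array v ↦ om i (π i v), which differs from z at the unmatched
 vertices only: `entc_array`: <= log(n+1) + E|unm i| log(n |X|). -/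

set_option autoImplicit false

open MeasureTheory

namespace H31.BE

private theorem chPi_fm {Ω α : Type} [MeasurableSpace Ω] [DiscreteMeasurableSpace Ω] (f : Ω → α) :
    Fm f := fun _ => MeasurableSet.of_discrete

/-- entropy of one tiling given the step maps -/
private theorem chPi_one {G Ω : Type} [Group G] [DecidableEq G] [Fintype Ω] [MeasurableSpace Ω]
    [DiscreteMeasurableSpace Ω] (Q : Measure Ω) [IsProbabilityMeasure Q]
    (H : Subgroup G) (S F : Finset G) (hS : Subgroup.closure (S : Set G) = H)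
    (hF : Finite H → ∀ g, g ∈ F ↔ g ∈ H) (n : ℕ) (hn1 : 1 ≤ n) (t : ℕ) (hn : t * F.card = n)
    (π : Ω → (Fin n ≃ Fin t × F)) :
    entc Q π (fun ω => fun (s : S) (v : Fin n) => SP1 F (π ω) s v) ≤
      kap H n + (t * (F.filter (fun f => ∃ s ∈ S, s * f ∉ F)).card : ℕ) * Real.log n := by
  have hsub : ∀ b : S → Fin n → Option (Fin n),
      {a | 0 < Q.real (π ⁻¹' {a} ∩ (fun ω => fun (s : S) (v : Fin n) => SP1 F (π ω) s v) ⁻¹' {b})} ⊆
        {π : Fin n ≃ Fin t × F | (fun (s : S) v => SP1 F π s v) = b} := by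
    intro b a ha
    have hne : (π ⁻¹' {a} ∩
        (fun ω => fun (s : S) (v : Fin n) => SP1 F (π ω) s v) ⁻¹' {b}).Nonempty := by
      rw [Set.nonempty_iff_ne_empty]
      intro h0
      have ha' : 0 < Q.real (π ⁻¹' {a} ∩
        (fun ω => fun (s : S) (v : Fin n) => SP1 F (π ω) s v) ⁻¹' {b}) := ha
      rw [h0] at ha'
      simp at ha'
    obtain ⟨ω, h1, h2⟩ := hne
    have h1' : π ω = a := h1
    have h2' : (fun (s : S) (v : Fin n) => SP1 F (π ω) s v) = b := h2
    rw [h1'] at h2'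
    exact h2'
  have hlog : 0 ≤ Real.log n := Real.log_natCast_nonneg n
  by_cases hfin : Finite H
  · have hN1 : 1 ≤ ⌊Real.exp (kap H n)⌋₊ := by
      rw [Nat.one_le_floor_iff]
      exact Real.one_le_exp (kap_nonneg H n)
    have h := entc_le_log_of_count (P := Q) (chPi_fm π)
      (chPi_fm (fun ω => fun (s : S) (v : Fin n) => SP1 F (π ω) s v))
      ⌊Real.exp (kap H n)⌋₊ hN1 (by
        intro b
        refine le_trans (Set.ncard_le_ncard (hsub b) (Set.toFinite _)) ?_
        exact Nat.le_floor (pi_fin_exp H S F hS (hF hfin) n t hn b))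
    have h2 : Real.log (⌊Real.exp (kap H n)⌋₊ : ℝ) ≤ kap H n := by
      have h3 : ((⌊Real.exp (kap H n)⌋₊ : ℕ) : ℝ) ≤ Real.exp (kap H n) :=
        Nat.floor_le (Real.exp_pos _).le
      calc Real.log (⌊Real.exp (kap H n)⌋₊ : ℝ) ≤ Real.log (Real.exp (kap H n)) := by
            apply Real.log_le_log _ h3
            exact_mod_cast hN1
        _ = kap H n := Real.log_exp _
    have h4 : 0 ≤ ((t * (F.filter (fun f => ∃ s ∈ S, s * f ∉ F)).card : ℕ) : ℝ) * Real.log n :=
      mul_nonneg (Nat.cast_nonneg _) hlog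
    linarith
  · have : Infinite H := not_finite_iff_infinite.1 hfin
    have h := entc_le_log_of_count (P := Q) (chPi_fm π)
      (chPi_fm (fun ω => fun (s : S) (v : Fin n) => SP1 F (π ω) s v))
      (n ^ (t * (F.filter (fun f => ∃ s ∈ S, s * f ∉ F)).card)) (Nat.one_le_pow _ _ hn1) (by
        intro b
        refine le_trans (Set.ncard_le_ncard (hsub b) (Set.toFinite _)) ?_
        exact pi_inf H S F hS n t hn1 b)
    have h2 : Real.log ((n ^ (t * (F.filter (fun f => ∃ s ∈ S, s * f ∉ F)).card) : ℕ) : ℝ) =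
        ((t * (F.filter (fun f => ∃ s ∈ S, s * f ∉ F)).card : ℕ) : ℝ) * Real.log n := by
      rw [Nat.cast_pow, Real.log_pow]
    rw [h2] at h
    have h4 := kap_nonneg H n
    linarith

theorem ch_pi {G I Ω X E : Type} [Group G] [DecidableEq G] [Fintype I] [Fintype Ω] [MeasurableSpace Ω]
    [DiscreteMeasurableSpace Ω] (Q : Measure Ω) [IsProbabilityMeasure Q] [Finite X] [Finite E]
    (H : I → Subgroup G) (S F : I → Finset G) (hS : ∀ i, Subgroup.closure (S i : Set G) = H i)
    (hF : ∀ i, Finite (H i) → ∀ g, g ∈ F i ↔ g ∈ H i)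
    (n : ℕ) (hn1 : 1 ≤ n) (t : I → ℕ) (hn : ∀ i, t i * (F i).card = n)
    (z : Ω → Fin n → X) (om : Ω → ∀ i, Fin (t i) → F i → X) (π : Ω → ∀ i, Fin n ≃ Fin (t i) × F i)
    (sg : Ω → E) (Y1 : E → (Fin n → X) → Fin n → Gn S → Option (Fin n)) (BB : Ω → Set (Fin n))
    (h1 : ∀ᵐ ω ∂Q, ∀ v, v ∉ BB ω → ∀ s : Gn S, SP (π ω) s v = Y1 (sg ω) (z ω) v s) :
    entc Q (fun ω => (om ω, π ω)) (fun ω => (sg ω, z ω)) ≤
      Real.log (n + 1) + (∫ ω, ((BB ω).ncard : ℝ) ∂Q) * Real.log (n * (n + 1) ^ (Fintype.card (Gn S))) +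
      ∑ i, (kap (H i) n + (t i * ((F i).filter (fun f => ∃ s ∈ S i, s * f ∉ F i)).card : ℕ) * Real.log n) +
      ∑ i, (Real.log (n + 1) + (∫ ω, ((unm (z ω) (om ω) (π ω) i).ncard : ℝ) ∂Q) * Real.log (n * Nat.card X)) := by
  classical
  have hNe : Nonempty Ω := nonempty_of_isProbabilityMeasure Q
  obtain ⟨ω0⟩ := hNe
  have : Nonempty (Fin n) := ⟨⟨0, hn1⟩⟩
  have : Nonempty X := ⟨z ω0 ⟨0, hn1⟩⟩
  let sp : Ω → Fin n → Gn S → Option (Fin n) := fun ω v s => SP (π ω) s v
  have c1 : entc Q (fun ω => (om ω, π ω)) (fun ω => (sg ω, z ω)) =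
      entc Q π (fun ω => (sg ω, z ω)) + entc Q om (fun ω => (π ω, (sg ω, z ω))) :=
    entc_chain (P := Q) (chPi_fm om) (chPi_fm π) (chPi_fm _)
  have c2 : entc Q π (fun ω => (sg ω, z ω)) ≤ entc Q π sp + entc Q sp (fun ω => (sg ω, z ω)) :=
    entc_triangle (P := Q) (chPi_fm π) (chPi_fm sp) (chPi_fm _)
  have c3 : entc Q om (fun ω => (π ω, (sg ω, z ω))) ≤ entc Q om (fun ω => (π ω, z ω)) :=
    entc_anti (P := Q) (chPi_fm om) (chPi_fm (fun ω => (π ω, (sg ω, z ω))))
      (fun p => (p.1, p.2.2))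
  -- the step maps given the decoded maps
  have c4 : entc Q sp (fun ω => (sg ω, z ω)) ≤
      Real.log (n + 1) + (∫ ω, ((BB ω).ncard : ℝ) ∂Q) *
        Real.log (n * (n + 1) ^ (Fintype.card (Gn S))) := by
    have h := entc_array (P := Q) sp (chPi_fm sp) (fun ω => (sg ω, z ω)) (chPi_fm _)
      (fun b v s => Y1 b.1 b.2 v s) (fun ω => (BB ω).ncard) (chPi_fm _)
      (fun ω => by
        rw [← Set.ncard_univ]
        exact Set.ncard_le_ncard (Set.subset_univ _) (Set.toFinite _))
      (by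
        filter_upwards [h1] with ω hω
        apply Set.ncard_le_ncard _ (Set.toFinite _)
        intro v hv
        by_contra hc
        exact hv (funext fun s => hω v hc s))
    have e1 : (Nat.card (Fin n) : ℝ) = n := by simp
    have e2 : (Nat.card (Gn S → Option (Fin n)) : ℝ) = (n + 1 : ℝ) ^ (Fintype.card (Gn S)) := by
      rw [Nat.card_eq_fintype_card, Fintype.card_fun, Fintype.card_option, Fintype.card_fin]
      push_cast
      rfl
    rw [e1, e2] at h
    exact h
  -- the tilings given the step maps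
  have c5 : entc Q π sp ≤ ∑ i, (kap (H i) n +
      (t i * ((F i).filter (fun f => ∃ s ∈ S i, s * f ∉ F i)).card : ℕ) * Real.log n) := by
    have h := entc_pi_le (P := Q) (f := fun i ω => π ω i) (fun i => chPi_fm _) (chPi_fm sp)
    refine le_trans h (Finset.sum_le_sum fun i _ => ?_)
    refine le_trans (entc_anti (P := Q) (chPi_fm (fun ω => π ω i)) (chPi_fm sp)
      (fun a => fun (s : S i) (v : Fin n) => a v ⟨i, s⟩)) ?_
    exact chPi_one Q (H i) (S i) (F i) (hS i) (hF i) n hn1 (t i) (hn i) (fun ω => π ω i)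
  -- the patterns given the tilings and the types
  have c6 : entc Q om (fun ω => (π ω, z ω)) ≤ ∑ i, (Real.log (n + 1) +
      (∫ ω, ((unm (z ω) (om ω) (π ω) i).ncard : ℝ) ∂Q) * Real.log (n * Nat.card X)) := by
    have h := entc_pi_le (P := Q) (f := fun i ω => om ω i) (fun i => chPi_fm _)
      (chPi_fm (fun ω => (π ω, z ω)))
    refine le_trans h (Finset.sum_le_sum fun i _ => ?_)
    let A : Ω → Fin n → X := fun ω v => om ω i (π ω i v).1 (π ω i v).2
    have d1 := entc_comp_left (P := Q) (chPi_fm (fun ω => (om ω i, A ω)))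
      (chPi_fm (fun ω => (π ω, z ω))) (Prod.fst)
    have d2 := entc_chain (P := Q) (chPi_fm (fun ω => om ω i)) (chPi_fm A)
      (chPi_fm (fun ω => (π ω, z ω)))
    have d3 : entc Q (fun ω => om ω i) (fun ω => (A ω, (π ω, z ω))) = 0 :=
      entc_of_fun (P := Q) (chPi_fm (fun ω => (A ω, (π ω, z ω))))
        (fun p j f => p.1 ((p.2.1 i).symm (j, f))) (Filter.Eventually.of_forall fun ω => by
          funext j f
          simp [A])
    have d4 := entc_array (P := Q) A (chPi_fm A) (fun ω => (π ω, z ω)) (chPi_fm _)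
      (fun b v => b.2 v) (fun ω => (unm (z ω) (om ω) (π ω) i).ncard) (chPi_fm _)
      (fun ω => by
        rw [← Set.ncard_univ]
        exact Set.ncard_le_ncard (Set.subset_univ _) (Set.toFinite _))
      (Filter.Eventually.of_forall fun ω => le_refl _)
    have e1 : (Nat.card (Fin n) : ℝ) = n := by simp
    rw [e1] at d4
    simp only at d1
    linarith
  linarith

end H31.BE
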