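import Pool.Agent.H31.BE.EntB

/-! # EntC : calculus of conditional entropy  (module EntC, ~150 lines)
Everything follows from `ent_comp_le` (in both directions: relabelling by an injective map does not change `ent`)
and `ent_submod`.
* `ent_inj`: φ injective => H(φ∘f) = H(f)  (two applications of `ent_comp_le`, left inverse of φ on its range; for
  α empty trivial since then Ω is empty).
* `entc_nonneg`, `entc_comp_left`: H(φ∘f|g) <= H(f|g); `entc_of_fun`: H(φ∘g|g) = 0;
* `entc_anti`: H(f|g') <= H(f|φ∘g') ... i.e. conditioning on more decreases: H(f|g) <= H(f|φ∘g).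
  (submod with h := φ∘g: H(f,g,φg)+H(φg) <= H(f,φg)+H(g,φg), and (f,g,φg) ~ (f,g), (g,φg) ~ g.)
* `entc_le_ent`, `entc_chain`: H((f,g)|h) = H(g|h) + H(f|(g,h)); `entc_triangle`: H(f|h) <= H(f|g) + H(g|h).
* `entc_pi_le`: for a finite family, H((f_i)_i | g) <= sum_i H(f_i|g). Induction over a Finset of indices (state it for
  `fun ω (i : s) => f i ω`, or use `Fintype.induction_empty_option`); `ent_pi_le` = the case g constant. -/

set_option autoImplicit false

open MeasureTheory

namespace H31.BE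

variable {Ω α β γ δ : Type} [MeasurableSpace Ω] {P : Measure Ω} [IsProbabilityMeasure P]
  [Finite α] [Finite β] [Finite γ] [Finite δ]

omit [Finite α] [Finite β] [Finite γ] [Finite δ] in
lemma entC_nonempty (f : Ω → α) (P : Measure Ω) [IsProbabilityMeasure P] : Nonempty α := by
  obtain ⟨ω⟩ : Nonempty Ω := nonempty_of_isProbabilityMeasure P
  exact ⟨f ω⟩

theorem ent_inj {f : Ω → α} (hf : Fm f) (φ : α → β) (hφ : Function.Injective φ) :
    ent P (fun ω => φ (f ω)) = ent P f := by
  haveI : Nonempty α := entC_nonempty f P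
  apply le_antisymm
  · exact ent_comp_le hf φ
  · have h := ent_comp_le (P := P) (hf.comp φ) (Function.invFun φ)
    have e : (fun ω => Function.invFun φ (φ (f ω))) = f := by
      funext ω
      exact Function.leftInverse_invFun hφ (f ω)
    rwa [e] at h

/-- two functions that determine each other -/
theorem ent_eq_of_determine {f : Ω → α} {g : Ω → β} (hf : Fm f) (hg : Fm g)
    (φ : α → β) (ψ : β → α) (h1 : ∀ᵐ ω ∂P, φ (f ω) = g ω) (h2 : ∀ᵐ ω ∂P, ψ (g ω) = f ω) :
    ent P f = ent P g := by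
  apply le_antisymm
  · rw [← ent_congr_ae h2]
    exact ent_comp_le hg ψ
  · rw [← ent_congr_ae h1]
    exact ent_comp_le hf φ

theorem entc_nonneg {f : Ω → α} {g : Ω → β} (hf : Fm f) (hg : Fm g) : 0 ≤ entc P f g := by
  have h := ent_comp_le (P := P) (hf.prodMk hg) (Prod.snd : α × β → β)
  unfold entc
  simp only at h
  linarith

theorem entC_unit {f : Ω → α} (hf : Fm f) : ent P (fun ω => (f ω, ())) = ent P f :=
  ent_inj (P := P) hf (fun a : α => (a, ())) (fun a b h => (Prod.mk.inj h).1)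

theorem entc_le_ent {f : Ω → α} {g : Ω → β} (hf : Fm f) (hg : Fm g) : entc P f g ≤ ent P f := by
  have h := ent_submod (P := P) hf hg (Fm.const (Ω := Ω) ())
  have e1 : ent P (fun ω => (f ω, g ω, ())) = ent P (fun ω => (f ω, g ω)) :=
    ent_inj (P := P) (hf.prodMk hg) (fun p : α × β => (p.1, p.2, ())) (by
      rintro ⟨a, b⟩ ⟨a', b'⟩ h
      simpa using h)
  have e2 : ent P (fun _ : Ω => ()) = 0 := ent_const ()
  rw [e1, e2, entC_unit hf, entC_unit hg] at h
  unfold entc
  linarith

theorem entc_congr_ae {f f' : Ω → α} {g g' : Ω → β} (h : ∀ᵐ ω ∂P, f ω = f' ω)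
    (h' : ∀ᵐ ω ∂P, g ω = g' ω) : entc P f g = entc P f' g' := by
  unfold entc
  rw [ent_congr_ae (P := P) h']
  rw [ent_congr_ae (P := P) (f := fun ω => (f ω, g ω)) (g := fun ω => (f' ω, g' ω))]
  filter_upwards [h, h'] with ω h1 h2
  rw [h1, h2]

theorem entc_of_fun {f : Ω → α} {g : Ω → β} (hg : Fm g) (φ : β → α) (h : ∀ᵐ ω ∂P, f ω = φ (g ω)) :
    entc P f g = 0 := by
  rw [entc_congr_ae (P := P) h (Filter.Eventually.of_forall fun _ => rfl)]
  unfold entc
  have := ent_inj (P := P) hg (fun b : β => (φ b, b)) (fun a b h => (Prod.mk.inj h).2)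
  linarith

theorem entc_comp_left {f : Ω → α} {g : Ω → β} (hf : Fm f) (hg : Fm g) (φ : α → γ) :
    entc P (fun ω => φ (f ω)) g ≤ entc P f g := by
  have h := ent_comp_le (P := P) (hf.prodMk hg) (fun p : α × β => (φ p.1, p.2))
  unfold entc
  simp only at h
  linarith

theorem entc_anti {f : Ω → α} {g : Ω → β} (hf : Fm f) (hg : Fm g) (φ : β → γ) :
    entc P f g ≤ entc P f (fun ω => φ (g ω)) := by
  have h := ent_submod (P := P) hf hg (hg.comp φ)
  have e1 : ent P (fun ω => (f ω, g ω, φ (g ω))) = ent P (fun ω => (f ω, g ω)) :=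
    ent_inj (P := P) (hf.prodMk hg) (fun p : α × β => (p.1, p.2, φ p.2)) (by
      rintro ⟨a, b⟩ ⟨a', b'⟩ h
      simp only [Prod.mk.injEq] at h
      exact Prod.ext h.1 h.2.1)
  have e2 : ent P (fun ω => (g ω, φ (g ω))) = ent P g :=
    ent_inj (P := P) hg (fun b : β => (b, φ b)) (fun a b h => (Prod.mk.inj h).1)
  rw [e1, e2] at h
  unfold entc
  linarith

theorem entc_chain {f : Ω → α} {g : Ω → β} {h : Ω → γ} (hf : Fm f) (hg : Fm g) (hh : Fm h) :
    entc P (fun ω => (f ω, g ω)) h = entc P g h + entc P f (fun ω => (g ω, h ω)) := by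
  have e : ent P (fun ω => (f ω, (g ω, h ω))) = ent P (fun ω => ((f ω, g ω), h ω)) :=
    ent_inj (P := P) ((hf.prodMk hg).prodMk hh)
      (fun p : (α × β) × γ => (p.1.1, (p.1.2, p.2))) (by
      rintro ⟨⟨a, b⟩, c⟩ ⟨⟨a', b'⟩, c'⟩ h
      simp only [Prod.mk.injEq] at h ⊢
      exact ⟨⟨h.1, h.2.1⟩, h.2.2⟩)
  unfold entc
  rw [e]
  ring

theorem entc_triangle {f : Ω → α} {g : Ω → β} {h : Ω → γ} (hf : Fm f) (hg : Fm g) (hh : Fm h) :
    entc P f h ≤ entc P f g + entc P g h := by
  have h1 := entc_comp_left (P := P) (hf.prodMk hg) hh (Prod.fst : α × β → α)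
  have h2 := entc_chain (P := P) hf hg hh
  have h3 := entc_anti (P := P) hf (hg.prodMk hh) (Prod.fst : β × γ → β)
  simp only at h1 h3
  linarith

theorem entC_finset {ι : Type} [Fintype ι] {κ : ι → Type} [∀ i, Finite (κ i)]
    {f : ∀ i, Ω → κ i} (hf : ∀ i, Fm (f i)) {g : Ω → β} (hg : Fm g) (s : Finset ι) :
    entc P (fun ω => fun i : s => f i ω) g ≤ ∑ i ∈ s, entc P (f i) g := by
  classical
  induction s using Finset.induction_on with
  | empty =>
    rw [Finset.sum_empty]
    apply le_of_eq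
    refine entc_of_fun hg (fun _ => fun i => absurd i.2 (Finset.notMem_empty _))
      (Filter.Eventually.of_forall fun ω => ?_)
    funext i
    exact absurd i.2 (Finset.notMem_empty _)
  | insert a s ha ih =>
    rw [Finset.sum_insert ha]
    have hs : Fm (fun ω => fun i : s => f i ω) :=
      Fm.pi (f := fun (i : s) ω => f i ω) (fun i => hf i)
    have hp : Fm (fun ω => (f a ω, fun i : s => f i ω)) := (hf a).prodMk hs
    haveI : Nonempty ((i : ↥(insert a s)) → κ i) :=
      entC_nonempty (fun ω => fun i : ↥(insert a s) => f i ω) P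
    obtain ⟨φ, hφ⟩ : ∃ φ : (κ a × ((i : ↥s) → κ i)) → ((i : ↥(insert a s)) → κ i),
        (fun ω => fun i : ↥(insert a s) => f i ω) =
          φ ∘ (fun ω => (f a ω, fun i : s => f i ω)) := by
      rw [← Function.factorsThrough_iff]
      intro ω ω' hω
      simp only [Prod.mk.injEq] at hω
      funext i
      rcases Finset.mem_insert.1 i.2 with h | h
      · obtain ⟨i, hi⟩ := i
        simp only at h
        subst h
        exact hω.1
      · exact congrFun hω.2 ⟨i, h⟩
    rw [hφ]
    have h1 := entc_comp_left (P := P) hp hg φ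
    have h2 := entc_chain (P := P) (hf a) hs hg
    have h3 := entc_anti (P := P) (hf a) (hs.prodMk hg)
      (Prod.snd : ((i : ↥s) → κ i) × β → β)
    simp only at h3
    have h4 : entc P (φ ∘ (fun ω => (f a ω, fun i : s => f i ω))) g ≤
        entc P (fun ω => (f a ω, fun i : s => f i ω)) g := h1
    linarith

theorem entc_pi_le {ι : Type} [Fintype ι] {κ : ι → Type} [∀ i, Finite (κ i)] {f : ∀ i, Ω → κ i}
    (hf : ∀ i, Fm (f i)) {g : Ω → β} (hg : Fm g) :
    entc P (fun ω => fun i => f i ω) g ≤ ∑ i, entc P (f i) g := by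
  classical
  refine le_trans ?_ (entC_finset (P := P) hf hg Finset.univ)
  have hs : Fm (fun ω => fun i : (Finset.univ : Finset ι) => f i ω) :=
    Fm.pi (f := fun (i : (Finset.univ : Finset ι)) ω => f i ω) (fun i => hf i)
  exact entc_comp_left (P := P) hs hg
    (fun (x : (i : (Finset.univ : Finset ι)) → κ i) => fun i => x ⟨i, Finset.mem_univ i⟩)

theorem ent_pi_le {ι : Type} [Fintype ι] {κ : ι → Type} [∀ i, Finite (κ i)] {f : ∀ i, Ω → κ i}
    (hf : ∀ i, Fm (f i)) :
    ent P (fun ω => fun i => f i ω) ≤ ∑ i, ent P (f i) := by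
  have h := entc_pi_le (P := P) hf (Fm.const (Ω := Ω) ())
  have key : ∀ {α : Type} [Finite α] (f : Ω → α), Fm f →
      entc P f (fun _ : Ω => ()) = ent P f := by
    intro α _ f hf
    unfold entc
    rw [entC_unit hf, ent_const]
    ring
  rw [key _ (Fm.pi hf)] at h
  refine h.trans (le_of_eq ?_)
  exact Finset.sum_congr rfl fun i _ => key _ (hf i)

end H31.BE
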