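import Pool.Agent.H31.BE.EntC

/-! # EntD : counting bounds  (module EntD, ~150 lines)
* `ent_le_log_card`: Jensen, or Gibbs: sum p log(1/p) <= log N from log(1/(N p)) <= 1/(N p) - 1.
* `entc_le_count`: if for every b the number of a with P(f=a, g=b) > 0 is at most N b (N b >= 1), then
  H(f|g) <= sum_b P(g=b) log (N b). Proof: H(f|g) = sum_b [ sum_a nml(p a b) - nml(q b) ], q b = sum_a p a b; for fixed b
  (q b > 0) sum over the at most N b indices with p a b > 0 of p log (q/p) <= q log N by log t <= t - 1 with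
  t = q/(N p):  p log(q/(Np)) <= q/N - p, summed <= 0.
* `entc_sparse`: with bb : Ω → ℕ, bb <= n, and #{a : P(f=a, g=b, bb=j) > 0} <= M^j:
  H(f|g) <= H((f,bb)|g) = H(bb|g) + H(f|(bb,g)) <= log(n+1) + sum_j P(bb=j) j log M = log(n+1) + (∫ bb) log M.
  (bb as a function into Fin (n+1) is finite valued; the integral of a bounded natural valued measurable function is the
  finite sum of j * P(bb=j).) -/

set_option autoImplicit false

open MeasureTheory

namespace H31.BE

variable {Ω α β : Type} [MeasurableSpace Ω] {P : Measure Ω} [IsProbabilityMeasure P]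
  [Finite α] [Finite β]

private theorem entd_fin {α : Type} [Fintype α] (p : α → ℝ) (hp : ∀ a, 0 ≤ p a) (N : ℕ) (hN : 1 ≤ N)
    (h : {a | 0 < p a}.ncard ≤ N) :
    ∑ a, Real.negMulLog (p a) ≤ Real.negMulLog (∑ a, p a) + (∑ a, p a) * Real.log N := by
  classical
  have hN' : (0 : ℝ) < N := by exact_mod_cast hN
  rcases eq_or_lt_of_le (Finset.sum_nonneg fun a (_ : a ∈ Finset.univ) => hp a) with h0 | h0
  · have h1 : ∀ a, p a = 0 := by
      intro a
      exact (Finset.sum_eq_zero_iff_of_nonneg (fun a _ => hp a)).1 h0.symm a (Finset.mem_univ a)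
    simp [h1]
  · set q := ∑ a, p a with hq
    have h1 : ∀ a, Real.negMulLog (p a) + p a * Real.log q - p a * Real.log N ≤
        (if 0 < p a then q / N else 0) - p a := by
      intro a
      by_cases ha : 0 < p a
      · rw [if_pos ha]
        have h2 : Real.log (q / (p a * N)) ≤ q / (p a * N) - 1 :=
          Real.log_le_sub_one_of_pos (by positivity)
        rw [Real.log_div h0.ne' (by positivity), Real.log_mul ha.ne' hN'.ne'] at h2
        have h3 := mul_le_mul_of_nonneg_left h2 ha.le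
        have h4 : p a * (q / (p a * N) - 1) = q / N - p a := by
          field_simp
        rw [h4] at h3
        unfold Real.negMulLog
        nlinarith [h3]
      · have h2 : p a = 0 := le_antisymm (not_lt.1 ha) (hp a)
        simp [h2]
    have h2 := Finset.sum_le_sum fun a (_ : a ∈ Finset.univ) => h1 a
    rw [Finset.sum_sub_distrib, Finset.sum_add_distrib, Finset.sum_sub_distrib, ← Finset.sum_mul,
      ← Finset.sum_mul, ← hq, ← Finset.sum_filter, Finset.sum_const, nsmul_eq_mul] at h2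
    have h3 : ((Finset.univ.filter fun a => 0 < p a).card : ℝ) ≤ N := by
      have : (Finset.univ.filter fun a => 0 < p a).card = {a | 0 < p a}.ncard := by
        rw [← Set.ncard_coe_finset]
        congr 1
        ext a
        simp
      rw [this]
      exact_mod_cast h
    have h4 : ((Finset.univ.filter fun a => 0 < p a).card : ℝ) * (q / N) ≤ q := by
      calc _ ≤ (N : ℝ) * (q / N) := by gcongr
        _ = q := by field_simp
    unfold Real.negMulLog at h2 ⊢
    linarith

private theorem entd_integral {g : Ω → β} (hg : Fm g) (φ : β → ℝ) :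
    ∫ ω, φ (g ω) ∂P = @Finset.sum β ℝ _ (@Finset.univ β (Fintype.ofFinite β))
      fun b => P.real (g ⁻¹' {b}) * φ b := by
  classical
  letI := Fintype.ofFinite β
  have h1 : ∀ ω, φ (g ω) = ∑ b, (g ⁻¹' {b}).indicator (fun _ => φ b) ω := by
    intro ω
    rw [Finset.sum_eq_single (g ω)]
    · simp
    · intro b _ hb
      exact Set.indicator_of_notMem (fun h => hb h.symm) _
    · intro h
      exact absurd (Finset.mem_univ _) h
  simp_rw [h1]
  rw [integral_finset_sum]
  · refine Finset.sum_congr rfl fun b _ => ?_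
    rw [integral_indicator_const _ (hg b), smul_eq_mul]
  · intro b _
    exact (integrable_const (φ b)).indicator (hg b)

private theorem entd_sum {f : Ω → α} {g : Ω → β} (hf : Fm f) (hg : Fm g) (b : β) :
    P.real (g ⁻¹' {b}) = @Finset.sum α ℝ _ (@Finset.univ α (Fintype.ofFinite α))
      fun a => P.real ((fun ω => (f ω, g ω)) ⁻¹' {(a, b)}) := by
  classical
  letI := Fintype.ofFinite α
  rw [← measureReal_biUnion_finset]
  · congr 1
    ext ω
    simp
  · intro a _ a' _ haa
    rw [Function.onFun, Set.disjoint_left]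
    intro ω h h'
    simp only [Set.mem_preimage, Set.mem_singleton_iff, Prod.mk.injEq] at h h'
    exact haa (h.1.symm.trans h'.1)
  · intro a _
    exact (hf.prodMk hg) (a, b)

theorem ent_le_log_card (f : Ω → α) (hf : Fm f) : ent P f ≤ Real.log (Nat.card α) := by
  classical
  letI := Fintype.ofFinite α
  haveI : Nonempty α := by
    obtain ⟨ω⟩ : Nonempty Ω := nonempty_of_isProbabilityMeasure P
    exact ⟨f ω⟩
  have h1 : ∑ a, P.real (f ⁻¹' {a}) = 1 := by
    rw [← measureReal_biUnion_finset]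
    · have : (⋃ a ∈ (Finset.univ : Finset α), f ⁻¹' {a}) = Set.univ := by
        ext ω
        simp
      rw [this]
      simp
    · intro a _ a' _ haa
      rw [Function.onFun, Set.disjoint_left]
      intro ω h h'
      exact haa (h.symm.trans h')
    · intro a _
      exact hf a
  have h2 := entd_fin (fun a => P.real (f ⁻¹' {a})) (fun a => measureReal_nonneg) (Nat.card α)
    Nat.card_pos (by
      rw [← Set.ncard_univ]
      exact Set.ncard_le_ncard (Set.subset_univ _) (Set.toFinite _))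
  rw [h1] at h2
  rw [ent_eq]
  simpa using h2

theorem entc_le_count {f : Ω → α} {g : Ω → β} (hf : Fm f) (hg : Fm g) (N : β → ℕ) (hN : ∀ b, 1 ≤ N b)
    (h : ∀ b, {a | 0 < P.real (f ⁻¹' {a} ∩ g ⁻¹' {b})}.ncard ≤ N b) :
    entc P f g ≤ ∫ ω, Real.log (N (g ω)) ∂P := by
  classical
  letI := Fintype.ofFinite α
  letI := Fintype.ofFinite β
  rw [entd_integral hg (fun b => Real.log (N b))]
  unfold entc
  rw [ent_eq, ent_eq, Fintype.sum_prod_type, Finset.sum_comm, ← Finset.sum_sub_distrib]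
  refine Finset.sum_le_sum fun b _ => ?_
  have h1 := entd_fin (fun a => P.real ((fun ω => (f ω, g ω)) ⁻¹' {(a, b)}))
    (fun a => measureReal_nonneg) (N b) (hN b) (by
      have := h b
      have e : ∀ a, (fun ω => (f ω, g ω)) ⁻¹' {(a, b)} = f ⁻¹' {a} ∩ g ⁻¹' {b} := by
        intro a
        ext ω
        simp
      simp_rw [e]
      exact this)
  rw [← entd_sum hf hg b] at h1
  linarith

theorem entc_le_log_of_count {f : Ω → α} {g : Ω → β} (hf : Fm f) (hg : Fm g) (N : ℕ) (hN : 1 ≤ N)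
    (h : ∀ b, {a | 0 < P.real (f ⁻¹' {a} ∩ g ⁻¹' {b})}.ncard ≤ N) :
    entc P f g ≤ Real.log N := by
  have h1 := entc_le_count (P := P) hf hg (fun _ => N) (fun _ => hN) h
  simpa using h1

private theorem entd_bb (bb : Ω → ℕ) (hbb : Fm bb) (n : ℕ) (hn : ∀ ω, bb ω ≤ n) :
    Fm (fun ω => (⟨bb ω, Nat.lt_succ_of_le (hn ω)⟩ : Fin (n + 1))) := by
  intro j
  have e : (fun ω => (⟨bb ω, Nat.lt_succ_of_le (hn ω)⟩ : Fin (n + 1))) ⁻¹' {j} =
      bb ⁻¹' {(j : ℕ)} := by
    ext ω
    simp [Fin.ext_iff]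
  rw [e]
  exact hbb j

theorem entc_sparse {f : Ω → α} {g : Ω → β} (hf : Fm f) (hg : Fm g) (n M : ℕ) (hM : 1 ≤ M)
    (bb : Ω → ℕ) (hbb : Fm bb) (hn : ∀ ω, bb ω ≤ n)
    (h : ∀ b j, {a | 0 < P.real (f ⁻¹' {a} ∩ g ⁻¹' {b} ∩ bb ⁻¹' {j})}.ncard ≤ M ^ j) :
    entc P f g ≤ Real.log (n + 1) + (∫ ω, (bb ω : ℝ) ∂P) * Real.log M := by
  classical
  let b' : Ω → Fin (n + 1) := fun ω => ⟨bb ω, Nat.lt_succ_of_le (hn ω)⟩
  have hb' : Fm b' := entd_bb bb hbb n hn
  have h1 := entc_comp_left (P := P) (hf.prodMk hb') hg (Prod.fst : α × Fin (n + 1) → α)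
  have h2 := entc_chain (P := P) hf hb' hg
  have h3 := entc_le_ent (P := P) hb' hg
  have h4 := ent_le_log_card (P := P) b' hb'
  rw [Nat.card_eq_fintype_card, Fintype.card_fin] at h4
  have h5 := entc_le_count (P := P) hf (hb'.prodMk hg) (fun x => M ^ (x.1 : ℕ))
    (fun x => Nat.one_le_pow _ _ hM) (by
      rintro ⟨j, b⟩
      have := h b j
      refine le_trans (le_of_eq ?_) this
      congr 1
      ext a
      have e : f ⁻¹' {a} ∩ (fun ω => (b' ω, g ω)) ⁻¹' {(j, b)} =
          f ⁻¹' {a} ∩ g ⁻¹' {b} ∩ bb ⁻¹' {(j : ℕ)} := by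
        ext ω
        simp only [Set.mem_inter_iff, Set.mem_preimage, Set.mem_singleton_iff, Prod.mk.injEq,
          Fin.ext_iff, b']
        tauto
      rw [Set.mem_setOf_eq, Set.mem_setOf_eq, e])
  have h6 : ∫ ω, Real.log ((M ^ ((b' ω, g ω).1 : ℕ) : ℕ) : ℝ) ∂P =
      (∫ ω, (bb ω : ℝ) ∂P) * Real.log M := by
    rw [← integral_mul_const]
    refine integral_congr_ae (Filter.Eventually.of_forall fun ω => ?_)
    simp only [b']
    push_cast
    rw [Real.log_pow]
  rw [h6] at h5
  push_cast at h4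
  simp only at h1
  linarith

/-- general form: `H(f) <= log(n+1) + E[L(bb)]` if the number of possible values of `f` with `bb = j` is `<= exp (L j)` -/
theorem ent_le_cost {f : Ω → α} (hf : Fm f) (n : ℕ) (bb : Ω → ℕ) (hbb : Fm bb) (hn : ∀ ω, bb ω ≤ n)
    (A B : ℝ) (hA : 0 ≤ A) (hB : 0 ≤ B)
    (h : ∀ j, ({a | 0 < P.real (f ⁻¹' {a} ∩ bb ⁻¹' {j})}.ncard : ℝ) ≤ Real.exp (A + B * j)) :
    ent P f ≤ Real.log (n + 1) + A + B * ∫ ω, (bb ω : ℝ) ∂P := by
  classical
  let b' : Ω → Fin (n + 1) := fun ω => ⟨bb ω, Nat.lt_succ_of_le (hn ω)⟩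
  have hb' : Fm b' := entd_bb bb hbb n hn
  have h1 := ent_comp_le (P := P) (hf.prodMk hb') (Prod.fst : α × Fin (n + 1) → α)
  have h4 := ent_le_log_card (P := P) b' hb'
  rw [Nat.card_eq_fintype_card, Fintype.card_fin] at h4
  have hpos : ∀ j : ℕ, (1 : ℝ) ≤ Real.exp (A + B * j) := by
    intro j
    rw [← Real.exp_zero]
    exact Real.exp_le_exp.2 (by positivity)
  have h5 := entc_le_count (P := P) hf hb' (fun j => ⌊Real.exp (A + B * (j : ℕ))⌋₊)
    (fun j => Nat.le_floor (by exact_mod_cast hpos j)) (by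
      intro j
      refine Nat.le_floor ?_
      refine le_trans (le_of_eq ?_) (h j)
      congr 2
      ext a
      have e : f ⁻¹' {a} ∩ b' ⁻¹' {j} = f ⁻¹' {a} ∩ bb ⁻¹' {(j : ℕ)} := by
        ext ω
        simp only [Set.mem_inter_iff, Set.mem_preimage, Set.mem_singleton_iff, Fin.ext_iff, b']
      rw [Set.mem_setOf_eq, Set.mem_setOf_eq, e])
  have h6 : ∫ ω, Real.log (⌊Real.exp (A + B * ((b' ω : Fin (n + 1)) : ℕ))⌋₊ : ℝ) ∂P ≤
      A + B * ∫ ω, (bb ω : ℝ) ∂P := by
    have e1 : ∫ ω, (bb ω : ℝ) ∂P = ∫ ω, (fun j : Fin (n + 1) => ((j : ℕ) : ℝ)) (b' ω) ∂P := rfl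
    rw [e1, entd_integral hb' (fun j : Fin (n + 1) => ((j : ℕ) : ℝ)), entd_integral hb'
      (fun j => Real.log (⌊Real.exp (A + B * ((j : Fin (n + 1)) : ℕ))⌋₊ : ℝ))]
    letI := Fintype.ofFinite (Fin (n + 1))
    have e2 : ∑ j : Fin (n + 1), P.real (b' ⁻¹' {j}) = 1 := by
      have e3 := entd_integral (P := P) hb' (fun _ => (1 : ℝ))
      simp only [mul_one] at e3
      rw [← e3]
      simp
    have e4 : A = ∑ j : Fin (n + 1), P.real (b' ⁻¹' {j}) * A := by
      rw [← Finset.sum_mul, e2, one_mul]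
    rw [Finset.mul_sum]
    nth_rewrite 2 [e4]
    rw [← Finset.sum_add_distrib]
    refine Finset.sum_le_sum fun j _ => ?_
    have e5 : Real.log (⌊Real.exp (A + B * (j : ℕ))⌋₊ : ℝ) ≤ A + B * (j : ℕ) := by
      refine (Real.log_le_log ?_ (Nat.floor_le (Real.exp_pos _).le)).trans (le_of_eq (Real.log_exp _))
      exact_mod_cast Nat.floor_pos.2 (hpos j)
    have e6 := mul_le_mul_of_nonneg_left e5 (measureReal_nonneg (μ := P) (s := b' ⁻¹' {j}))
    linarith
  unfold entc at h5
  push_cast at h4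
  simp only at h1
  linarith

end H31.BE
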