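import Pool.Agent.H31.BE.ModDefs
import Pool.Agent.H31.BE.EntD
import Pool.Agent.H31.BE.EntC

/-! # ChSig : entropy of the decoded maps  (paper section 6, term H(σ); module ChSig, ~90 lines)
ω ↦ sg ω is determined by the tuple over i of sg_i ω := (s v ↦ sg ω ⟨i, s⟩ v): `ent_inj` / `ent_comp_le`, then `ent_pi_le` (EntC).
For each i: `ent_le_cost` with bb := nonreg (S i) (sg_i ω) (r i) <= n, A := log n! - kap (H i) n + ε n, B := C i * log(n+1):
the values a of sg_i with bb = D lie in {f | nonreg f <= D} (`hcount`). ∫ bb <= ∫ |BB| because nonregular vertices lie in BB (a.e.). -/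

set_option autoImplicit false

open MeasureTheory

namespace H31.BE

theorem ch_sig {G I Ω : Type} [Group G] [Fintype I] [Fintype Ω] [MeasurableSpace Ω] [DiscreteMeasurableSpace Ω]
    (Q : Measure Ω) [IsProbabilityMeasure Q] (H : I → Subgroup G) (S : I → Finset G) (n : ℕ) (ε : ℝ)
    (r C : I → ℕ) (hA : ∀ i, 0 ≤ Real.log n.factorial - kap (H i) n + ε * n)
    (hcount : ∀ i (D : ℕ), ({f : S i → Fin n → Option (Fin n) | nonreg (S i) f (r i) ≤ D}.ncard : ℝ) ≤
      Real.exp (Real.log n.factorial - kap (H i) n + ε * n + C i * D * Real.log (n + 1)))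
    (sg : Ω → Gn S → Fin n → Option (Fin n)) (BB : Ω → Set (Fin n))
    (h : ∀ᵐ ω ∂Q, ∀ v, v ∉ BB ω → ∀ i, IsReg (S i) (fun s x => sg ω ⟨i, s⟩ x) (r i) v) :
    ent Q sg ≤ ∑ i, (Real.log (n + 1) + (Real.log n.factorial - kap (H i) n + ε * n) +
      C i * Real.log (n + 1) * ∫ ω, ((BB ω).ncard : ℝ) ∂Q) := by
  classical
  have hFm : ∀ {β : Type} (f : Ω → β), Fm f := fun f a => MeasurableSet.of_discrete
  have hlog : (0 : ℝ) ≤ Real.log (n + 1) :=
    Real.log_nonneg (by linarith [(Nat.cast_nonneg n : (0 : ℝ) ≤ n)])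
  set f : ∀ i, Ω → (S i → Fin n → Option (Fin n)) := fun i ω s x => sg ω ⟨i, s⟩ x with hf
  have h1 : ent Q sg ≤ ent Q (fun ω => fun i => f i ω) :=
    ent_comp_le (P := Q) (f := fun ω => fun i => f i ω) (hFm _)
      (fun F : ∀ i, S i → Fin n → Option (Fin n) => fun (s : Gn S) => F s.1 s.2)
  refine h1.trans ((ent_pi_le (fun i => hFm (f i))).trans (Finset.sum_le_sum (fun i _ => ?_)))
  have hcost := ent_le_cost (P := Q) (f := f i) (hFm _) n (fun ω => nonreg (S i) (f i ω) (r i)) (hFm _)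
    (fun ω => by
      have := Set.ncard_le_card {v | ¬ IsReg (S i) (f i ω) (r i) v}
      simpa [nonreg] using this)
    (Real.log n.factorial - kap (H i) n + ε * n) (C i * Real.log (n + 1)) (hA i)
    (mul_nonneg (Nat.cast_nonneg _) hlog) (fun j => ?_)
  · refine hcost.trans ?_
    have h2 : ∫ ω, ((nonreg (S i) (f i ω) (r i) : ℕ) : ℝ) ∂Q ≤ ∫ ω, ((BB ω).ncard : ℝ) ∂Q := by
      refine integral_mono_ae Integrable.of_finite Integrable.of_finite ?_
      filter_upwards [h] with ω hω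
      have h3 : {v | ¬ IsReg (S i) (f i ω) (r i) v} ⊆ BB ω := by
        intro v hv
        by_contra hcon
        exact hv (hω v hcon i)
      exact_mod_cast Set.ncard_le_ncard h3 (Set.toFinite _)
    have h4 : (C i : ℝ) * Real.log (n + 1) * ∫ ω, ((nonreg (S i) (f i ω) (r i) : ℕ) : ℝ) ∂Q ≤
        C i * Real.log (n + 1) * ∫ ω, ((BB ω).ncard : ℝ) ∂Q :=
      mul_le_mul_of_nonneg_left h2 (mul_nonneg (Nat.cast_nonneg _) hlog)
    linarith
  · have h5 : {a | 0 < Q.real (f i ⁻¹' {a} ∩ (fun ω => nonreg (S i) (f i ω) (r i)) ⁻¹' {j})} ⊆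
        {g : S i → Fin n → Option (Fin n) | nonreg (S i) g (r i) ≤ j} := by
      intro a ha
      have hne : (f i ⁻¹' {a} ∩ (fun ω => nonreg (S i) (f i ω) (r i)) ⁻¹' {j}).Nonempty := by
        by_contra hcon
        rw [Set.not_nonempty_iff_eq_empty] at hcon
        have ha' : 0 < Q.real (f i ⁻¹' {a} ∩ (fun ω => nonreg (S i) (f i ω) (r i)) ⁻¹' {j}) := ha
        rw [hcon] at ha'
        simp at ha'
      obtain ⟨ω, hω1, hω2⟩ := hne
      have e1 : f i ω = a := hω1
      have e2 : nonreg (S i) (f i ω) (r i) = j := hω2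
      show nonreg (S i) a (r i) ≤ j
      rw [← e1, e2]
    have h6 : ({a | 0 < Q.real (f i ⁻¹' {a} ∩ (fun ω => nonreg (S i) (f i ω) (r i)) ⁻¹' {j})}.ncard : ℝ) ≤
        ({g : S i → Fin n → Option (Fin n) | nonreg (S i) g (r i) ≤ j}.ncard : ℝ) := by
      exact_mod_cast Set.ncard_le_ncard h5 (Set.toFinite _)
    refine h6.trans ((hcount i j).trans (le_of_eq ?_))
    congr 1
    ring

end H31.BE
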