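import Pool.Agent.H31.BE.EntF
import Pool.Agent.H31.BE.EntE

/-! # ChZ : entropy of the types given the decoded maps  (paper 4.6; module ChZ, ~150 lines, entropy calculus only)
Write l ω v := lam (z ω v), p ω v := pf (l ω v), Ψ ω v := psi (z ω v). All functions on Ω are Fm (discrete space, `MeasurableSet.of_discrete`).
H(z|sg) <= H((z, l, Ψ, p)|sg) = H(p|sg) + H(Ψ|sg,p) + H(l|Ψ,p,sg) + H(z|l,Ψ,p,sg) (`entc_chain`, `entc_comp_left`) and
 H(p|sg) <= H(p) <= ∑ v H(p_v) (`entc_le_ent`, `ent_pi_le`); H(p_v) = ent P (pf ∘ lam ∘ τ) by `hlaw`;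
 H(Ψ|sg,p) <= log(n+1) + E|BB| log(n |B|)   (`entc_array`, h3);
 H(l|Ψ,p,sg) <= H(l|Ψ) <= ∑ v H(l_v|Ψ) <= ∑ v H(l_v|Ψ_v) (`entc_pi_le`, `entc_anti`); H(l_v|Ψ_v) = entc P (lam ∘ τ) (psi ∘ τ) by `hlaw`
 (joint law of (l_v, Ψ_v) = image of the law of z_v);
 H(z|l,Ψ,p,sg) <= H(z|l,sg) <= log(n+1) + E|BB| log(n |X|)   (`entc_array`, h2). -/

set_option autoImplicit false

open MeasureTheory

namespace H31.BE

private theorem chz_law {Ω Y X α : Type} [MeasurableSpace Ω] [MeasurableSpace Y]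
    (Q : Measure Ω) [IsProbabilityMeasure Q] (P : Measure Y) [IsProbabilityMeasure P]
    [Finite X] [Finite α] {w : Ω → X} (hw : Fm w) {τ : Y → X} (hτ : Fm τ)
    (h : ∀ x, Q.real (w ⁻¹' {x}) = P.real (τ ⁻¹' {x})) (φ : X → α) :
    ent Q (fun ω => φ (w ω)) = ent P (fun y => φ (τ y)) := by
  classical
  cases nonempty_fintype X
  cases nonempty_fintype α
  rw [ent_eq, ent_eq]
  refine Finset.sum_congr rfl fun a _ => ?_
  congr 1
  have h1 := sum_measureReal_preimage_singleton (μ := Q) (Finset.univ.filter fun x => φ x = a)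
    (f := w) (fun y _ => hw y)
  have h2 := sum_measureReal_preimage_singleton (μ := P) (Finset.univ.filter fun x => φ x = a)
    (f := τ) (fun y _ => hτ y)
  have e1 : (fun ω => φ (w ω)) ⁻¹' {a} = w ⁻¹' ↑(Finset.univ.filter fun x => φ x = a) := by
    ext ω; simp
  have e2 : (fun y => φ (τ y)) ⁻¹' {a} = τ ⁻¹' ↑(Finset.univ.filter fun x => φ x = a) := by
    ext ω; simp
  rw [e1, e2, ← h1, ← h2]
  exact Finset.sum_congr rfl fun x _ => h x

theorem ch_z {Ω Y X Λ A B E : Type} [Fintype Ω] [MeasurableSpace Ω] [DiscreteMeasurableSpace Ω]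
    (Q : Measure Ω) [IsProbabilityMeasure Q] [MeasurableSpace Y] (P : Measure Y) [IsProbabilityMeasure P]
    [Finite X] [Finite Λ] [Finite A] [Finite B] [Finite E] (τ : Y → X) (hτ : Fm τ) (n : ℕ) (hn : 1 ≤ n)
    (z : Ω → Fin n → X) (sg : Ω → E) (lam : X → Λ) (pf : Λ → A) (psi : X → B)
    (Y2 : E → (Fin n → Λ) → Fin n → X) (Y3 : E → (Fin n → A) → Fin n → B) (BB : Ω → Set (Fin n))
    (hlaw : ∀ v x, Q.real {ω | z ω v = x} = P.real (τ ⁻¹' {x}))
    (h2 : ∀ᵐ ω ∂Q, ∀ v, v ∉ BB ω → z ω v = Y2 (sg ω) (fun u => lam (z ω u)) v)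
    (h3 : ∀ᵐ ω ∂Q, ∀ v, v ∉ BB ω → psi (z ω v) = Y3 (sg ω) (fun u => pf (lam (z ω u))) v) :
    entc Q z sg ≤ n * ent P (fun y => pf (lam (τ y))) + n * entc P (fun y => lam (τ y)) (fun y => psi (τ y)) +
      2 * Real.log (n + 1) +
      (∫ ω, ((BB ω).ncard : ℝ) ∂Q) * (Real.log (n * Nat.card B) + Real.log (n * Nat.card X)) := by
  classical
  have hfm : ∀ {α : Type} (f : Ω → α), Fm f := fun f a => MeasurableSet.of_discrete
  have hne : Nonempty Ω := by
    by_contra hcon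
    rw [not_nonempty_iff] at hcon
    have h1 : Q Set.univ = 1 := measure_univ
    rw [Set.univ_eq_empty_iff.2 hcon, measure_empty] at h1
    exact zero_ne_one h1
  obtain ⟨ω0⟩ := hne
  have hV : Nonempty (Fin n) := ⟨⟨0, hn⟩⟩
  have hXne : Nonempty X := ⟨z ω0 ⟨0, hn⟩⟩
  have hBne : Nonempty B := ⟨psi (z ω0 ⟨0, hn⟩)⟩
  set l : Ω → Fin n → Λ := fun ω v => lam (z ω v) with hl
  set Ψ : Ω → Fin n → B := fun ω v => psi (z ω v) with hΨ
  set p : Ω → Fin n → A := fun ω v => pf (lam (z ω v)) with hp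
  -- chain rules
  have c0 : entc Q z sg ≤ entc Q (fun ω => (z ω, (l ω, (Ψ ω, p ω)))) sg := by
    have := entc_comp_left (P := Q) (hfm (fun ω => (z ω, (l ω, (Ψ ω, p ω))))) (hfm sg)
      (Prod.fst : (Fin n → X) × ((Fin n → Λ) × ((Fin n → B) × (Fin n → A))) → (Fin n → X))
    simpa using this
  have c1 := entc_chain (P := Q) (hfm z) (hfm (fun ω => (l ω, (Ψ ω, p ω)))) (hfm sg)
  have c2 := entc_chain (P := Q) (hfm l) (hfm (fun ω => (Ψ ω, p ω))) (hfm sg)
  have c3 := entc_chain (P := Q) (hfm Ψ) (hfm p) (hfm sg)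
  -- the law of one type
  have hlaw' : ∀ v x, Q.real ((fun ω => z ω v) ⁻¹' {x}) = P.real (τ ⁻¹' {x}) := hlaw
  -- entropy of the colours
  have d1 : entc Q p sg ≤ n * ent P (fun y => pf (lam (τ y))) := by
    refine (entc_le_ent (P := Q) (hfm p) (hfm sg)).trans ?_
    refine (ent_pi_le (P := Q) (f := fun v ω => pf (lam (z ω v))) (fun v => hfm _)).trans ?_
    have : ∀ v : Fin n, ent Q (fun ω => pf (lam (z ω v))) = ent P (fun y => pf (lam (τ y))) :=
      fun v => chz_law Q P (hfm _) hτ (hlaw' v) (fun x => pf (lam x))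
    rw [Finset.sum_congr rfl fun v _ => this v]
    simp
  -- entropy of the labels given psi
  have d2 : entc Q l (fun ω => ((Ψ ω, p ω), sg ω)) ≤
      n * entc P (fun y => lam (τ y)) (fun y => psi (τ y)) := by
    have e1 := entc_anti (P := Q) (hfm l) (hfm (fun ω => ((Ψ ω, p ω), sg ω)))
      (fun q : ((Fin n → B) × (Fin n → A)) × E => q.1.1)
    refine e1.trans ?_
    refine (entc_pi_le (P := Q) (f := fun v ω => lam (z ω v)) (fun v => hfm _) (hfm Ψ)).trans ?_
    have : ∀ v : Fin n, entc Q (fun ω => lam (z ω v)) Ψ ≤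
        entc P (fun y => lam (τ y)) (fun y => psi (τ y)) := by
      intro v
      refine (entc_anti (P := Q) (hfm (fun ω => lam (z ω v))) (hfm Ψ)
        (fun q : Fin n → B => q v)).trans (le_of_eq ?_)
      unfold entc
      rw [← chz_law Q P (hfm _) hτ (hlaw' v) (fun x => (lam x, psi x)),
        ← chz_law Q P (hfm _) hτ (hlaw' v) psi]
    refine (Finset.sum_le_sum fun v _ => this v).trans (le_of_eq ?_)
    simp
  -- errors
  have hbb : ∀ ω, (BB ω).ncard ≤ Nat.card (Fin n) := by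
    intro ω
    rw [← Set.ncard_univ]
    exact Set.ncard_le_ncard (Set.subset_univ _) (Set.toFinite _)
  have d3 : entc Q Ψ (fun ω => (p ω, sg ω)) ≤ Real.log (n + 1) +
      (∫ ω, ((BB ω).ncard : ℝ) ∂Q) * Real.log (n * Nat.card B) := by
    have := entc_array (P := Q) Ψ (hfm Ψ) (fun ω => (p ω, sg ω)) (hfm _)
      (fun q => Y3 q.2 q.1) (fun ω => (BB ω).ncard) (hfm _) hbb ?_
    · simpa using this
    · filter_upwards [h3] with ω hω
      refine Set.ncard_le_ncard ?_ (Set.toFinite _)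
      intro v hv
      by_contra hvB
      exact hv (hω v hvB)
  have d4 : entc Q z (fun ω => ((l ω, (Ψ ω, p ω)), sg ω)) ≤ Real.log (n + 1) +
      (∫ ω, ((BB ω).ncard : ℝ) ∂Q) * Real.log (n * Nat.card X) := by
    have := entc_array (P := Q) z (hfm z) (fun ω => ((l ω, (Ψ ω, p ω)), sg ω)) (hfm _)
      (fun q => Y2 q.2 q.1.1) (fun ω => (BB ω).ncard) (hfm _) hbb ?_
    · simpa using this
    · filter_upwards [h2] with ω hω
      refine Set.ncard_le_ncard ?_ (Set.toFinite _)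
      intro v hv
      by_contra hvB
      exact hv (hω v hvB)
  linarith

end H31.BE
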