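import Pool.Agent.H31.BE.EntC

/-! # EntG : Shearer's inequality  (module EntG, ~80 lines)
For a finite family f_x (x ∈ E) and finite sets E_g ⊆ E (g ∈ J) such that every x ∈ E lies in at least k of the E_g:
k H((f_x)_{x∈E}) <= sum_{g∈J} H((f_x)_{x∈E_g}).
Proof by induction on E (Finset, insert a new x at the end): H(f^{E∪{x}}) = H(f^E) + H(f_x|f^E); for the sets E_g containing x
(at least k of them): H(f^{E_g}) = H(f^{E_g \ x}) + H(f_x | f^{E_g \ x}) >= H(f^{E_g \ x}) + H(f_x | f^E) (entc_anti).
State: for all x in E, k <= #{g ∈ J : x ∈ T g}; the sets T g need not be contained in E (use T g ∩ E). -/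

set_option autoImplicit false

open MeasureTheory

namespace H31.BE

private lemma EntG_le {Ω α β : Type} [MeasurableSpace Ω] {P : Measure Ω} [IsProbabilityMeasure P]
    [Finite α] [Finite β] {f : Ω → α} {g : Ω → β} (hf : Fm f)
    (h : ∀ ω ω', f ω = f ω' → g ω = g ω') : ent P g ≤ ent P f := by
  haveI : Nonempty β := entC_nonempty g P
  obtain ⟨φ, hφ⟩ : ∃ φ : α → β, g = φ ∘ f := by
    rw [← Function.factorsThrough_iff]
    intro ω ω' hω
    exact h ω ω' hω
  rw [hφ]
  exact ent_comp_le hf φ

private lemma EntG_anti {Ω α β γ : Type} [MeasurableSpace Ω] {P : Measure Ω}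
    [IsProbabilityMeasure P] [Finite α] [Finite β] [Finite γ] {f : Ω → α} {g : Ω → β}
    {g' : Ω → γ} (hf : Fm f) (hg : Fm g)
    (h : ∀ ω ω', g ω = g ω' → g' ω = g' ω') : entc P f g ≤ entc P f g' := by
  haveI : Nonempty γ := entC_nonempty g' P
  obtain ⟨φ, hφ⟩ : ∃ φ : β → γ, g' = φ ∘ g := by
    rw [← Function.factorsThrough_iff]
    intro ω ω' hω
    exact h ω ω' hω
  rw [hφ]
  exact entc_anti hf hg φ

private lemma EntG_restr {Ω X κ : Type} {f : X → Ω → κ} {S S' : Finset X} (hS : S' ⊆ S)
    {ω ω' : Ω} (h : (fun x : S => f x ω) = (fun x : S => f x ω')) :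
    (fun x : S' => f x ω) = (fun x : S' => f x ω') := by
  funext x
  exact congrFun h ⟨x.1, hS x.2⟩

theorem shearer {Ω X J κ : Type} [MeasurableSpace Ω] {P : Measure Ω} [IsProbabilityMeasure P]
    [DecidableEq X] [Finite κ] (f : X → Ω → κ) (hf : ∀ x, Fm (f x)) (E : Finset X)
    (Js : Finset J) (T : J → Finset X) (k : ℕ)
    (hk : ∀ x ∈ E, k ≤ (Js.filter (fun g => x ∈ T g)).card) :
    (k : ℝ) * ent P (fun ω => fun x : E => f x ω) ≤
      ∑ g ∈ Js, ent P (fun ω => fun x : (E ∩ T g : Finset X) => f x ω) := by
  have hF : ∀ S : Finset X, Fm (fun ω => fun x : S => f x ω) := fun S =>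
    Fm.pi (f := fun (x : S) ω => f x ω) (fun x => hf x)
  induction E using Finset.induction_on with
  | empty =>
    have e0 : ent P (fun ω => fun x : (∅ : Finset X) => f x ω) = 0 := by
      apply le_antisymm _ (ent_nonneg _)
      rw [← ent_const (P := P) ()]
      refine EntG_le (Fm.const ()) (fun ω ω' _ => ?_)
      funext x
      exact absurd x.2 (Finset.notMem_empty _)
    rw [e0, mul_zero]
    exact Finset.sum_nonneg (fun g _ => ent_nonneg _)
  | insert a E ha ih =>
    have ih' := ih (fun x hx => hk x (Finset.mem_insert_of_mem hx))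
    set c : ℝ := entc P (f a) (fun ω => fun x : E => f x ω) with hc
    have hc0 : 0 ≤ c := entc_nonneg (hf a) (hF E)
    have h1 : ent P (fun ω => fun x : (insert a E : Finset X) => f x ω) ≤
        ent P (fun ω => fun x : E => f x ω) + c := by
      have h2 : ent P (fun ω => fun x : (insert a E : Finset X) => f x ω) ≤
          ent P (fun ω => (f a ω, fun x : E => f x ω)) := by
        refine EntG_le ((hf a).prodMk (hF E)) (fun ω ω' h => ?_)
        simp only [Prod.mk.injEq] at h
        funext x
        rcases Finset.mem_insert.1 x.2 with hx | hx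
        · rw [hx]; exact h.1
        · exact congrFun h.2 ⟨x.1, hx⟩
      have h3 : c = ent P (fun ω => (f a ω, fun x : E => f x ω)) -
          ent P (fun ω => fun x : E => f x ω) := rfl
      linarith
    have h4 : ∀ g ∈ Js, ent P (fun ω => fun x : (E ∩ T g : Finset X) => f x ω) +
        (if a ∈ T g then c else 0) ≤
        ent P (fun ω => fun x : ((insert a E) ∩ T g : Finset X) => f x ω) := by
      intro g _
      have hsub : E ∩ T g ⊆ (insert a E) ∩ T g :=
        Finset.inter_subset_inter_right (Finset.subset_insert a E)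
      by_cases hag : a ∈ T g
      · rw [if_pos hag]
        have h5 : ent P (fun ω => (f a ω, fun x : (E ∩ T g : Finset X) => f x ω)) ≤
            ent P (fun ω => fun x : ((insert a E) ∩ T g : Finset X) => f x ω) := by
          refine EntG_le (hF _) (fun ω ω' h => ?_)
          refine Prod.ext ?_ ?_
          · exact congrFun h ⟨a, Finset.mem_inter.2 ⟨Finset.mem_insert_self a E, hag⟩⟩
          · exact EntG_restr hsub h
        have h6 : c ≤ entc P (f a) (fun ω => fun x : (E ∩ T g : Finset X) => f x ω) :=
          EntG_anti (hf a) (hF E) (fun ω ω' h => EntG_restr Finset.inter_subset_left h)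
        have h7 : entc P (f a) (fun ω => fun x : (E ∩ T g : Finset X) => f x ω) =
            ent P (fun ω => (f a ω, fun x : (E ∩ T g : Finset X) => f x ω)) -
            ent P (fun ω => fun x : (E ∩ T g : Finset X) => f x ω) := rfl
        linarith
      · rw [if_neg hag, add_zero]
        exact EntG_le (hF _) (fun ω ω' h => EntG_restr hsub h)
    have h8 := Finset.sum_le_sum h4
    rw [Finset.sum_add_distrib, ← Finset.sum_filter, Finset.sum_const, nsmul_eq_mul] at h8
    have h9 : (k : ℝ) ≤ ((Js.filter (fun g => a ∈ T g)).card : ℝ) := by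
      exact_mod_cast hk a (Finset.mem_insert_self a E)
    have h10 : (k : ℝ) * c ≤ ((Js.filter (fun g => a ∈ T g)).card : ℝ) * c :=
      mul_le_mul_of_nonneg_right h9 hc0
    have h11 : (k : ℝ) * ent P (fun ω => fun x : (insert a E : Finset X) => f x ω) ≤
        (k : ℝ) * (ent P (fun ω => fun x : E => f x ω) + c) :=
      mul_le_mul_of_nonneg_left h1 (Nat.cast_nonneg k)
    rw [mul_add] at h11
    linarith

end H31.BE
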