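import Pool.Agent.H31.BE.EntF
import Pool.Agent.H31.BE.EntG

/-! # FunA : the rate h_i: monotonicity and invariance  (paper 1.1, 1.2; module FunA, ~150 lines)
* `ent_win_translate`: H(f^{B h}) = H(f^B), B*{h} (right translate): f^{Bh}(y) is f^B(h•y) up to relabelling, `ent_map`.
* `hh_le`: hh <= H(f^F)/|F| for nonempty F in H (`csInf_le`, bounded below by 0).
* `hh_le_add`: hh f' <= hh f + H(f'|f): for each F, H(f'^F) <= H((f^F, f'^F)) = H(f^F) + H(f'^F|f^F) <= H(f^F) +
  sum_{g∈F} H(f'_g|f^F) <= H(f^F) + |F| H(f'|f)   (entc_pi_le, entc_anti, ent_map for g). Take the infimum.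
* `hh_win_le`: if f' = φ ∘ win f W, W in H finite nonempty, then hh f' <= hh f.
  Proof: let F0 (nonempty, in H) be given, K := F0⁻¹ * W. For F from `Foel` for K, E := W * F: f'^F is a function of f^E
  (f'(a•y) = φ(f(w•a•y))_w). Shearer with sets T g := F0 * {g}, g ∈ J := F0⁻¹ * E = K * F (every x ∈ E lies in T g for the |F0|
  different g = a⁻¹ x, a ∈ F0, all in J): |F0| H(f^E) <= sum_{g∈J} H(f^{E∩F0 g}) <= |J| H(f^{F0}) (restriction lowers H,
  translate). So H(f'^F)/|F| <= (|K*F|/|F|) H(f^{F0})/|F0| <= (1+ε) H(f^{F0})/|F0|. Let ε → 0, then infimum over F0. -/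

set_option autoImplicit false

open MeasureTheory

namespace H31.BE

open scoped Pointwise

variable {G Y α β : Type} [Group G] [DecidableEq G] [MeasurableSpace Y] [MulAction G Y] [Finite α] [Finite β]
  {P : Measure Y} [IsProbabilityMeasure P]

theorem Fm.win (hP : Inv G P) {f : Y → α} (hf : Fm f) (B : Finset G) : Fm (win f B) :=
  Fm.pi (f := fun (g : B) y => f ((g : G) • y)) fun g => Fm.comp_measurable (hP g).measurable hf

theorem ent_win_translate (hP : Inv G P) {f : Y → α} (hf : Fm f) (B : Finset G) (h : G) :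
    ent P (win f (B * {h})) = ent P (win f B) := by
  have h1 : ent P (fun y => win f B (h • y)) = ent P (win f B) := ent_map (hP h) (hf.win hP B)
  rw [← h1]
  refine ent_eq_of_determine (hf.win hP _) (Fm.comp_measurable (hP h).measurable (hf.win hP B))
    (fun w b => w ⟨b.1 * h, Finset.mul_mem_mul b.2 (Finset.mem_singleton_self h)⟩)
    (fun v x => v ⟨x.1 * h⁻¹, by
      obtain ⟨b, hb, c, hc, hx⟩ := Finset.mem_mul.1 x.2
      rw [Finset.mem_singleton] at hc
      rw [← hx, hc, mul_inv_cancel_right]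
      exact hb⟩) ?_ ?_
  · refine Filter.Eventually.of_forall fun y => ?_
    funext b
    change f ((b.1 * h) • y) = f (b.1 • h • y)
    rw [mul_smul]
  · refine Filter.Eventually.of_forall fun y => ?_
    funext x
    change f ((x.1 * h⁻¹) • h • y) = f (x.1 • y)
    rw [← mul_smul, inv_mul_cancel_right]

theorem ent_win_mono (hP : Inv G P) {f : Y → α} (hf : Fm f) {B B' : Finset G} (h : B ⊆ B') :
    ent P (win f B) ≤ ent P (win f B') := by
  have h1 := ent_comp_le (P := P) (hf.win hP B') (fun (w : B' → α) (b : B) => w ⟨b.1, h b.2⟩)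
  exact h1

theorem hh_le (H : Subgroup G) (f : Y → α) (F : Finset G) (hF : F.Nonempty) (hFH : ∀ g ∈ F, g ∈ H) :
    hh P H f ≤ ent P (win f F) / F.card := by
  refine csInf_le ⟨0, ?_⟩ ⟨F, hF, hFH, rfl⟩
  rintro x ⟨F, _, _, rfl⟩
  exact div_nonneg (ent_nonneg _) (Nat.cast_nonneg _)

theorem le_hh (H : Subgroup G) (f : Y → α) (c : ℝ)
    (h : ∀ F : Finset G, F.Nonempty → (∀ g ∈ F, g ∈ H) → c * F.card ≤ ent P (win f F)) :
    c ≤ hh P H f := by
  refine le_csInf ⟨_, {1}, Finset.singleton_nonempty 1, ?_, rfl⟩ ?_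
  · intro g hg
    rw [Finset.mem_singleton.1 hg]
    exact H.one_mem
  · rintro x ⟨F, hF, hFH, rfl⟩
    rw [le_div_iff₀ (by exact_mod_cast hF.card_pos)]
    exact h F hF hFH

theorem hh_le_add (hP : Inv G P) (H : Subgroup G) {f : Y → α} {f' : Y → β} (hf : Fm f) (hf' : Fm f') :
    hh P H f' ≤ hh P H f + entc P f' f := by
  rw [← sub_le_iff_le_add]
  refine le_hh H f _ fun F hF hFH => ?_
  have h1 := hh_le (P := P) H f' F hF hFH
  rw [le_div_iff₀ (by exact_mod_cast hF.card_pos)] at h1
  have h2 : ent P (win f' F) ≤ entc P (win f' F) (win f F) + ent P (win f F) := by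
    have := ent_comp_le (P := P) ((hf'.win hP F).prodMk (hf.win hP F)) Prod.fst
    unfold entc
    simp only at this
    linarith
  have h3 : entc P (win f' F) (win f F) ≤ ∑ _g : F, entc P f' f := by
    have h4 := entc_pi_le (P := P) (f := fun (g : F) y => f' ((g : G) • y))
      (fun g => Fm.comp_measurable (hP g).measurable hf') (hf.win hP F)
    refine (show entc P (win f' F) (win f F) ≤ _ from h4).trans (Finset.sum_le_sum fun g _ => ?_)
    have h5 := entc_anti (P := P) (Fm.comp_measurable (hP (g : G)).measurable hf') (hf.win hP F)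
      (fun w : F → α => w g)
    refine h5.trans (le_of_eq ?_)
    unfold entc
    rw [show ent P (fun ω => (f' ((g : G) • ω), win f F ω g)) = ent P (fun ω => (f' ω, f ω)) from
      ent_map (f := fun ω => (f' ω, f ω)) (hP (g : G)) (hf'.prodMk hf),
      show ent P (fun ω => win f F ω g) = ent P f from ent_map (hP (g : G)) hf]
  rw [Finset.sum_const, Finset.card_univ, Fintype.card_coe, nsmul_eq_mul] at h3
  rw [sub_mul]
  linarith

theorem hh_win_le (hP : Inv G P) (H : Subgroup G) (hH : Foel H) {f : Y → α} {f' : Y → β} (hf : Fm f)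
    (hf' : Fm f') (W : Finset G) (hW : ∀ g ∈ W, g ∈ H) (φ : (W → α) → β)
    (h : ∀ y, f' y = φ (win f W y)) : hh P H f' ≤ hh P H f := by
  refine le_hh H f _ fun F₀ hF₀ hF₀H => ?_
  have key : ∀ ε : ℝ, 0 < ε → hh P H f' * F₀.card ≤ (1 + ε) * ent P (win f F₀) := by
    intro ε hε
    obtain ⟨F, hF, hFH, hcard⟩ := hH (F₀⁻¹ * W) (by
      intro g hg
      obtain ⟨a, ha, w, hw, rfl⟩ := Finset.mem_mul.1 hg
      refine H.mul_mem ?_ (hW w hw)
      have := hF₀H _ (Finset.mem_inv'.1 ha)
      simpa using H.inv_mem this) ε hε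
    have hFpos : (0 : ℝ) < F.card := by exact_mod_cast hF.card_pos
    have h1 := hh_le (P := P) H f' F hF hFH
    rw [le_div_iff₀ hFpos] at h1
    -- `win f' F` is a function of `win f (W * F)`
    have h2 : ent P (win f' F) ≤ ent P (win f (W * F)) := by
      have h3 := ent_comp_le (P := P) (hf.win hP (W * F))
        (fun v (g : F) => φ fun w : W => v ⟨w.1 * g.1, Finset.mul_mem_mul w.2 g.2⟩)
      have h4 : (fun y => (fun v (g : F) => φ fun w : W => v ⟨w.1 * g.1, Finset.mul_mem_mul w.2 g.2⟩)
          (win f (W * F) y)) = win f' F := by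
        funext y g
        change φ (fun w : W => f ((w.1 * g.1) • y)) = f' (g.1 • y)
        rw [h]
        congr 1
        funext w
        change f ((w.1 * g.1) • y) = f (w.1 • g.1 • y)
        rw [mul_smul]
      rwa [h4] at h3
    -- Shearer
    have h5 := shearer (P := P) (fun (x : G) y => f (x • y))
      (fun x => Fm.comp_measurable (hP x).measurable hf) (W * F) (F₀⁻¹ * (W * F))
      (fun g => F₀ * {g}) F₀.card (by
        intro x hx
        have h6 : (F₀.image fun a => a⁻¹ * x) ⊆
            (F₀⁻¹ * (W * F)).filter (fun g => x ∈ F₀ * {g}) := by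
          intro g hg
          obtain ⟨a, ha, rfl⟩ := Finset.mem_image.1 hg
          rw [Finset.mem_filter]
          refine ⟨Finset.mul_mem_mul (Finset.inv_mem_inv ha) hx, ?_⟩
          exact Finset.mem_mul.2 ⟨a, ha, a⁻¹ * x, Finset.mem_singleton_self _, mul_inv_cancel_left a x⟩
        have h7 : (F₀.image fun a => a⁻¹ * x).card = F₀.card :=
          Finset.card_image_of_injective _ fun a b hab => inv_injective (mul_right_cancel hab)
        rw [← h7]
        exact Finset.card_le_card h6)
    have h8 : ∀ g ∈ F₀⁻¹ * (W * F), ent P (fun y => fun x : ((W * F) ∩ (F₀ * {g}) : Finset G) =>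
        f ((x : G) • y)) ≤ ent P (win f F₀) := by
      intro g _
      rw [← ent_win_translate hP hf F₀ g]
      exact ent_win_mono hP hf Finset.inter_subset_right
    have h9 := h5.trans (Finset.sum_le_sum h8)
    rw [Finset.sum_const, nsmul_eq_mul, ← mul_assoc] at h9
    have h10 : (F₀.card : ℝ) * ent P (win f (W * F)) ≤ (1 + ε) * F.card * ent P (win f F₀) :=
      (show (F₀.card : ℝ) * ent P (win f (W * F)) ≤ _ from h9).trans
        (mul_le_mul_of_nonneg_right hcard (ent_nonneg _))
    have h11 : (hh P H f' * F₀.card) * F.card ≤ ((1 + ε) * ent P (win f F₀)) * F.card := by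
      calc (hh P H f' * F₀.card) * F.card = F₀.card * (hh P H f' * F.card) := by ring
        _ ≤ F₀.card * ent P (win f (W * F)) :=
          mul_le_mul_of_nonneg_left (h1.trans h2) (Nat.cast_nonneg _)
        _ ≤ (1 + ε) * F.card * ent P (win f F₀) := h10
        _ = _ := by ring
    exact le_of_mul_le_mul_right h11 hFpos
  refine le_of_forall_pos_le_add fun δ hδ => ?_
  have hn : 0 ≤ ent P (win f F₀) := ent_nonneg _
  have h1 := key (δ / (ent P (win f F₀) + 1)) (by positivity)
  have h2 : δ / (ent P (win f F₀) + 1) * ent P (win f F₀) ≤ δ := by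
    rw [div_mul_eq_mul_div, div_le_iff₀ (by positivity)]
    nlinarith
  linarith

end H31.BE
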