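import Pool.Agent.H31.BE.ChDefs
import Pool.Agent.H31.BE.ChSig
import Pool.Agent.H31.BE.ChZ
import Pool.Agent.H31.BE.ChPi
import Pool.Agent.H31.BE.FunA

/-! # ChSum : the inequality for one finite model  (paper section 6, first two lines; module ChSum, ~200 lines)
τ := win lb (ball S R), m := card I. n * FF P H τ <= ∑ t i * ent P (win τ (F i)) - (m-1) n ent P τ, because hh P (H i) τ <= ent P (win τ (F i)) / |F i|
(csInf_le, bounded below by 0; `hh` is in Defs; F i nonempty since t i * |F i| = n >= 1) and n = t i |F i|. By Mdl.e0 this is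
<= ent Q (z, om, π) - m log n!, and ent Q (z, om, π) = ent Q sg-chain: ent (z, om, π) <= ent ((om, π), z, sg) =
 ent sg + entc z sg + entc (om, π) (sg, z)   (`ent_comp_le`, definition of entc, reorder with `ent_inj`).
Apply `ch_sig` (hA from `kap_le`: Nat.card (H i) = (F i).card divides n if H i is finite; regularity: DetOK.d4 and monotonicity of IsReg in the
radius, r i <= N), `ch_z` with lam x := x (one' S R), psi x := fun h => pf (tex x (walk L (tex x) (wd h))),
 Y2 e l v g := match ev (fun s x => ev e (L.bw s (l x)) x) (wR g) v with | some u => l u | none => l v   (d2),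
 Y3 e p v h := match ev e (wd h) v with | some u => p u | none => p v   (d3),
 lam (τ y) = lb y, psi (τ y) = the function in the statement (`walk_congr`, `walk_mem_ball`, hwd, tex (τ y) g = lb (g • y) on the ball),
and `ch_pi` with Y1 e z v s := ev e (L.bw s (z v (one' S R))) v (d1).
kap and log n! cancel. E|BB| <= K ∑ (E|unm i| + cs i), E|unm i| <= |X| (√n + n/√(t i)). Everything else is at most
a constant times log(n+1) (1 + ∑ ...), since log(n a) <= (1 + log a / log 2) log(n+1) for n >= 1, a >= 1 (and log (n * 0) = 0);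
the constant depends on m, K, |X|, |J → Fin k|, number of letters, C i only. -/

set_option autoImplicit false

open MeasureTheory

namespace H31.BE

private theorem log_aux {n : ℕ} (a : ℕ) (hn : 1 ≤ n) :
    Real.log ((n : ℝ) * (a : ℝ)) ≤ (1 + Real.log a / Real.log 2) * Real.log ((n : ℝ) + 1) := by
  have hl2 : 0 < Real.log 2 := Real.log_pos (by norm_num)
  have hn' : (1 : ℝ) ≤ n := by exact_mod_cast hn
  have h2 : Real.log 2 ≤ Real.log ((n : ℝ) + 1) := Real.log_le_log (by norm_num) (by linarith)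
  have h3 : Real.log (n : ℝ) ≤ Real.log ((n : ℝ) + 1) :=
    Real.log_le_log (by linarith) (by linarith)
  rcases Nat.eq_zero_or_pos a with rfl | ha
  · rw [Nat.cast_zero, mul_zero, Real.log_zero, zero_div, add_zero, one_mul]
    linarith
  · have ha' : (1 : ℝ) ≤ a := by exact_mod_cast ha
    have h4 : 0 ≤ Real.log a := Real.log_nonneg ha'
    rw [Real.log_mul (by positivity) (by positivity)]
    have h5 : Real.log a ≤ Real.log a / Real.log 2 * Real.log ((n : ℝ) + 1) := by
      calc Real.log a = Real.log a / Real.log 2 * Real.log 2 := by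
            rw [div_mul_cancel₀ _ hl2.ne']
        _ ≤ _ := mul_le_mul_of_nonneg_left h2 (div_nonneg h4 hl2.le)
    rw [add_mul, one_mul]
    exact add_le_add h3 h5

private theorem log_aux_nonneg (a : ℕ) : 0 ≤ 1 + Real.log a / Real.log 2 := by
  have hl2 : 0 < Real.log 2 := Real.log_pos (by norm_num)
  rcases Nat.eq_zero_or_pos a with rfl | ha
  · simp
  · have ha' : (1 : ℝ) ≤ a := by exact_mod_cast ha
    have h4 : 0 ≤ Real.log a := Real.log_nonneg ha'
    positivity

private theorem log_aux2 {n : ℕ} (c : ℕ) (hn : 1 ≤ n) :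
    Real.log ((n : ℝ) * ((n : ℝ) + 1) ^ c) ≤ (1 + c) * Real.log ((n : ℝ) + 1) := by
  have hn' : (1 : ℝ) ≤ n := by exact_mod_cast hn
  have h3 : Real.log (n : ℝ) ≤ Real.log ((n : ℝ) + 1) :=
    Real.log_le_log (by linarith) (by linarith)
  rw [Real.log_mul (by positivity) (by positivity), Real.log_pow, add_mul, one_mul]
  linarith

/-- the final computation -/
private theorem arith_aux {m l ln lB lX lc cB cX cc EB U CS W K X SC : ℝ}
    {FFn T ent0 fac Qz Qs Qc Qp kp e1 e2 ep : ℝ}
    (hl : 0 ≤ l) (hn : ln ≤ l) (hB : lB ≤ cB * l) (hX : lX ≤ cX * l) (hc : lc ≤ cc * l)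
    (hcB : 0 ≤ cB) (hcX : 0 ≤ cX) (hcc : 0 ≤ cc) (hm : 0 ≤ m) (hK : 0 ≤ K) (hX0 : 0 ≤ X)
    (hSC : 0 ≤ SC) (hEB : 0 ≤ EB) (hU : 0 ≤ U) (hCS : 0 ≤ CS) (hW : 0 ≤ W)
    (hEB' : EB ≤ K * ((X + 1) * W)) (hU' : U ≤ X * W) (hCS' : CS ≤ W)
    (h1 : FFn ≤ T - (m - 1) * ent0) (h2 : T + m * fac - (m - 1) * ent0 ≤ Qz)
    (h3 : Qz ≤ Qs + Qc + Qp)
    (h4 : Qs ≤ m * l + m * fac - kp + m * ep + SC * l * EB)
    (h5 : Qc ≤ e1 + e2 + 2 * l + EB * (lB + lX))
    (h6 : Qp ≤ l + EB * lc + (kp + CS * ln) + (m * l + U * lX)) :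
    FFn ≤ e1 + e2 + m * ep +
      (2 * m + 3 + K * (X + 1) * (SC + cB + cX + cc) + 1 + X * cX) * (l * (1 + W)) := by
  have hcs : CS * ln ≤ W * l :=
    (mul_le_mul_of_nonneg_left hn hCS).trans (mul_le_mul_of_nonneg_right hCS' hl)
  have hux : U * lX ≤ X * W * (cX * l) :=
    (mul_le_mul_of_nonneg_left hX hU).trans
      (mul_le_mul_of_nonneg_right hU' (mul_nonneg hcX hl))
  have hD : SC * l + (lB + lX) + lc ≤ (SC + cB + cX + cc) * l := by nlinarith
  have hDn : 0 ≤ (SC + cB + cX + cc) * l := by positivity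
  have heb : SC * l * EB + EB * (lB + lX) + EB * lc ≤
      K * ((X + 1) * W) * ((SC + cB + cX + cc) * l) := by
    calc SC * l * EB + EB * (lB + lX) + EB * lc = EB * (SC * l + (lB + lX) + lc) := by ring
      _ ≤ EB * ((SC + cB + cX + cc) * l) := mul_le_mul_of_nonneg_left hD hEB
      _ ≤ _ := mul_le_mul_of_nonneg_right hEB' hDn
  have e : FFn ≤ e1 + e2 + m * ep + ((2 * m + 3) * l + W * l + X * W * (cX * l) +
      K * ((X + 1) * W) * ((SC + cB + cX + cc) * l)) := by linarith
  refine e.trans ?_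
  have g1 : 0 ≤ (2 * m + 3) * (l * W) := by positivity
  have g2 : 0 ≤ X * cX * l := by positivity
  have g3 : 0 ≤ K * (X + 1) * (SC + cB + cX + cc) * l := by positivity
  nlinarith

theorem ch_sum {G I Λ Y : Type} [Group G] [DecidableEq G] [Fintype I] [MeasurableSpace Y] [MulAction G Y]
    [Finite Λ] (H : I → Subgroup G) (S : I → Finset G) (hS : ∀ i, Subgroup.closure (S i : Set G) = H i)
    (P : Measure Y) [IsProbabilityMeasure P] (hI : Inv G P) (lb : Y → Λ) (hlb : Fm lb)
    (L : Lab S Λ) (N : ℕ) {k : ℕ} (pf : Λ → Fin k) {J : Type} [Finite J] (wd : J → List (Gn S))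
    (r C : I → ℕ) (hr : ∀ i, r i ≤ N) (R K : ℕ) (wR : ↥(ball S R) → List (Gn S))
    (hwd : ∀ h, L.C * (wd h).length ≤ R) :
    ∃ Cst : ℝ, 0 ≤ Cst ∧ ∀ (n : ℕ) (t : I → ℕ) (F : I → Finset G) (ε : ℝ), 1 ≤ n → 0 ≤ ε →
      (∀ i, ∀ g ∈ F i, g ∈ H i) → (∀ i, Finite (H i) → ∀ g ∈ H i, g ∈ F i) →
      (∀ i, t i * (F i).card = n) →
      (∀ i (D : ℕ), ({f : S i → Fin n → Option (Fin n) | nonreg (S i) f (r i) ≤ D}.ncard : ℝ) ≤
        Real.exp (Real.log n.factorial - kap (H i) n + ε * n + C i * D * Real.log (n + 1))) →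
      ∀ (Ω : Type) [Fintype Ω] [MeasurableSpace Ω] [DiscreteMeasurableSpace Ω] (Q : Measure Ω)
        [IsProbabilityMeasure Q] (z : Ω → Fin n → Ty S R Λ)
        (om : Ω → ∀ i, Fin (t i) → F i → Ty S R Λ) (π : Ω → ∀ i, Fin n ≃ Fin (t i) × F i)
        (sg : Ω → Gn S → Fin n → Option (Fin n)) (BB : Ω → Set (Fin n)),
        Mdl L N R wd wR K P lb F n t Q z om π sg BB →
        n * FF P H (win lb (ball S R)) ≤ n * ent P (fun y => pf (lb y)) +
          n * entc P lb (fun y => fun h : J => pf (lb (walk L (fun g => lb (g • y)) (wd h) • y))) +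
          Fintype.card I * (ε * n) +
          Cst * (Real.log (n + 1) *
            (1 + ∑ i, (Real.sqrt n + n / Real.sqrt (t i) + (cs S F t i : ℝ)))) := by
  classical
  refine ⟨2 * (Fintype.card I : ℝ) + 3 + K * ((Nat.card (Ty S R Λ) : ℝ) + 1) *
    ((∑ i, (C i : ℝ)) + (1 + Real.log (Nat.card (J → Fin k)) / Real.log 2) +
      (1 + Real.log (Nat.card (Ty S R Λ)) / Real.log 2) + (1 + (Fintype.card (Gn S) : ℕ))) + 1 +
      (Nat.card (Ty S R Λ) : ℝ) * (1 + Real.log (Nat.card (Ty S R Λ)) / Real.log 2), ?_, ?_⟩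
  · have a1 := log_aux_nonneg (Nat.card (J → Fin k))
    have a2 := log_aux_nonneg (Nat.card (Ty S R Λ))
    have a3 : (0 : ℝ) ≤ ∑ i, (C i : ℝ) := Finset.sum_nonneg fun i _ => Nat.cast_nonneg _
    positivity
  intro n t F ε hn hε hF1 hF2 htn hcount Ω _ _ _ Q _ z om π sg BB hM
  have hτ : Fm (win lb (ball S R)) := hlb.win hI _
  have hFm : ∀ {α : Type} (f : Ω → α), Fm f := fun f a => MeasurableSet.of_discrete
  have hnR : (1 : ℝ) ≤ n := by exact_mod_cast hn
  have hl : 0 ≤ Real.log ((n : ℝ) + 1) := Real.log_nonneg (by linarith)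
  have hFc : ∀ i, 0 < (F i).card := by
    intro i
    rcases Nat.eq_zero_or_pos (F i).card with h | h
    · have := htn i
      rw [h, mul_zero] at this
      omega
    · exact h
  -- step 1
  have h1 : (n : ℝ) * FF P H (win lb (ball S R)) ≤
      (∑ i, (t i : ℝ) * ent P (win (win lb (ball S R)) (F i))) -
        ((Fintype.card I : ℝ) - 1) * (n * ent P (win lb (ball S R))) := by
    have a1 : ∀ i, (n : ℝ) * hh P (H i) (win lb (ball S R)) ≤
        (t i : ℝ) * ent P (win (win lb (ball S R)) (F i)) := by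
      intro i
      have b1 := hh_le (P := P) (H i) (win lb (ball S R)) (F i) (Finset.card_pos.1 (hFc i)) (hF1 i)
      have b2 : (0 : ℝ) < (F i).card := by exact_mod_cast hFc i
      have b3 : (n : ℝ) = t i * (F i).card := by
        rw [← htn i]; push_cast; ring
      calc (n : ℝ) * hh P (H i) (win lb (ball S R)) ≤
            n * (ent P (win (win lb (ball S R)) (F i)) / (F i).card) :=
            mul_le_mul_of_nonneg_left b1 (by linarith)
        _ = _ := by
            rw [b3]
            field_simp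
    have a2 := Finset.sum_le_sum (s := Finset.univ) fun i (_ : i ∈ Finset.univ) => a1 i
    rw [← Finset.mul_sum] at a2
    unfold FF
    calc (n : ℝ) * (∑ i, hh P (H i) (win lb (ball S R)) -
          ((Fintype.card I : ℝ) - 1) * ent P (win lb (ball S R))) =
          n * ∑ i, hh P (H i) (win lb (ball S R)) -
            ((Fintype.card I : ℝ) - 1) * (n * ent P (win lb (ball S R))) := by ring
      _ ≤ _ := by linarith
  -- step 2
  have h2 : (∑ i, (t i : ℝ) * ent P (win (win lb (ball S R)) (F i))) +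
      (Fintype.card I : ℝ) * Real.log n.factorial -
        ((Fintype.card I : ℝ) - 1) * (n * ent P (win lb (ball S R))) ≤
        ent Q (fun ω => (z ω, om ω, π ω)) := by
    have a1 := hM.e0
    rw [Finset.sum_add_distrib, Finset.sum_const, Finset.card_univ, nsmul_eq_mul] at a1
    exact a1
  -- step 3
  have h3 : ent Q (fun ω => (z ω, om ω, π ω)) ≤ ent Q sg + entc Q z sg +
      entc Q (fun ω => (om ω, π ω)) (fun ω => (sg ω, z ω)) := by
    have a1 := ent_comp_le (P := Q) (hFm fun ω => ((om ω, π ω), (sg ω, z ω)))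
      (fun x => (x.2.2, x.1.1, x.1.2))
    have a2 := ent_comp_le (P := Q) (hFm fun ω => (z ω, sg ω)) (fun x => (x.2, x.1))
    unfold entc
    linarith
  -- step 4
  have hcard : ∀ i, Finite (H i) → Nat.card (H i) ∣ n := by
    intro i hi
    have a1 : Nat.card (H i) = (F i).card := by
      have a2 : ∀ g, g ∈ F i ↔ g ∈ H i := fun g => ⟨hF1 i g, hF2 i hi g⟩
      have a3 : Nat.card (H i) = Nat.card (F i) :=
        Nat.card_congr (Equiv.subtypeEquivRight fun g => (a2 g).symm)
      rw [a3, Nat.card_eq_fintype_card, Fintype.card_coe]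
    rw [a1]
    exact Dvd.intro_left _ (htn i)
  have h4 := ch_sig Q H S n ε r C (fun i => by
      have a1 := kap_le (H i) n (hcard i)
      have a2 : 0 ≤ ε * n := by positivity
      linarith) (fun i D => hcount i D) sg BB (by
      filter_upwards [hM.ok] with ω hω v hv i w hw
      obtain ⟨u, a1, a2, a3⟩ := (hω v hv).d4 i w (hw.trans (hr i))
      exact ⟨u, a1, a2, fun w' hw' => a3 w' (hw'.trans (hr i))⟩)
  -- step 5
  have h5 := ch_z Q P (win lb (ball S R)) hτ n hn z sg (fun x => x (one' S R)) pf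
    (fun x => fun h : J => pf (tex x (walk L (tex x) (wd h))))
    (fun e l v g => match ev (fun s x => ev e (L.bw s (l x)) x) (wR g) v with
      | some u => l u
      | none => l v)
    (fun e p v h => match ev e (wd h) v with
      | some u => p u
      | none => p v) BB (fun v x => hM.law v x) (by
      filter_upwards [hM.ok] with ω hω v hv
      funext g
      obtain ⟨u, a1, a2⟩ := (hω v hv).d2 g
      rw [a1]
      exact a2.symm) (by
      filter_upwards [hM.ok] with ω hω v hv
      funext h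
      obtain ⟨u, a1, a2⟩ := (hω v hv).d3 h
      rw [a1]
      exact congrArg pf a2.symm)
  have hlam : ∀ y, (win lb (ball S R) y) (one' S R) = lb y := by
    intro y
    change lb ((1 : G) • y) = lb y
    rw [one_smul]
  have hpsi : ∀ y, (fun h : J => pf (tex (win lb (ball S R) y)
      (walk L (tex (win lb (ball S R) y)) (wd h)))) =
      fun h : J => pf (lb (walk L (fun g => lb (g • y)) (wd h) • y)) := by
    intro y
    funext h
    have a1 : ∀ g ∈ ball S (L.C * (wd h).length), tex (win lb (ball S R) y) g = lb (g • y) := by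
      intro g hg
      have a2 : g ∈ ball S R := ball_mono (hwd h) hg
      unfold tex
      rw [dif_pos a2]
      rfl
    rw [walk_congr L (tex (win lb (ball S R) y)) (fun g => lb (g • y)) (wd h) le_rfl a1,
      a1 _ (walk_mem_ball L _ (wd h) le_rfl)]
  have h5' : entc Q z sg ≤ n * ent P (fun y => pf (lb y)) +
      n * entc P lb (fun y => fun h : J => pf (lb (walk L (fun g => lb (g • y)) (wd h) • y))) +
      2 * Real.log (n + 1) + (∫ ω, ((BB ω).ncard : ℝ) ∂Q) *
        (Real.log (n * Nat.card (J → Fin k)) + Real.log (n * Nat.card (Ty S R Λ))) := by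
    have a1 : (fun y => pf ((win lb (ball S R) y) (one' S R))) = fun y => pf (lb y) := by
      funext y; rw [hlam]
    have a2 : (fun y => (win lb (ball S R) y) (one' S R)) = lb := by
      funext y; rw [hlam]
    have a3 : (fun y => fun h : J => pf (tex (win lb (ball S R) y)
      (walk L (tex (win lb (ball S R) y)) (wd h)))) =
      fun y => fun h : J => pf (lb (walk L (fun g => lb (g • y)) (wd h) • y)) := by
      funext y; exact hpsi y
    rw [a1, a2, a3] at h5
    exact h5
  -- step 6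
  have h6 := ch_pi Q H S F hS (fun i hi g => ⟨hF1 i g, hF2 i hi g⟩) n hn t htn z om π sg
    (fun e z v s => ev e (L.bw s (z v (one' S R))) v) BB (by
      filter_upwards [hM.ok] with ω hω v hv s
      exact (hω v hv).d1 s)
  -- the numbers
  have hEB : 0 ≤ ∫ ω, ((BB ω).ncard : ℝ) ∂Q := integral_nonneg fun ω => Nat.cast_nonneg _
  have hEU : ∀ i, 0 ≤ ∫ ω, ((unm (z ω) (om ω) (π ω) i).ncard : ℝ) ∂Q :=
    fun i => integral_nonneg fun ω => Nat.cast_nonneg _
  have hw : ∀ i, 0 ≤ Real.sqrt n + n / Real.sqrt (t i) := fun i => by positivity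
  have hX0 : (0 : ℝ) ≤ Nat.card (Ty S R Λ) := Nat.cast_nonneg _
  have hU' : ∑ i, (∫ ω, ((unm (z ω) (om ω) (π ω) i).ncard : ℝ) ∂Q) ≤
      (Nat.card (Ty S R Λ) : ℝ) *
        ∑ i, (Real.sqrt n + n / Real.sqrt (t i) + (cs S F t i : ℝ)) := by
    rw [Finset.mul_sum]
    refine Finset.sum_le_sum fun i _ => (hM.un i).trans ?_
    refine mul_le_mul_of_nonneg_left ?_ hX0
    have : (0 : ℝ) ≤ (cs S F t i : ℝ) := Nat.cast_nonneg _
    linarith
  have hCS' : ∑ i, (cs S F t i : ℝ) ≤
      ∑ i, (Real.sqrt n + n / Real.sqrt (t i) + (cs S F t i : ℝ)) := by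
    refine Finset.sum_le_sum fun i _ => ?_
    have := hw i
    linarith
  have hEB' : ∫ ω, ((BB ω).ncard : ℝ) ∂Q ≤ K * (((Nat.card (Ty S R Λ) : ℝ) + 1) *
      ∑ i, (Real.sqrt n + n / Real.sqrt (t i) + (cs S F t i : ℝ))) := by
    refine hM.bb.trans (mul_le_mul_of_nonneg_left ?_ (Nat.cast_nonneg _))
    rw [Finset.sum_add_distrib, add_mul, one_mul]
    exact add_le_add hU' hCS'
  have hcsl : ∑ i, (kap (H i) n + (t i * ((F i).filter
      (fun f => ∃ s ∈ S i, s * f ∉ F i)).card : ℕ) * Real.log n) =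
      ∑ i, kap (H i) n + (∑ i, (cs S F t i : ℝ)) * Real.log n := by
    rw [Finset.sum_add_distrib, Finset.sum_mul]
    rfl
  have h4' : ent Q sg ≤ (Fintype.card I : ℝ) * Real.log (n + 1) +
      (Fintype.card I : ℝ) * Real.log n.factorial - ∑ i, kap (H i) n +
      (Fintype.card I : ℝ) * (ε * n) +
      (∑ i, (C i : ℝ)) * Real.log (n + 1) * ∫ ω, ((BB ω).ncard : ℝ) ∂Q := by
    refine h4.trans (le_of_eq ?_)
    simp only [Finset.sum_add_distrib, Finset.sum_sub_distrib, Finset.sum_const,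
      Finset.card_univ, nsmul_eq_mul, Finset.sum_mul]
    ring
  have h6' : entc Q (fun ω => (om ω, π ω)) (fun ω => (sg ω, z ω)) ≤ Real.log (n + 1) +
      (∫ ω, ((BB ω).ncard : ℝ) ∂Q) * Real.log (n * (n + 1) ^ (Fintype.card (Gn S))) +
      (∑ i, kap (H i) n + (∑ i, (cs S F t i : ℝ)) * Real.log n) +
      ((Fintype.card I : ℝ) * Real.log (n + 1) +
        (∑ i, (∫ ω, ((unm (z ω) (om ω) (π ω) i).ncard : ℝ) ∂Q)) *
          Real.log (n * Nat.card (Ty S R Λ))) := by
    refine h6.trans (le_of_eq ?_)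
    rw [hcsl, Finset.sum_add_distrib, Finset.sum_const, Finset.card_univ, nsmul_eq_mul,
      ← Finset.sum_mul]
  have hfin := arith_aux hl
    (Real.log_le_log (by linarith) (by linarith) : Real.log (n : ℝ) ≤ Real.log ((n : ℝ) + 1))
    (log_aux (Nat.card (J → Fin k)) hn) (log_aux (Nat.card (Ty S R Λ)) hn)
    (log_aux2 (Fintype.card (Gn S)) hn) (log_aux_nonneg _) (log_aux_nonneg _) (by positivity)
    (Nat.cast_nonneg (Fintype.card I)) (Nat.cast_nonneg K) hX0
    (Finset.sum_nonneg fun i _ => Nat.cast_nonneg (C i)) hEB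
    (Finset.sum_nonneg fun i _ => hEU i)
    (Finset.sum_nonneg fun i _ => Nat.cast_nonneg (cs S F t i))
    (Finset.sum_nonneg fun i _ => add_nonneg (hw i) (Nat.cast_nonneg _))
    hEB' hU' hCS' h1 h2 h3 h4' h5' h6'
  exact hfin

end H31.BE
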