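import Pool.Agent.H31.BE.Words

/-! # CntDefs : regular vertices, the counting property, hypotheses on the factors. Definitions only. -/

set_option autoImplicit false

namespace H31.BE

open scoped Pointwise

noncomputable section

variable {G : Type} [Group G]

/-- product of a word in letters of the finite set `S` -/
def sprod {S : Finset G} (w : List S) : G := (w.map (fun s : S => (s : G))).prod

/-- `v` is `r`-regular for the family `f` of partial maps of `V` -/
def IsReg (S : Finset G) {V : Type} (f : S → V → Option V) (r : ℕ) (v : V) : Prop :=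
  ∀ w : List S, w.length ≤ r → ∃ u, ev f w v = some u ∧ (sprod w ≠ 1 → u ≠ v) ∧
    ∀ w' : List S, w'.length ≤ r → sprod w' = sprod w → ev f w' v = some u

/-- number of vertices that are not `r`-regular -/
def nonreg (S : Finset G) {V : Type} (f : S → V → Option V) (r : ℕ) : ℕ := {v | ¬ IsReg S f r v}.ncard

/-- the correction term of a finite factor -/
def kap (H : Subgroup G) (n : ℕ) : ℝ :=
  open Classical in
  if Finite H then Real.log ((n / Nat.card H).factorial) + (n / Nat.card H : ℕ) * Real.log (Nat.card H) else 0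

/-- the counting property (U) of the paper -/
def CountProp (H : Subgroup G) (S : Finset G) : Prop :=
  ∀ ε : ℝ, 0 < ε → ∃ r C n0 : ℕ, ∀ n, n0 ≤ n → (Finite H → Nat.card H ∣ n) → ∀ D : ℕ,
    ({f : S → Fin n → Option (Fin n) | nonreg S f r ≤ D}.ncard : ℝ) ≤
      Real.exp (Real.log n.factorial - kap H n + ε * n + C * D * Real.log (n + 1))

/-- a series t 0, ..., t q of generators: t 0 has infinite order and each `t j` conjugates the earlier ones into the
subgroup generated by the earlier ones; `S` is the set of the `t j` and their inverses -/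
structure Series (H : Subgroup G) (S : Finset G) (q : ℕ) (t : Fin (q + 1) → G) : Prop where
  hS : ∀ g, g ∈ S ↔ ∃ j, g = t j ∨ g = (t j)⁻¹
  gen : Subgroup.closure (Set.range t) = H
  inf : ∀ m : ℕ, 1 ≤ m → (t 0) ^ m ≠ 1
  conj : ∀ j l, l < j → t j * t l * (t j)⁻¹ ∈ Subgroup.closure {g | ∃ i, i < j ∧ g = t i}

/-- subexponential Folner function -/
def SubF [DecidableEq G] (H : Subgroup G) : Prop :=
  ∀ K : Finset G, (∀ g ∈ K, g ∈ H) → ∀ η : ℝ, 0 < η → ∃ k0 : ℕ, ∀ k, k0 ≤ k →
    ∃ F : Finset G, F.Nonempty ∧ (∀ g ∈ F, g ∈ H) ∧ (k : ℝ) * ((K * F) \ F).card ≤ F.card ∧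
      (F.card : ℝ) ≤ Real.exp (η * k)

/-- number of classes of a setoid -/
def ncl {V : Type} (R : Setoid V) : ℕ := Nat.card (Quotient R)

/-- `R` joined with the arrows `a ⟶ g a` -/
def joinS {V : Type} (R : Setoid V) (g : V → Option V) : Setoid V :=
  R ⊔ Relation.EqvGen.setoid (fun a b => g a = some b)

end

end H31.BE
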