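import Pool.Agent.H31.BE.CntRR

/-! # CntDet : the tables determine the maps  (paper 5.2; module CntDet, ~170 lines)
Fix r at least r1, where r1 := 3 + the lengths of chosen words w_{j,l} (l < j) in the letters t i, (t i)⁻¹ (i < j) with product
t j * t l * (t j)⁻¹ (and the inverse words). (words exist: Subgroup.closure_induction, `Series.conj`.)

`det_pos`: f, f' two families with the same regular points, equal at the nonregular points, seg OK for both, equal maps for all t l, (t l)⁻¹
with l < j, and equal tables of level j (with respect to the common partition RR j). Then f (t j) = f' (t j).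
Proof. By induction on i <= j: RR f i = RR f' i (the tables of level l < j agree because the maps agree), and RR f i is generated by a
relation all of whose pairs (v, w) satisfy: v regular and f (t l) v = some w for some l < i (for i = 0: segments, l = 0; but for
j = 0 nothing is needed).
 j = 0: v nonregular: equal by hypothesis. v = seg (i, j') with j'+1 < L: both are some (seg (i, j'+1)). Otherwise v ∈ A0 regular: table.
 j >= 1: Z := {v | f (t j) v = f' (t j) v} contains the nonregular points and the least regular point of every class of RR j that has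
 regular points (its table entry is f (t j) v). For a generating pair (v, w) (v regular, w = f (t l) v, l < j): f (t j) w is obtained from
 f (t j) v by evaluating the word w_{j,l} (ev f [t j, t l] v = ev f (w_{j,l} ++ [t j]) v as both have product t j * t l; regularity of v), and
 f (t j) v from f (t j) w by the inverse word (words [t j] and w⁻¹ ++ [t j, t l], same product); these words use only letters t i, (t i)⁻¹ with
 i < j, for which f = f'. So v ∈ Z iff w ∈ Z. Hence Z is a union of classes, Z = everything.

`det_neg`: given f (t j) (the whole map), f ((t j)⁻¹) differs from the guess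
 guess v := if there is exactly one u with f (t j) u = some v then some u else none
at at most 2 * nonreg places (for regular v: u := f (t j)⁻¹ v satisfies f (t j) u = some v; if there is another u' then one of u, u' is nonregular,
because two regular ones have u = f (t j)⁻¹ (f (t j) u) = f (t j)⁻¹ v = u'; each nonregular u is responsible for one v only). -/

set_option autoImplicit false

namespace H31.BE

variable {G : Type} [Group G] {H : Subgroup G} {S : Finset G} {q : ℕ} {t : Fin (q + 1) → G} {n : ℕ}

private theorem ev_app {V X : Type} (f : X → V → Option V) (w w' : List X) (v : V) :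
    ev f (w ++ w') v = (ev f w' v).bind (ev f w) := by
  induction w with
  | nil =>
    change ev f w' v = (ev f w' v).bind (fun v => some v)
    cases ev f w' v <;> rfl
  | cons a w ih =>
    change (ev f (w ++ w') v).bind (f a) = (ev f w' v).bind (fun v => (ev f w v).bind (f a))
    rw [ih]
    cases ev f w' v <;> rfl

private theorem ev_one {V X : Type} (f : X → V → Option V) (s : X) (v : V) : ev f [s] v = f s v := rfl

private theorem ev_two {V X : Type} (f : X → V → Option V) (s s' : X) (v : V) :
    ev f [s, s'] v = (f s' v).bind (f s) := rfl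

private theorem ev_congr {V X : Type} (f f' : X → V → Option V) (w : List X)
    (h : ∀ s ∈ w, f s = f' s) (v : V) : ev f w v = ev f' w v := by
  induction w with
  | nil => rfl
  | cons a w ih =>
    change (ev f w v).bind (f a) = (ev f' w v).bind (f' a)
    rw [ih fun s hs => h s (List.mem_cons_of_mem _ hs), h a List.mem_cons_self]

private theorem sprod_app (w w' : List S) : sprod (w ++ w') = sprod w * sprod w' := by
  simp [sprod]

private theorem sprod_one (s : S) : sprod [s] = (s : G) := by
  simp [sprod]

/-- words in letters of index `< j` -/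
private def WJ (h : Series H S q t) (j : Fin (q + 1)) (w : List S) : Prop :=
  ∀ s ∈ w, ∃ i, i < j ∧ (s = pos h i ∨ s = neg h i)

private theorem exists_wj (h : Series H S q t) (j : Fin (q + 1)) (g : G)
    (hg : g ∈ Subgroup.closure {g | ∃ i, i < j ∧ g = t i}) : ∃ w : List S, WJ h j w ∧ sprod w = g := by
  have key : ∀ g, g ∈ Subgroup.closure {g | ∃ i, i < j ∧ g = t i} →
      (∃ w : List S, WJ h j w ∧ sprod w = g) ∧ (∃ w : List S, WJ h j w ∧ sprod w = g⁻¹) := by
    intro g hg
    induction hg using Subgroup.closure_induction with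
    | mem x hx =>
      obtain ⟨i, hi, rfl⟩ := hx
      refine ⟨⟨[pos h i], ?_, by rw [sprod_one]; rfl⟩, ⟨[neg h i], ?_, by rw [sprod_one]; rfl⟩⟩
      · intro s hs
        exact ⟨i, hi, Or.inl (List.mem_singleton.1 hs)⟩
      · intro s hs
        exact ⟨i, hi, Or.inr (List.mem_singleton.1 hs)⟩
    | one =>
      refine ⟨⟨[], ?_, by simp [sprod]⟩, ⟨[], ?_, by simp [sprod]⟩⟩
      · intro s hs
        simp at hs
      · intro s hs
        simp at hs
    | mul x y _ _ ihx ihy =>
      obtain ⟨⟨w1, hw1, e1⟩, ⟨w2, hw2, e2⟩⟩ := ihx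
      obtain ⟨⟨w3, hw3, e3⟩, ⟨w4, hw4, e4⟩⟩ := ihy
      refine ⟨⟨w1 ++ w3, ?_, by rw [sprod_app, e1, e3]⟩, ⟨w4 ++ w2, ?_, by rw [sprod_app, e4, e2, mul_inv_rev]⟩⟩
      · intro s hs
        rcases List.mem_append.1 hs with hs | hs
        · exact hw1 s hs
        · exact hw3 s hs
      · intro s hs
        rcases List.mem_append.1 hs with hs | hs
        · exact hw4 s hs
        · exact hw2 s hs
    | inv x _ ih =>
      refine ⟨ih.2, ?_⟩
      rw [inv_inv]
      exact ih.1
  exact (key g hg).1

private theorem exists_bound (h : Series H S q t) : ∃ N : ℕ, ∀ j l, l < j →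
    (∃ w : List S, WJ h j w ∧ sprod w = t j * t l * (t j)⁻¹ ∧ w.length ≤ N) ∧
    (∃ w : List S, WJ h j w ∧ sprod w = (t j * t l * (t j)⁻¹)⁻¹ ∧ w.length ≤ N) := by
  have h1 : ∀ x : Fin (q + 1) × Fin (q + 1), ∃ N : ℕ, x.2 < x.1 →
    (∃ w : List S, WJ h x.1 w ∧ sprod w = t x.1 * t x.2 * (t x.1)⁻¹ ∧ w.length ≤ N) ∧
    (∃ w : List S, WJ h x.1 w ∧ sprod w = (t x.1 * t x.2 * (t x.1)⁻¹)⁻¹ ∧ w.length ≤ N) := by
    intro x
    by_cases hx : x.2 < x.1
    · obtain ⟨w1, a1, b1⟩ := exists_wj h x.1 _ (h.conj x.1 x.2 hx)
      obtain ⟨w2, a2, b2⟩ := exists_wj h x.1 _ (Subgroup.inv_mem _ (h.conj x.1 x.2 hx))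
      exact ⟨max w1.length w2.length, fun _ => ⟨⟨w1, a1, b1, le_max_left _ _⟩, ⟨w2, a2, b2, le_max_right _ _⟩⟩⟩
    · exact ⟨0, fun h => absurd h hx⟩
  choose N hN using h1
  refine ⟨Finset.univ.sup N, fun j l hl => ?_⟩
  have h2 : N (j, l) ≤ Finset.univ.sup N := Finset.le_sup (f := N) (Finset.mem_univ _)
  obtain ⟨⟨w1, a1, b1, c1⟩, ⟨w2, a2, b2, c2⟩⟩ := hN (j, l) hl
  exact ⟨⟨w1, a1, b1, c1.trans h2⟩, ⟨w2, a2, b2, c2.trans h2⟩⟩

/-- two words with the same product agree at a regular point -/
private theorem reg_eq {V : Type} {f : S → V → Option V} {r : ℕ} {v : V} (hv : IsReg S f r v)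
    (w w' : List S) (hw : w.length ≤ r) (hw' : w'.length ≤ r) (hp : sprod w' = sprod w) :
    ev f w' v = ev f w v := by
  obtain ⟨u, h1, -, h3⟩ := hv w hw
  rw [h1, h3 w' hw' hp]

private theorem rr_gen (h : Series H S q t) (f : S → Fin n → Option (Fin n)) (r : ℕ) {M L : ℕ}
    (seg : Fin M × Fin L → Fin n) (hseg : SegOK h f r seg) (j : Fin (q + 1)) (hj : 1 ≤ j.val)
    (i : ℕ) (hi : i ≤ j.val) :
    RR h f r seg i ≤ Relation.EqvGen.setoid (fun v w => IsReg S f r v ∧ ∃ l, l < j ∧ f (pos h l) v = some w) := by
  induction i with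
  | zero =>
    intro a b hab
    change Relation.EqvGen _ a b at hab
    refine Relation.EqvGen.mono ?_ _ _ hab
    rintro x y ⟨i, k, hk, rfl, rfl⟩
    obtain ⟨h1, h2⟩ := hseg.2 i k hk
    exact ⟨h1, 0, by rw [Fin.lt_def]; exact hj, h2⟩
  | succ i ih =>
    have hiq : i < q + 1 := by have := j.2; omega
    have h1 : RR h f r seg (i + 1) = joinS (RR h f r seg i) (gt h f r seg (RR h f r seg i) ⟨i, hiq⟩) := by
      rw [RR, dif_pos hiq]
    rw [h1]
    refine sup_le (ih (by omega)) ?_
    intro a b hab
    change Relation.EqvGen _ a b at hab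
    refine Relation.EqvGen.mono ?_ _ _ hab
    intro x y hxy
    unfold gt at hxy
    split_ifs at hxy with hc
    exact ⟨hc.1, ⟨i, hiq⟩, by rw [Fin.lt_def]; simpa using hi, hxy⟩

private theorem rr_eq (h : Series H S q t) (f f' : S → Fin n → Option (Fin n)) (r : ℕ) {M L : ℕ}
    (seg : Fin M × Fin L → Fin n) (j : Fin (q + 1))
    (hreg : ∀ v, IsReg S f r v ↔ IsReg S f' r v)
    (hl : ∀ l, l < j → f (pos h l) = f' (pos h l)) (i : ℕ) (hi : i ≤ j.val) :
    RR h f r seg i = RR h f' r seg i := by
  induction i with
  | zero => rfl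
  | succ i ih =>
    have hiq : i < q + 1 := by have := j.2; omega
    rw [RR, dif_pos hiq, RR, dif_pos hiq, ih (by omega)]
    have h2 : f (pos h ⟨i, hiq⟩) = f' (pos h ⟨i, hiq⟩) := hl _ (by rw [Fin.lt_def]; simpa using hi)
    have h3 : ∀ v, IsReg S f r v = IsReg S f' r v := fun v => propext (hreg v)
    congr 1
    funext v
    unfold gt
    have h4 : (IsReg S f r v ∧ (i = 0 ∧ v ∈ A0 seg ∨ i ≠ 0 ∧ ∀ (u : Fin n), IsReg S f r u →
        (RR h f' r seg i) u v → v ≤ u)) ↔ (IsReg S f' r v ∧ (i = 0 ∧ v ∈ A0 seg ∨ i ≠ 0 ∧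
        ∀ (u : Fin n), IsReg S f' r u → (RR h f' r seg i) u v → v ≤ u)) := by
      simp only [h3]
    split_ifs with c1 c2 c2
    · exact congrFun h2 v
    · exact absurd (h4.1 c1) c2
    · exact absurd (h4.2 c2) c1
    · rfl

theorem det_pos (h : Series H S q t) : ∃ r1 : ℕ, ∀ r, r1 ≤ r → ∀ (n M L : ℕ)
    (f f' : S → Fin n → Option (Fin n)) (seg : Fin M × Fin L → Fin n) (j : Fin (q + 1)),
    (∀ v, IsReg S f r v ↔ IsReg S f' r v) → (∀ v s, ¬ IsReg S f r v → f s v = f' s v) →
    SegOK h f r seg → SegOK h f' r seg →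
    (∀ l, l < j → f (pos h l) = f' (pos h l) ∧ f (neg h l) = f' (neg h l)) →
    gt h f r seg (RR h f r seg j) j = gt h f' r seg (RR h f' r seg j) j →
    f (pos h j) = f' (pos h j) ∧ RR h f r seg j = RR h f' r seg j := by
  obtain ⟨N, hN⟩ := exists_bound h
  refine ⟨N + 3, fun r hr n M L f f' seg j hreg hnr hs hs' hl htab => ?_⟩
  have hRR : RR h f r seg j = RR h f' r seg j :=
    rr_eq h f f' r seg j hreg (fun l hl' => (hl l hl').1) j.val le_rfl
  refine ⟨?_, hRR⟩
  rw [← hRR] at htab
  have htab' : ∀ v, IsReg S f r v → ((j.val = 0 ∧ v ∈ A0 seg) ∨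
      (j.val ≠ 0 ∧ ∀ u, IsReg S f r u → (RR h f r seg j) u v → v ≤ u)) → f (pos h j) v = f' (pos h j) v := by
    intro v hv hc
    have h1 := congrFun htab v
    unfold gt at h1
    rw [if_pos ⟨hv, hc⟩, if_pos] at h1
    · exact h1
    · refine ⟨(hreg v).1 hv, hc.imp id ?_⟩
      rintro ⟨h2, h3⟩
      exact ⟨h2, fun u hu huv => h3 u ((hreg u).2 hu) huv⟩
  by_cases hj : j.val = 0
  · -- level 0
    have hj0 : j = 0 := Fin.ext hj
    funext v
    by_cases hv : IsReg S f r v
    · by_cases hA : v ∈ A0 seg
      · exact htab' v hv (Or.inl ⟨hj, hA⟩)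
      · unfold A0 at hA
        rw [Set.mem_ofPred_eq] at hA
        push Not at hA
        obtain ⟨i, k, hk, rfl⟩ := hA
        rw [hj0, (hs.2 i k hk).2, (hs'.2 i k hk).2]
    · exact hnr v _ hv
  · -- level >= 1
    have hZ : ∀ a b, RR h f r seg j a b → (f (pos h j) a = f' (pos h j) a ↔ f (pos h j) b = f' (pos h j) b) := by
      intro a b hab
      have h1 : Relation.EqvGen (fun v w => IsReg S f r v ∧ ∃ l, l < j ∧ f (pos h l) v = some w) a b :=
        rr_gen h f r seg hs j (by omega) j.val le_rfl hab
      clear hab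
      induction h1 with
      | rel x y hxy =>
        obtain ⟨hx, l, hlj, hxy⟩ := hxy
        have hx' := (hreg x).1 hx
        have hxy' : f' (pos h l) x = some y := by rw [← (hl l hlj).1]; exact hxy
        obtain ⟨⟨c, hc1, hc2, hc3⟩, ⟨d, hd1, hd2, hd3⟩⟩ := hN j l hlj
        have hlet : ∀ w : List S, WJ h j w → ∀ s ∈ w, f s = f' s := by
          intro w hw s hs
          obtain ⟨i, hi, rfl | rfl⟩ := hw s hs
          · exact (hl i hi).1
          · exact (hl i hi).2
        have e1 : ∀ g : S → Fin n → Option (Fin n), IsReg S g r x → g (pos h l) x = some y →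
            g (pos h j) y = (g (pos h j) x).bind (ev g c) := by
          intro g hg hgx
          have h2 := reg_eq hg (c ++ [pos h j]) [pos h j, pos h l] (by simp; omega) (by simp; omega) (by
            rw [sprod_app, hc2, sprod_one]
            simp [sprod, pos])
          rw [ev_two, ev_app, ev_one, hgx] at h2
          exact h2
        have e2 : ∀ g : S → Fin n → Option (Fin n), IsReg S g r x → g (pos h l) x = some y →
            g (pos h j) x = (g (pos h j) y).bind (ev g d) := by
          intro g hg hgx
          have h2 := reg_eq hg (d ++ [pos h j, pos h l]) [pos h j] (by simp; omega) (by simp; omega) (by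
            rw [sprod_app, hd2, sprod_one]
            have h5 : sprod [pos h j, pos h l] = t j * t l := by simp [sprod, pos]
            rw [h5]
            change t j = (t j * t l * (t j)⁻¹)⁻¹ * (t j * t l)
            group)
          rw [ev_one, ev_app, ev_two, hgx] at h2
          exact h2
        have ec : ev f c = ev f' c := funext fun v => ev_congr f f' c (hlet c hc1) v
        have ed : ev f d = ev f' d := funext fun v => ev_congr f f' d (hlet d hd1) v
        constructor
        · intro h3
          rw [e1 f hx hxy, e1 f' hx' hxy', h3, ec]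
        · intro h3
          rw [e2 f hx hxy, e2 f' hx' hxy', h3, ed]
      | refl x => exact Iff.rfl
      | symm x y _ ih => exact ih.symm
      | trans x y z _ _ ih1 ih2 => exact ih1.trans ih2
    funext v
    by_cases hv : IsReg S f r v
    · classical
      let U : Finset (Fin n) := Finset.univ.filter fun u => IsReg S f r u ∧ RR h f r seg j u v
      have hU : U.Nonempty := ⟨v, by
        rw [Finset.mem_filter]
        exact ⟨Finset.mem_univ _, hv, (RR h f r seg j).refl v⟩⟩
      have hm := U.min'_mem hU
      rw [Finset.mem_filter] at hm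
      refine (hZ _ v hm.2.2).1 (htab' _ hm.2.1 (Or.inr ⟨hj, fun u hu hur => ?_⟩))
      refine U.min'_le u ?_
      rw [Finset.mem_filter]
      exact ⟨Finset.mem_univ _, hu, (RR h f r seg j).trans hur hm.2.2⟩
    · exact hnr v _ hv

open Classical in
/-- the guess for the map of the inverse letter -/
noncomputable def guess (p : Fin n → Option (Fin n)) : Fin n → Option (Fin n) := fun v =>
  if hu : ∃! u, p u = some v then some hu.choose else none

theorem det_neg (h : Series H S q t) (r : ℕ) (hr : 2 ≤ r) (f : S → Fin n → Option (Fin n)) (j : Fin (q + 1)) :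
    {v | f (neg h j) v ≠ guess (f (pos h j)) v}.ncard ≤ 2 * nonreg S f r := by
  classical
  have hsub : {v | f (neg h j) v ≠ guess (f (pos h j)) v} ⊆
      {v | ¬ IsReg S f r v} ∪ (fun u => (f (pos h j) u).getD u) '' {v | ¬ IsReg S f r v} := by
    intro v hv
    rw [Set.mem_ofPred_eq] at hv
    by_cases hreg : IsReg S f r v
    · right
      have e1 := reg_eq hreg [] [pos h j, neg h j] (by simp) (by simpa using hr) (by simp [sprod, pos, neg])
      rw [ev_two] at e1
      obtain ⟨u, hu, -, -⟩ := hreg [neg h j] (by simp; omega)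
      rw [ev_one] at hu
      rw [hu] at e1
      have e2 : f (pos h j) u = some v := e1
      have e3 : ¬ ∃! u, f (pos h j) u = some v := by
        intro hex
        apply hv
        unfold guess
        rw [dif_pos hex, hu]
        exact congrArg some (hex.unique e2 hex.choose_spec.1)
      have e4 : ∃ u', f (pos h j) u' = some v ∧ u' ≠ u := by
        by_contra hcon
        push Not at hcon
        exact e3 ⟨u, e2, fun y hy => hcon y hy⟩
      obtain ⟨u', hu', hne⟩ := e4
      have e5 : ∀ x, IsReg S f r x → f (pos h j) x = some v → x = u := by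
        intro x hx hxv
        have e6 := reg_eq hx [] [neg h j, pos h j] (by simp) (by simpa using hr) (by simp [sprod, pos, neg])
        rw [ev_two, hxv] at e6
        have e7 : f (neg h j) v = some x := e6
        rw [hu] at e7
        exact (Option.some.inj e7).symm
      refine ⟨u', fun hx => hne (e5 u' hx hu'), ?_⟩
      change (f (pos h j) u').getD u' = v
      rw [hu']
      rfl
    · exact Or.inl hreg
  refine (Set.ncard_le_ncard hsub (Set.toFinite _)).trans ((Set.ncard_union_le _ _).trans ?_)
  have h1 := Set.ncard_image_le (f := fun u => (f (pos h j) u).getD u) (Set.toFinite {v | ¬ IsReg S f r v})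
  unfold nonreg
  omega

/-- last point of the segment -/
private noncomputable def lastS {M L : ℕ} (hL : 1 ≤ L) (seg : Fin M × Fin L → Fin n) : Fin n → Fin n := by
  classical
  exact fun v => if hx : ∃ x, seg x = v then seg (hx.choose.1, ⟨L - 1, by omega⟩) else v

private theorem lastS_seg {M L : ℕ} (hL : 1 ≤ L) (seg : Fin M × Fin L → Fin n) (hseg : Function.Injective seg)
    (x : Fin M × Fin L) : lastS hL seg (seg x) = seg (x.1, ⟨L - 1, by omega⟩) := by
  classical
  unfold lastS
  have hx : ∃ y, seg y = seg x := ⟨x, rfl⟩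
  rw [dif_pos hx]
  have := hseg hx.choose_spec
  rw [this]

private theorem lastS_R0 {M L : ℕ} (hL : 1 ≤ L) (seg : Fin M × Fin L → Fin n) (hseg : Function.Injective seg)
    (a b : Fin n) (hab : R0 seg a b) : lastS hL seg a = lastS hL seg b := by
  change Relation.EqvGen _ a b at hab
  induction hab with
  | rel x y hxy =>
    obtain ⟨i, k, hk, rfl, rfl⟩ := hxy
    rw [lastS_seg hL seg hseg, lastS_seg hL seg hseg]
  | refl x => rfl
  | symm x y _ ih => exact ih.symm
  | trans x y z _ _ ih1 ih2 => exact ih1.trans ih2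

private theorem lastS_A0 {M L : ℕ} (hL : 1 ≤ L) (seg : Fin M × Fin L → Fin n) (hseg : Function.Injective seg)
    (a : Fin n) (ha : a ∈ A0 seg) : lastS hL seg a = a := by
  classical
  by_cases hx : ∃ x, seg x = a
  · obtain ⟨⟨i, k⟩, rfl⟩ := hx
    rw [lastS_seg hL seg hseg]
    have h1 : ¬ k.val + 1 < L := fun hk => ha i k.val hk rfl
    have h2 : (⟨L - 1, by omega⟩ : Fin L) = k := Fin.ext (by have := k.2; simp; omega)
    rw [h2]
  · unfold lastS
    rw [dif_neg hx]

private theorem lastS_mem {M L : ℕ} (hL : 1 ≤ L) (seg : Fin M × Fin L → Fin n) (hseg : Function.Injective seg)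
    (v : Fin n) : lastS hL seg v ∈ A0 seg := by
  classical
  intro i k hk
  by_cases hx : ∃ x, seg x = v
  · obtain ⟨x, rfl⟩ := hx
    rw [lastS_seg hL seg hseg]
    intro he
    have h1 := congrArg (fun x => x.2.val) (hseg he)
    simp at h1
    omega
  · unfold lastS
    rw [dif_neg hx]
    rintro rfl
    exact hx ⟨_, rfl⟩

private theorem rel_lastS {M L : ℕ} (hL : 1 ≤ L) (seg : Fin M × Fin L → Fin n) (hseg : Function.Injective seg)
    (v : Fin n) : R0 seg v (lastS hL seg v) := by
  classical
  by_cases hx : ∃ x, seg x = v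
  · obtain ⟨⟨i, k⟩, rfl⟩ := hx
    rw [lastS_seg hL seg hseg]
    have key : ∀ d : ℕ, ∀ (k : ℕ) (hk : k < L), L - 1 - k = d →
        R0 seg (seg (i, ⟨k, hk⟩)) (seg (i, ⟨L - 1, by omega⟩)) := by
      intro d
      induction d with
      | zero =>
        intro k hk hd
        have : k = L - 1 := by omega
        subst this
        exact (R0 seg).refl _
      | succ d ih =>
        intro k hk hd
        have h1 : k + 1 < L := by omega
        refine (R0 seg).trans (Relation.EqvGen.rel _ _ ⟨i, k, h1, rfl, rfl⟩) (ih (k + 1) h1 (by omega))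
    exact key _ k.val k.2 rfl
  · have : lastS hL seg v = v := by
      unfold lastS
      rw [dif_neg hx]
    rw [this]

/-- the support of the table of level `j` meets every class of the partition at most once -/
theorem gt_support (h : Series H S q t) (f : S → Fin n → Option (Fin n)) (r : ℕ) {M L : ℕ} (hL : 1 ≤ L)
    (seg : Fin M × Fin L → Fin n) (hseg : Function.Injective seg) (j : Fin (q + 1))
    (a b : Fin n) (ha : gt h f r seg (RR h f r seg j) j a ≠ none) (hb : gt h f r seg (RR h f r seg j) j b ≠ none)
    (hab : RR h f r seg j a b) : a = b := by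
  unfold gt at ha hb
  split_ifs at ha with h1
  · split_ifs at hb with h2
    · obtain ⟨ra, h1⟩ := h1
      obtain ⟨rb, h2⟩ := h2
      rcases h1 with ⟨j0, h1⟩ | ⟨j0, h1⟩
      · rcases h2 with ⟨-, h2⟩ | ⟨j1, -⟩
        · have hab' : R0 seg a b := by
            rw [j0] at hab
            exact hab
          rw [← lastS_A0 hL seg hseg a h1, ← lastS_A0 hL seg hseg b h2]
          exact lastS_R0 hL seg hseg a b hab'
        · exact absurd j0 j1
      · rcases h2 with ⟨j1, -⟩ | ⟨-, h2⟩
        · exact absurd j1 j0
        · exact le_antisymm (h1 b rb ((RR h f r seg j).symm hab)) (h2 a ra hab)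
    · exact absurd rfl hb
  · exact absurd rfl ha

/-- the number of classes of the segment partition -/
theorem ncl_R0 {M L : ℕ} (hL : 1 ≤ L) (seg : Fin M × Fin L → Fin n) (hseg : Function.Injective seg) :
    ncl (R0 seg) = M + (n - M * L) := by
  classical
  have h1 : Nat.card (Quotient (R0 seg)) = Nat.card (A0 seg) := by
    refine (Nat.card_congr (Equiv.ofBijective (fun a : A0 seg => (⟦a.1⟧ : Quotient (R0 seg))) ⟨?_, ?_⟩)).symm
    · intro a b hab
      have h2 : R0 seg a.1 b.1 := Quotient.exact hab
      apply Subtype.ext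
      rw [← lastS_A0 hL seg hseg a.1 a.2, ← lastS_A0 hL seg hseg b.1 b.2]
      exact lastS_R0 hL seg hseg _ _ h2
    · intro x
      induction x using Quotient.inductionOn with
      | h v =>
        refine ⟨⟨lastS hL seg v, lastS_mem hL seg hseg v⟩, ?_⟩
        exact Quotient.sound ((R0 seg).symm (rel_lastS hL seg hseg v))
  have h2 : (A0 seg)ᶜ = Set.range (fun x : Fin M × Fin (L - 1) => seg (x.1, ⟨x.2.val, by omega⟩)) := by
    ext v
    constructor
    · intro hv
      rw [Set.mem_compl_iff] at hv
      unfold A0 at hv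
      rw [Set.mem_ofPred_eq] at hv
      push Not at hv
      obtain ⟨i, k, hk, rfl⟩ := hv
      exact ⟨(i, ⟨k, by omega⟩), rfl⟩
    · rintro ⟨⟨i, k⟩, rfl⟩ hv
      exact hv i k.val (by omega) rfl
  have h3 : (A0 seg)ᶜ.ncard = M * (L - 1) := by
    rw [h2, ← Set.image_univ, Set.ncard_image_of_injective, Set.ncard_univ]
    · simp
    · rintro ⟨i, k⟩ ⟨i', k'⟩ he
      have h4 := hseg he
      simp only [Prod.mk.injEq, Fin.mk.injEq] at h4
      exact Prod.ext h4.1 (Fin.ext h4.2)
  have h4 := Set.ncard_add_ncard_compl (A0 seg)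
  have h5 : M * L ≤ n := by
    have := Fintype.card_le_of_injective seg hseg
    simpa using this
  unfold ncl
  rw [h1]
  have h6 : Nat.card (A0 seg) = (A0 seg).ncard := rfl
  rw [h6]
  rw [h3] at h4
  simp only [Nat.card_eq_fintype_card, Fintype.card_fin] at h4
  obtain ⟨L', rfl⟩ : ∃ L', L = L' + 1 := ⟨L - 1, by omega⟩
  simp only [Nat.add_sub_cancel] at h4
  rw [Nat.mul_succ] at h5 ⊢
  omega

end H31.BE
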