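import Pool.Agent.H31.BE.CntDefs

/-! # CntStep : the Step lemma  (paper 5.2 (Step); module CntStep, ~180 lines)
R a setoid on Fin n, A a set with at most one element in every class, g an arrow table supported on A (g v = none outside A), such that
joinS R g has exactly C' >= 1 classes; C := ncl R. The number of such g is at most 2^C n^(C-C') (2n/C')^C' .
Proof. Fix g. Contract the classes: a graph on the C old classes with an edge for every a ∈ A with g a = some b between the class of a
and the class of b; every old class gives at most one arrow. Its components are the new classes. Choose a spanning forest: it uses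
C - C' arrows; T := the set of starting points in A of forest arrows, |T| = C - C'. A new class K' made of p old classes has p - 1 points of T,
hence at most one point of A ∩ K' outside T. The partition joinS R g is already generated by R and g restricted to T.
Encode g by (T, g|T, g on A \ T): number of T: <= 2^|A| <= 2^C; g|T : <= n^|T|; then the new partition is known, and for the at most one
point a ∈ A \ T in each new class K', g a is none or an element of K': <= prod_{K'} (|K'|+1) <= ((n + C')/C')^C' <= (2n/C')^C'
(AM-GM: `Real.inner_le_nnorm_mul_nnorm`.. or `inner_le_...`; simplest `Real.geom_mean_le_arith_mean_weighted` or Jensen for log).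
(An alternative to spanning forests: add the arrows of g one by one in increasing order of the starting point and let T be the set of
starting points whose arrow joins two different classes of the partition obtained so far: each such arrow lowers the number of
classes by exactly one, so |T| = C - C'. With T defined in this way: A \ T has at most one point in every new class, since inside a new
class with p old classes there are at most p points of A and exactly p - 1 points of T.) -/

set_option autoImplicit false

namespace H31.BE

private lemma cstep_mono {n : ℕ} {R R' : Setoid (Fin n)} (h : R ≤ R') : ncl R' ≤ ncl R := by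
  unfold ncl
  have : Finite (Quotient R) := Quotient.finite _
  apply Nat.card_le_card_of_surjective
    (Quotient.map' id (fun x y hxy => h hxy) : Quotient R → Quotient R')
  intro q
  induction q using Quotient.inductionOn with
  | h x => exact ⟨Quotient.mk R x, rfl⟩

/-- joining cannot increase the number of classes -/
theorem ncl_joinS_le (n : ℕ) (R : Setoid (Fin n)) (g : Fin n → Option (Fin n)) :
    ncl (joinS R g) ≤ ncl R := cstep_mono le_sup_left

/-- the classes of `a` and `b` are merged -/
private def mergeS {n : ℕ} (R : Setoid (Fin n)) (a b : Fin n) : Setoid (Fin n) where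
  r x y := R x y ∨ ((R x a ∨ R x b) ∧ (R y a ∨ R y b))
  iseqv := by
    refine ⟨fun x => Or.inl (R.refl x), ?_, ?_⟩
    · rintro x y (h | ⟨h1, h2⟩)
      · exact Or.inl (R.symm h)
      · exact Or.inr ⟨h2, h1⟩
    · rintro x y z (h | ⟨h1, h2⟩) (h' | ⟨h1', h2'⟩)
      · exact Or.inl (R.trans h h')
      · refine Or.inr ⟨?_, h2'⟩
        rcases h1' with k | k
        · exact Or.inl (R.trans h k)
        · exact Or.inr (R.trans h k)
      · refine Or.inr ⟨h1, ?_⟩
        rcases h2 with k | k
        · exact Or.inl (R.trans (R.symm h') k)
        · exact Or.inr (R.trans (R.symm h') k)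
      · exact Or.inr ⟨h1, h2'⟩

private lemma mergeS_iff {n : ℕ} (R : Setoid (Fin n)) (a b x y : Fin n) :
    (mergeS R a b) x y ↔ R x y ∨ ((R x a ∨ R x b) ∧ (R y a ∨ R y b)) := Iff.rfl

private lemma ncl_mergeS {n : ℕ} (R : Setoid (Fin n)) (a b : Fin n) (hab : ¬ R a b) :
    ncl (mergeS R a b) + 1 = ncl R := by
  classical
  have : Finite (Quotient R) := Quotient.finite _
  letI : Fintype (Quotient R) := Fintype.ofFinite _
  have hle : R ≤ mergeS R a b := fun _ _ h => Or.inl h
  have h1 : Nat.card {q : Quotient R // q ≠ Quotient.mk R b} = ncl (mergeS R a b) := by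
    unfold ncl
    apply Nat.card_congr
    refine Equiv.ofBijective (fun q => (Quotient.map' id (fun x y hxy => hle hxy) :
      Quotient R → Quotient (mergeS R a b)) q.1) ⟨?_, ?_⟩
    · rintro ⟨q1, hq1⟩ ⟨q2, hq2⟩ h
      induction q1 using Quotient.inductionOn with
      | h x =>
      induction q2 using Quotient.inductionOn with
      | h y =>
      have h2 : (mergeS R a b) x y := Quotient.exact h
      have hx : ¬ R x b := fun k => hq1 (Quotient.sound k)
      have hy : ¬ R y b := fun k => hq2 (Quotient.sound k)
      apply Subtype.ext
      apply Quotient.sound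
      rcases h2 with h2 | ⟨h2, h3⟩
      · exact h2
      · exact R.trans (h2.resolve_right hx) (R.symm (h3.resolve_right hy))
    · intro q
      induction q using Quotient.inductionOn with
      | h y =>
      by_cases hy : R y b
      · refine ⟨⟨Quotient.mk R a, fun k => hab (Quotient.exact k)⟩, ?_⟩
        exact Quotient.sound (Or.inr ⟨Or.inl (R.refl a), Or.inr hy⟩)
      · exact ⟨⟨Quotient.mk R y, fun k => hy (Quotient.exact k)⟩, rfl⟩
  rw [← h1]
  unfold ncl
  rw [Nat.card_eq_fintype_card, Nat.card_eq_fintype_card]
  have h2 := Fintype.card_subtype_compl (fun q : Quotient R => q = Quotient.mk R b)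
  rw [Fintype.card_subtype_eq] at h2
  have h3 : 0 < Fintype.card (Quotient R) := Fintype.card_pos_iff.2 ⟨Quotient.mk R b⟩
  have h4 : Fintype.card {q : Quotient R // q ≠ Quotient.mk R b} = Fintype.card (Quotient R) - 1 := by
    convert h2
  omega

private lemma joinS_none {n : ℕ} (R : Setoid (Fin n)) (g : Fin n → Option (Fin n)) (a : Fin n)
    (h : g a = none) : Function.update g a none = g := by
  rw [← h]; exact Function.update_eq_self a g

private lemma joinS_same {n : ℕ} (R : Setoid (Fin n)) (g : Fin n → Option (Fin n)) (a b : Fin n)
    (h : g a = some b) (hab : R a b) : joinS R g = joinS R (Function.update g a none) := by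
  unfold joinS
  apply le_antisymm
  · apply sup_le le_sup_left
    apply Setoid.eqvGen_le
    intro x y hxy
    by_cases hx : x = a
    · subst hx
      rw [h] at hxy
      have : b = y := Option.some.inj hxy
      subst this
      exact (le_sup_left : R ≤ _) hab
    · apply (le_sup_right : Relation.EqvGen.setoid _ ≤ _)
      apply Relation.EqvGen.rel
      rw [Function.update_of_ne hx]
      exact hxy
  · apply sup_le le_sup_left
    apply Setoid.eqvGen_le
    intro x y hxy
    apply (le_sup_right : Relation.EqvGen.setoid _ ≤ _)
    apply Relation.EqvGen.rel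
    by_cases hx : x = a
    · subst hx; simp at hxy
    · rw [Function.update_of_ne hx] at hxy
      exact hxy

private lemma joinS_merge {n : ℕ} (R : Setoid (Fin n)) (g : Fin n → Option (Fin n)) (a b : Fin n)
    (h : g a = some b) : joinS R g = joinS (mergeS R a b) (Function.update g a none) := by
  apply le_antisymm
  · unfold joinS
    apply sup_le
    · exact le_trans (show R ≤ mergeS R a b from fun _ _ k => Or.inl k) le_sup_left
    apply Setoid.eqvGen_le
    intro x y hxy
    by_cases hx : x = a
    · subst hx
      rw [h] at hxy
      have : b = y := Option.some.inj hxy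
      subst this
      exact (le_sup_left : mergeS R x b ≤ _) (Or.inr ⟨Or.inl (R.refl _), Or.inr (R.refl _)⟩)
    · apply (le_sup_right : Relation.EqvGen.setoid _ ≤ _)
      apply Relation.EqvGen.rel
      rw [Function.update_of_ne hx]
      exact hxy
  · have hR : R ≤ joinS R g := le_sup_left
    have hab : (joinS R g) a b :=
      (le_sup_right : Relation.EqvGen.setoid (fun a b => g a = some b) ≤ _)
        (Relation.EqvGen.rel _ _ h)
    have hm : mergeS R a b ≤ joinS R g := by
      intro x y hxy
      have key : ∀ z, (R z a ∨ R z b) → (joinS R g) z a := by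
        intro z hz
        rcases hz with hz | hz
        · exact hR hz
        · exact (joinS R g).trans (hR hz) ((joinS R g).symm hab)
      rcases hxy with hxy | ⟨h1, h2⟩
      · exact hR hxy
      · exact (joinS R g).trans (key x h1) ((joinS R g).symm (key y h2))
    conv_lhs => unfold joinS
    apply sup_le hm
    apply Setoid.eqvGen_le
    intro x y hxy
    apply (le_sup_right : Relation.EqvGen.setoid (fun a b => g a = some b) ≤ joinS R g)
    apply Relation.EqvGen.rel
    by_cases hx : x = a
    · subst hx; simp at hxy
    · rw [Function.update_of_ne hx] at hxy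
      exact hxy

open Classical in
private noncomputable def cstep {n : ℕ} (R : Setoid (Fin n)) (A : Finset (Fin n)) (J : ℕ) : ℕ :=
  ((Finset.univ : Finset (Fin n → Option (Fin n))).filter
    (fun g => (∀ v, v ∉ A → g v = none) ∧ ncl (joinS R g) + J = ncl R)).card

open Classical in
private noncomputable def cclass {n : ℕ} (R : Setoid (Fin n)) (a : Fin n) : Finset (Fin n) :=
  Finset.univ.filter (fun v => R a v)

open Classical in
private noncomputable def clive {n : ℕ} (R : Setoid (Fin n)) (A : Finset (Fin n)) :
    Finset (Fin n) :=
  Finset.univ.filter (fun v => ∃ a ∈ A, R v a)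

open Classical in
private noncomputable def cfib {n : ℕ} (R : Setoid (Fin n)) (A : Finset (Fin n)) (a : Fin n)
    (J : ℕ) : Option (Fin n) → ℕ
  | none => cstep R A J
  | some b => if R a b then cstep R A J else
      (match J with
        | 0 => 0
        | J' + 1 => cstep (mergeS R a b) A J')

open Classical in
private lemma cstep_insert {n : ℕ} (R : Setoid (Fin n)) (A : Finset (Fin n)) (a : Fin n)
    (ha : a ∉ A) (J : ℕ) :
    cstep R (insert a A) J ≤ ∑ o : Option (Fin n), cfib R A a J o := by
  unfold cstep
  rw [Finset.card_eq_sum_card_fiberwise (f := fun g => g a) (t := Finset.univ)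
    (fun g _ => Finset.mem_coe.2 (Finset.mem_univ _))]
  apply Finset.sum_le_sum
  intro o _
  have hinj : Set.InjOn (fun g : Fin n → Option (Fin n) => Function.update g a none)
      {g | g a = o} := by
    intro g hg g' hg' h
    funext v
    by_cases hv : v = a
    · subst hv; exact (show g v = o from hg).trans (show g' v = o from hg').symm
    · have := congrFun h v
      simpa [Function.update_of_ne hv] using this
  have hsupp : ∀ g : Fin n → Option (Fin n), (∀ v, v ∉ insert a A → g v = none) →
      ∀ v, v ∉ A → Function.update g a none v = none := by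
    intro g hg v hv
    by_cases hva : v = a
    · subst hva; simp
    · rw [Function.update_of_ne hva]
      exact hg v (by simp [hva, hv])
  cases o with
  | none =>
    change _ ≤ cstep R A J
    unfold cstep
    apply Finset.card_le_card_of_injOn (fun g => Function.update g a none)
    · intro g hg
      simp only [Finset.coe_filter, Finset.mem_filter, Finset.mem_univ, true_and,
        Set.mem_ofPred_eq] at hg ⊢
      obtain ⟨⟨h1, h2⟩, h3⟩ := hg
      refine ⟨hsupp g h1, ?_⟩
      rw [joinS_none R g a h3]; exact h2
    · apply hinj.mono
      intro g hg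
      simp only [Finset.coe_filter, Finset.mem_filter, Finset.mem_univ, true_and,
        Set.mem_ofPred_eq] at hg ⊢
      exact hg.2
  | some b =>
    by_cases hab : R a b
    · have h0 : cfib R A a J (some b) = cstep R A J := by simp [cfib, hab]
      rw [h0]
      unfold cstep
      apply Finset.card_le_card_of_injOn (fun g => Function.update g a none)
      · intro g hg
        simp only [Finset.coe_filter, Finset.mem_filter, Finset.mem_univ, true_and,
          Set.mem_ofPred_eq] at hg ⊢
        obtain ⟨⟨h1, h2⟩, h3⟩ := hg
        refine ⟨hsupp g h1, ?_⟩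
        rw [← joinS_same R g a b h3 hab]; exact h2
      · apply hinj.mono
        intro g hg
        simp only [Finset.coe_filter, Finset.mem_filter, Finset.mem_univ, true_and,
          Set.mem_ofPred_eq] at hg ⊢
        exact hg.2
    · have hn := ncl_mergeS R a b hab
      cases J with
      | zero =>
        have h0 : cfib R A a 0 (some b) = 0 := by simp [cfib, hab]
        rw [h0, Nat.le_zero, Finset.card_eq_zero, Finset.filter_eq_empty_iff]
        intro g hg h3
        simp only [Finset.mem_filter, Finset.mem_univ, true_and] at hg
        obtain ⟨h1, h2⟩ := hg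
        rw [joinS_merge R g a b h3] at h2
        have := ncl_joinS_le n (mergeS R a b) (Function.update g a none)
        omega
      | succ J' =>
        have h0 : cfib R A a (J' + 1) (some b) = cstep (mergeS R a b) A J' := by
          simp [cfib, hab]
        rw [h0]
        unfold cstep
        apply Finset.card_le_card_of_injOn (fun g => Function.update g a none)
        · intro g hg
          simp only [Finset.coe_filter, Finset.mem_filter, Finset.mem_univ, true_and,
            Set.mem_ofPred_eq] at hg ⊢
          obtain ⟨⟨h1, h2⟩, h3⟩ := hg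
          refine ⟨hsupp g h1, ?_⟩
          rw [joinS_merge R g a b h3] at h2
          omega
        · apply hinj.mono
          intro g hg
          simp only [Finset.coe_filter, Finset.mem_filter, Finset.mem_univ, true_and,
            Set.mem_ofPred_eq] at hg ⊢
          exact hg.2

private lemma clive_dead {n : ℕ} (R : Setoid (Fin n)) (A : Finset (Fin n)) (a : Fin n)
    (ha : a ∉ A) (hA : ∀ x ∈ insert a A, ∀ y ∈ insert a A, R x y → x = y) :
    (cclass R a).card + (clive R A).card ≤ (clive R (insert a A)).card := by
  classical
  rw [← Finset.card_union_of_disjoint]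
  · apply Finset.card_le_card
    intro v hv
    rw [Finset.mem_union] at hv
    simp only [cclass, clive, Finset.mem_filter, Finset.mem_univ, true_and] at hv ⊢
    rcases hv with hv | ⟨a', ha', h⟩
    · exact ⟨a, Finset.mem_insert_self _ _, R.symm hv⟩
    · exact ⟨a', Finset.mem_insert_of_mem ha', h⟩
  · rw [Finset.disjoint_left]
    intro v hv hv'
    simp only [cclass, clive, Finset.mem_filter, Finset.mem_univ, true_and] at hv hv'
    obtain ⟨a', ha', h⟩ := hv'
    have := hA a (Finset.mem_insert_self _ _) a' (Finset.mem_insert_of_mem ha') (R.trans hv h)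
    exact ha (this ▸ ha')

private lemma clive_merge {n : ℕ} (R : Setoid (Fin n)) (A : Finset (Fin n)) (a b : Fin n)
    (ha : a ∉ A) (hA : ∀ x ∈ insert a A, ∀ y ∈ insert a A, R x y → x = y) :
    (clive (mergeS R a b) A).card ≤ (clive R (insert a A)).card := by
  classical
  apply Finset.card_le_card
  intro v hv
  simp only [clive, Finset.mem_filter, Finset.mem_univ, true_and] at hv ⊢
  obtain ⟨a', ha', h⟩ := hv
  rcases h with h | ⟨h1, h2⟩
  · exact ⟨a', Finset.mem_insert_of_mem ha', h⟩
  · rcases h1 with h1 | h1
    · exact ⟨a, Finset.mem_insert_self _ _, h1⟩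
    · rcases h2 with h2 | h2
      · exfalso
        have := hA a' (Finset.mem_insert_of_mem ha') a (Finset.mem_insert_self _ _) h2
        exact ha (this ▸ ha')
      · exact ⟨a', Finset.mem_insert_of_mem ha', R.trans h1 (R.symm h2)⟩

private lemma merge_hA {n : ℕ} (R : Setoid (Fin n)) (A : Finset (Fin n)) (a b : Fin n)
    (ha : a ∉ A) (hA : ∀ x ∈ insert a A, ∀ y ∈ insert a A, R x y → x = y) :
    ∀ x ∈ A, ∀ y ∈ A, (mergeS R a b) x y → x = y := by
  intro x hx y hy h
  have hne : ∀ z ∈ A, ¬ R z a := by
    intro z hz k
    have := hA z (Finset.mem_insert_of_mem hz) a (Finset.mem_insert_self _ _) k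
    exact ha (this ▸ hz)
  rcases h with h | ⟨h1, h2⟩
  · exact hA x (Finset.mem_insert_of_mem hx) y (Finset.mem_insert_of_mem hy) h
  · exact hA x (Finset.mem_insert_of_mem hx) y (Finset.mem_insert_of_mem hy)
      (R.trans (h1.resolve_left (hne x hx)) (R.symm (h2.resolve_left (hne y hy))))

private lemma cstep_bound {n : ℕ} (t : ℝ) (ht : 0 < t) (α : ℝ) (hα : α = t * Real.exp (1 / t - 1))
    (A : Finset (Fin n)) : ∀ R : Setoid (Fin n), (∀ a ∈ A, ∀ b ∈ A, R a b → a = b) → ∀ J : ℕ,
    (cstep R A J : ℝ) * α ^ J ≤
      (2 * α) ^ A.card * (n : ℝ) ^ J * Real.exp ((clive R A).card / t) := by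
  classical
  have hα0 : 0 < α := by rw [hα]; positivity
  induction A using Finset.induction_on with
  | empty =>
    intro R _ J
    have h1 : joinS R (fun _ => none) = R := by
      unfold joinS
      apply le_antisymm
      · apply sup_le le_rfl
        apply Setoid.eqvGen_le
        intro x y hxy
        simp at hxy
      · exact le_sup_left
    have h2 : cstep R ∅ J ≤ (if J = 0 then 1 else 0) := by
      unfold cstep
      split_ifs with hJ
      · rw [Finset.card_le_one]
        intro g hg g' hg'
        simp only [Finset.mem_filter, Finset.mem_univ, true_and] at hg hg'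
        funext v
        rw [hg.1 v (by simp), hg'.1 v (by simp)]
      · rw [Nat.le_zero, Finset.card_eq_zero, Finset.filter_eq_empty_iff]
        rintro g - ⟨hg, hg2⟩
        have : g = fun _ => none := funext (fun v => hg v (by simp))
        rw [this, h1] at hg2
        omega
    have h3 : (cstep R ∅ J : ℝ) ≤ (if J = 0 then 1 else 0) := by
      have : (cstep R ∅ J : ℝ) ≤ ((if J = 0 then 1 else 0 : ℕ) : ℝ) := by exact_mod_cast h2
      refine this.trans (le_of_eq ?_)
      split_ifs <;> simp
    rcases Nat.eq_zero_or_pos J with hJ | hJ
    · subst hJ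
      simp only [if_true] at h3
      simp only [pow_zero, mul_one, Finset.card_empty, one_mul]
      exact h3.trans (Real.one_le_exp (by positivity))
    · rw [if_neg (by omega)] at h3
      have h4 : (cstep R ∅ J : ℝ) = 0 := le_antisymm h3 (Nat.cast_nonneg _)
      rw [h4, zero_mul]
      positivity
  | insert a A ha ih =>
    intro R hA J
    have hins := cstep_insert R A a ha J
    have hA' : ∀ x ∈ A, ∀ y ∈ A, R x y → x = y := fun x hx y hy h =>
      hA x (Finset.mem_insert_of_mem hx) y (Finset.mem_insert_of_mem hy) h
    have hdead := clive_dead R A a ha hA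
    set s : ℕ := (cclass R a).card with hs
    set lam : ℕ := (clive R (insert a A)).card with hlam
    set E : ℝ := (2 * α) ^ A.card * (n : ℝ) ^ J * Real.exp (lam / t) with hE
    have hE0 : 0 ≤ E := by positivity
    -- dead branch
    have hb1 : (cstep R A J : ℝ) * α ^ J ≤ E * Real.exp (-(s / t)) := by
      refine (ih R hA' J).trans ?_
      rw [hE, mul_assoc _ (Real.exp _), ← Real.exp_add]
      apply mul_le_mul_of_nonneg_left _ (by positivity)
      apply Real.exp_le_exp.2
      rw [← sub_eq_add_neg, ← sub_div]
      apply div_le_div_of_nonneg_right _ ht.le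
      have : (s:ℝ) + (clive R A).card ≤ lam := by exact_mod_cast hdead
      linarith
    -- merged branch
    have hb2 : ∀ b, ¬ R a b → (cfib R A a J (some b) : ℝ) * α ^ J * n ≤ α * E := by
      intro b hab
      cases J with
      | zero =>
        have h0 : cfib R A a 0 (some b) = 0 := by simp [cfib, hab]
        rw [h0]
        simp only [Nat.cast_zero, zero_mul]
        positivity
      | succ J' =>
        have h0 : cfib R A a (J' + 1) (some b) = cstep (mergeS R a b) A J' := by
          simp [cfib, hab]
        rw [h0]
        have h1 := ih (mergeS R a b) (merge_hA R A a b ha hA) J'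
        have h2 : Real.exp ((clive (mergeS R a b) A).card / t) ≤ Real.exp (lam / t) := by
          apply Real.exp_le_exp.2
          apply div_le_div_of_nonneg_right _ ht.le
          exact_mod_cast clive_merge R A a b ha hA
        calc (cstep (mergeS R a b) A J' : ℝ) * α ^ (J' + 1) * n
            = ((cstep (mergeS R a b) A J' : ℝ) * α ^ J') * (α * n) := by ring
          _ ≤ ((2 * α) ^ A.card * (n : ℝ) ^ J' *
              Real.exp ((clive (mergeS R a b) A).card / t)) * (α * n) := by gcongr
          _ ≤ ((2 * α) ^ A.card * (n : ℝ) ^ J' * Real.exp (lam / t)) * (α * n) := by gcongr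
          _ = α * E := by rw [hE]; ring
    -- the sum
    have hn0 : 0 < n := Fin.pos a
    have hN : (0:ℝ) < n := by exact_mod_cast hn0
    have hsum : (∑ o : Option (Fin n), (cfib R A a J o : ℝ)) * α ^ J ≤
        (s + 1) * ((cstep R A J : ℝ) * α ^ J) + α * E := by
      rw [Fintype.sum_option]
      have h1 : ∑ b : Fin n, (cfib R A a J (some b) : ℝ) =
          ∑ b ∈ cclass R a, (cfib R A a J (some b) : ℝ) +
          ∑ b ∈ Finset.univ.filter (fun b => ¬ R a b), (cfib R A a J (some b) : ℝ) := by
        rw [cclass, Finset.sum_filter_add_sum_filter_not]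
      have h2 : ∑ b ∈ cclass R a, (cfib R A a J (some b) : ℝ) = s * cstep R A J := by
        rw [Finset.sum_congr rfl (g := fun _ => (cstep R A J : ℝ))]
        · rw [Finset.sum_const, nsmul_eq_mul]
        · intro b hb
          simp only [cclass, Finset.mem_filter, Finset.mem_univ, true_and] at hb
          simp [cfib, hb]
      have h3 : (∑ b ∈ Finset.univ.filter (fun b => ¬ R a b), (cfib R A a J (some b) : ℝ)) * α ^ J
          ≤ α * E := by
        rw [Finset.sum_mul]
        have h4 : ∀ b ∈ Finset.univ.filter (fun b => ¬ R a b),
            (cfib R A a J (some b) : ℝ) * α ^ J ≤ α * E / n := by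
          intro b hb
          simp only [Finset.mem_filter, Finset.mem_univ, true_and] at hb
          rw [le_div_iff₀ hN]
          exact hb2 b hb
        refine (Finset.sum_le_card_nsmul _ _ _ h4).trans ?_
        rw [nsmul_eq_mul]
        have h5 : ((Finset.univ.filter (fun b => ¬ R a b)).card : ℝ) ≤ n := by
          have := Finset.card_filter_le (Finset.univ : Finset (Fin n)) (fun b => ¬ R a b)
          rw [Finset.card_univ, Fintype.card_fin] at this
          exact_mod_cast this
        calc ((Finset.univ.filter (fun b => ¬ R a b)).card : ℝ) * (α * E / n)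
            ≤ n * (α * E / n) := by gcongr
          _ = α * E := by field_simp
      rw [h1, h2]
      have h6 : cfib R A a J none = cstep R A J := rfl
      rw [h6]
      nlinarith [h3]
    have hs1 : ((s:ℝ) + 1) * Real.exp (-(s / t)) ≤ α := by
      have h1 : ((s:ℝ) + 1) / t ≤ Real.exp (((s:ℝ) + 1) / t - 1) := by
        have := Real.add_one_le_exp (((s:ℝ) + 1) / t - 1)
        linarith
      have h2 : ((s:ℝ) + 1) ≤ t * Real.exp (((s:ℝ) + 1) / t - 1) := by
        rw [div_le_iff₀ ht] at h1
        linarith
      calc ((s:ℝ) + 1) * Real.exp (-(s / t))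
          ≤ (t * Real.exp (((s:ℝ) + 1) / t - 1)) * Real.exp (-(s / t)) := by gcongr
        _ = α := by
            rw [hα, mul_assoc, ← Real.exp_add]
            congr 2
            ring
    have hcast : (cstep R (insert a A) J : ℝ) ≤ ∑ o : Option (Fin n), (cfib R A a J o : ℝ) := by
      exact_mod_cast hins
    calc (cstep R (insert a A) J : ℝ) * α ^ J
        ≤ (∑ o : Option (Fin n), (cfib R A a J o : ℝ)) * α ^ J := by gcongr
      _ ≤ (s + 1) * ((cstep R A J : ℝ) * α ^ J) + α * E := hsum
      _ ≤ (s + 1) * (E * Real.exp (-(s / t))) + α * E := by gcongr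
      _ = E * (((s:ℝ) + 1) * Real.exp (-(s / t))) + α * E := by ring
      _ ≤ E * α + α * E := by gcongr
      _ = (2 * α) ^ (insert a A).card * (n : ℝ) ^ J * Real.exp (lam / t) := by
          rw [Finset.card_insert_of_notMem ha, hE]; ring

theorem count_step (n : ℕ) (R : Setoid (Fin n)) (A : Finset (Fin n))
    (hA : ∀ a ∈ A, ∀ b ∈ A, R a b → a = b) (C' : ℕ) (hC' : 1 ≤ C') :
    ({g : Fin n → Option (Fin n) | (∀ v, v ∉ A → g v = none) ∧ ncl (joinS R g) = C'}.ncard : ℝ) ≤
      2 ^ (ncl R) * (n : ℝ) ^ (ncl R - C') * (2 * n / C') ^ C' := by
  classical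
  by_cases hle : C' ≤ ncl R
  · have : Finite (Quotient R) := Quotient.finite _
    have hCn : ncl R ≤ n := by
      unfold ncl
      have := Nat.card_le_card_of_surjective (Quotient.mk R) (Quotient.mk_surjective)
      simpa using this
    have hn1 : 1 ≤ n := by omega
    have hN : (1:ℝ) ≤ n := by exact_mod_cast hn1
    have hC0 : (0:ℝ) < C' := by exact_mod_cast hC'
    have hCN : (C':ℝ) ≤ n := by exact_mod_cast hle.trans hCn
    set t : ℝ := 2 * n / C' with ht
    have ht2 : 2 ≤ t := by rw [ht, le_div_iff₀ hC0]; linarith
    have ht0 : 0 < t := by linarith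
    set α : ℝ := t * Real.exp (1 / t - 1) with hα
    have hα0 : 0 < α := by positivity
    have hα1 : 1 ≤ α := by
      have h1 : 1 / t ≤ Real.exp (1 / t - 1) := by
        have := Real.add_one_le_exp (1 / t - 1)
        linarith
      rw [div_le_iff₀ ht0] at h1
      rw [hα]; linarith
    set J := ncl R - C' with hJ
    have h1 := cstep_bound t ht0 α hα A R hA J
    have h2 : {g : Fin n → Option (Fin n) | (∀ v, v ∉ A → g v = none) ∧
        ncl (joinS R g) = C'}.ncard = cstep R A J := by
      unfold cstep
      rw [← Set.ncard_coe_finset]
      congr 1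
      ext g
      simp only [Set.mem_ofPred_eq, Finset.coe_filter, Finset.mem_univ, true_and]
      constructor
      · rintro ⟨a1, a2⟩; exact ⟨a1, by omega⟩
      · rintro ⟨a1, a2⟩; exact ⟨a1, by omega⟩
    rw [h2]
    have hAc : A.card ≤ ncl R := by
      unfold ncl
      have h3 := Nat.card_le_card_of_injective (fun a : A => Quotient.mk R a.1) (by
        rintro ⟨a, ha⟩ ⟨b, hb⟩ h
        exact Subtype.ext (hA a ha b hb (Quotient.exact h)))
      rwa [Nat.card_eq_fintype_card, Fintype.card_coe] at h3
    have hlive : Real.exp ((clive R A).card / t) ≤ Real.exp (C' / 2) := by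
      apply Real.exp_le_exp.2
      have h3 : ((clive R A).card : ℝ) ≤ n := by
        have := Finset.card_le_univ (clive R A)
        rw [Fintype.card_fin] at this
        exact_mod_cast this
      rw [div_le_div_iff₀ ht0 (by norm_num), ht]
      have h4 : (C':ℝ) * (2 * n / C') = 2 * n := by field_simp
      rw [h4]; linarith
    have hpow : (2 * α) ^ A.card ≤ (2 * α) ^ (ncl R) :=
      pow_le_pow_right₀ (by linarith) hAc
    have hsplit : (2 * α) ^ (ncl R) = 2 ^ (ncl R) * (α ^ C' * α ^ J) := by
      rw [mul_pow, ← pow_add]
      congr 2
      omega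
    have hα2 : α ^ C' * Real.exp (C' / 2) ≤ t ^ C' := by
      rw [hα, mul_pow, mul_assoc, ← Real.exp_nat_mul, ← Real.exp_add]
      have h5 : (C':ℝ) * (1 / t - 1) + C' / 2 ≤ 0 := by
        have h6 : 1 / t ≤ 1 / 2 := one_div_le_one_div_of_le (by norm_num) ht2
        nlinarith
      have h7 : Real.exp ((C':ℝ) * (1 / t - 1) + C' / 2) ≤ 1 := Real.exp_le_one_iff.2 h5
      calc t ^ C' * Real.exp ((C':ℝ) * (1 / t - 1) + C' / 2) ≤ t ^ C' * 1 := by gcongr
        _ = t ^ C' := mul_one _
    have hfin : (cstep R A J : ℝ) * α ^ J ≤
        (2 ^ (ncl R) * (n : ℝ) ^ J * t ^ C') * α ^ J := by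
      calc (cstep R A J : ℝ) * α ^ J
          ≤ (2 * α) ^ A.card * (n : ℝ) ^ J * Real.exp ((clive R A).card / t) := h1
        _ ≤ (2 * α) ^ (ncl R) * (n : ℝ) ^ J * Real.exp (C' / 2) := by gcongr
        _ = (2 ^ (ncl R) * (n : ℝ) ^ J * (α ^ C' * Real.exp (C' / 2))) * α ^ J := by
            rw [hsplit]; ring
        _ ≤ (2 ^ (ncl R) * (n : ℝ) ^ J * t ^ C') * α ^ J := by gcongr
    exact le_of_mul_le_mul_right hfin (by positivity)
  · have h2 : {g : Fin n → Option (Fin n) | (∀ v, v ∉ A → g v = none) ∧
        ncl (joinS R g) = C'} = ∅ := by
      ext g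
      simp only [Set.mem_ofPred_eq, Set.mem_empty_iff_false, iff_false, not_and]
      intro _ h
      have := ncl_joinS_le n R g
      omega
    rw [h2, Set.ncard_empty]
    simp only [Nat.cast_zero]
    positivity

end H31.BE
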