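import Pool.Agent.H31.BE.CntDet
import Pool.Agent.H31.BE.CntStep
import Pool.Agent.H31.BE.EntE

/-! # CntEnc : counting families with prescribed numbers of classes  (paper 5.2; module CntEnc, ~180 lines)
For every f in Fam choose seg_f. For σ ∈ Perm (Fin M) put seg' := seg_f ∘ (σ × id); SegOK, A0, R0, gt, RR are the same for seg' as for seg_f
(only the set of segments matters). Consider the maps E_j : (f, σ) ↦ (seg', the set of nonregular points, f at the nonregular points,
(f (pos l), f (neg l)) for l < j), j = 0, ..., q + 1. `Finset.card_le_mul_card_image`: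
|image E_0| <= #(injections Fin M × Fin L → Fin n) * (n+1)^D * (n+1)^(|S| D); the number of injections is n!/(n - ML)!;
|image E_{j+1}| <= |image E_j| * (2^(Cv j) n^(Cv j - Cv (j+1)) (2n/Cv (j+1))^(Cv (j+1))) * (n (n+1))^(2D): on a fibre of E_j the partition RR j is the
same (det_pos, second part), f (pos j) is determined by the table gt (det_pos), the table is one of those counted by `count_step` (A = its support
can be taken to be the set of all a for which some table of the fibre may be nonzero: the least regular points of the classes of RR j,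
resp. the regular points of A0; `gt_support`), joinS (RR j) (table) = RR (j+1) has Cv (j+1) classes; then f (neg j) is within 2D places of
guess (f (pos j)) (`det_neg`, `ncard_close`).
E_{q+1} is injective: every letter is pos j or neg j; σ is recovered since seg_f is injective (L >= 1). -/

set_option autoImplicit false

namespace H31.BE

variable {G : Type} [Group G] {H : Subgroup G} {S : Finset G} {q : ℕ} {t : Fin (q + 1) → G}

/-- families with at most `D` nonregular points and prescribed class numbers -/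
def Fam (h : Series H S q t) (r n D M L : ℕ) (Cv : ℕ → ℕ) : Set (S → Fin n → Option (Fin n)) :=
  {f | nonreg S f r ≤ D ∧ ∃ seg : Fin M × Fin L → Fin n, SegOK h f r seg ∧
    ∀ j, j ≤ q + 1 → ncl (RR h f r seg j) = Cv j}

private theorem CntEnc_chain {X α β : Type} [DecidableEq α] [DecidableEq β] (s : Finset X)
    (e0 : X → α) (p : ℕ → X → β) (K : ℕ → ℝ) (hK : ∀ j, 0 ≤ K j) (N : ℕ)
    (h : ∀ j, j < N → ∀ x0 ∈ s, (((s.filter (fun x => e0 x = e0 x0 ∧
      ∀ i, i < j → p i x = p i x0)).image (p j)).card : ℝ) ≤ K j)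
    (inj : ∀ x ∈ s, ∀ y ∈ s, e0 x = e0 y → (∀ i, i < N → p i x = p i y) → x = y) :
    (s.card : ℝ) ≤ (s.image e0).card * ∏ j ∈ Finset.range N, K j := by
  classical
  let E : ℕ → X → α × (ℕ → Option β) := fun m x =>
    (e0 x, fun i => if i < m then some (p i x) else none)
  have step : ∀ m, m ≤ N → ((s.image (E m)).card : ℝ) ≤
      (s.image e0).card * ∏ j ∈ Finset.range m, K j := by
    intro m
    induction m with
    | zero =>
      intro _
      rw [Finset.prod_range_zero, mul_one]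
      have : s.image (E 0) ⊆ (s.image e0).image (fun a => (a, fun _ => (none : Option β))) := by
        intro z hz
        obtain ⟨x, hx, rfl⟩ := Finset.mem_image.1 hz
        refine Finset.mem_image.2 ⟨e0 x, Finset.mem_image_of_mem _ hx, ?_⟩
        simp [E]
      exact_mod_cast le_trans (Finset.card_le_card this) Finset.card_image_le
    | succ m ih =>
      intro hm
      have ih' := ih (by omega)
      let π : α × (ℕ → Option β) → α × (ℕ → Option β) := fun z =>
        (z.1, fun i => if i < m then z.2 i else none)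
      have hπ : ∀ x, π (E (m + 1) x) = E m x := by
        intro x
        simp only [π, E]
        congr 1
        funext i
        by_cases hi : i < m
        · rw [if_pos hi, if_pos hi, if_pos (by omega)]
        · rw [if_neg hi, if_neg hi]
      have hmaps : ∀ z ∈ s.image (E (m + 1)), π z ∈ s.image (E m) := by
        intro z hz
        obtain ⟨x, hx, rfl⟩ := Finset.mem_image.1 hz
        rw [hπ]
        exact Finset.mem_image_of_mem _ hx
      have hcard := Finset.card_eq_sum_card_fiberwise hmaps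
      have hfib : ∀ y ∈ s.image (E m),
          ((((s.image (E (m + 1))).filter (fun z => π z = y)).card : ℕ) : ℝ) ≤ K m := by
        intro y hy
        obtain ⟨x0, hx0, rfl⟩ := Finset.mem_image.1 hy
        refine le_trans ?_ (h m (by omega) x0 hx0)
        have hsub : (s.image (E (m + 1))).filter (fun z => π z = E m x0) ⊆
            ((s.filter (fun x => e0 x = e0 x0 ∧ ∀ i, i < m → p i x = p i x0)).image (p m)).image
              (fun b => (e0 x0, fun i => if i < m then some (p i x0) else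
                if i = m then some b else (none : Option β))) := by
          intro z hz
          obtain ⟨hz1, hz2⟩ := Finset.mem_filter.1 hz
          obtain ⟨x, hx, rfl⟩ := Finset.mem_image.1 hz1
          rw [hπ] at hz2
          have h1 : e0 x = e0 x0 := congrArg Prod.fst hz2
          have h2 : ∀ i, i < m → p i x = p i x0 := by
            intro i hi
            have h3 := congrFun (congrArg Prod.snd hz2) i
            simp only [E, if_pos hi] at h3
            exact Option.some.inj h3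
          refine Finset.mem_image.2 ⟨p m x, Finset.mem_image.2 ⟨x,
            Finset.mem_filter.2 ⟨hx, h1, h2⟩, rfl⟩, ?_⟩
          simp only [E]
          rw [h1]
          congr 1
          funext i
          by_cases hi : i < m
          · rw [if_pos hi, if_pos (by omega), h2 i hi]
          · rw [if_neg hi]
            by_cases him : i = m
            · subst him
              rw [if_pos rfl, if_pos (by omega)]
            · rw [if_neg him, if_neg (by omega)]
        exact_mod_cast le_trans (Finset.card_le_card hsub) Finset.card_image_le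
      rw [Finset.prod_range_succ, ← mul_assoc]
      calc ((s.image (E (m + 1))).card : ℝ)
          = ∑ y ∈ s.image (E m), ((((s.image (E (m + 1))).filter (fun z => π z = y)).card : ℕ) : ℝ) := by
            rw [hcard]; push_cast; rfl
        _ ≤ ∑ _y ∈ s.image (E m), K m := Finset.sum_le_sum hfib
        _ = (s.image (E m)).card * K m := by rw [Finset.sum_const, nsmul_eq_mul]
        _ ≤ _ := mul_le_mul_of_nonneg_right ih' (hK m)
  have hinj : (s.image (E N)).card = s.card := by
    apply Finset.card_image_of_injOn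
    intro x hx y hy hxy
    apply inj x hx y hy (congrArg Prod.fst hxy)
    intro i hi
    have h3 := congrFun (congrArg Prod.snd hxy) i
    simp only [E, if_pos hi] at h3
    exact Option.some.inj h3
  rw [← hinj]
  exact step N le_rfl

private theorem CntEnc_R0 {n M L : ℕ} (seg : Fin M × Fin L → Fin n) (σ : Equiv.Perm (Fin M)) :
    R0 (fun a => seg (σ a.1, a.2)) = R0 seg := by
  unfold R0
  congr 1
  funext a b
  apply propext
  constructor
  · rintro ⟨i, j, hj, h1, h2⟩
    exact ⟨σ i, j, hj, h1, h2⟩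
  · rintro ⟨i, j, hj, h1, h2⟩
    exact ⟨σ.symm i, j, hj, by simpa using h1, by simpa using h2⟩

private theorem CntEnc_A0 {n M L : ℕ} (seg : Fin M × Fin L → Fin n) (σ : Equiv.Perm (Fin M)) :
    A0 (fun a => seg (σ a.1, a.2)) = A0 seg := by
  ext v
  constructor
  · intro hv i j hj
    have := hv (σ.symm i) j hj
    simpa using this
  · intro hv i j hj
    exact hv (σ i) j hj

private theorem CntEnc_gt (h : Series H S q t) {n M L : ℕ} (f : S → Fin n → Option (Fin n)) (r : ℕ)
    (seg : Fin M × Fin L → Fin n) (σ : Equiv.Perm (Fin M)) (R : Setoid (Fin n)) (j : Fin (q + 1)) :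
    gt h f r (fun a => seg (σ a.1, a.2)) R j = gt h f r seg R j := by
  funext v
  unfold gt
  rw [CntEnc_A0]

private theorem CntEnc_RR (h : Series H S q t) {n M L : ℕ} (f : S → Fin n → Option (Fin n)) (r : ℕ)
    (seg : Fin M × Fin L → Fin n) (σ : Equiv.Perm (Fin M)) (j : ℕ) :
    RR h f r (fun a => seg (σ a.1, a.2)) j = RR h f r seg j := by
  induction j with
  | zero => exact CntEnc_R0 seg σ
  | succ j ih =>
    simp only [RR]
    by_cases hj : j < q + 1
    · rw [dif_pos hj, dif_pos hj, ih, CntEnc_gt]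
    · rw [dif_neg hj, dif_neg hj, ih]

private theorem CntEnc_gtc (h : Series H S q t) {n M L : ℕ} (f f' : S → Fin n → Option (Fin n)) (r : ℕ)
    (seg : Fin M × Fin L → Fin n) (R : Setoid (Fin n)) (j : Fin (q + 1))
    (hreg : ∀ v, IsReg S f r v ↔ IsReg S f' r v) (hf : f (pos h j) = f' (pos h j)) :
    gt h f r seg R j = gt h f' r seg R j := by
  funext v
  have hc : (IsReg S f r v ∧ ((j.val = 0 ∧ v ∈ A0 seg) ∨
      (j.val ≠ 0 ∧ ∀ u, IsReg S f r u → R u v → v ≤ u))) ↔ (IsReg S f' r v ∧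
      ((j.val = 0 ∧ v ∈ A0 seg) ∨ (j.val ≠ 0 ∧ ∀ u, IsReg S f' r u → R u v → v ≤ u))) := by
    simp only [hreg]
  unfold gt
  by_cases h1 : (IsReg S f r v ∧ ((j.val = 0 ∧ v ∈ A0 seg) ∨
      (j.val ≠ 0 ∧ ∀ u, IsReg S f r u → R u v → v ≤ u)))
  · rw [if_pos h1, if_pos (hc.1 h1), hf]
  · rw [if_neg h1, if_neg (fun h2 => h1 (hc.2 h2))]

private theorem CntEnc_RRc (h : Series H S q t) {n M L : ℕ} (f f' : S → Fin n → Option (Fin n)) (r : ℕ)
    (seg : Fin M × Fin L → Fin n) (hreg : ∀ v, IsReg S f r v ↔ IsReg S f' r v) (j : ℕ)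
    (hf : ∀ l : Fin (q + 1), l.val < j → f (pos h l) = f' (pos h l)) :
    RR h f r seg j = RR h f' r seg j := by
  induction j with
  | zero => rfl
  | succ j ih =>
    have ih' := ih (fun l hl => hf l (by omega))
    simp only [RR]
    by_cases hj : j < q + 1
    · rw [dif_pos hj, dif_pos hj, ih', CntEnc_gtc h f f' r seg _ ⟨j, hj⟩ hreg (hf ⟨j, hj⟩ (by simp))]
    · rw [dif_neg hj, dif_neg hj, ih']

private theorem CntEnc_reg {n : ℕ} {f : S → Fin n → Option (Fin n)} {r : ℕ} (hr : 1 ≤ r) {v : Fin n}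
    (hv : IsReg S f r v) (s : S) : f s v ≠ none := by
  obtain ⟨u, hu, _⟩ := hv [s] (by simpa using hr)
  simp only [ev, Option.bind_some] at hu
  rw [hu]
  simp

private theorem CntEnc_img {n M L D : ℕ} [DecidableEq S]
    (T : Finset ((Fin M × Fin L → Fin n) × (Fin D → Option (Fin n)) × (S × Fin D → Option (Fin n))))
    (hT : ∀ z ∈ T, Function.Injective z.1) :
    (T.card : ℝ) ≤ (n.factorial : ℝ) / (n - M * L).factorial * ((n : ℝ) + 1) ^ (D * (1 + S.card)) := by
  classical
  let U : Finset (Fin M × Fin L → Fin n) := Finset.univ.filter Function.Injective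
  have hsub : T ⊆ U ×ˢ (Finset.univ ×ˢ Finset.univ) := by
    intro z hz
    rw [Finset.mem_product, Finset.mem_product]
    exact ⟨Finset.mem_filter.2 ⟨Finset.mem_univ _, hT z hz⟩, Finset.mem_univ _, Finset.mem_univ _⟩
  have hc1 := Finset.card_le_card hsub
  rw [Finset.card_product, Finset.card_product, Finset.card_univ, Finset.card_univ] at hc1
  have hc2 : U.card ≤ n.descFactorial (M * L) := by
    have h1 : U ⊆ Finset.image (fun e : (Fin M × Fin L) ↪ Fin n => (e.toFun : Fin M × Fin L → Fin n))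
        Finset.univ := by
      intro g hg
      rw [Finset.mem_image]
      exact ⟨⟨g, (Finset.mem_filter.1 hg).2⟩, Finset.mem_univ _, rfl⟩
    refine le_trans (Finset.card_le_card h1) (le_trans Finset.card_image_le ?_)
    rw [Finset.card_univ, Fintype.card_embedding_eq]
    simp
  have hc3 : (n.descFactorial (M * L) : ℝ) ≤ (n.factorial : ℝ) / (n - M * L).factorial := by
    rw [le_div_iff₀ (by positivity)]
    by_cases hML : M * L ≤ n
    · have h5 := Nat.factorial_mul_descFactorial hML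
      have h6 : (n.descFactorial (M * L)) * (n - M * L).factorial = n.factorial := by
        rw [mul_comm]; exact h5
      exact_mod_cast h6.le
    · rw [Nat.descFactorial_eq_zero_iff_lt.2 (by omega)]
      simp
  have hc4 : Fintype.card (Fin D → Option (Fin n)) * Fintype.card (S × Fin D → Option (Fin n)) =
      (n + 1) ^ (D * (1 + S.card)) := by
    rw [Fintype.card_fun, Fintype.card_fun, Fintype.card_prod]
    simp only [Fintype.card_option, Fintype.card_fin, Fintype.card_coe]
    rw [← pow_add]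
    congr 1
    ring
  rw [hc4] at hc1
  calc (T.card : ℝ) ≤ ((U.card * (n + 1) ^ (D * (1 + S.card)) : ℕ) : ℝ) := by
        exact_mod_cast hc1
    _ ≤ ((n.descFactorial (M * L) * (n + 1) ^ (D * (1 + S.card)) : ℕ) : ℝ) := by
        exact_mod_cast Nat.mul_le_mul_right _ hc2
    _ = (n.descFactorial (M * L) : ℝ) * ((n : ℝ) + 1) ^ (D * (1 + S.card)) := by push_cast; ring
    _ ≤ _ := mul_le_mul_of_nonneg_right hc3 (by positivity)

private theorem CntEnc_fib (h : Series H S q t) {n M L D : ℕ} [DecidableEq (Fin n → Option (Fin n))]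
    (hn : 1 ≤ n) (hL : 1 ≤ L) (r : ℕ) (hr2 : 2 ≤ r)
    (hdet : ∀ (f f' : S → Fin n → Option (Fin n)) (seg : Fin M × Fin L → Fin n) (j : Fin (q + 1)),
    (∀ v, IsReg S f r v ↔ IsReg S f' r v) → (∀ v s, ¬ IsReg S f r v → f s v = f' s v) →
    SegOK h f r seg → SegOK h f' r seg →
    (∀ l, l < j → f (pos h l) = f' (pos h l) ∧ f (neg h l) = f' (neg h l)) →
    gt h f r seg (RR h f r seg j) j = gt h f' r seg (RR h f' r seg j) j →
    f (pos h j) = f' (pos h j) ∧ RR h f r seg j = RR h f' r seg j)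
    (f0 : S → Fin n → Option (Fin n)) (sg0 : Fin M × Fin L → Fin n) (hf0 : SegOK h f0 r sg0)
    (J : Fin (q + 1)) (c c' : ℕ) (hc : ncl (RR h f0 r sg0 J.val) = c) (hc' : 1 ≤ c')
    (F : Finset (S → Fin n → Option (Fin n)))
    (hF1 : ∀ f ∈ F, ∀ v, IsReg S f r v ↔ IsReg S f0 r v)
    (hF2 : ∀ f ∈ F, ∀ v s, ¬ IsReg S f r v → f s v = f0 s v)
    (hF3 : ∀ f ∈ F, SegOK h f r sg0)
    (hF4 : ∀ f ∈ F, ∀ l, l < J → f (pos h l) = f0 (pos h l) ∧ f (neg h l) = f0 (neg h l))
    (hF5 : ∀ f ∈ F, ncl (RR h f r sg0 (J.val + 1)) = c')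
    (hF6 : ∀ f ∈ F, nonreg S f r ≤ D) :
    ((F.image (fun f => (f (pos h J), f (neg h J)))).card : ℝ) ≤
      2 ^ c * (n : ℝ) ^ (c - c') * (2 * n / (c' : ℝ)) ^ c' * ((n : ℝ) * (n + 1)) ^ (2 * D) := by
  classical
  have hne : Nonempty (Fin n) := ⟨⟨0, hn⟩⟩
  obtain ⟨R, hR⟩ : ∃ R : Setoid (Fin n), R = RR h f0 r sg0 J.val := ⟨_, rfl⟩
  have hRR : ∀ f ∈ F, RR h f r sg0 J.val = R := by
    intro f hf
    rw [hR]
    exact CntEnc_RRc h f f0 r sg0 (hF1 f hf) J.val (fun l hl => (hF4 f hf l hl).1)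
  obtain ⟨tb, htb⟩ : ∃ tb : (S → Fin n → Option (Fin n)) → (Fin n → Option (Fin n)),
      ∀ f, tb f = gt h f r sg0 R J := ⟨fun f => gt h f r sg0 R J, fun _ => rfl⟩
  have h11 : ∀ f ∈ F, ∀ f' ∈ F, tb f = tb f' → f (pos h J) = f' (pos h J) := by
    intro f hf f' hf' hff
    refine (hdet f f' sg0 J (fun v => (hF1 f hf v).trans (hF1 f' hf' v).symm) ?_ (hF3 f hf)
      (hF3 f' hf') ?_ ?_).1
    · intro v s hv
      rw [hF2 f hf v s hv]
      exact (hF2 f' hf' v s (fun h1 => hv ((hF1 f hf v).2 ((hF1 f' hf' v).1 h1)))).symm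
    · intro l hl
      exact ⟨(hF4 f hf l hl).1.trans (hF4 f' hf' l hl).1.symm,
        (hF4 f hf l hl).2.trans (hF4 f' hf' l hl).2.symm⟩
    · rw [hRR f hf, hRR f' hf', ← htb, ← htb]
      exact hff
  let P2 : Finset ((Fin n → Option (Fin n)) × ((Fin n → Option (Fin n)) × (Fin n → Option (Fin n)))) :=
    F.image (fun f => (tb f, (f (pos h J), f (neg h J))))
  have hP : (F.image (fun f => (f (pos h J), f (neg h J)))).card ≤ P2.card := by
    have : F.image (fun f => (f (pos h J), f (neg h J))) = P2.image Prod.snd := by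
      simp only [P2, Finset.image_image]
      rfl
    rw [this]
    exact Finset.card_image_le
  have hP2 : P2.card ≤ (n * (n + 1)) ^ (2 * D) * (P2.image Prod.fst).card := by
    apply Finset.card_le_mul_card_image
    intro g hg
    obtain ⟨z1, hz1, hz1g⟩ := Finset.mem_image.1 hg
    obtain ⟨f1, hf1, rfl⟩ := Finset.mem_image.1 hz1
    simp only at hz1g
    have hfinC : ({m : Fin n → Option (Fin n) |
        {v | m v ≠ guess (f1 (pos h J)) v}.ncard ≤ 2 * D}).Finite := Set.toFinite _
    have hsub : P2.filter (fun z => z.1 = g) ⊆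
        hfinC.toFinset.image (fun m => (g, (f1 (pos h J), m))) := by
      intro z hz
      obtain ⟨hz1, hz2⟩ := Finset.mem_filter.1 hz
      obtain ⟨f, hf, rfl⟩ := Finset.mem_image.1 hz1
      simp only at hz2
      have hp := h11 f hf f1 hf1 (by rw [hz2, hz1g])
      have hneg := det_neg h r hr2 f J
      rw [hp] at hneg
      have hD := hF6 f hf
      refine Finset.mem_image.2 ⟨f (neg h J), ?_, ?_⟩
      · rw [Set.Finite.mem_toFinset]
        show {v | f (neg h J) v ≠ guess (f1 (pos h J)) v}.ncard ≤ 2 * D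
        omega
      · rw [hz2, hp]
    refine le_trans (Finset.card_le_card hsub) (le_trans Finset.card_image_le ?_)
    rw [← Set.ncard_eq_toFinset_card _ hfinC]
    refine le_trans (ncard_close (guess (f1 (pos h J))) (2 * D)) ?_
    simp
  -- the tables
  let A : Finset (Fin n) := Finset.univ.filter (fun v => gt h f0 r sg0 R J v ≠ none)
  have hA : ∀ a ∈ A, ∀ b ∈ A, R a b → a = b := by
    intro a ha b hb hab
    have ha' := (Finset.mem_filter.1 ha).2
    have hb' := (Finset.mem_filter.1 hb).2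
    rw [hR] at ha' hb' hab
    exact gt_support h f0 r hL sg0 hf0.1 J a b ha' hb' hab
  have hcnt := count_step n R A hA c' hc'
  have hsubT : ((P2.image Prod.fst : Finset (Fin n → Option (Fin n))) : Set (Fin n → Option (Fin n))) ⊆
      {g : Fin n → Option (Fin n) | (∀ v, v ∉ A → g v = none) ∧ ncl (joinS R g) = c'} := by
    intro g hg
    obtain ⟨z1, hz1, hz1g⟩ := Finset.mem_image.1 (Finset.mem_coe.1 hg)
    obtain ⟨f, hf, rfl⟩ := Finset.mem_image.1 hz1
    simp only at hz1g
    subst hz1g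
    constructor
    · intro v hv
      by_contra hne
      apply hv
      refine Finset.mem_filter.2 ⟨Finset.mem_univ _, ?_⟩
      rw [htb] at hne
      unfold gt at hne ⊢
      split_ifs at hne with hc
      · have hc2 : (IsReg S f0 r v ∧ ((J.val = 0 ∧ v ∈ A0 sg0) ∨
            (J.val ≠ 0 ∧ ∀ u, IsReg S f0 r u → R u v → v ≤ u))) := by
          refine ⟨(hF1 f hf v).1 hc.1, ?_⟩
          rcases hc.2 with h1 | h1
          · exact Or.inl h1
          · exact Or.inr ⟨h1.1, fun u hu => h1.2 u ((hF1 f hf u).2 hu)⟩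
        rw [if_pos hc2]
        exact CntEnc_reg (by omega) hc2.1 _
      · exact absurd rfl hne
    · have h1 : RR h f r sg0 (J.val + 1) = joinS R (tb f) := by
        have h2 : RR h f r sg0 (J.val + 1) = joinS (RR h f r sg0 J.val)
            (gt h f r sg0 (RR h f r sg0 J.val) ⟨J.val, J.2⟩) := by
          simp only [RR]
          rw [dif_pos J.2]
        rw [h2, hRR f hf, htb]
      show ncl (joinS R (tb f)) = c'
      rw [← h1]
      exact hF5 f hf
  have hT : ((P2.image Prod.fst).card : ℝ) ≤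
      2 ^ c * (n : ℝ) ^ (c - c') * (2 * n / (c' : ℝ)) ^ c' := by
    have h1 := Set.ncard_le_ncard hsubT (Set.toFinite _)
    rw [Set.ncard_coe_finset] at h1
    rw [hR, hc, ← hR] at hcnt
    exact le_trans (by exact_mod_cast h1) hcnt
  calc (((F.image (fun f => (f (pos h J), f (neg h J)))).card : ℕ) : ℝ) ≤ (P2.card : ℝ) := by
        exact_mod_cast hP
    _ ≤ (((n * (n + 1)) ^ (2 * D) * (P2.image Prod.fst).card : ℕ) : ℝ) := by exact_mod_cast hP2
    _ = ((n : ℝ) * (n + 1)) ^ (2 * D) * ((P2.image Prod.fst).card : ℝ) := by push_cast; ring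
    _ ≤ ((n : ℝ) * (n + 1)) ^ (2 * D) * (2 ^ c * (n : ℝ) ^ (c - c') *
        (2 * n / (c' : ℝ)) ^ c') := mul_le_mul_of_nonneg_left hT (by positivity)
    _ = _ := by ring

private theorem CntEnc_enum {n D : ℕ} (N : Finset (Fin n)) (hN : N.card ≤ D) :
    ∃ a : Fin D → Option (Fin n), ∀ v, v ∈ N ↔ ∃ i, a i = some v := by
  classical
  let c := N.equivFin
  refine ⟨fun i => if hi : (i : ℕ) < N.card then some (c.symm ⟨i, hi⟩ : Fin n) else none, ?_⟩
  intro v
  constructor
  · intro hv
    refine ⟨⟨(c ⟨v, hv⟩ : ℕ), lt_of_lt_of_le (c ⟨v, hv⟩).2 hN⟩, ?_⟩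
    simp
  · rintro ⟨i, hi⟩
    by_cases hiA : (i : ℕ) < N.card
    · simp only [dif_pos hiA] at hi
      have h2 := (c.symm ⟨i, hiA⟩).2
      rw [Option.some.inj hi] at h2
      exact h2
    · simp only [dif_neg hiA] at hi
      exact absurd hi (by simp)

theorem fam_count (h : Series H S q t) : ∃ r1 : ℕ, ∀ r, r1 ≤ r → ∀ (n D M L : ℕ) (Cv : ℕ → ℕ), 1 ≤ n → 1 ≤ L →
    (∀ j, j ≤ q + 1 → 1 ≤ Cv j) →
    ((Fam h r n D M L Cv).ncard : ℝ) * M.factorial ≤
      (n.factorial : ℝ) / (n - M * L).factorial * ((n : ℝ) + 1) ^ (D * (1 + S.card)) *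
        ∏ j ∈ Finset.range (q + 1), (2 ^ (Cv j) * (n : ℝ) ^ (Cv j - Cv (j + 1)) *
          (2 * n / (Cv (j + 1) : ℝ)) ^ (Cv (j + 1)) * ((n : ℝ) * (n + 1)) ^ (2 * D)) := by
  classical
  obtain ⟨r0, hdet⟩ := det_pos h
  refine ⟨max r0 2, ?_⟩
  intro r hr n D M L Cv hn hL hCv
  have hr0 : r0 ≤ r := le_trans (le_max_left _ _) hr
  have hr2 : 2 ≤ r := le_trans (le_max_right _ _) hr
  have hne : Nonempty (Fin n) := ⟨⟨0, hn⟩⟩
  have hFam : ∀ f ∈ Fam h r n D M L Cv, ∃ seg : Fin M × Fin L → Fin n, SegOK h f r seg ∧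
      ∀ j, j ≤ q + 1 → ncl (RR h f r seg j) = Cv j := fun f hf => hf.2
  choose! sg hsg using hFam
  have henum : ∀ f ∈ Fam h r n D M L Cv, ∃ a : Fin D → Option (Fin n),
      ∀ v, (¬ IsReg S f r v) ↔ ∃ i, a i = some v := by
    intro f hf
    obtain ⟨a, ha⟩ := CntEnc_enum (D := D) (Finset.univ.filter (fun v => ¬ IsReg S f r v)) (by
      have h1 := hf.1
      unfold nonreg at h1
      rw [Set.ncard_eq_toFinset_card'] at h1
      simpa using h1)
    refine ⟨a, fun v => ?_⟩
    rw [← ha v]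
    simp
  choose! en hen using henum
  have hfinF : (Fam h r n D M L Cv).Finite := Set.toFinite _
  obtain ⟨s, hsdef⟩ : ∃ s : Finset ((S → Fin n → Option (Fin n)) × Equiv.Perm (Fin M)),
    s = hfinF.toFinset ×ˢ Finset.univ := ⟨_, rfl⟩
  have hs : ∀ x, x ∈ s → x.1 ∈ Fam h r n D M L Cv := by
    intro x hx
    rw [hsdef] at hx
    exact (Set.Finite.mem_toFinset hfinF).1 (Finset.mem_product.1 hx).1
  obtain ⟨sg', hsgd⟩ : ∃ sg' : (S → Fin n → Option (Fin n)) × Equiv.Perm (Fin M) →
      (Fin M × Fin L → Fin n), ∀ x, sg' x = fun a => sg x.1 (x.2 a.1, a.2) := ⟨_, fun _ => rfl⟩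
  have hsg' : ∀ x, x ∈ s → SegOK h x.1 r (sg' x) := by
    intro x hx
    obtain ⟨h1, h2⟩ := (hsg x.1 (hs x hx)).1
    rw [hsgd]
    refine ⟨?_, ?_⟩
    · intro a b hab
      have h3 := Prod.mk.inj (h1 hab)
      exact Prod.ext (x.2.injective h3.1) h3.2
    · intro i j hj
      exact h2 (x.2 i) j hj
  have hncl : ∀ x, x ∈ s → ∀ j, j ≤ q + 1 → ncl (RR h x.1 r (sg' x) j) = Cv j := by
    intro x hx j hj
    have h1 := (hsg x.1 (hs x hx)).2 j hj
    have h2 : RR h x.1 r (sg' x) j = RR h x.1 r (sg x.1) j := by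
      rw [hsgd]
      exact CntEnc_RR h x.1 r (sg x.1) x.2 j
    rw [h2, h1]
  obtain ⟨e0, he0⟩ : ∃ e0 : (S → Fin n → Option (Fin n)) × Equiv.Perm (Fin M) →
      (Fin M × Fin L → Fin n) × (Fin D → Option (Fin n)) × (S × Fin D → Option (Fin n)),
    ∀ x, e0 x = (sg' x, en x.1, fun b => (en x.1 b.2).bind (x.1 b.1)) := ⟨_, fun _ => rfl⟩
  obtain ⟨p, hp⟩ : ∃ p : ℕ → (S → Fin n → Option (Fin n)) × Equiv.Perm (Fin M) →
      (Fin n → Option (Fin n)) × (Fin n → Option (Fin n)),
      ∀ (j : ℕ) (hj : j < q + 1) x, p j x = (x.1 (pos h ⟨j, hj⟩), x.1 (neg h ⟨j, hj⟩)) :=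
    ⟨fun j x => if hj : j < q + 1 then (x.1 (pos h ⟨j, hj⟩), x.1 (neg h ⟨j, hj⟩)) else
      (fun _ => none, fun _ => none), fun j hj x => by simp only [dif_pos hj]⟩
  obtain ⟨K, hKd⟩ : ∃ K : ℕ → ℝ, ∀ j, K j = 2 ^ (Cv j) * (n : ℝ) ^ (Cv j - Cv (j + 1)) *
          (2 * n / (Cv (j + 1) : ℝ)) ^ (Cv (j + 1)) * ((n : ℝ) * (n + 1)) ^ (2 * D) :=
    ⟨_, fun _ => rfl⟩
  have hK : ∀ j, 0 ≤ K j := by
    intro j
    rw [hKd]
    positivity
  -- facts about two elements with the same code
  have hen' : ∀ x y, e0 x = e0 y → en x.1 = en y.1 := by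
    intro x y hxy
    rw [he0, he0] at hxy
    exact (Prod.mk.inj (Prod.mk.inj hxy).2).1
  have hreg : ∀ x ∈ s, ∀ y ∈ s, e0 x = e0 y → ∀ v, IsReg S x.1 r v ↔ IsReg S y.1 r v := by
    intro x hx y hy hxy v
    have h1 := hen' x y hxy
    have h2 := hen x.1 (hs x hx) v
    have h3 := hen y.1 (hs y hy) v
    rw [h1, ← h3] at h2
    exact not_iff_not.1 h2
  have hnon : ∀ x ∈ s, ∀ y ∈ s, e0 x = e0 y → ∀ v s', ¬ IsReg S x.1 r v → x.1 s' v = y.1 s' v := by
    intro x hx y hy hxy v s' hv
    have h1 := hen' x y hxy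
    obtain ⟨i, hi⟩ := (hen x.1 (hs x hx) v).1 hv
    have hxy' := hxy
    rw [he0, he0] at hxy'
    have h2 := congrFun (Prod.mk.inj (Prod.mk.inj hxy').2).2 (s', i)
    simp only at h2
    rw [← h1, hi] at h2
    simpa using h2
  have hseg : ∀ x y, e0 x = e0 y → sg' x = sg' y := by
    intro x y hxy
    rw [he0, he0] at hxy
    exact (Prod.mk.inj hxy).1
  have hpos : ∀ x y (j : ℕ), (∀ i, i < j → p i x = p i y) → ∀ l : Fin (q + 1), l.val < j →
      x.1 (pos h l) = y.1 (pos h l) ∧ x.1 (neg h l) = y.1 (neg h l) := by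
    intro x y j hxy l hl
    have h1 := hxy l.val hl
    rw [hp l.val l.2, hp l.val l.2] at h1
    exact Prod.mk.inj h1
  have key := CntEnc_chain s e0 p K hK (q + 1) (by
    intro j hj x0 hx0
    obtain ⟨Fs, hFs⟩ : ∃ Fs, Fs = s.filter (fun x => e0 x = e0 x0 ∧ ∀ i, i < j → p i x = p i x0) :=
      ⟨_, rfl⟩
    rw [← hFs]
    have himg : Fs.image (p j) = (Fs.image Prod.fst).image
        (fun f => (f (pos h ⟨j, hj⟩), f (neg h ⟨j, hj⟩))) := by
      rw [Finset.image_image]
      apply Finset.image_congr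
      intro x _
      exact hp j hj x
    rw [himg, hKd]
    have hmem : ∀ f ∈ Fs.image Prod.fst, ∃ x, x ∈ s ∧ e0 x = e0 x0 ∧
        (∀ i, i < j → p i x = p i x0) ∧ x.1 = f := by
      intro f hf
      obtain ⟨x, hx, rfl⟩ := Finset.mem_image.1 hf
      rw [hFs] at hx
      obtain ⟨h1, h2, h3⟩ := Finset.mem_filter.1 hx
      exact ⟨x, h1, h2, h3, rfl⟩
    refine CntEnc_fib h hn hL r hr2 (fun f f' seg j => hdet r hr0 n M L f f' seg j) x0.1 (sg' x0)
      (hsg' x0 hx0) ⟨j, hj⟩ (Cv j) (Cv (j + 1)) (hncl x0 hx0 j (by omega)) (hCv _ (by omega))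
      (Fs.image Prod.fst) ?_ ?_ ?_ ?_ ?_ ?_
    · intro f hf v
      obtain ⟨x, h1, h2, h3, rfl⟩ := hmem f hf
      exact hreg x h1 x0 hx0 h2 v
    · intro f hf v s' hv
      obtain ⟨x, h1, h2, h3, rfl⟩ := hmem f hf
      exact hnon x h1 x0 hx0 h2 v s' hv
    · intro f hf
      obtain ⟨x, h1, h2, h3, rfl⟩ := hmem f hf
      have h4 := hsg' x h1
      rw [hseg x x0 h2] at h4
      exact h4
    · intro f hf l hl
      obtain ⟨x, h1, h2, h3, rfl⟩ := hmem f hf
      exact hpos x x0 j h3 l hl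
    · intro f hf
      obtain ⟨x, h1, h2, h3, rfl⟩ := hmem f hf
      have h4 := hncl x h1 (j + 1) (by omega)
      rw [hseg x x0 h2] at h4
      exact h4
    · intro f hf
      obtain ⟨x, h1, h2, h3, rfl⟩ := hmem f hf
      exact (hs x h1).1) (by
    intro x hx y hy hxy hpp
    have hf : x.1 = y.1 := by
      funext s'
      obtain ⟨j, hj | hj⟩ := (h.hS _).1 s'.2
      · have h1 := (hpos x y (q + 1) hpp j j.2).1
        have h2 : s' = pos h j := Subtype.ext hj
        rw [h2]
        exact h1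
      · have h1 := (hpos x y (q + 1) hpp j j.2).2
        have h2 : s' = neg h j := Subtype.ext hj
        rw [h2]
        exact h1
    have hσ : x.2 = y.2 := by
      apply Equiv.ext
      intro i
      have h1 := congrFun (hseg x y hxy) (i, ⟨0, hL⟩)
      rw [hsgd, hsgd] at h1
      simp only at h1
      rw [← hf] at h1
      exact (Prod.mk.inj ((hsg x.1 (hs x hx)).1.1 h1)).1
    exact Prod.ext hf hσ)
  have hcs : (s.card : ℝ) = ((Fam h r n D M L Cv).ncard : ℝ) * M.factorial := by
    rw [hsdef, Finset.card_product, Finset.card_univ, Fintype.card_perm, Fintype.card_fin,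
      Set.ncard_eq_toFinset_card _ hfinF]
    push_cast
    ring
  rw [← hcs]
  refine le_trans key ?_
  have him := CntEnc_img (S := S) (s.image e0) (by
    intro z hz
    obtain ⟨x, hx, rfl⟩ := Finset.mem_image.1 hz
    rw [he0]
    exact (hsg' x hx).1)
  have hprod : (∏ j ∈ Finset.range (q + 1), K j) = ∏ j ∈ Finset.range (q + 1),
      (2 ^ (Cv j) * (n : ℝ) ^ (Cv j - Cv (j + 1)) *
          (2 * n / (Cv (j + 1) : ℝ)) ^ (Cv (j + 1)) * ((n : ℝ) * (n + 1)) ^ (2 * D)) :=
    Finset.prod_congr rfl (fun j _ => hKd j)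
  rw [← hprod]
  exact mul_le_mul_of_nonneg_right him (Finset.prod_nonneg fun j _ => hK j)

end H31.BE
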