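import Pool.Agent.H31.BE.CntDefs

/-! # CntFinA : number of free actions of a finite group  (paper 5.1; module CntFinA, ~130 lines)
K a finite group with a elements, V = Fin n, n = t a. A free action as a function f : K → Fin n → Fin n.
Claim: (number of free actions) * (t! * a^t) <= n!.
Proof: call e : Fin n ≃ Fin t × K compatible with f if e (f x v) = (j, x h) whenever e v = (j, h). Given e, f is determined. So
sum over f of #{e compatible with f} <= #(Fin n ≃ Fin t × K) = n!. For each free action there is a compatible e0 (choose a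
representative of every orbit; the orbits have a elements, so there are t of them: use `MulAction` machinery, or
`MulAction.selfEquivSigmaOrbits...`), and (σ, (h_j)) ∈ Perm (Fin t) × (Fin t → K) gives compatible
e(v) := (σ j, h * k_j) for e0 v = (j, h), injectively in (σ, k): at least t! a^t compatible equivalences. -/

set_option autoImplicit false

namespace H31.BE

/-- free action of the finite group `K` on `V`, as a function -/
def IsFreeAct {K V : Type} [Group K] (f : K → V → V) : Prop :=
  (∀ v, f 1 v = v) ∧ (∀ x y v, f x (f y v) = f (x * y) v) ∧ ∀ x v, x ≠ 1 → f x v ≠ v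

private theorem CntFinA_dec {K V : Type} [Group K] [Fintype K] [Fintype V] {f : K → V → V}
    (hf : IsFreeAct f) :
    ∃ (Q : Type) (_ : Fintype Q) (e : V ≃ Q × K), ∀ x v, e (f x v) = ((e v).1, x * (e v).2) := by
  classical
  obtain ⟨h1, h2, h3⟩ := hf
  let s : Setoid V :=
    { r := fun u v => ∃ x, f x u = v
      iseqv := by
        refine ⟨fun u => ⟨1, h1 u⟩, ?_, ?_⟩
        · rintro u v ⟨x, rfl⟩
          exact ⟨x⁻¹, by rw [h2, inv_mul_cancel, h1]⟩
        · rintro u v w ⟨x, rfl⟩ ⟨y, rfl⟩
          exact ⟨y * x, by rw [h2]⟩ }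
  let g : Quotient s × K → V := fun p => f p.2 p.1.out
  have hg : Function.Bijective g := by
    constructor
    · rintro ⟨q, h⟩ ⟨q', h'⟩ e
      change f h q.out = f h' q'.out at e
      have e1 : f (h'⁻¹ * h) q.out = q'.out := by
        rw [← h2, e, h2, inv_mul_cancel, h1]
      have e2 : q = q' := by
        have : q.out ≈ q'.out := ⟨_, e1⟩
        exact Quotient.out_equiv_out.1 this
      subst e2
      have e3 : h'⁻¹ * h = 1 := by
        by_contra hne
        exact h3 _ _ hne e1
      have e4 : h = h' := (inv_mul_eq_one.1 e3).symm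
      rw [e4]
    · intro v
      have : (Quotient.mk s v).out ≈ v := Quotient.mk_out v
      obtain ⟨x, hx⟩ := this
      exact ⟨(Quotient.mk s v, x), hx⟩
  refine ⟨Quotient s, Fintype.ofFinite _, (Equiv.ofBijective g hg).symm, fun x v => ?_⟩
  rw [Equiv.symm_apply_eq]
  change f x v = f (x * _) _
  rw [← h2]
  congr 1
  exact ((Equiv.ofBijective g hg).apply_symm_apply v).symm

private theorem CntFinA_dec' {K : Type} [Group K] [Fintype K] {t : ℕ}
    {f : K → Fin (t * Fintype.card K) → Fin (t * Fintype.card K)} (hf : IsFreeAct f) :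
    ∃ e : Fin (t * Fintype.card K) ≃ Fin t × K, ∀ x v, e (f x v) = ((e v).1, x * (e v).2) := by
  obtain ⟨Q, _, e, he⟩ := CntFinA_dec hf
  have hc : Fintype.card Q = t := by
    have h1 := Fintype.card_congr e
    rw [Fintype.card_fin, Fintype.card_prod] at h1
    exact (Nat.eq_of_mul_eq_mul_right Fintype.card_pos h1).symm
  let φ : Q ≃ Fin t := Fintype.equivFinOfCardEq hc
  refine ⟨e.trans (φ.prodCongr (Equiv.refl K)), fun x v => ?_⟩
  simp [he]

/-- the twist `(j, h) ↦ (σ j, h * k j)` -/
private def CntFinA_tw {K : Type} [Group K] {t : ℕ} (σ : Equiv.Perm (Fin t)) (k : Fin t → K) :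
    Fin t × K ≃ Fin t × K where
  toFun p := (σ p.1, p.2 * k p.1)
  invFun p := (σ.symm p.1, p.2 * (k (σ.symm p.1))⁻¹)
  left_inv p := by simp
  right_inv p := by simp

theorem card_free_actions (K : Type) [Group K] [Fintype K] (t : ℕ) :
    {f : K → Fin (t * Fintype.card K) → Fin (t * Fintype.card K) | IsFreeAct f}.ncard *
      (t.factorial * Fintype.card K ^ t) ≤ (t * Fintype.card K).factorial := by
  classical
  choose e0 he0 using fun f : {f : K → Fin (t * Fintype.card K) → Fin (t * Fintype.card K) |
    IsFreeAct f} => CntFinA_dec' f.2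
  let Φ : {f : K → Fin (t * Fintype.card K) → Fin (t * Fintype.card K) | IsFreeAct f} ×
      (Equiv.Perm (Fin t) × (Fin t → K)) → (Fin (t * Fintype.card K) ≃ Fin t × K) :=
    fun p => (e0 p.1).trans (CntFinA_tw p.2.1 p.2.2)
  have hcomp : ∀ p x v, Φ p (p.1.1 x v) = ((Φ p v).1, x * (Φ p v).2) := by
    intro p x v
    simp only [Φ, Equiv.trans_apply, he0, CntFinA_tw, Equiv.coe_fn_mk, mul_assoc]
  have hinj : Function.Injective Φ := by
    rintro ⟨f, σ, k⟩ ⟨f', σ', k'⟩ h
    have hf : f = f' := by
      apply Subtype.ext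
      funext x v
      have h1 := hcomp (f, σ, k) x v
      have h2 := hcomp (f', σ', k') x v
      rw [h] at h1
      exact (Φ (f', σ', k')).injective (h1.trans h2.symm)
    subst hf
    have h3 : ∀ p, CntFinA_tw σ k p = CntFinA_tw σ' k' p := by
      intro p
      have h4 := congrArg (fun e : Fin (t * Fintype.card K) ≃ Fin t × K =>
        e ((e0 f).symm p)) h
      simpa [Φ] using h4
    have h5 : ∀ j, σ j = σ' j ∧ k j = k' j := by
      intro j
      have h6 := h3 (j, 1)
      simpa [CntFinA_tw] using h6
    have h7 : σ = σ' := Equiv.ext fun j => (h5 j).1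
    have h8 : k = k' := funext fun j => (h5 j).2
    rw [h7, h8]
  have h9 := Nat.card_le_card_of_injective Φ hinj
  rw [Nat.card_prod, Nat.card_prod, Nat.card_coe_set_eq] at h9
  have h10 : Nat.card (Equiv.Perm (Fin t)) = t.factorial := by
    rw [Nat.card_eq_fintype_card, Fintype.card_perm, Fintype.card_fin]
  have h11 : Nat.card (Fin t → K) = Fintype.card K ^ t := by
    rw [Nat.card_eq_fintype_card, Fintype.card_fun, Fintype.card_fin]
  have h12 : Nat.card (Fin (t * Fintype.card K) ≃ Fin t × K) = (t * Fintype.card K).factorial := by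
    have e : Fin (t * Fintype.card K) ≃ Fin t × K := Fintype.equivOfCardEq (by simp)
    rw [Nat.card_eq_fintype_card, Fintype.card_equiv e, Fintype.card_fin]
  rw [h10, h11, h12] at h9
  exact h9

/-- a free action exists on every set whose size is a multiple of `|K|` -/
theorem exists_free_action (K V : Type) [Group K] [Fintype K] [Fintype V] (h : Fintype.card K ∣ Fintype.card V) :
    ∃ f : K → V → V, IsFreeAct f := by
  obtain ⟨t, ht⟩ := h
  have e : V ≃ Fin t × K := Fintype.equivOfCardEq (by
    rw [ht, Fintype.card_prod, Fintype.card_fin, mul_comm])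
  refine ⟨fun x v => e.symm ((e v).1, x * (e v).2), ?_, ?_, ?_⟩
  · intro v
    simp
  · intro x y v
    simp [mul_assoc]
  · intro x v hx hv
    rw [Equiv.symm_apply_eq] at hv
    have h1 := congrArg Prod.snd hv
    exact hx (mul_eq_right.1 h1)

/-- conversely the size of a set with a free action is a multiple of `|K|` -/
theorem dvd_of_free_action (K V : Type) [Group K] [Fintype K] [Fintype V] (f : K → V → V) (hf : IsFreeAct f) :
    Fintype.card K ∣ Fintype.card V := by
  obtain ⟨Q, _, e, -⟩ := CntFinA_dec hf
  rw [Fintype.card_congr e, Fintype.card_prod]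
  exact dvd_mul_left _ _

end H31.BE
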