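import Pool.Agent.H31.BE.CntFinA

/-! # CntFinB : (U) for a finite factor  (paper 5.1; module CntFinB, ~160 lines)
H finite with a elements, S = H (as a Finset). r := 2, C := 2 (a+1)^2 (generous), n0 := 1, ε plays no role.
For f with nonreg S f 2 <= D: V0 := {v | v regular and for all s, every u with f s v = some u is regular}. For v ∈ V0:
f s v = some u, and u ∈ V0; f s (f s' v) = f (s s') v (words [s, s'] and [s s'], both of length <= 2), f 1 v = v (words [1], []),
f s v ≠ v for s ≠ 1. So f is a free action of H on V0 (everything stays in V0). |V \ V0| <= (a+1) D: v ∉ V0 is nonregular or regular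
with f s v = some u, u nonregular, and for given s, u there is at most one regular v with f s v = some u
(v = f s⁻¹ u).  By `dvd_of_free_action` a divides |V0|, hence |V \ V0|; extend by `exists_free_action` on V \ V0 to a free action F of H on V.
f is determined by (F, V \ V0, f on V \ V0): number of f <= #free actions * (number of subsets with <= (a+1)D elements: <= (n+1)^((a+1)D)) *
(number of partial tables <= (n+1)^(a (a+1) D)).
Then log: #free actions <= n!/(t! a^t) = exp(log n! - kap H n) with t = n / a (`card_free_actions`). -/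

set_option autoImplicit false

namespace H31.BE

private theorem CntFinB_one {G : Type} [Group G] {S : Finset G} {V : Type} {f : S → V → Option V}
    {v : V} (hv : IsReg S f 2 v) (h1 : (1 : G) ∈ S) : f ⟨1, h1⟩ v = some v := by
  obtain ⟨u, hu, -, h⟩ := hv [] (by simp)
  have e : v = u := Option.some.inj hu
  subst e
  have h2 := h [⟨1, h1⟩] (by simp) (by simp [sprod])
  exact h2

private theorem CntFinB_some {G : Type} [Group G] {S : Finset G} {V : Type}
    {f : S → V → Option V} {v : V} (hv : IsReg S f 2 v) (s : S) :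
    ∃ u, f s v = some u ∧ ((s : G) ≠ 1 → u ≠ v) := by
  obtain ⟨u, hu, h, -⟩ := hv [s] (by simp)
  exact ⟨u, hu, fun hs => h (by simpa [sprod] using hs)⟩

private theorem CntFinB_mul {G : Type} [Group G] {S : Finset G} {V : Type} {f : S → V → Option V}
    {v u : V} (hv : IsReg S f 2 v) (x y z : S) (hz : (z : G) = x * y) (hu : f y v = some u) :
    f x u = f z v := by
  obtain ⟨u', hu', -, h⟩ := hv [z] (by simp)
  have h2 := h [x, y] (by simp) (by simp [sprod, hz])
  have h3 : (f y v).bind (f x) = some u' := h2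
  rw [hu] at h3
  have h4 : f z v = some u' := hu'
  rw [h4]
  exact h3

open Classical in
private theorem CntFinB_main {G : Type} [Group G] (H : Subgroup G) [Fintype H] (S : Finset G)
    (hS : ∀ g, g ∈ S ↔ g ∈ H) {V : Type} [Fintype V] (hV : Fintype.card H ∣ Fintype.card V)
    (f : S → V → Option V) (D : ℕ) (hD : nonreg S f 2 ≤ D) :
    ∃ F : H → V → V, IsFreeAct F ∧ ∃ W : Finset V, W.card ≤ (Fintype.card H + 1) * D ∧
      ∀ v, v ∉ W → ∀ s : S, f s v = some (F ⟨s, (hS s).1 s.2⟩ v) := by
  have h1S : (1 : G) ∈ S := (hS 1).2 H.one_mem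
  let e : H → S := fun x => ⟨x, (hS x).2 x.2⟩
  let V0 : V → Prop := fun v => IsReg S f 2 v ∧ ∀ s u, f s v = some u → IsReg S f 2 u
  have hcl : ∀ v, V0 v → ∀ s u, f s v = some u → V0 u := by
    intro v hv s u hu
    refine ⟨hv.2 s u hu, fun s' u' hu' => ?_⟩
    have hm : (s' : G) * s ∈ S := (hS _).2 (H.mul_mem ((hS _).1 s'.2) ((hS _).1 s.2))
    have h1 := CntFinB_mul hv.1 s' s ⟨_, hm⟩ rfl hu
    rw [hu'] at h1
    exact hv.2 _ _ h1.symm
  let g : H → V → V := fun x v => (f (e x) v).getD v
  have hg : ∀ x v, V0 v → f (e x) v = some (g x v) := by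
    intro x v hv
    obtain ⟨u, hu, -⟩ := CntFinB_some hv.1 (e x)
    simp only [g, hu, Option.getD_some]
  have hg0 : ∀ x v, V0 v → V0 (g x v) := fun x v hv => hcl v hv (e x) _ (hg x v hv)
  let act : H → {v // V0 v} → {v // V0 v} := fun x v => ⟨g x v.1, hg0 x v.1 v.2⟩
  have hact : IsFreeAct act := by
    refine ⟨?_, ?_, ?_⟩
    · rintro ⟨v, hv⟩
      apply Subtype.ext
      have h1 := CntFinB_one hv.1 h1S
      have h2 := hg 1 v hv
      exact Option.some.inj (h2.symm.trans h1)
    · rintro x y ⟨v, hv⟩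
      apply Subtype.ext
      have h1 := CntFinB_mul hv.1 (e x) (e y) (e (x * y)) rfl (hg y v hv)
      rw [hg x _ (hg0 y v hv), hg _ v hv] at h1
      exact Option.some.inj h1
    · rintro x ⟨v, hv⟩ hx hxv
      obtain ⟨u, hu, h⟩ := CntFinB_some hv.1 (e x)
      have h1 : u = g x v := Option.some.inj (hu.symm.trans (hg x v hv))
      refine h (fun h2 => hx (Subtype.ext h2)) ?_
      rw [h1]
      exact congrArg Subtype.val hxv
  have hdvd := dvd_of_free_action H {v // V0 v} act hact
  have hdvd2 : Fintype.card H ∣ Fintype.card {v // ¬ V0 v} := by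
    have h1 : Fintype.card {v // V0 v} + Fintype.card {v // ¬ V0 v} = Fintype.card V := by
      rw [← Fintype.card_sum]
      exact Fintype.card_congr (Equiv.sumCompl V0)
    exact (Nat.dvd_add_right hdvd).1 (h1 ▸ hV)
  obtain ⟨act', hact'⟩ := exists_free_action H {v // ¬ V0 v} hdvd2
  let F : H → V → V := fun x v => if h : V0 v then (act x ⟨v, h⟩).1 else (act' x ⟨v, h⟩).1
  have hF1 : ∀ x v (h : V0 v), F x v = (act x ⟨v, h⟩).1 := fun x v h => dif_pos h
  have hF2 : ∀ x v (h : ¬ V0 v), F x v = (act' x ⟨v, h⟩).1 := fun x v h => dif_neg h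
  refine ⟨F, ⟨?_, ?_, ?_⟩, Finset.univ.filter fun v => ¬ V0 v, ?_, ?_⟩
  · intro v
    by_cases h : V0 v
    · rw [hF1 1 v h, hact.1]
    · rw [hF2 1 v h, hact'.1]
  · intro x y v
    by_cases h : V0 v
    · rw [hF1 y v h, hF1 x _ (act y ⟨v, h⟩).2, hF1 _ v h]
      exact congrArg Subtype.val (hact.2.1 x y ⟨v, h⟩)
    · rw [hF2 y v h, hF2 x _ (act' y ⟨v, h⟩).2, hF2 _ v h]
      exact congrArg Subtype.val (hact'.2.1 x y ⟨v, h⟩)
  · intro x v hx hv
    by_cases h : V0 v
    · rw [hF1 x v h] at hv
      exact hact.2.2 x ⟨v, h⟩ hx (Subtype.ext hv)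
    · rw [hF2 x v h] at hv
      exact hact'.2.2 x ⟨v, h⟩ hx (Subtype.ext hv)
  · let N : Finset V := Finset.univ.filter fun v => ¬ IsReg S f 2 v
    have hN : N.card ≤ D := by
      refine le_trans (le_of_eq ?_) hD
      unfold nonreg
      rw [← Set.ncard_coe_finset]
      congr 1
      ext v
      simp [N]
    let B : H → Finset V := fun x =>
      Finset.univ.filter fun v => IsReg S f 2 v ∧ ∃ u, f (e x) v = some u ∧ ¬ IsReg S f 2 u
    have hB : ∀ x, (B x).card ≤ D := by
      intro x
      refine le_trans (Finset.card_le_card_of_injOn (fun v => (f (e x) v).getD v) ?_ ?_) hN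
      · intro v hv
        obtain ⟨-, -, u, hu, hu'⟩ := Finset.mem_filter.1 hv
        simp only [hu, Option.getD_some]
        exact Finset.mem_coe.2 (Finset.mem_filter.2 ⟨Finset.mem_univ _, hu'⟩)
      · intro v hv v' hv' h
        obtain ⟨-, h1, u, hu, -⟩ := Finset.mem_filter.1 hv
        obtain ⟨-, h1', u', hu', -⟩ := Finset.mem_filter.1 hv'
        simp only [hu, hu', Option.getD_some] at h
        subst h
        have hz : ((e 1 : S) : G) = (e x⁻¹ : S) * (e x : S) := by simp [e]
        have h2 := CntFinB_mul h1 (e x⁻¹) (e x) (e 1) hz hu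
        have h3 := CntFinB_mul h1' (e x⁻¹) (e x) (e 1) hz hu'
        have h4 : f (e 1) v = some v := CntFinB_one h1 h1S
        have h5 : f (e 1) v' = some v' := CntFinB_one h1' h1S
        rw [h4] at h2
        rw [h5, h2] at h3
        exact Option.some.inj h3
    have hsub : (Finset.univ.filter fun v => ¬ V0 v) ⊆ N ∪ Finset.univ.biUnion B := by
      intro v hv
      have hv' : ¬ V0 v := (Finset.mem_filter.1 hv).2
      rw [Finset.mem_union, Finset.mem_biUnion]
      by_cases h : IsReg S f 2 v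
      · right
        have h2 : ∃ s u, f s v = some u ∧ ¬ IsReg S f 2 u := by
          by_contra hcon
          push Not at hcon
          exact hv' ⟨h, hcon⟩
        obtain ⟨s, u, hu, hu'⟩ := h2
        refine ⟨⟨s, (hS s).1 s.2⟩, Finset.mem_univ _,
          Finset.mem_filter.2 ⟨Finset.mem_univ _, h, u, ?_, hu'⟩⟩
        exact hu
      · left
        exact Finset.mem_filter.2 ⟨Finset.mem_univ _, h⟩
    calc (Finset.univ.filter fun v => ¬ V0 v).card ≤ (N ∪ Finset.univ.biUnion B).card :=
          Finset.card_le_card hsub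
      _ ≤ N.card + (Finset.univ.biUnion B).card := Finset.card_union_le _ _
      _ ≤ D + ∑ x : H, (B x).card := Nat.add_le_add hN Finset.card_biUnion_le
      _ ≤ D + ∑ _x : H, D := Nat.add_le_add_left (Finset.sum_le_sum fun x _ => hB x) _
      _ = (Fintype.card H + 1) * D := by
          rw [Finset.sum_const, Finset.card_univ, smul_eq_mul]; ring
  · intro v hv s
    have h : V0 v := by
      by_contra hcon
      exact hv (Finset.mem_filter.2 ⟨Finset.mem_univ _, hcon⟩)
    rw [hF1 _ v h]
    exact hg ⟨s, (hS s).1 s.2⟩ v h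

open Classical in
private theorem CntFinB_count {G : Type} [Group G] (H : Subgroup G) [Fintype H] (S : Finset G)
    (hS : ∀ g, g ∈ S ↔ g ∈ H) (n : ℕ) (hn : 1 ≤ n) (hV : Fintype.card H ∣ n) (D : ℕ) :
    {f : S → Fin n → Option (Fin n) | nonreg S f 2 ≤ D}.ncard ≤
      {F : H → Fin n → Fin n | IsFreeAct F}.ncard *
        (n + 1) ^ ((Fintype.card H + 1) * ((Fintype.card H + 1) * D)) := by
  set m := (Fintype.card H + 1) * D with hm
  have hcS : Fintype.card S = Fintype.card H :=
    Fintype.card_congr ⟨fun s => ⟨s, (hS s).1 s.2⟩, fun x => ⟨x, (hS x).2 x.2⟩,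
      fun _ => rfl, fun _ => rfl⟩
  let Ψ : {F : H → Fin n → Fin n | IsFreeAct F} × ((Fin m → Fin n) × (S → Fin m → Option (Fin n))) →
      (S → Fin n → Option (Fin n)) := fun q s v =>
    if h : ∃ i, q.2.1 i = v then q.2.2 s h.choose else some (q.1.1 ⟨s, (hS s).1 s.2⟩ v)
  have hsub : {f : S → Fin n → Option (Fin n) | nonreg S f 2 ≤ D} ⊆ Ψ '' Set.univ := by
    intro f hf
    obtain ⟨F, hF, W, hW, h⟩ := CntFinB_main H S hS (V := Fin n) (by simpa using hV) f D hf
    have hp : ∃ p : Fin m → Fin n, ∀ v ∈ W, ∃ i, p i = v := by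
      let ι := W.equivFin
      refine ⟨fun i => if hi : (i : ℕ) < W.card then ((ι.symm ⟨i, hi⟩ : W) : Fin n) else
        ⟨0, hn⟩, fun v hv => ?_⟩
      have h1 : ((ι ⟨v, hv⟩ : Fin W.card) : ℕ) < m := lt_of_lt_of_le (ι ⟨v, hv⟩).2 hW
      refine ⟨⟨_, h1⟩, ?_⟩
      simp
    obtain ⟨p, hp⟩ := hp
    refine ⟨(⟨F, hF⟩, (p, fun s i => f s (p i))), Set.mem_univ _, ?_⟩
    funext s v
    change (if h : ∃ i, p i = v then f s (p h.choose) else
      some (F ⟨s, (hS s).1 s.2⟩ v)) = f s v
    split_ifs with hi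
    · rw [hi.choose_spec]
    · exact (h v (fun hv => hi (hp v hv)) s).symm
  refine le_trans (Set.ncard_le_ncard hsub (Set.toFinite _)) ?_
  refine le_trans (Set.ncard_image_le (Set.toFinite _)) ?_
  rw [Set.ncard_univ, Nat.card_prod, Nat.card_prod, Nat.card_coe_set_eq]
  refine Nat.mul_le_mul_left _ ?_
  have h1 : Nat.card (Fin m → Fin n) = n ^ m := by
    rw [Nat.card_eq_fintype_card, Fintype.card_fun, Fintype.card_fin, Fintype.card_fin]
  have h2 : Nat.card (S → Fin m → Option (Fin n)) = ((n + 1) ^ m) ^ Fintype.card H := by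
    rw [Nat.card_eq_fintype_card, Fintype.card_fun, Fintype.card_fun, Fintype.card_option,
      Fintype.card_fin, Fintype.card_fin, hcS]
  rw [h1, h2]
  calc n ^ m * ((n + 1) ^ m) ^ Fintype.card H
      ≤ (n + 1) ^ m * ((n + 1) ^ m) ^ Fintype.card H :=
        Nat.mul_le_mul_right _ (Nat.pow_le_pow_left (Nat.le_succ n) m)
    _ = (n + 1) ^ ((Fintype.card H + 1) * m) := by
        rw [← pow_mul, ← pow_add]; congr 1; ring

theorem countProp_fin {G : Type} [Group G] (H : Subgroup G) [Finite H] (S : Finset G)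
    (hS : ∀ g, g ∈ S ↔ g ∈ H) : CountProp H S := by
  classical
  have : Fintype H := Fintype.ofFinite H
  intro ε hε
  refine ⟨2, (Fintype.card H + 1) * (Fintype.card H + 1), 1, fun n hn hdvd D => ?_⟩
  have hd : Fintype.card H ∣ n := by
    have := hdvd inferInstance
    rwa [Nat.card_eq_fintype_card] at this
  have h1 := CntFinB_count H S hS n hn hd D
  have hpos : 0 < Fintype.card H := Fintype.card_pos
  obtain ⟨t, rfl⟩ : ∃ t, n = t * Fintype.card H := by
    obtain ⟨t, ht⟩ := hd
    exact ⟨t, by rw [ht, mul_comm]⟩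
  have h2 := card_free_actions H t
  set a := Fintype.card H with ha
  set N := {F : H → Fin (t * a) → Fin (t * a) | IsFreeAct F}.ncard with hN
  have hk : kap H (t * a) = Real.log (t.factorial) + t * Real.log a := by
    unfold kap
    rw [if_pos (inferInstance : Finite H), Nat.card_eq_fintype_card, ← ha,
      Nat.mul_div_cancel _ hpos]
  have h3 : (N : ℝ) ≤ Real.exp (Real.log (t * a).factorial - kap H (t * a)) := by
    have h4 : ((N * (t.factorial * a ^ t) : ℕ) : ℝ) ≤ ((t * a).factorial : ℕ) :=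
      Nat.cast_le.2 h2
    have p1 : (0 : ℝ) < t.factorial := by exact_mod_cast Nat.factorial_pos t
    have p2 : (0 : ℝ) < (a : ℝ) := by exact_mod_cast hpos
    have p3 : (0 : ℝ) < (t * a).factorial := by exact_mod_cast Nat.factorial_pos _
    have h5 : Real.exp (Real.log (t * a).factorial - kap H (t * a)) =
        ((t * a).factorial : ℝ) / (t.factorial * (a : ℝ) ^ t) := by
      rw [hk, Real.exp_sub, Real.exp_log p3, Real.exp_add, Real.exp_log p1, mul_comm (t : ℝ),
        Real.exp_mul, Real.exp_log p2, Real.rpow_natCast]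
    rw [h5, le_div_iff₀ (by positivity)]
    push_cast at h4
    exact h4
  have h6 : ((t * a + 1 : ℕ) : ℝ) ^ ((a + 1) * ((a + 1) * D)) =
      Real.exp (((a + 1) * (a + 1) : ℕ) * D * Real.log ((t * a : ℕ) + 1)) := by
    have p4 : (0 : ℝ) < ((t * a : ℕ) : ℝ) + 1 := by positivity
    rw [mul_comm _ (Real.log _), Real.exp_mul, Real.exp_log p4, ← Nat.cast_mul, Real.rpow_natCast]
    push_cast
    congr 1
    ring
  have h7 : (({f : S → Fin (t * a) → Option (Fin (t * a)) | nonreg S f 2 ≤ D}.ncard : ℕ) : ℝ) ≤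
      N * ((t * a + 1 : ℕ) : ℝ) ^ ((a + 1) * ((a + 1) * D)) := by
    exact_mod_cast h1
  refine le_trans h7 ?_
  rw [h6]
  refine le_trans (mul_le_mul_of_nonneg_right h3 (Real.exp_pos _).le) ?_
  rw [← Real.exp_add]
  apply Real.exp_le_exp.2
  have h8 : (0 : ℝ) ≤ ε * ((t * a : ℕ) : ℝ) := by positivity
  linarith

end H31.BE
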