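import Mathlib

/-! # CntNum : the numerical inequality  (paper 5.2, last line; module CntNum, ~150 lines, real analysis only)
c := Cv 0 = M + (n - ML). All Cv j <= c. Using k! >= (k/e)^k:  n^M/M! <= exp(M log(en/M)), n^Q/Q! <= exp(Q log(en/Q)) with Q = n - ML,
M, Q <= c; product of n^(Cv j - Cv (j+1)) = n^(c - Cv (q+1)) <= n^c = n^M n^Q (telescoping, Cv antitone);
2^(Cv j) <= 2^c; (2n/Cv)^Cv = exp(Cv log(2n/Cv)). The function x log(2en/x) is increasing in 0 < x <= 2n; so everything together is at most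
n! * exp((2 + 2 (q+1)) c log(2en/c) + (q+2) (s+10) D * 2 log(n+1) + (q+3) log(n+1)) for 1 <= c <= n.
Choose θ in (0,1) with (2 + 2(q+1)) x log(2e/x) <= ε/2 for 0 < x <= θ (x log(1/x) → 0). Choose L >= 4/θ, r >= r1 with L/(r+1) <= θ/4.
Case 2 L D <= θ n/4: then c <= n/L + L n/(r+1) + 2LD <= θ n, and (c/n) log(2en/c) * (..) <= ε/2; (q+3) log(n+1) <= ε n/2 for n >= n0.
Case 2 L D > θ n/4: every factor is at most (n+1)^(K n) (n+1)^(K D) for a constant K = K(q, s), and n <= (8L/θ) D: choose C large. -/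

set_option autoImplicit false

namespace H31.BE

/-- `x log (2en/x)` is increasing up to `n` -/
private lemma cntNum_mono (N x c : ℝ) (hc : 0 < c) (hcN : c ≤ N) (hx : 0 ≤ x) (hxc : x ≤ c) :
    x * Real.log (2 * Real.exp 1 * N / x) ≤ c * Real.log (2 * Real.exp 1 * N / c) := by
  have hN : 0 < N := lt_of_lt_of_le hc hcN
  have he : (0:ℝ) < Real.exp 1 := Real.exp_pos 1
  have hlog1 : 1 ≤ Real.log (2 * Real.exp 1 * N / c) := by
    rw [Real.le_log_iff_exp_le (by positivity)]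
    rw [le_div_iff₀ hc]
    nlinarith
  rcases eq_or_lt_of_le hx with h0 | h0
  · rw [← h0]; simp only [zero_mul]; positivity
  · have h1 : 2 * Real.exp 1 * N / x = (2 * Real.exp 1 * N / c) * (c / x) := by
      field_simp
    rw [h1, Real.log_mul (by positivity) (by positivity), mul_add]
    have h2 : x * Real.log (c / x) ≤ c - x := by
      have := Real.log_le_sub_one_of_pos (show 0 < c / x by positivity)
      calc x * Real.log (c / x) ≤ x * (c / x - 1) := by gcongr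
        _ = c - x := by field_simp
    nlinarith

private lemma cntNum_fact (N : ℝ) (k : ℕ) (c : ℝ) (hc : 0 < c) (hcN : c ≤ N) (hkc : (k : ℝ) ≤ c) :
    N ^ k / (k.factorial : ℝ) ≤ Real.exp (c * Real.log (2 * Real.exp 1 * N / c)) := by
  have hN : 0 < N := lt_of_lt_of_le hc hcN
  have hm := cntNum_mono N k c hc hcN (Nat.cast_nonneg k) hkc
  refine le_trans ?_ (Real.exp_le_exp.2 hm)
  rcases Nat.eq_zero_or_pos k with h0 | h0
  · subst h0; simp
  · have hk : (0:ℝ) < k := by exact_mod_cast h0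
    have h1 : (k:ℝ) ^ k / (k.factorial : ℝ) ≤ Real.exp k :=
      Real.pow_div_factorial_le_exp (k:ℝ) hk.le k
    have h2 : Real.exp ((k:ℝ) * Real.log (2 * Real.exp 1 * N / k)) =
        (2 * Real.exp 1 * N / k) ^ k := by
      rw [mul_comm, Real.exp_mul, Real.exp_log (by positivity), Real.rpow_natCast]
    rw [h2]
    have h3 : N ^ k / (k.factorial : ℝ) = (N / k) ^ k * ((k:ℝ) ^ k / (k.factorial : ℝ)) := by
      rw [div_pow]; field_simp
    have h4 : (2 * Real.exp 1 * N / k) ^ k = (N / k) ^ k * (2 * Real.exp 1) ^ k := by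
      rw [← mul_pow]; congr 1; ring
    rw [h3, h4]
    have h5 : Real.exp (k:ℝ) ≤ (2 * Real.exp 1) ^ k := by
      have : Real.exp (k:ℝ) = (Real.exp 1) ^ k := by
        rw [← Real.exp_nat_mul, mul_one]
      rw [this]
      have he : (0:ℝ) < Real.exp 1 := Real.exp_pos 1
      gcongr
      linarith
    have h6 := h1.trans h5
    gcongr

private lemma cntNum_two (N : ℝ) (k : ℕ) (c : ℝ) (hc : 0 < c) (hcN : c ≤ N) (hkc : (k : ℝ) ≤ c) :
    (2:ℝ) ^ k ≤ Real.exp (c * Real.log (2 * Real.exp 1 * N / c)) := by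
  have hN : 0 < N := lt_of_lt_of_le hc hcN
  have h1 : (2:ℝ) ^ k = Real.exp (k * Real.log 2) := by
    rw [mul_comm, Real.exp_mul, Real.exp_log (by norm_num), Real.rpow_natCast]
  rw [h1]
  apply Real.exp_le_exp.2
  have he : (1:ℝ) ≤ Real.exp 1 := Real.one_le_exp (by norm_num)
  have h2 : Real.log 2 ≤ Real.log (2 * Real.exp 1 * N / c) := by
    apply Real.log_le_log (by norm_num)
    rw [le_div_iff₀ hc]
    nlinarith
  have h3 : 0 ≤ Real.log 2 := Real.log_nonneg (by norm_num)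
  nlinarith [mul_le_mul hkc h2 h3 hc.le]

private lemma cntNum_div (N : ℝ) (k : ℕ) (c : ℝ) (hc : 0 < c) (hcN : c ≤ N) (hk : 1 ≤ k)
    (hkc : (k : ℝ) ≤ c) :
    (2 * N / (k:ℝ)) ^ k ≤ Real.exp (c * Real.log (2 * Real.exp 1 * N / c)) := by
  have hN : 0 < N := lt_of_lt_of_le hc hcN
  have hm := cntNum_mono N k c hc hcN (Nat.cast_nonneg k) hkc
  refine le_trans ?_ (Real.exp_le_exp.2 hm)
  have hk' : (0:ℝ) < k := by exact_mod_cast hk
  have h2 : Real.exp ((k:ℝ) * Real.log (2 * Real.exp 1 * N / k)) =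
      (2 * Real.exp 1 * N / k) ^ k := by
    rw [mul_comm, Real.exp_mul, Real.exp_log (by positivity), Real.rpow_natCast]
  rw [h2]
  have he : (1:ℝ) ≤ Real.exp 1 := Real.one_le_exp (by norm_num)
  have h3 : 2 * N ≤ 2 * Real.exp 1 * N := by nlinarith
  gcongr

private lemma cntNum_tele (N : ℝ) (hN : 1 ≤ N) (Cv : ℕ → ℕ) (m : ℕ)
    (h : ∀ j, j < m → Cv (j + 1) ≤ Cv j) :
    ∏ j ∈ Finset.range m, N ^ (Cv j - Cv (j + 1)) ≤ N ^ (Cv 0) := by
  have h1 : ∏ j ∈ Finset.range m, N ^ (Cv j - Cv (j + 1)) = N ^ (Cv 0 - Cv m) := by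
    induction m with
    | zero => simp
    | succ m ih =>
      rw [Finset.prod_range_succ, ih (fun j hj => h j (by omega)), ← pow_add]
      congr 1
      have h2 := h m (by omega)
      have h3 : ∀ k, k ≤ m → Cv m ≤ Cv (m - k) := by
        intro k
        induction k with
        | zero => intro _; simp
        | succ k ihk =>
          intro hk
          have := ihk (by omega)
          have h4 := h (m - (k + 1)) (by omega)
          have h5 : m - (k + 1) + 1 = m - k := by omega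
          rw [h5] at h4
          omega
      have h4 := h3 m le_rfl
      rw [Nat.sub_self] at h4
      omega
  rw [h1]
  exact pow_le_pow_right₀ hN (Nat.sub_le _ _)

private lemma cntNum_anti (Cv : ℕ → ℕ) (m : ℕ)
    (h : ∀ j, j < m → Cv (j + 1) ≤ Cv j) : ∀ j, j ≤ m → Cv j ≤ Cv 0 ∧ Cv m ≤ Cv j := by
  intro j hj
  constructor
  · induction j with
    | zero => exact le_rfl
    | succ j ih => exact (h j (by omega)).trans (ih (by omega))
  · have h3 : ∀ k, k ≤ m → Cv m ≤ Cv (m - k) := by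
      intro k
      induction k with
      | zero => intro _; simp
      | succ k ihk =>
        intro hk
        have := ihk (by omega)
        have h4 := h (m - (k + 1)) (by omega)
        have h5 : m - (k + 1) + 1 = m - k := by omega
        rw [h5] at h4
        omega
    have := h3 (m - j) (by omega)
    have h5 : m - (m - j) = j := by omega
    rwa [h5] at this

theorem cnt_num (q s r1 : ℕ) (ε : ℝ) (hε : 0 < ε) :
    ∃ L r C n0 : ℕ, 1 ≤ L ∧ r1 ≤ r ∧ 1 ≤ n0 ∧ ∀ (n D M : ℕ) (Cv : ℕ → ℕ), n0 ≤ n → M * L ≤ n →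
      n - M * L ≤ L * (n / (r + 1) + 2 * D) → Cv 0 = M + (n - M * L) →
      (∀ j, j ≤ q → Cv (j + 1) ≤ Cv j) → 1 ≤ Cv (q + 1) →
      ((n : ℝ) + 1) ^ (q + 3) * ((n.factorial : ℝ) / (n - M * L).factorial * ((n : ℝ) + 1) ^ (D * (1 + s)) *
        (∏ j ∈ Finset.range (q + 1), (2 ^ (Cv j) * (n : ℝ) ^ (Cv j - Cv (j + 1)) *
          (2 * n / (Cv (j + 1) : ℝ)) ^ (Cv (j + 1)) * ((n : ℝ) * (n + 1)) ^ (2 * D))) / M.factorial) ≤
      Real.exp (Real.log n.factorial + ε * n + C * D * Real.log (n + 1)) := by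
  -- choice of θ
  have hθ : ∃ θ : ℝ, 0 < θ ∧ ∀ x : ℝ, 0 < x → x ≤ θ →
      (2 * (q:ℝ) + 4) * (x * Real.log (2 * Real.exp 1 / x)) ≤ ε / 2 := by
    have h1 : Filter.Tendsto (fun x : ℝ => (2 * (q:ℝ) + 4) *
        (x * Real.log (2 * Real.exp 1) - x * Real.log x)) (nhds 0) (nhds 0) := by
      have h2 : Filter.Tendsto (fun x : ℝ => x * Real.log x) (nhds 0) (nhds (0 * Real.log 0)) :=
        Real.continuous_mul_log.tendsto 0
      have h3 : Filter.Tendsto (fun x : ℝ => x * Real.log (2 * Real.exp 1)) (nhds 0)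
          (nhds (0 * Real.log (2 * Real.exp 1))) :=
        (continuous_id.mul continuous_const).tendsto 0
      have h4 := (h3.sub h2).const_mul (2 * (q:ℝ) + 4)
      simpa using h4
    rw [Metric.tendsto_nhds] at h1
    have h5 := h1 (ε / 2) (by positivity)
    rw [Metric.eventually_nhds_iff] at h5
    obtain ⟨δ, hδ, h6⟩ := h5
    refine ⟨δ / 2, by positivity, fun x hx hx2 => ?_⟩
    have h7 := h6 (show dist x 0 < δ by rw [Real.dist_eq, sub_zero, abs_of_pos hx]; linarith)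
    rw [Real.dist_eq, sub_zero] at h7
    have h8 := (abs_lt.1 h7).2
    rw [Real.log_div (by positivity) hx.ne']
    linarith [h8, mul_sub x (Real.log (2 * Real.exp 1)) (Real.log x)]
  obtain ⟨θ, hθ0, hθ1⟩ := hθ
  -- choice of n0
  have hn0 : ∃ n0 : ℕ, 1 ≤ n0 ∧ ∀ n : ℕ, n0 ≤ n → ((q:ℝ) + 3) * Real.log (n + 1) ≤ ε / 2 * n := by
    have h1 := Real.isLittleO_log_id_atTop.def (show 0 < ε / (4 * ((q:ℝ) + 3)) by positivity)
    rw [Filter.eventually_atTop] at h1
    obtain ⟨X, hX⟩ := h1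
    refine ⟨max 1 ⌈X⌉₊, le_max_left _ _, fun n hn => ?_⟩
    have hn1 : (1:ℝ) ≤ n := by exact_mod_cast (le_max_left _ _).trans hn
    have hnX : X ≤ n := (Nat.le_ceil X).trans (by exact_mod_cast (le_max_right _ _).trans hn)
    have h2 := hX ((n:ℝ) + 1) (by linarith)
    simp only [id, Real.norm_eq_abs] at h2
    rw [abs_of_nonneg (Real.log_nonneg (by linarith)), abs_of_pos (by linarith)] at h2
    calc ((q:ℝ) + 3) * Real.log (n + 1) ≤ ((q:ℝ) + 3) * (ε / (4 * ((q:ℝ) + 3)) * (n + 1)) := by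
          gcongr
      _ = ε / 4 * (n + 1) := by field_simp
      _ ≤ ε / 2 * n := by nlinarith
  obtain ⟨n0, hn01, hn0⟩ := hn0
  set L : ℕ := max 1 ⌈4 / θ⌉₊ with hL
  have hL1 : 1 ≤ L := le_max_left _ _
  have hL2 : 4 / θ ≤ (L:ℝ) := (Nat.le_ceil _).trans (by exact_mod_cast le_max_right _ _)
  have hL0 : (0:ℝ) < L := by exact_mod_cast hL1
  set r : ℕ := max r1 ⌈4 * (L:ℝ) / θ⌉₊ with hr
  have hr1 : 4 * (L:ℝ) / θ ≤ (r:ℝ) := (Nat.le_ceil _).trans (Nat.cast_le.2 (le_max_right _ _))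
  set C : ℕ := ⌈(2 * (q:ℝ) + 4) * (16 * L / θ) + (1 + s + 4 * (q + 1))⌉₊ with hC
  have hC1 : (2 * (q:ℝ) + 4) * (16 * L / θ) + (1 + s + 4 * (q + 1)) ≤ (C:ℝ) := Nat.le_ceil _
  refine ⟨L, r, C, n0, hL1, le_max_left _ _, hn01, ?_⟩
  intro n D M Cv hn hML hQ hC0 hanti hpos
  have hn1 : 1 ≤ n := hn01.trans hn
  have hN1 : (1:ℝ) ≤ n := by exact_mod_cast hn1
  have hN0 : (0:ℝ) < n := by linarith
  have hanti' : ∀ j, j < q + 1 → Cv (j + 1) ≤ Cv j := fun j hj => hanti j (by omega)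
  have hrange := cntNum_anti Cv (q + 1) hanti'
  set Q : ℕ := n - M * L with hQdef
  have hcN : Cv 0 ≤ n := by
    have : M ≤ M * L := Nat.le_mul_of_pos_right M hL1
    omega
  have hc1 : 1 ≤ Cv 0 := hpos.trans (hrange 0 (by omega)).2
  set c : ℝ := (Cv 0 : ℝ) with hcdef
  have hc0 : 0 < c := by rw [hcdef]; exact_mod_cast hc1
  have hcN' : c ≤ n := by rw [hcdef]; exact_mod_cast hcN
  set φ : ℝ := c * Real.log (2 * Real.exp 1 * n / c) with hφ
  have hMQ : c = M + Q := by rw [hcdef, hC0]; push_cast; ring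
  have hM0 : (0:ℝ) ≤ M := Nat.cast_nonneg M
  have hQ0 : (0:ℝ) ≤ Q := Nat.cast_nonneg Q
  -- the factors
  have f1 : (n:ℝ) ^ M / (M.factorial : ℝ) ≤ Real.exp φ :=
    cntNum_fact n M c hc0 hcN' (by rw [hMQ]; linarith)
  have f2 : (n:ℝ) ^ Q / (Q.factorial : ℝ) ≤ Real.exp φ :=
    cntNum_fact n Q c hc0 hcN' (by rw [hMQ]; linarith)
  have f3 : ∀ j ∈ Finset.range (q + 1), (2:ℝ) ^ (Cv j) ≤ Real.exp φ := by
    intro j hj
    apply cntNum_two n (Cv j) c hc0 hcN'
    rw [hcdef]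
    exact_mod_cast (hrange j (by have := Finset.mem_range.1 hj; omega)).1
  have f4 : ∀ j ∈ Finset.range (q + 1), (2 * (n:ℝ) / (Cv (j + 1) : ℝ)) ^ (Cv (j + 1)) ≤
      Real.exp φ := by
    intro j hj
    have hj' := Finset.mem_range.1 hj
    apply cntNum_div n (Cv (j + 1)) c hc0 hcN'
    · exact hpos.trans (hrange (j + 1) (by omega)).2
    · rw [hcdef]
      exact_mod_cast (hrange (j + 1) (by omega)).1
  have f5 : ((n : ℝ) * (n + 1)) ^ (2 * D) ≤ ((n:ℝ) + 1) ^ (4 * D) := by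
    calc ((n : ℝ) * (n + 1)) ^ (2 * D) ≤ (((n:ℝ) + 1) * (n + 1)) ^ (2 * D) := by gcongr; linarith
      _ = ((n:ℝ) + 1) ^ (4 * D) := by rw [← pow_two, ← pow_mul]; congr 1; ring
  have f6 : (∏ j ∈ Finset.range (q + 1), (2 ^ (Cv j) * (n : ℝ) ^ (Cv j - Cv (j + 1)) *
      (2 * n / (Cv (j + 1) : ℝ)) ^ (Cv (j + 1)) * ((n : ℝ) * (n + 1)) ^ (2 * D))) ≤
      (Real.exp φ * Real.exp φ * ((n:ℝ) + 1) ^ (4 * D)) ^ (q + 1) * (n:ℝ) ^ (M + Q) := by
    have h1 : ∀ j ∈ Finset.range (q + 1), (2 ^ (Cv j) * (n : ℝ) ^ (Cv j - Cv (j + 1)) *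
        (2 * n / (Cv (j + 1) : ℝ)) ^ (Cv (j + 1)) * ((n : ℝ) * (n + 1)) ^ (2 * D)) ≤
        (Real.exp φ * Real.exp φ * ((n:ℝ) + 1) ^ (4 * D)) * (n : ℝ) ^ (Cv j - Cv (j + 1)) := by
      intro j hj
      have g1 := f3 j hj
      have g2 := f4 j hj
      calc (2 ^ (Cv j) * (n : ℝ) ^ (Cv j - Cv (j + 1)) *
          (2 * n / (Cv (j + 1) : ℝ)) ^ (Cv (j + 1)) * ((n : ℝ) * (n + 1)) ^ (2 * D))
          = (2 ^ (Cv j) * (2 * n / (Cv (j + 1) : ℝ)) ^ (Cv (j + 1)) *
            ((n : ℝ) * (n + 1)) ^ (2 * D)) * (n : ℝ) ^ (Cv j - Cv (j + 1)) := by ring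
        _ ≤ _ := by gcongr
    refine (Finset.prod_le_prod (fun j _ => by positivity) h1).trans ?_
    rw [Finset.prod_mul_distrib, Finset.prod_const, Finset.card_range]
    have h2 := cntNum_tele n hN1 Cv (q + 1) hanti'
    rw [hC0] at h2
    gcongr
  -- assembling
  have hfacQ : (0:ℝ) < (Q.factorial : ℝ) := by exact_mod_cast Nat.factorial_pos Q
  have hfacM : (0:ℝ) < (M.factorial : ℝ) := by exact_mod_cast Nat.factorial_pos M
  have hfacn : (0:ℝ) < (n.factorial : ℝ) := by exact_mod_cast Nat.factorial_pos n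
  have hlogpos : 0 ≤ Real.log ((n:ℝ) + 1) := Real.log_nonneg (by linarith)
  have hpow : ∀ k : ℕ, ((n:ℝ) + 1) ^ k = Real.exp (k * Real.log (n + 1)) := by
    intro k
    rw [mul_comm, Real.exp_mul, Real.exp_log (by linarith), Real.rpow_natCast]
  have key : ((n : ℝ) + 1) ^ (q + 3) * ((n.factorial : ℝ) / Q.factorial *
        ((n : ℝ) + 1) ^ (D * (1 + s)) *
        (∏ j ∈ Finset.range (q + 1), (2 ^ (Cv j) * (n : ℝ) ^ (Cv j - Cv (j + 1)) *
          (2 * n / (Cv (j + 1) : ℝ)) ^ (Cv (j + 1)) * ((n : ℝ) * (n + 1)) ^ (2 * D))) /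
        M.factorial) ≤
      (n.factorial : ℝ) * (((n:ℝ) + 1) ^ ((q + 3) + D * (1 + s + 4 * (q + 1)))) *
        Real.exp ((2 * q + 4 : ℕ) * φ) := by
    calc ((n : ℝ) + 1) ^ (q + 3) * ((n.factorial : ℝ) / Q.factorial *
        ((n : ℝ) + 1) ^ (D * (1 + s)) *
        (∏ j ∈ Finset.range (q + 1), (2 ^ (Cv j) * (n : ℝ) ^ (Cv j - Cv (j + 1)) *
          (2 * n / (Cv (j + 1) : ℝ)) ^ (Cv (j + 1)) * ((n : ℝ) * (n + 1)) ^ (2 * D))) /
        M.factorial)
        ≤ ((n : ℝ) + 1) ^ (q + 3) * ((n.factorial : ℝ) / Q.factorial *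
        ((n : ℝ) + 1) ^ (D * (1 + s)) *
        ((Real.exp φ * Real.exp φ * ((n:ℝ) + 1) ^ (4 * D)) ^ (q + 1) * (n:ℝ) ^ (M + Q)) /
        M.factorial) := by gcongr
      _ = (n.factorial : ℝ) * (((n:ℝ) + 1) ^ ((q + 3) + D * (1 + s + 4 * (q + 1)))) *
          ((Real.exp φ * Real.exp φ) ^ (q + 1) *
            (((n:ℝ) ^ M / (M.factorial : ℝ)) * ((n:ℝ) ^ Q / (Q.factorial : ℝ)))) := by
          rw [mul_pow (Real.exp φ * Real.exp φ), ← pow_mul, pow_add (n:ℝ)]
          have e1 : ((n:ℝ) + 1) ^ ((q + 3) + D * (1 + s + 4 * (q + 1))) =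
              ((n:ℝ) + 1) ^ (q + 3) * ((n:ℝ) + 1) ^ (D * (1 + s)) *
              ((n:ℝ) + 1) ^ (4 * D * (q + 1)) := by
            rw [← pow_add, ← pow_add]; congr 1; ring
          rw [e1]
          field_simp
      _ ≤ (n.factorial : ℝ) * (((n:ℝ) + 1) ^ ((q + 3) + D * (1 + s + 4 * (q + 1)))) *
          ((Real.exp φ * Real.exp φ) ^ (q + 1) * (Real.exp φ * Real.exp φ)) := by gcongr
      _ = _ := by
          congr 1
          rw [← pow_succ, ← Real.exp_add, ← Real.exp_nat_mul]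
          congr 1
          push_cast
          ring
  refine key.trans ?_
  rw [hpow, Real.exp_add, Real.exp_add, Real.exp_log hfacn, mul_assoc, mul_assoc,
    ← Real.exp_add, ← Real.exp_add]
  apply mul_le_mul_of_nonneg_left _ hfacn.le
  apply Real.exp_le_exp.2
  push_cast
  have hlog := hn0 n hn
  by_cases hcase : c ≤ θ * n
  · -- few classes
    have h1 : (2 * (q:ℝ) + 4) * φ ≤ ε / 2 * n := by
      have hx0 : 0 < c / n := by positivity
      have hx1 : c / n ≤ θ := by rw [div_le_iff₀ hN0]; exact hcase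
      have h2 := hθ1 (c / n) hx0 hx1
      have h3 : 2 * Real.exp 1 / (c / n) = 2 * Real.exp 1 * n / c := by field_simp
      rw [h3] at h2
      have h4 : (2 * (q:ℝ) + 4) * φ = ((2 * (q:ℝ) + 4) *
          (c / n * Real.log (2 * Real.exp 1 * n / c))) * n := by
        rw [hφ]; field_simp
      rw [h4]
      gcongr
    have h5 : (D:ℝ) * (1 + s + 4 * (q + 1)) * Real.log (n + 1) ≤ C * D * Real.log (n + 1) := by
      apply mul_le_mul_of_nonneg_right _ hlogpos
      rw [mul_comm]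
      apply mul_le_mul_of_nonneg_right _ (Nat.cast_nonneg D)
      have : 0 ≤ (2 * (q:ℝ) + 4) * (16 * L / θ) := by positivity
      linarith
    linarith [h1, h5, hlog]
  · -- D is large
    rw [not_le] at hcase
    have h1 : (M:ℝ) ≤ θ * n / 4 := by
      have h2 : (M:ℝ) * L ≤ n := by exact_mod_cast hML
      have h3 : 4 ≤ L * θ := by rwa [div_le_iff₀ hθ0] at hL2
      have h4 : (M:ℝ) * 4 ≤ M * (L * θ) := mul_le_mul_of_nonneg_left h3 hM0
      have h5 : (M:ℝ) * L * θ ≤ n * θ := mul_le_mul_of_nonneg_right h2 hθ0.le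
      linarith
    have h2 : (Q:ℝ) ≤ θ * n / 4 + 2 * L * D := by
      have h3 : (Q:ℝ) ≤ L * (((n / (r + 1) : ℕ) : ℝ) + 2 * D) := by exact_mod_cast hQ
      have h4 : ((n / (r + 1) : ℕ) : ℝ) ≤ n / ((r:ℝ) + 1) := by
        have := @Nat.cast_div_le ℝ _ _ _ n (r + 1)
        push_cast at this
        exact this
      have h5 : (L:ℝ) * (n / ((r:ℝ) + 1)) ≤ θ * n / 4 := by
        have h6 : 4 * L ≤ (r:ℝ) * θ := by rwa [div_le_iff₀ hθ0] at hr1
        rw [← mul_div_assoc, div_le_iff₀ (by positivity)]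
        have h7 : 4 * L * (n:ℝ) ≤ r * θ * n := mul_le_mul_of_nonneg_right h6 hN0.le
        have h8 : 0 ≤ θ * n := by positivity
        linarith
      have h6 : (L:ℝ) * (((n / (r + 1) : ℕ) : ℝ)) ≤ L * (n / ((r:ℝ) + 1)) :=
        mul_le_mul_of_nonneg_left h4 hL0.le
      linarith
    have h3 : (n:ℝ) ≤ 4 * L / θ * D := by
      rw [hMQ] at hcase
      rw [div_mul_eq_mul_div, le_div_iff₀ hθ0]
      linarith
    have h4 : φ ≤ 2 * n := by
      have h5 := cntNum_mono n c n hN0 le_rfl hc0.le hcN'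
      have h6 : 2 * Real.exp 1 * (n:ℝ) / n = 2 * Real.exp 1 := by field_simp
      rw [h6, Real.log_mul (by norm_num) (Real.exp_pos 1).ne', Real.log_exp] at h5
      have h7 : Real.log 2 < 1 := by have := Real.log_two_lt_d9; linarith
      have h8 : φ ≤ n * (Real.log 2 + 1) := h5
      have h9 : (n:ℝ) * (Real.log 2 + 1) ≤ n * 2 := mul_le_mul_of_nonneg_left (by linarith) hN0.le
      linarith
    have h5 : (1:ℝ) ≤ 2 * Real.log (n + 1) := by
      have h6 : Real.log 2 ≤ Real.log ((n:ℝ) + 1) := Real.log_le_log (by norm_num) (by linarith)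
      have := Real.log_two_gt_d9
      linarith
    have h6 : φ ≤ 16 * L / θ * D * Real.log (n + 1) := by
      have h7 : φ ≤ 2 * (4 * L / θ * D) * 1 := by linarith
      have h8 : 2 * (4 * L / θ * D) * 1 ≤ 2 * (4 * L / θ * D) * (2 * Real.log (n + 1)) := by
        gcongr
      calc φ ≤ _ := h7
        _ ≤ _ := h8
        _ = _ := by ring
    have h7 : (2 * (q:ℝ) + 4) * φ ≤ (2 * (q:ℝ) + 4) * (16 * L / θ * D * Real.log (n + 1)) := by
      gcongr
    have h8 : ((2 * (q:ℝ) + 4) * (16 * L / θ) + (1 + s + 4 * (q + 1))) * (D * Real.log (n + 1)) ≤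
        C * (D * Real.log (n + 1)) := by
      gcongr
    have h9 : 0 ≤ ε / 2 * (n:ℝ) := by positivity
    linarith [h7, h8, hlog]

end H31.BE
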