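import Pool.Agent.H31.BE.CntDefs

/-! # CntSeg : cutting the orbits of a partial injection into segments  (paper 5.2; module CntSeg, ~150 lines)
p : V → Option V injective where defined, no cycles of length <= r. D = number of v with p v = none.
Extend p to a permutation P of V (P v = w whenever p v = some w; exists because the complements of domain and image have the same
size). Call v an end if p v = none (D of them). A cycle of P (orbit, fixed points included) without end is a cycle of p, so it has
more than r elements: the number of orbits of P is <= |V|/(r+1) + D. Write each orbit as x, P x, ..., P^(m-1) x and cut off consecutive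
segments of length L: less than L elements of each orbit remain. Throw away the segments that contain an end: at most D of them,
L elements each. Uncovered elements: <= L (|V|/(r+1) + D) + L D. In the remaining segments consecutive elements are joined by p.
(Formally: induction on the orbits, or index the segments by the finite set of pairs (orbit, i), i < m/L, and transport to Fin M.) -/

set_option autoImplicit false

namespace H31.BE

theorem segments {V : Type} [Fintype V] [DecidableEq V] (p : V → Option V)
    (hinj : ∀ u v w, p u = some w → p v = some w → u = v) (r : ℕ)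
    (hcyc : ∀ (v : V) (j : ℕ), 1 ≤ j → j ≤ r → (fun o : Option V => o.bind p)^[j] (some v) ≠ some v)
    (L : ℕ) (hL : 1 ≤ L) :
    ∃ (M : ℕ) (seg : Fin M × Fin L → V), Function.Injective seg ∧
      (∀ (i : Fin M) (j : ℕ) (hj : j + 1 < L),
        p (seg (i, ⟨j, by omega⟩)) = some (seg (i, ⟨j + 1, hj⟩))) ∧
      Fintype.card V - M * L ≤ L * (Fintype.card V / (r + 1) + 2 * {v | p v = none}.ncard) := by
  classical
  set F : Option V → Option V := fun o => o.bind p with hF
  have F_none : ∀ j, F^[j] none = none := by
    intro j
    induction j with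
    | zero => rfl
    | succ j ih => rw [Function.iterate_succ_apply]; exact ih
  have F_some : ∀ u, F (some u) = p u := fun u => rfl
  have F_inj : ∀ j u v w, F^[j] (some u) = some w → F^[j] (some v) = some w → u = v := by
    intro j
    induction j with
    | zero =>
      intro u v w h1 h2
      exact Option.some.inj (h1.trans h2.symm)
    | succ j ih =>
      intro u v w h1 h2
      rw [Function.iterate_succ_apply, F_some] at h1 h2
      cases hu : p u with
      | none => rw [hu, F_none] at h1; exact absurd h1 (by simp)
      | some u' =>
        cases hv : p v with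
        | none => rw [hv, F_none] at h2; exact absurd h2 (by simp)
        | some v' =>
          rw [hu] at h1
          rw [hv] at h2
          have := ih u' v' w h1 h2
          subst this
          exact hinj _ _ _ hu hv
  -- a prefix of a defined path is defined
  have F_pre : ∀ i i' b v, i' ≤ i → F^[i] (some b) = some v →
      ∃ u, F^[i'] (some b) = some u ∧ F^[i - i'] (some u) = some v := by
    intro i i' b v hi h
    have e : i = (i - i') + i' := by omega
    have h' := h
    rw [e, Function.iterate_add_apply] at h'
    cases hx : F^[i'] (some b) with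
    | none => rw [hx, F_none] at h'; exact absurd h' (by simp)
    | some u => rw [hx] at h'; exact ⟨u, rfl, h'⟩
  -- a minimal set from which everything can be reached
  let Q : Finset V → Prop := fun B => ∀ v, ∃ b ∈ B, ∃ i, F^[i] (some b) = some v
  have hex : ∃ n, ∃ B : Finset V, B.card = n ∧ Q B :=
    ⟨_, Finset.univ, rfl, fun v => ⟨v, Finset.mem_univ _, 0, rfl⟩⟩
  obtain ⟨B, hBn, hB⟩ := Nat.find_spec hex
  have hmin : ∀ B' : Finset V, Q B' → B.card ≤ B'.card := by
    intro B' h'
    rw [hBn]
    exact Nat.find_min' hex ⟨B', rfl, h'⟩
  have hdis0 : ∀ b ∈ B, ∀ b' ∈ B, ∀ i i' v, i ≤ i' → F^[i] (some b) = some v →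
      F^[i'] (some b') = some v → b = b' := by
    intro b hb b' hb' i i' v hi h1 h2
    by_contra hne
    obtain ⟨y, hy1, hy2⟩ := F_pre i' (i' - i) b' v (by omega) h2
    have e : i' - (i' - i) = i := by omega
    rw [e] at hy2
    have hyb : y = b := F_inj i y b v hy2 h1
    subst hyb
    have hQ : Q (B.erase y) := by
      intro w
      obtain ⟨c, hc, j, hj⟩ := hB w
      by_cases hcy : c = y
      · subst hcy
        refine ⟨b', Finset.mem_erase.2 ⟨fun h => hne h.symm, hb'⟩, j + (i' - i), ?_⟩
        rw [Function.iterate_add_apply, hy1, hj]
      · exact ⟨c, Finset.mem_erase.2 ⟨hcy, hc⟩, j, hj⟩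
    have h3 := hmin _ hQ
    rw [Finset.card_erase_of_mem hb] at h3
    have h4 : 0 < B.card := Finset.card_pos.2 ⟨y, hb⟩
    omega
  have hdis : ∀ b ∈ B, ∀ b' ∈ B, ∀ i i' v, F^[i] (some b) = some v →
      F^[i'] (some b') = some v → b = b' := by
    intro b hb b' hb' i i' v h1 h2
    rcases le_total i i' with h | h
    · exact hdis0 b hb b' hb' i i' v h h1 h2
    · exact (hdis0 b' hb' b hb i' i v h h2 h1).symm
  -- the size of B
  have hcardB : B.card ≤ Fintype.card V / (r + 1) + {v | p v = none}.ncard := by
    let B2 := B.filter (fun b => ∀ i, i ≤ r → F^[i] (some b) ≠ none)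
    let B1 := B.filter (fun b => ¬ ∀ i, i ≤ r → F^[i] (some b) ≠ none)
    have hsum : B2.card + B1.card = B.card := Finset.card_filter_add_card_filter_not _
    have h2 : B2.card ≤ Fintype.card V / (r + 1) := by
      rw [Nat.le_div_iff_mul_le (by omega)]
      have hdef : ∀ x : B2 × Fin (r + 1), ∃ u, F^[x.2.1] (some x.1.1) = some u := by
        intro x
        have h3 := (Finset.mem_filter.1 x.1.2).2 x.2.1 (by have := x.2.2; omega)
        exact Option.ne_none_iff_exists'.1 h3
      choose g hg using hdef
      have hginj : Function.Injective g := by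
        rintro ⟨b, i⟩ ⟨b', i'⟩ h
        have h1 := hg (b, i)
        have h2 := hg (b', i')
        rw [← h] at h2
        simp only at h1 h2
        have hbb : b.1 = b'.1 := hdis b.1 (Finset.mem_filter.1 b.2).1 b'.1
          (Finset.mem_filter.1 b'.2).1 _ _ _ h1 h2
        have hbb' : b = b' := Subtype.ext hbb
        subst hbb'
        have key : ∀ j j' : ℕ, j < j' → j' ≤ r → F^[j] (some b.1) = some (g (b, i)) →
            F^[j'] (some b.1) = some (g (b, i)) → False := by
          intro j j' hlt hr k1 k2
          obtain ⟨y, hy1, hy2⟩ := F_pre j' (j' - j) b.1 _ (by omega) k2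
          have e : j' - (j' - j) = j := by omega
          rw [e] at hy2
          have hyb : y = b.1 := F_inj j y b.1 _ hy2 k1
          rw [hyb] at hy1
          exact hcyc b.1 (j' - j) (by omega) (by omega) hy1
        have hii : i = i' := by
          apply Fin.ext
          rcases Nat.lt_trichotomy i.1 i'.1 with h3 | h3 | h3
          · exact (key _ _ h3 (by have := i'.2; omega) h1 h2).elim
          · exact h3
          · exact (key _ _ h3 (by have := i.2; omega) h2 h1).elim
        rw [hii]
      have := Fintype.card_le_of_injective g hginj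
      simpa [Fintype.card_prod, Fintype.card_coe, Fintype.card_fin] using this
    have h1 : B1.card ≤ {v | p v = none}.ncard := by
      have hdef : ∀ b ∈ B1, ∃ u i, F^[i] (some b) = some u ∧ p u = none := by
        intro b hb
        have h3 := (Finset.mem_filter.1 hb).2
        push Not at h3
        obtain ⟨i, -, hi⟩ := h3
        have hexn : ∃ i, F^[i] (some b) = none := ⟨i, hi⟩
        have h4 := Nat.find_spec hexn
        have h5 : Nat.find hexn ≠ 0 := by
          intro h0
          rw [h0] at h4
          exact absurd h4 (by simp)
        obtain ⟨k, hk⟩ := Nat.exists_eq_succ_of_ne_zero h5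
        have h6 : F^[k] (some b) ≠ none := Nat.find_min hexn (by omega)
        obtain ⟨u, hu⟩ := Option.ne_none_iff_exists'.1 h6
        refine ⟨u, k, hu, ?_⟩
        rw [hk, Function.iterate_succ_apply', hu] at h4
        exact h4
      choose! g hg using hdef
      have hset : {v | p v = none}.ncard = (Finset.univ.filter (fun v => p v = none)).card := by
        rw [← Set.ncard_coe_finset]
        congr 1
        ext v
        simp
      rw [hset]
      refine Finset.card_le_card_of_injOn g ?_ ?_
      · intro b hb
        obtain ⟨i, hi1, hi2⟩ := hg b hb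
        exact Finset.mem_coe.2 (Finset.mem_filter.2 ⟨Finset.mem_univ _, hi2⟩)
      · intro b hb b' hb' h
        obtain ⟨i, hi1, -⟩ := hg b hb
        obtain ⟨i', hi1', -⟩ := hg b' hb'
        rw [← h] at hi1'
        exact hdis b (Finset.mem_filter.1 hb).1 b' (Finset.mem_filter.1 hb').1 _ _ _ hi1 hi1'
    omega
  -- the index of a vertex
  have hext : ∀ v, ∃ i, ∃ b ∈ B, F^[i] (some b) = some v := by
    intro v
    obtain ⟨b, hb, i, hi⟩ := hB v
    exact ⟨i, b, hb, hi⟩
  let t : V → ℕ := fun v => Nat.find (hext v)
  have ht : ∀ v, ∃ b ∈ B, F^[t v] (some b) = some v := fun v => Nat.find_spec (hext v)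
  have htmin : ∀ v i b, b ∈ B → F^[i] (some b) = some v → t v ≤ i :=
    fun v i b hb h => Nat.find_min' (hext v) ⟨b, hb, h⟩
  choose bb hbB hbt using ht
  have hidx : ∀ v i, i ≤ t v → ∃ u, F^[i] (some (bb v)) = some u ∧ t u = i ∧
      F^[t v - i] (some u) = some v := by
    intro v i hi
    obtain ⟨u, hu1, hu2⟩ := F_pre (t v) i (bb v) v hi (hbt v)
    refine ⟨u, hu1, ?_, hu2⟩
    have h1 : t u ≤ i := htmin u i (bb v) (hbB v) hu1
    have h2 : t v ≤ (t v - i) + t u := by
      refine htmin v _ (bb u) (hbB u) ?_
      rw [Function.iterate_add_apply, hbt u, hu2]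
    omega
  let A : Finset V := Finset.univ.filter (fun v => L ∣ t v ∧
    ∀ j, j < L → ∃ u, F^[j] (some v) = some u ∧ t u = t v + j)
  have hseg : ∀ x : Fin A.card × Fin L, ∃ u,
      F^[x.2.1] (some (A.equivFin.symm x.1).1) = some u ∧
        t u = t (A.equivFin.symm x.1).1 + x.2.1 :=
    fun x => (Finset.mem_filter.1 (A.equivFin.symm x.1).2).2.2 x.2.1 x.2.2
  choose seg hs1 hs2 using hseg
  have hsinj : Function.Injective seg := by
    rintro ⟨i, j⟩ ⟨i', j'⟩ h
    have h1 := hs2 (i, j)
    have h2 := hs2 (i', j')
    rw [← h, h1] at h2
    simp only at h2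
    obtain ⟨c, hc⟩ := (Finset.mem_filter.1 (A.equivFin.symm i).2).2.1
    obtain ⟨c', hc'⟩ := (Finset.mem_filter.1 (A.equivFin.symm i').2).2.1
    have hjj : j.1 = j'.1 := by
      have h3 : (L * c + j.1) % L = (L * c' + j'.1) % L := by rw [← hc, ← hc', h2]
      rw [Nat.mul_add_mod, Nat.mul_add_mod, Nat.mod_eq_of_lt j.2, Nat.mod_eq_of_lt j'.2] at h3
      exact h3
    have hj : j = j' := Fin.ext hjj
    subst hj
    have h4 := hs1 (i, j)
    have h5 := hs1 (i', j)
    rw [← h] at h5
    have h6 := F_inj _ _ _ _ h4 h5
    have h7 : i = i' := A.equivFin.symm.injective (Subtype.ext h6)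
    rw [h7]
  refine ⟨A.card, seg, hsinj, ?_, ?_⟩
  · intro i j hj
    have h1 := hs1 (i, ⟨j, by omega⟩)
    have h2 := hs1 (i, ⟨j + 1, hj⟩)
    simp only at h1 h2
    rw [Function.iterate_succ_apply', h1] at h2
    exact h2
  · -- the uncovered vertices
    let U : Finset V := Finset.univ \ (Finset.univ.image seg)
    have hUc : U.card = Fintype.card V - A.card * L := by
      have h1 : (Finset.univ.image seg).card = A.card * L := by
        rw [Finset.card_image_of_injective _ hsinj, Finset.card_univ, Fintype.card_prod,
          Fintype.card_fin, Fintype.card_fin]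
      rw [Finset.card_sdiff_of_subset (Finset.subset_univ _), h1, Finset.card_univ]
    have hcov : ∀ v, (∀ j, j < L → ∃ u, F^[t v / L * L + j] (some (bb v)) = some u ∧
        t u = t v / L * L + j) → v ∉ U := by
      intro v hv hvU
      obtain ⟨s, hs, hst⟩ := hv 0 (by omega)
      rw [Nat.add_zero] at hs hst
      have hsA : s ∈ A := by
        refine Finset.mem_filter.2 ⟨Finset.mem_univ _, ?_, ?_⟩
        · rw [hst]; exact Dvd.intro_left _ rfl
        · intro j hj
          obtain ⟨u, hu, hut⟩ := hv j hj
          refine ⟨u, ?_, by rw [hst, hut]⟩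
          rw [Nat.add_comm, Function.iterate_add_apply, hs] at hu
          exact hu
      have hlt : t v % L < L := Nat.mod_lt _ (by omega)
      have hvs : F^[t v % L] (some s) = some v := by
        have h1 := hbt v
        have e : t v = t v % L + t v / L * L := by
          have := Nat.mod_add_div (t v) L
          rw [Nat.mul_comm (t v / L) L]
          omega
        rw [e, Function.iterate_add_apply, hs] at h1
        exact h1
      have h2 : seg (A.equivFin ⟨s, hsA⟩, ⟨t v % L, hlt⟩) = v := by
        have h3 := hs1 (A.equivFin ⟨s, hsA⟩, ⟨t v % L, hlt⟩)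
        simp only [Equiv.symm_apply_apply] at h3
        rw [hvs] at h3
        exact (Option.some.inj h3).symm
      exact (Finset.mem_sdiff.1 hvU).2 (Finset.mem_image.2 ⟨_, Finset.mem_univ _, h2⟩)
    have hUB : U.card ≤ (B ×ˢ Finset.range L).card := by
      refine Finset.card_le_card_of_injOn (fun v => (bb v, t v % L)) ?_ ?_
      · intro v _
        exact Finset.mem_coe.2 (Finset.mem_product.2
          ⟨hbB v, Finset.mem_range.2 (Nat.mod_lt _ (by omega))⟩)
      · have key : ∀ v ∈ U, ∀ v' ∈ U, bb v = bb v' → t v % L = t v' % L → ¬ t v < t v' := by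
          intro v hv v' _ hbe hte hlt
          refine hcov v ?_ hv
          intro j hj
          have h1 : t v + L ≤ t v' := by
            have h2 := Nat.mod_add_div (t v) L
            have h3 := Nat.mod_add_div (t v') L
            have h4 : t v / L < t v' / L := by
              by_contra h5
              push Not at h5
              have h6 : L * (t v' / L) ≤ L * (t v / L) := Nat.mul_le_mul_left _ h5
              omega
            have h7 : L * (t v / L + 1) ≤ L * (t v' / L) := Nat.mul_le_mul_left _ h4
            rw [Nat.mul_add, Nat.mul_one] at h7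
            omega
          have h8 : t v / L * L ≤ t v := Nat.div_mul_le_self _ _
          obtain ⟨u, hu1, hu2, -⟩ := hidx v' (t v / L * L + j) (by omega)
          exact ⟨u, by rw [hbe]; exact hu1, hu2⟩
        intro v hv v' hv' h
        have hb : bb v = bb v' := congrArg Prod.fst h
        have hm : t v % L = t v' % L := congrArg Prod.snd h
        have htt : t v = t v' := by
          rcases Nat.lt_trichotomy (t v) (t v') with h1 | h1 | h1
          · exact (key v hv v' hv' hb hm h1).elim
          · exact h1
          · exact (key v' hv' v hv hb.symm hm.symm h1).elim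
        have h2 := hbt v
        have h3 := hbt v'
        rw [← hb, ← htt, h2] at h3
        exact Option.some.inj h3
    rw [Finset.card_product, Finset.card_range] at hUB
    rw [← hUc]
    calc U.card ≤ B.card * L := hUB
      _ = L * B.card := Nat.mul_comm _ _
      _ ≤ L * (Fintype.card V / (r + 1) + 2 * {v | p v = none}.ncard) :=
        Nat.mul_le_mul_left _ (by omega)

end H31.BE
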