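import Pool.Agent.H31.BE.CntEnc
import Pool.Agent.H31.BE.CntNum
import Pool.Agent.H31.BE.CntSeg

/-! # CntInf : (U) for an infinite factor with a series  (module CntInf, ~110 lines; assembly)
r1 from `fam_count` (and at least 2), L, r, C, n0 from `cnt_num` with s := S.card. H is infinite (t 0 has infinite order), so kap = 0.
Every f with nonreg S f r <= D lies in Fam h r n D M L Cv for some M with M*L <= n, n - M*L <= L (n/(r+1) + 2D), and Cv with values <= n
(Cv j := 0 for j > q + 1, so there are at most (n+1)^(q+3) pairs (M, Cv)): apply `segments` to p v := if v is regular then f (pos 0) v else none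
(injective: f (neg 0) (f (pos 0) v) = v; no cycles of length <= r since (t 0)^j ≠ 1 and v is regular: p^j (v) = some v would force
f evaluated along (t 0)^j to be v). Cv j := ncl (RR j), Cv 0 by `ncl_R0`, antitone by `ncl_joinS_le`, Cv >= 1 as n >= 1.
Sum the bounds: number of pairs times the maximum, `fam_count` and `cnt_num`. -/

set_option autoImplicit false

namespace H31.BE

private theorem sprod_rep {G : Type} [Group G] {S : Finset G} (s : S) (j : ℕ) :
    sprod (List.replicate j s) = (s : G) ^ j := by
  simp [sprod]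

private theorem iter_none {V : Type} (p : V → Option V) (j : ℕ) :
    (fun o : Option V => o.bind p)^[j] none = none := by
  induction j with
  | zero => rfl
  | succ j ih =>
    rw [Function.iterate_succ_apply]
    exact ih

open Classical in
/-- the regular part of the map of `t 0` -/
private noncomputable def pp {G : Type} [Group G] {H : Subgroup G} {S : Finset G} {q : ℕ} {t : Fin (q + 1) → G}
    (h : Series H S q t) {n : ℕ} (f : S → Fin n → Option (Fin n)) (r : ℕ) : Fin n → Option (Fin n) :=
  fun v => if IsReg S f r v then f (pos h 0) v else none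

private theorem pp_some {G : Type} [Group G] {H : Subgroup G} {S : Finset G} {q : ℕ} {t : Fin (q + 1) → G}
    (h : Series H S q t) {n : ℕ} (f : S → Fin n → Option (Fin n)) (r : ℕ) {v w : Fin n}
    (hv : pp h f r v = some w) : IsReg S f r v ∧ f (pos h 0) v = some w := by
  unfold pp at hv
  split_ifs at hv with h1
  exact ⟨h1, hv⟩

private theorem pp_iter {G : Type} [Group G] {H : Subgroup G} {S : Finset G} {q : ℕ} {t : Fin (q + 1) → G}
    (h : Series H S q t) {n : ℕ} (f : S → Fin n → Option (Fin n)) (r : ℕ) (v : Fin n) (j : ℕ) :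
    ∀ w, (fun o : Option (Fin n) => o.bind (pp h f r))^[j] (some v) = some w →
      ev f (List.replicate j (pos h 0)) v = some w := by
  induction j with
  | zero =>
    intro w hw
    exact hw
  | succ j ih =>
    intro w hw
    rw [Function.iterate_succ_apply'] at hw
    obtain ⟨u, hu, hw⟩ := Option.bind_eq_some_iff.1 hw
    rw [List.replicate_succ]
    change (ev f (List.replicate j (pos h 0)) v).bind (f (pos h 0)) = some w
    rw [ih u hu]
    exact (pp_some h f r hw).2

private theorem exists_seg {G : Type} [Group G] {H : Subgroup G} {S : Finset G} {q : ℕ} {t : Fin (q + 1) → G}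
    (h : Series H S q t) {n : ℕ} (f : S → Fin n → Option (Fin n)) (r : ℕ) (hr : 2 ≤ r) (D : ℕ)
    (hD : nonreg S f r ≤ D) (L : ℕ) (hL : 1 ≤ L) :
    ∃ (M : ℕ) (seg : Fin M × Fin L → Fin n), SegOK h f r seg ∧ M * L ≤ n ∧
      n - M * L ≤ L * (n / (r + 1) + 2 * D) := by
  obtain ⟨M, seg, h1, h2, h3⟩ := segments (pp h f r) (by
    intro u v w hu hv
    obtain ⟨ru, hu⟩ := pp_some h f r hu
    obtain ⟨rv, hv⟩ := pp_some h f r hv
    have key : ∀ x, IsReg S f r x → f (pos h 0) x = some w → f (neg h 0) w = some x := by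
      intro x hx hxw
      obtain ⟨y, hy1, -, hy3⟩ := hx [] (by simp)
      have h4 := hy3 [neg h 0, pos h 0] (by simpa using hr) (by simp [sprod, pos, neg])
      rw [← hy1] at h4
      change (f (pos h 0) x).bind (f (neg h 0)) = some x at h4
      rw [hxw] at h4
      exact h4
    have h5 := key u ru hu
    rw [key v rv hv] at h5
    exact (Option.some.inj h5).symm) r (by
    intro v j hj1 hj2 he
    have h4 := pp_iter h f r v j v he
    have hv : IsReg S f r v := by
      by_contra hcon
      obtain ⟨i, rfl⟩ : ∃ i, j = i + 1 := ⟨j - 1, by omega⟩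
      rw [Function.iterate_succ_apply] at he
      have h5 : (some v).bind (pp h f r) = none := by
        change pp h f r v = none
        unfold pp
        rw [if_neg hcon]
      change (fun o : Option (Fin n) => o.bind (pp h f r))^[i] ((some v).bind (pp h f r)) = some v at he
      rw [h5, iter_none] at he
      exact absurd he (by simp)
    obtain ⟨u, hu1, hu2, -⟩ := hv (List.replicate j (pos h 0)) (by simpa using hj2)
    rw [h4] at hu1
    refine hu2 ?_ (Option.some.inj hu1).symm
    rw [sprod_rep]
    exact h.inf j hj1) L hL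
  refine ⟨M, seg, ⟨h1, fun i j hj => pp_some h f r (h2 i j hj)⟩, ?_, ?_⟩
  · have := Fintype.card_le_of_injective seg h1
    simpa using this
  · rw [Fintype.card_fin] at h3
    refine h3.trans (Nat.mul_le_mul_left _ (Nat.add_le_add_left (Nat.mul_le_mul_left _ ?_) _))
    refine le_trans (Set.ncard_le_ncard ?_ (Set.toFinite _)) hD
    intro v hv hreg
    rw [Set.mem_ofPred_eq] at hv
    unfold pp at hv
    rw [if_pos hreg] at hv
    obtain ⟨u, hu1, -, -⟩ := hreg [pos h 0] (by simp; omega)
    change f (pos h 0) v = some u at hu1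
    rw [hv] at hu1
    exact absurd hu1 (by simp)

/-- the class numbers from an index -/
private def cvOf {q n : ℕ} (x : Fin (q + 2) → Fin (n + 1)) : ℕ → ℕ :=
  fun j => if hj : j < q + 2 then (x ⟨j, hj⟩).val else 0

theorem countProp_inf {G : Type} [Group G] (H : Subgroup G) (S : Finset G) (q : ℕ) (t : Fin (q + 1) → G)
    (h : Series H S q t) : CountProp H S := by
  classical
  intro ε hε
  obtain ⟨r1, hr1⟩ := fam_count h
  obtain ⟨L, r, C, n0, hL, hr, hn0, hnum⟩ := cnt_num q S.card (max r1 2) ε hε
  refine ⟨r, C, n0, fun n hn _ D => ?_⟩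
  have hkap : kap H n = 0 := by
    unfold kap
    rw [if_neg]
    intro hfin
    have h1 : t 0 ∈ H := by
      rw [← h.gen]
      exact Subgroup.subset_closure ⟨0, rfl⟩
    have h2 : IsOfFinOrder (⟨t 0, h1⟩ : H) := isOfFinOrder_of_finite _
    obtain ⟨m, hm, h3⟩ := isOfFinOrder_iff_pow_eq_one.1 h2
    refine h.inf m hm ?_
    have h4 := congrArg Subtype.val h3
    simpa using h4
  rw [hkap, sub_zero]
  have hn1 : 1 ≤ n := hn0.trans hn
  let P : Fin (n + 1) × (Fin (q + 2) → Fin (n + 1)) → Prop := fun x =>
    x.1.val * L ≤ n ∧ n - x.1.val * L ≤ L * (n / (r + 1) + 2 * D) ∧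
    cvOf x.2 0 = x.1.val + (n - x.1.val * L) ∧ (∀ j, j ≤ q → cvOf x.2 (j + 1) ≤ cvOf x.2 j) ∧
    1 ≤ cvOf x.2 (q + 1)
  let T : Fin (n + 1) × (Fin (q + 2) → Fin (n + 1)) → Set (S → Fin n → Option (Fin n)) := fun x =>
    if P x then Fam h r n D x.1.val L (cvOf x.2) else ∅
  have hcover : {f : S → Fin n → Option (Fin n) | nonreg S f r ≤ D} ⊆ ⋃ x, T x := by
    intro f hf
    rw [Set.mem_ofPred_eq] at hf
    obtain ⟨M, seg, hseg, hML, hrest⟩ := exists_seg h f r (le_trans (le_max_right _ _) hr) D hf L hL
    have hM : M < n + 1 := by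
      have : M * 1 ≤ M * L := Nat.mul_le_mul_left _ hL
      omega
    have hC : ∀ j, ncl (RR h f r seg j) < n + 1 := by
      intro j
      have h1 : Nat.card (Quotient (RR h f r seg j)) ≤ Nat.card (Fin n) :=
        Nat.card_le_card_of_surjective (Quotient.mk (RR h f r seg j)) Quotient.mk_surjective
      rw [Nat.card_fin] at h1
      exact Nat.lt_succ_of_le h1
    let x : Fin (n + 1) × (Fin (q + 2) → Fin (n + 1)) :=
      (⟨M, hM⟩, fun j => ⟨ncl (RR h f r seg j.val), hC j.val⟩)
    have hx : ∀ j, j < q + 2 → cvOf x.2 j = ncl (RR h f r seg j) := by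
      intro j hj
      unfold cvOf
      rw [dif_pos hj]
    have hP : P x := by
      refine ⟨hML, hrest, ?_, ?_, ?_⟩
      · rw [hx 0 (by omega)]
        exact ncl_R0 hL seg hseg.1
      · intro j hj
        rw [hx j (by omega), hx (j + 1) (by omega)]
        have h1 : RR h f r seg (j + 1) = joinS (RR h f r seg j) (gt h f r seg (RR h f r seg j) ⟨j, by omega⟩) := by
          rw [RR, dif_pos (show j < q + 1 by omega)]
        rw [h1]
        exact ncl_joinS_le n _ _
      · rw [hx (q + 1) (by omega)]
        have : Nonempty (Quotient (RR h f r seg (q + 1))) := ⟨Quotient.mk _ ⟨0, hn1⟩⟩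
        exact Nat.card_pos
    refine Set.mem_iUnion.2 ⟨x, ?_⟩
    change f ∈ if P x then Fam h r n D x.1.val L (cvOf x.2) else ∅
    rw [if_pos hP]
    refine ⟨hf, seg, hseg, fun j hj => (hx j (by omega)).symm⟩
  have hT : ∀ x, ((T x).ncard : ℝ) * ((n : ℝ) + 1) ^ (q + 3) ≤
      Real.exp (Real.log n.factorial + ε * n + C * D * Real.log (n + 1)) := by
    intro x
    by_cases hP : P x
    · have h1 : T x = Fam h r n D x.1.val L (cvOf x.2) := if_pos hP
      rw [h1]
      obtain ⟨p1, p2, p3, p4, p5⟩ := hP
      have hpos : ∀ j, j ≤ q + 1 → 1 ≤ cvOf x.2 j := by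
        intro j hj
        obtain ⟨d, hd⟩ : ∃ d, q + 1 = j + d := ⟨q + 1 - j, by omega⟩
        have key : ∀ d j, q + 1 = j + d → cvOf x.2 (q + 1) ≤ cvOf x.2 j := by
          intro d
          induction d with
          | zero =>
            intro j hj
            rw [hj, add_zero]
          | succ d ih =>
            intro j hj
            exact (ih (j + 1) (by omega)).trans (p4 j (by omega))
        exact p5.trans (key d j hd)
      have h2 := hr1 r (le_trans (le_max_left _ _) hr) n D x.1.val L (cvOf x.2) hn1 hL hpos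
      have h3 := hnum n D x.1.val (cvOf x.2) hn p1 p2 p3 p4 p5
      have h4 : (0 : ℝ) < (x.1.val.factorial : ℝ) := by exact_mod_cast Nat.factorial_pos _
      have h5 := (le_div_iff₀ h4).2 h2
      have h6 : (0 : ℝ) ≤ ((n : ℝ) + 1) ^ (q + 3) := by positivity
      refine le_trans ?_ h3
      rw [mul_comm]
      exact mul_le_mul_of_nonneg_left h5 h6
    · have h1 : T x = ∅ := if_neg hP
      rw [h1, Set.ncard_empty, Nat.cast_zero, zero_mul]
      exact (Real.exp_pos _).le
  have h1 : ({f : S → Fin n → Option (Fin n) | nonreg S f r ≤ D}.ncard : ℝ) ≤ ∑ x, ((T x).ncard : ℝ) := by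
    have h2 := (Set.ncard_le_ncard hcover (Set.toFinite _)).trans (Set.ncard_iUnion_le_of_fintype T)
    exact_mod_cast h2
  have h2 : ∀ x, ((T x).ncard : ℝ) ≤
      Real.exp (Real.log n.factorial + ε * n + C * D * Real.log (n + 1)) / ((n : ℝ) + 1) ^ (q + 3) := by
    intro x
    rw [le_div_iff₀ (by positivity)]
    exact hT x
  refine h1.trans ((Finset.sum_le_sum fun x _ => h2 x).trans ?_)
  rw [Finset.sum_const, Finset.card_univ, nsmul_eq_mul]
  have h3 : ((Fintype.card (Fin (n + 1) × (Fin (q + 2) → Fin (n + 1))) : ℕ) : ℝ) = ((n : ℝ) + 1) ^ (q + 3) := by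
    rw [Fintype.card_prod, Fintype.card_fun, Fintype.card_fin, Fintype.card_fin]
    push_cast
    ring
  rw [h3, mul_div_cancel₀]
  positivity

end H31.BE
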