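import Pool.Agent.H31.BE.CntDefs

/-! # CntRR : the chain of partitions attached to a family `f` (paper 5.2). Definitions only.
`seg` = the segments of the map of `t 0`. -/

set_option autoImplicit false

namespace H31.BE

noncomputable section

variable {G : Type} [Group G] {H : Subgroup G} {S : Finset G} {q : ℕ} {t : Fin (q + 1) → G}

/-- the letter `t j` -/
def pos (h : Series H S q t) (j : Fin (q + 1)) : S := ⟨t j, (h.hS _).2 ⟨j, Or.inl rfl⟩⟩

/-- the letter `(t j)⁻¹` -/
def neg (h : Series H S q t) (j : Fin (q + 1)) : S := ⟨(t j)⁻¹, (h.hS _).2 ⟨j, Or.inr rfl⟩⟩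

variable {n M L : ℕ}

/-- partition into segments (and single points) -/
def R0 (seg : Fin M × Fin L → Fin n) : Setoid (Fin n) :=
  Relation.EqvGen.setoid (fun a b => ∃ (i : Fin M) (j : ℕ) (hj : j + 1 < L),
    a = seg (i, ⟨j, by omega⟩) ∧ b = seg (i, ⟨j + 1, hj⟩))

/-- last points of segments and uncovered points -/
def A0 (seg : Fin M × Fin L → Fin n) : Set (Fin n) :=
  {v | ∀ (i : Fin M) (j : ℕ) (hj : j + 1 < L), v ≠ seg (i, ⟨j, by omega⟩)}

open Classical in
/-- arrow tables: level 0 uses the points of `A0`, level `j+1` the least regular point of every class of `R` -/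
def gt (h : Series H S q t) (f : S → Fin n → Option (Fin n)) (r : ℕ) (seg : Fin M × Fin L → Fin n)
    (R : Setoid (Fin n)) (j : Fin (q + 1)) : Fin n → Option (Fin n) := fun v =>
  if IsReg S f r v ∧ ((j.val = 0 ∧ v ∈ A0 seg) ∨ (j.val ≠ 0 ∧ ∀ u, IsReg S f r u → R u v → v ≤ u))
  then f (pos h j) v else none

/-- the partitions: `RR 0 = R0 seg`, `RR (j+1) = RR j` joined with the arrows of level `j` -/
def RR (h : Series H S q t) (f : S → Fin n → Option (Fin n)) (r : ℕ) (seg : Fin M × Fin L → Fin n) :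
    ℕ → Setoid (Fin n)
  | 0 => R0 seg
  | j + 1 => if hj : j < q + 1 then joinS (RR h f r seg j) (gt h f r seg (RR h f r seg j) ⟨j, hj⟩)
      else RR h f r seg j

/-- `seg` is a system of segments for `f`: consecutive points are regular and joined by the map of `t 0` -/
def SegOK (h : Series H S q t) (f : S → Fin n → Option (Fin n)) (r : ℕ) (seg : Fin M × Fin L → Fin n) : Prop :=
  Function.Injective seg ∧ ∀ (i : Fin M) (j : ℕ) (hj : j + 1 < L),
    IsReg S f r (seg (i, ⟨j, by omega⟩)) ∧
      f (pos h 0) (seg (i, ⟨j, by omega⟩)) = some (seg (i, ⟨j + 1, hj⟩))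

end

end H31.BE
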