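import Pool.Agent.H31.BE.OEDef

/-! # Cocyc : measurable bounded cocycles (module Cocyc, ~130 lines)
G countable, S' generating in the sense hgen (every g lies in some ball). From `OE`: for the letter s choose the finite set F_s
of `bT (gv s)`; T(gv s • x) ∈ F_s • T x for a.e. x; with x = S y (mS is measure preserving) and T(S y) = y:
∃ f ∈ F_s, T(gv s • S y) = f • y for a.e. y. Let c s y := the first f in an enumeration (a list) of F_s with this property, and 1 if there is
none. The sets {y | T(gv s • S y) = f • y} are measurable (countable intersection over coordinates h of equality sets of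
real measurable functions), so `c s` has measurable fibres. The same for b with `bS`. All values lie in one ball S' C (finitely many
letters: I is finite; ball is increasing since 1 is in the generating set; 1 in ball).
The identities hold for a.e. y; they hold for all translates g • y simultaneously, because G is countable and each g• is measure
preserving (`inv_bern`), `ae_all_iff`, `MeasurePreserving.quasiMeasurePreserving.ae`. hST: for a.e. x and all g: S(T(g•x)) = g•x, pull
back with x = S y. Freeness: `free_bern` for ν, and for μ pulled back by S. -/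

set_option autoImplicit false

open MeasureTheory

namespace H31.BE

open scoped Pointwise in
private theorem Cocyc_ball_mono {G I : Type} [Group G] [DecidableEq G] [Fintype I]
    (S : I → Finset G) {r s : ℕ} (h : r ≤ s) : ball S r ⊆ ball S s :=
  Finset.pow_subset_pow_right (Finset.mem_insert_self _ _) h

open scoped Pointwise in
private theorem Cocyc_one_mem {G I : Type} [Group G] [DecidableEq G] [Fintype I]
    (S : I → Finset G) (r : ℕ) : (1 : G) ∈ ball S r :=
  Finset.one_mem_pow (Finset.mem_insert_self _ _)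

private theorem Cocyc_eq_set {G Y : Type} [Countable G] [MeasurableSpace Y]
    {F H : Y → Bsh G} (hF : Measurable F) (hH : Measurable H) :
    MeasurableSet {y | F y = H y} := by
  have h1 : {y | F y = H y} = ⋂ g : G, {y | F y g = H y g} := by
    ext y
    simp only [Set.mem_setOf_eq, Set.mem_iInter]
    exact ⟨fun h g => by rw [h], fun h => funext h⟩
  rw [h1]
  refine MeasurableSet.iInter fun g => ?_
  have e : Measurable (fun y : Bsh G => y g) := measurable_pi_apply (X := fun _ : G => ℝ) g
  exact measurableSet_eq_fun (e.comp hF) (e.comp hH)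

private theorem Cocyc_smul {G : Type} [Group G] (g : G) :
    Measurable (fun y : Bsh G => g • y) :=
  measurable_pi_iff.2 (fun h => measurable_pi_apply (X := fun _ : G => ℝ) (g⁻¹ * h))

/-- measurable selection from finitely many measurable conditions -/
private theorem Cocyc_select {G Y : Type} [Group G] [DecidableEq G] [MeasurableSpace Y]
    (B F : Finset G) (h1 : (1 : G) ∈ B) (hFB : F ⊆ B) (E : G → Set Y)
    (hE : ∀ f, MeasurableSet (E f)) :
    ∃ c : Y → (B : Finset G), Fm c ∧ ∀ y, (∃ f ∈ F, y ∈ E f) → y ∈ E (c y : G) := by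
  classical
  let φ : Finset G → (B : Finset G) := fun A =>
    if h : ∃ f ∈ A, f ∈ B then ⟨h.choose, h.choose_spec.2⟩ else ⟨1, h1⟩
  refine ⟨fun y => φ (F.filter fun f => y ∈ E f), ?_, ?_⟩
  · intro a
    have h2 : (fun y => φ (F.filter fun f => y ∈ E f)) ⁻¹' {a} =
        ⋃ A ∈ F.powerset.filter (fun A => φ A = a), {y | F.filter (fun f => y ∈ E f) = A} := by
      ext y
      simp only [Set.mem_preimage, Set.mem_singleton_iff, Set.mem_iUnion, Finset.mem_filter,
        Finset.mem_powerset, Set.mem_setOf_eq]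
      constructor
      · intro h
        exact ⟨_, ⟨Finset.filter_subset _ _, h⟩, rfl⟩
      · rintro ⟨A, ⟨-, hA⟩, rfl⟩
        exact hA
    rw [h2]
    refine Finset.measurableSet_biUnion _ fun A hA => ?_
    have h3 : {y | F.filter (fun f => y ∈ E f) = A} =
        ⋂ f : G, if f ∈ F then (if f ∈ A then E f else (E f)ᶜ) else
          (if f ∈ A then ∅ else Set.univ) := by
      ext y
      simp only [Set.mem_setOf_eq, Set.mem_iInter, Finset.ext_iff, Finset.mem_filter]
      refine forall_congr' fun f => ?_
      by_cases hf : f ∈ F <;> by_cases hA : f ∈ A <;> simp [hf, hA]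
    have h4 : {y | F.filter (fun f => y ∈ E f) = A} =
        ⋂ f ∈ (F ∪ A), if f ∈ F then (if f ∈ A then E f else (E f)ᶜ) else
          (if f ∈ A then ∅ else Set.univ) := by
      rw [h3]
      ext y
      simp only [Set.mem_iInter]
      constructor
      · intro h f _
        exact h f
      · intro h f
        by_cases hf : f ∈ F ∪ A
        · exact h f hf
        · rw [Finset.mem_union, not_or] at hf
          simp [hf.1, hf.2]
    rw [h4]
    refine Finset.measurableSet_biInter _ fun f _ => ?_
    split_ifs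
    · exact hE f
    · exact (hE f).compl
    · exact MeasurableSet.empty
    · exact MeasurableSet.univ
  · rintro y ⟨f, hf, hy⟩
    have h : ∃ g ∈ F.filter (fun f => y ∈ E f), g ∈ B :=
      ⟨f, Finset.mem_filter.2 ⟨hf, hy⟩, hFB hf⟩
    have h5 : φ (F.filter fun f => y ∈ E f) = ⟨h.choose, h.choose_spec.2⟩ := dif_pos h
    change y ∈ E ((φ (F.filter fun f => y ∈ E f)) : G)
    rw [h5]
    exact (Finset.mem_filter.1 h.choose_spec.1).2

theorem cocycles {G I : Type} [Group G] [DecidableEq G] [Countable G] [Infinite G] [Fintype I]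
    (S' : I → Finset G) (hgen : ∀ g : G, ∃ r, g ∈ ball S' r)
    (μ ν : Measure ℝ) [IsProbabilityMeasure μ] [IsProbabilityMeasure ν] (hμ : Nontriv μ) (hν : Nontriv ν)
    (T S : Bsh G → Bsh G) (h : OE G μ ν T S) :
    ∃ (C : ℕ) (c b : Gn S' → Bsh G → (ball S' C : Finset G)), (∀ s, Fm (c s)) ∧ (∀ s, Fm (b s)) ∧
      ∀ᵐ y ∂(bern G ν), GoodPt T S (fun s y => (c s y : G)) (fun s y => (b s y : G)) y := by
  classical
  have hTm : Measurable T := h.mT.measurable
  have hSm : Measurable S := h.mS.measurable
  choose FT hFT using h.bT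
  choose FS hFS using h.bS
  choose r hr using hgen
  let C : ℕ := ∑ s : Gn S', ((∑ f ∈ FT (gv s), r f) + ∑ f ∈ FS (gv s), r f)
  have hle : ∀ s : Gn S', (∑ f ∈ FT (gv s), r f) + ∑ f ∈ FS (gv s), r f ≤ C := fun s =>
    Finset.single_le_sum (f := fun s : Gn S' => (∑ f ∈ FT (gv s), r f) + ∑ f ∈ FS (gv s), r f)
      (fun _ _ => Nat.zero_le _) (Finset.mem_univ s)
  have hT : ∀ s : Gn S', FT (gv s) ⊆ ball S' C := by
    intro s f hf
    refine Cocyc_ball_mono S' ?_ (hr f)
    have h1 : r f ≤ ∑ f ∈ FT (gv s), r f := Finset.single_le_sum (fun _ _ => Nat.zero_le _) hf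
    have h2 := hle s
    omega
  have hS : ∀ s : Gn S', FS (gv s) ⊆ ball S' C := by
    intro s f hf
    refine Cocyc_ball_mono S' ?_ (hr f)
    have h1 : r f ≤ ∑ f ∈ FS (gv s), r f := Finset.single_le_sum (fun _ _ => Nat.zero_le _) hf
    have h2 := hle s
    omega
  have hc := fun s : Gn S' => Cocyc_select (ball S' C) (FT (gv s)) (Cocyc_one_mem S' C) (hT s)
    (fun f => {y : Bsh G | T (gv s • S y) = f • y})
    (fun f => Cocyc_eq_set (hTm.comp ((Cocyc_smul (gv s)).comp hSm)) (Cocyc_smul f))
  have hb := fun s : Gn S' => Cocyc_select (ball S' C) (FS (gv s)) (Cocyc_one_mem S' C) (hS s)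
    (fun f => {y : Bsh G | S (gv s • y) = f • S y})
    (fun f => Cocyc_eq_set (hSm.comp (Cocyc_smul (gv s))) ((Cocyc_smul f).comp hSm))
  choose c hcF hc using hc
  choose b hbF hb using hb
  refine ⟨C, c, b, hcF, hbF, ?_⟩
  have pull : ∀ {p : Bsh G → Prop}, (∀ᵐ x ∂(bern G μ), p x) → ∀ᵐ y ∂(bern G ν), p (S y) :=
    fun hp => h.mS.quasiMeasurePreserving.ae hp
  have trans : ∀ {p : Bsh G → Prop}, (∀ᵐ y ∂(bern G ν), p y) →
      ∀ᵐ y ∂(bern G ν), ∀ g : G, p (g • y) :=
    fun hp => ae_all_iff.2 fun g => (inv_bern ν g).quasiMeasurePreserving.ae hp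
  have trans' : ∀ {p : Bsh G → Prop}, (∀ᵐ y ∂(bern G μ), p y) →
      ∀ᵐ y ∂(bern G μ), ∀ g : G, p (g • y) :=
    fun hp => ae_all_iff.2 fun g => (inv_bern μ g).quasiMeasurePreserving.ae hp
  have a1 : ∀ᵐ y ∂(bern G ν), ∀ s : Gn S', T (gv s • S y) = (c s y : G) • y := by
    refine ae_all_iff.2 fun s => ?_
    filter_upwards [pull (hFT (gv s)), h.TS] with y hy hy'
    obtain ⟨f, hf, e⟩ := hy
    rw [hy'] at e
    exact hc s y ⟨f, hf, e⟩
  have a2 : ∀ᵐ y ∂(bern G ν), ∀ s : Gn S', S (gv s • y) = (b s y : G) • S y := by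
    refine ae_all_iff.2 fun s => ?_
    filter_upwards [hFS (gv s)] with y hy
    exact hb s y hy
  have a3 : ∀ᵐ y ∂(bern G ν), ∀ g : G, S (T (g • S y)) = g • S y := pull (trans' h.ST)
  have a4 : ∀ᵐ y ∂(bern G ν), ∀ g : G, g ≠ 1 → g • y ≠ y :=
    ae_all_iff.2 fun g => by
      by_cases hg : g = 1
      · exact Filter.Eventually.of_forall fun y hne => absurd hg hne
      · filter_upwards [free_bern ν hν g hg] with y hy _
        exact hy
  have a5 : ∀ᵐ x ∂(bern G μ), ∀ g : G, g ≠ 1 → g • x ≠ x :=
    ae_all_iff.2 fun g => by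
      by_cases hg : g = 1
      · exact Filter.Eventually.of_forall fun y hne => absurd hg hne
      · filter_upwards [free_bern μ hμ g hg] with y hy _
        exact hy
  filter_upwards [trans a1, trans a2, trans h.TS, a3, a4, pull a5] with y h1 h2 h3 h4 h5 h6
  exact ⟨h1, h2, h3, h4, h5, h6⟩

end H31.BE
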