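import Pool.Agent.H31.BE.FreeB

/-! # Color : a finite measurable colouring of the orbit graph (paper (A4); module Color, ~130 lines)
G countable, all g ≠ 1 act freely a.e. D finite, 1 ∉ D. There are N and an Fm χ : Bsh G → Fin N with χ(g•y) ≠ χ(y) for all
g ∈ D, for a.e. y.
Proof. WLOG D = D⁻¹ (replace D by D ∪ D⁻¹). Step 1, countable colouring: the sets U_j (j ∈ ℕ) = an enumeration of the countable
algebra of finite intersections of sets {y | y h ∈ (a, b)} (a, b rational) separate points: if g•y ≠ y for all g ∈ D there is j with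
y ∈ U_j and g•y ∉ U_j for all g ∈ D. k(y) := least such j (0 if there is none, a null set): Fm, and k(g•y) ≠ k(y) for g ∈ D and
y in the conull invariant set Y0 of points where no element ≠ 1 of G fixes y (if k(y) = k(gy) = j then gy ∈ U_j).
(A general alternative: the sigma-algebra is countably generated and separates points.)
Step 2: N := |D| + 1; define recursively u_n : Bsh G → Option (Fin N), u_0 = none, u_{n+1}(y) := if k y = n then some (least colour not in
{u_n(g•y) : g ∈ D}) else u_n y. u_n y = none if k y >= n, and u_m y = u_{k y + 1} y for m > k y. χ y := u_{k y + 1} y. For y ∈ Y0, g ∈ D: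
k y ≠ k(g•y); say k y < k(g•y) = n: then u_n(g⁻¹•(g•y)) = χ y is excluded in the choice of χ(g•y) (g⁻¹ ∈ D); the other case is symmetric.
Measurability of u_n by induction (finite unions of preimages under y ↦ g•y). -/

set_option autoImplicit false

open MeasureTheory

namespace H31.BE

section

variable {G : Type} [Group G]

/-- the separating half spaces -/
private def ColorS (e : ℕ → G × ℚ) (i : ℕ) (y : Bsh G) : Prop := y (e i).1 < ((e i).2 : ℝ)

omit [Group G] in
private lemma ColorS_sep {e : ℕ → G × ℚ} (he : Function.Surjective e) {y z : Bsh G}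
    (h : z ≠ y) : ∃ i, ¬ (ColorS e i y ↔ ColorS e i z) := by
  by_contra hcon
  push Not at hcon
  have key : ∀ (g : G) (q : ℚ), (y g < (q : ℝ) ↔ z g < (q : ℝ)) := by
    intro g q
    obtain ⟨i, hi⟩ := he (g, q)
    have := hcon i
    unfold ColorS at this
    rw [hi] at this
    exact this
  apply h
  funext g
  rcases lt_trichotomy (z g) (y g) with hlt | heq | hgt
  · obtain ⟨q, hq1, hq2⟩ := exists_rat_btwn hlt
    exact absurd ((key g q).2 hq1) (not_lt.2 hq2.le)
  · exact heq
  · obtain ⟨q, hq1, hq2⟩ := exists_rat_btwn hgt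
    exact absurd ((key g q).1 hq1) (not_lt.2 hq2.le)

private lemma ColorS_meas [DecidableEq G] (e : ℕ → G × ℚ) (i : ℕ) :
    Measurable (fun y : Bsh G => ColorS e i y) :=
  measurableSet_setOfPred.1 (measurableSet_lt (measurable_eval (e i).1) measurable_const)

private lemma Color_smul_meas [DecidableEq G] (g : G) : Measurable (fun y : Bsh G => g • y) :=
  measurable_pi_iff.2 (fun h => measurable_eval (g⁻¹ * h))

/-- a small set: a point `y` of it and `g • y` are never both in it, `g ∈ D` -/
private def ColorW (e : ℕ → G × ℚ) (D : Finset G) (p : ℕ × Finset ℕ) (y : Bsh G) : Prop :=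
  (∀ g : G, g ∈ D → ∃ i : ℕ, i < p.1 ∧ ¬ (ColorS e i y ↔ ColorS e i (g • y))) ∧
    ∀ i : ℕ, i < p.1 → (ColorS e i y ↔ i ∈ p.2)

private lemma ColorW_meas [DecidableEq G] [Countable G] (e : ℕ → G × ℚ) (D : Finset G)
    (p : ℕ × Finset ℕ) : Measurable (fun y : Bsh G => ColorW e D p y) := by
  unfold ColorW
  refine Measurable.and (Measurable.forall fun g => Measurable.imp measurable_const
    (Measurable.exists fun i => Measurable.and measurable_const (Measurable.not
      (Measurable.iff (ColorS_meas e i) ?_)))) (Measurable.forall fun i =>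
      Measurable.imp measurable_const (Measurable.iff (ColorS_meas e i) measurable_const))
  exact (ColorS_meas e i).comp (Color_smul_meas g)

private lemma ColorW_not {e : ℕ → G × ℚ} {D : Finset G} {p : ℕ × Finset ℕ} {y : Bsh G}
    (hy : ColorW e D p y) {g : G} (hg : g ∈ D) : ¬ ColorW e D p (g • y) := by
  intro hz
  obtain ⟨i, hi, hne⟩ := hy.1 g hg
  exact hne ((hy.2 i hi).trans (hz.2 i hi).symm)

private lemma ColorW_cover {e : ℕ → G × ℚ} (he : Function.Surjective e) {D : Finset G}
    {y : Bsh G} (hy : ∀ g ∈ D, g • y ≠ y) : ∃ p, ColorW e D p y := by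
  classical
  have h1 : ∀ g : G, ∃ i : ℕ, g ∈ D → ¬ (ColorS e i y ↔ ColorS e i (g • y)) := by
    intro g
    by_cases hg : g ∈ D
    · obtain ⟨i, hi⟩ := ColorS_sep he (hy g hg)
      exact ⟨i, fun _ => hi⟩
    · exact ⟨0, fun h => absurd h hg⟩
  choose f hf using h1
  refine ⟨(D.sup f + 1, (Finset.range (D.sup f + 1)).filter (fun i => ColorS e i y)), ?_, ?_⟩
  · intro g hg
    exact ⟨f g, Nat.lt_succ_of_le (Finset.le_sup hg), hf g hg⟩
  · intro i hi
    simp only [Finset.mem_filter, Finset.mem_range]
    exact ⟨fun h => ⟨hi, h⟩, fun h => h.2⟩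

private noncomputable def ColorPick (N : ℕ) (U : Finset (Option (Fin (N + 1)))) : Fin (N + 1) :=
  letI := Classical.dec (∃ c : Fin (N + 1), some c ∉ U)
  if h : ∃ c : Fin (N + 1), some c ∉ U then h.choose else 0

private lemma ColorPick_spec (N : ℕ) (U : Finset (Option (Fin (N + 1)))) (hU : U.card ≤ N) :
    some (ColorPick N U) ∉ U := by
  classical
  have h : ∃ c : Fin (N + 1), some c ∉ U := by
    by_contra hcon
    push Not at hcon
    have h1 : (Finset.univ.image (some : Fin (N + 1) → Option (Fin (N + 1)))) ⊆ U := by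
      intro x hx
      obtain ⟨c, _, rfl⟩ := Finset.mem_image.1 hx
      exact hcon c
    have h2 := Finset.card_le_card h1
    rw [Finset.card_image_of_injective _ (Option.some_injective _), Finset.card_univ,
      Fintype.card_fin] at h2
    omega
  unfold ColorPick
  rw [dif_pos h]
  exact h.choose_spec

open Classical in
/-- one step of the greedy colouring -/
private noncomputable def ColorStep (N : ℕ) (D : Finset G)
    (x : Option (Fin (N + 1)) × Bool × (D → Option (Fin (N + 1)))) : Option (Fin (N + 1)) :=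
  if x.1 = none ∧ x.2.1 = true then some (ColorPick N (Finset.univ.image x.2.2)) else x.1

open Classical in
private noncomputable def ColorU (N : ℕ) (D : Finset G) (W : ℕ → Bsh G → Prop) :
    ℕ → Bsh G → Option (Fin (N + 1))
  | 0 => fun _ => none
  | j + 1 => fun y => ColorStep N D (ColorU N D W j y, decide (W j y),
      fun g : D => ColorU N D W j ((g : G) • y))

private lemma ColorU_fm [DecidableEq G] (N : ℕ) (D : Finset G) {W : ℕ → Bsh G → Prop}
    (hW : ∀ j, Measurable (fun y => W j y)) (j : ℕ) : Fm (ColorU N D W j) := by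
  classical
  induction j with
  | zero => exact Fm.const none
  | succ j ih =>
    have h1 : Fm (fun y => decide (W j y)) := by
      intro b
      cases b with
      | true =>
        have : (fun y => decide (W j y)) ⁻¹' {true} = {y | W j y} := by ext y; simp
        rw [this]
        exact measurableSet_setOfPred.2 (hW j)
      | false =>
        have : (fun y => decide (W j y)) ⁻¹' {false} = {y | ¬ W j y} := by ext y; simp
        rw [this]
        exact measurableSet_setOfPred.2 (hW j).not
    have h2 : Fm (fun y : Bsh G => fun g : D => ColorU N D W j ((g : G) • y)) :=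
      Fm.pi (f := fun (g : D) y => ColorU N D W j ((g : G) • y))
        (fun g => Fm.comp_measurable (Color_smul_meas (g : G)) ih)
    have h3 := (ih.prodMk (h1.prodMk h2)).comp (ColorStep N D)
    have h4 : ColorU N D W (j + 1) = fun y => ColorStep N D (ColorU N D W j y, decide (W j y),
      fun g : D => ColorU N D W j ((g : G) • y)) := by
      funext y
      rw [ColorU]
    rw [h4]
    exact h3

private lemma ColorU_succ (N : ℕ) (D : Finset G) (W : ℕ → Bsh G → Prop) (j : ℕ) (y : Bsh G) :
    (ColorU N D W j y = none ∧ W j y ∧ ∃ c, ColorU N D W (j + 1) y = some c ∧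
      (D.card ≤ N → ∀ g ∈ D, ColorU N D W j (g • y) ≠ some c)) ∨
    (¬ (ColorU N D W j y = none ∧ W j y) ∧ ColorU N D W (j + 1) y = ColorU N D W j y) := by
  classical
  by_cases h : ColorU N D W j y = none ∧ W j y
  · left
    refine ⟨h.1, h.2, ColorPick N (Finset.univ.image
      (fun g : D => ColorU N D W j ((g : G) • y))), ?_, ?_⟩
    · rw [ColorU]
      show ColorStep N D _ = _
      unfold ColorStep
      rw [if_pos ⟨h.1, by simp [h.2]⟩]
    · intro hN g hg hcon
      have h1 : (Finset.univ.image (fun g : D => ColorU N D W j ((g : G) • y))).card ≤ N := by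
        refine Finset.card_image_le.trans ?_
        rw [Finset.card_univ, Fintype.card_coe]
        exact hN
      apply ColorPick_spec N _ h1
      rw [← hcon]
      exact Finset.mem_image.2 ⟨⟨g, hg⟩, Finset.mem_univ _, rfl⟩
  · right
    refine ⟨h, ?_⟩
    rw [ColorU]
    show ColorStep N D _ = _
    unfold ColorStep
    rw [if_neg]
    simpa using h

private lemma ColorU_mono (N : ℕ) (D : Finset G) (W : ℕ → Bsh G → Prop) {j k : ℕ} (hjk : j ≤ k)
    {y : Bsh G} {c : Fin (N + 1)} (h : ColorU N D W j y = some c) :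
    ColorU N D W k y = some c := by
  induction k, hjk using Nat.le_induction with
  | base => exact h
  | succ k _ ih =>
    rcases ColorU_succ N D W k y with ⟨h1, _⟩ | ⟨_, h2⟩
    · rw [h1] at ih; exact absurd ih (by simp)
    · rw [h2]; exact ih

private lemma ColorU_proper {N : ℕ} {D : Finset G} (hN : D.card ≤ N) (hinv : ∀ g ∈ D, g⁻¹ ∈ D)
    {W : ℕ → Bsh G → Prop} (hW : ∀ j y g, g ∈ D → W j y → ¬ W j (g • y)) (j : ℕ) :
    ∀ (y : Bsh G) (g : G), g ∈ D → ∀ c, ColorU N D W j y = some c →
      ColorU N D W j (g • y) ≠ some c := by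
  induction j with
  | zero =>
    intro y g _ c h
    rw [ColorU] at h
    exact absurd h (by simp)
  | succ j ih =>
    intro y g hg c h h'
    rcases ColorU_succ N D W j y with ⟨h1, h2, c1, h3, h4⟩ | ⟨h1, h2⟩
    · rcases ColorU_succ N D W j (g • y) with ⟨k1, k2, c2, k3, k4⟩ | ⟨k1, k2⟩
      · exact hW j y g hg h2 k2
      · rw [k2] at h'
        rw [h3] at h
        rw [← h] at h'
        exact h4 hN g hg h'
    · rw [h2] at h
      rcases ColorU_succ N D W j (g • y) with ⟨k1, k2, c2, k3, k4⟩ | ⟨k1, k2⟩
      · rw [k3] at h'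
        have h5 := k4 hN g⁻¹ (hinv g hg)
        rw [inv_smul_smul, h', h] at h5
        exact h5 rfl
      · rw [k2] at h'
        exact ih y g hg c h h'

end

theorem coloring {G : Type} [Group G] [DecidableEq G] [Countable G] (ν : Measure ℝ) [IsProbabilityMeasure ν]
    (hfree : ∀ g : G, g ≠ 1 → ∀ᵐ y ∂(bern G ν), g • y ≠ y) (D : Finset G) (hD : (1 : G) ∉ D) :
    ∃ (N : ℕ) (χ : Bsh G → Fin N), Fm χ ∧ ∀ᵐ y ∂(bern G ν), ∀ g ∈ D, χ (g • y) ≠ χ y := by
  classical
  set D' : Finset G := D ∪ D.image (fun g => g⁻¹) with hD'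
  have hinv : ∀ g ∈ D', g⁻¹ ∈ D' := by
    intro g hg
    rw [hD', Finset.mem_union, Finset.mem_image] at hg ⊢
    rcases hg with hg | ⟨x, hx, rfl⟩
    · exact Or.inr ⟨g, hg, rfl⟩
    · left; rwa [inv_inv]
  have h1D' : (1 : G) ∉ D' := by
    intro h
    rw [hD', Finset.mem_union, Finset.mem_image] at h
    rcases h with h | ⟨x, hx, h⟩
    · exact hD h
    · rw [inv_eq_one] at h
      rw [h] at hx
      exact hD hx
  obtain ⟨e, he⟩ := exists_surjective_nat (G × ℚ)
  obtain ⟨f, hf⟩ := exists_surjective_nat (ℕ × Finset ℕ)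
  let N := D'.card
  let W : ℕ → Bsh G → Prop := fun j y => ColorW e D' (f j) y
  have hWm : ∀ j, Measurable (fun y => W j y) := fun j => ColorW_meas e D' (f j)
  have hWn : ∀ j y g, g ∈ D' → W j y → ¬ W j (g • y) := fun j y g hg h => ColorW_not h hg
  have hfm := ColorU_fm N D' hWm
  have hprop := ColorU_proper (N := N) le_rfl hinv hWn
  let χ : Bsh G → Fin (N + 1) := fun y =>
    if h : ∃ c, ∃ j, ColorU N D' W j y = some c then h.choose else 0
  have hχ : ∀ y c, (∃ j, ColorU N D' W j y = some c) → χ y = c := by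
    intro y c hc
    have h : ∃ c, ∃ j, ColorU N D' W j y = some c := ⟨c, hc⟩
    have h2 : χ y = h.choose := dif_pos h
    obtain ⟨j, hj⟩ := h.choose_spec
    obtain ⟨k, hk⟩ := hc
    have h3 := ColorU_mono N D' W (le_max_left j k) hj
    have h4 := ColorU_mono N D' W (le_max_right j k) hk
    rw [h3] at h4
    rw [h2]
    exact Option.some_injective _ h4
  have hχ0 : ∀ y, (¬ ∃ c, ∃ j, ColorU N D' W j y = some c) → χ y = 0 := fun y h => dif_neg h
  refine ⟨N + 1, χ, ?_, ?_⟩
  · intro c
    have h1 : χ ⁻¹' {c} = {y | ∃ j, ColorU N D' W j y = some c} ∪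
        {y | (¬ ∃ c, ∃ j, ColorU N D' W j y = some c) ∧ c = 0} := by
      ext y
      simp only [Set.mem_preimage, Set.mem_singleton_iff, Set.mem_union, Set.mem_ofPred_eq]
      constructor
      · intro h
        by_cases h2 : ∃ c, ∃ j, ColorU N D' W j y = some c
        · left
          obtain ⟨c', j, hj⟩ := h2
          have h3 := hχ y c' ⟨j, hj⟩
          rw [h] at h3
          rw [h3]
          exact ⟨j, hj⟩
        · right
          refine ⟨h2, ?_⟩
          rw [← h]
          exact hχ0 y h2
      · rintro (h | ⟨h, rfl⟩)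
        · exact hχ y c h
        · exact hχ0 y h
    have hm : ∀ c : Fin (N + 1), Measurable (fun y => ∃ j, ColorU N D' W j y = some c) := by
      intro c
      refine Measurable.exists fun j => ?_
      exact measurableSet_setOfPred.1 (hfm j (some c))
    rw [h1]
    refine MeasurableSet.union (measurableSet_setOfPred.2 (hm c)) (measurableSet_setOfPred.2 ?_)
    exact (Measurable.exists fun c => hm c).not.and measurable_const
  · have hall : ∀ᵐ y ∂(bern G ν), ∀ g : G, g ≠ 1 → g • y ≠ y := by
      rw [ae_all_iff]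
      intro g
      by_cases hg : g = 1
      · exact Filter.Eventually.of_forall (fun y h => absurd hg h)
      · filter_upwards [hfree g hg] with y hy _
        exact hy
    filter_upwards [hall] with y hy g hg
    have hcov : ∀ z : Bsh G, (∀ g : G, g ≠ 1 → g • z ≠ z) →
        ∃ c, ∃ j, ColorU N D' W j z = some c := by
      intro z hz
      obtain ⟨p, hp⟩ := ColorW_cover he (D := D') (y := z)
        (fun g hg => hz g (fun h => h1D' (h ▸ hg)))
      obtain ⟨j, hj⟩ := hf p
      have hWj : W j z := by
        show ColorW e D' (f j) z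
        rw [hj]; exact hp
      rcases ColorU_succ N D' W j z with ⟨_, _, c, hc, _⟩ | ⟨h1, h2⟩
      · exact ⟨c, j + 1, hc⟩
      · rcases hcase : ColorU N D' W j z with _ | c
        · exact absurd ⟨hcase, hWj⟩ h1
        · exact ⟨c, j, hcase⟩
    have hgy : ∀ k : G, k ≠ 1 → k • (g • y) ≠ g • y := by
      intro k hk h
      apply hy (g⁻¹ * k * g)
      · intro h2
        apply hk
        have h3 : k = g * (g⁻¹ * k * g) * g⁻¹ := by group
        rw [h3, h2]; group
      · rw [mul_smul, mul_smul, h, inv_smul_smul]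
    obtain ⟨c, j, hc⟩ := hcov y hy
    obtain ⟨c', j', hc'⟩ := hcov (g • y) hgy
    have hgD : g ∈ D' := Finset.mem_union_left _ hg
    rw [hχ y c ⟨j, hc⟩, hχ (g • y) c' ⟨j', hc'⟩]
    rintro rfl
    exact hprop (max j j') y g hgD c' (ColorU_mono N D' W (le_max_left j j') hc)
      (ColorU_mono N D' W (le_max_right j j') hc')

end H31.BE
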