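import Pool.Agent.H31.BE.Good

/-! # DWalk : evaluating words with the decoded maps  (paper section 4, first lines; module DWalk, ~90 lines)
Write σ := SG L z j bad0.  `SG_eq`: if v is C-good then σ s v = some u with c_s(z v 1) • j v = j u (c_s ∈ ball S C by `Lab.hc`).
`SG_walk`: induction on w. For s :: w: ev σ w v = some v', walk w • j v = j v', z v' 1 = tex (z v) (walk w) (induction hypothesis), walk w ∈
ball (C |w|) (`walk_mem_ball`), so v' is C-good (`gd_smul`), σ s v' = some u with c_s (z v' 1) • j v' = j u, and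
c_s (tex (z v) (walk w)) * walk w = walk (s :: w) by definition. Last claim: `z_ball` with k := C * (length), x := 1. -/

set_option autoImplicit false

namespace H31.BE

variable {G I Λ : Type} [Group G] [DecidableEq G] [Fintype I] {S : I → Finset G} {R N : ℕ} {L : Lab S Λ}
  {F : I → Finset G} {n : ℕ} {t : I → ℕ} {π : ∀ i, Fin n ≃ Fin (t i) × F i} {W : Type} [MulAction G W] {j : Fin n → W}

private theorem tex_one (x : Ty S R Λ) : tex x 1 = x (one' S R) := by
  unfold tex
  rw [dif_pos (one_mem_ball R)]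
  rfl

theorem SG_eq {z : Fin n → Ty S R Λ} {bad : Set (Fin n)} {v : Fin n} (hv : gd S j bad L.C v) (s : Gn S) :
    ∃ u, SG L z j bad s v = some u ∧ L.c s (z v (one' S R)) • j v = j u := by
  obtain ⟨u, hu, -⟩ := hv _ (L.hc s (z v (one' S R)))
  have h : gd S j bad L.C v ∧ ∃ u, L.c s (z v (one' S R)) • j v = j u := ⟨hv, u, hu⟩
  refine ⟨h.2.choose, ?_, h.2.choose_spec⟩
  unfold SG
  rw [dif_pos h]

theorem SG_walk (hG : Glob S π j) {z : Fin n → Ty S R Λ} {om : ∀ i, Fin (t i) → F i → Ty S R Λ}
    (hC : Cfg L N R z om) (w : List (Gn S)) (hR : L.C * w.length ≤ R) {v : Fin n}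
    (hv : gd S j (bad0 S z om π) (L.C * (w.length + 1)) v) :
    ∃ u, ev (SG L z j (bad0 S z om π)) w v = some u ∧ walk L (tex (z v)) w • j v = j u ∧
      z u (one' S R) = tex (z v) (walk L (tex (z v)) w) := by
  induction w with
  | nil => exact ⟨v, rfl, one_smul _ _, (tex_one (z v)).symm⟩
  | cons s w ih =>
    have hlen : (s :: w).length = w.length + 1 := List.length_cons
    rw [hlen] at hR hv
    obtain ⟨u, h1, h2, h3⟩ := ih (le_trans (Nat.mul_le_mul_left _ (Nat.le_succ _)) hR)
      (gd_mono (Nat.mul_le_mul_left _ (Nat.le_succ _)) hv)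
    have h4 : L.C * (w.length + 1 + 1) = L.C * w.length + (L.C + L.C) := by ring
    have h5 : gd S j (bad0 S z om π) (L.C + L.C) u :=
      gd_smul (h4 ▸ hv) (walk_mem_ball L (tex (z v)) w le_rfl) h2
    obtain ⟨u', h6, h7⟩ := SG_eq (z := z) (gd_mono (Nat.le_add_left _ _) h5) s
    have h8 : walk L (tex (z v)) (s :: w) • j v = j u' := by
      change (L.c s (tex (z v) (walk L (tex (z v)) w)) * walk L (tex (z v)) w) • j v = j u'
      rw [mul_smul, h2, ← h3, h7]
    refine ⟨u', ?_, h8, ?_⟩
    · change (ev (SG L z j (bad0 S z om π)) w v).bind (SG L z j (bad0 S z om π) s) = some u'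
      rw [h1]
      exact h6
    · have h9 := z_ball hG hC (L.C * (w.length + 1)) hR
        (gd_mono (Nat.mul_le_mul_left _ (Nat.le_succ _)) hv)
        (walk_mem_ball L (tex (z v)) (s :: w) (le_of_eq hlen)) h8 1 (one_mem_ball _)
      rw [one_mul, tex_one] at h9
      exact h9

end H31.BE
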