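import Mathlib

/-! # H31/BE : bounded orbit equivalence, free products. Definitions.
Paper: /team-store/h31_boe_paper.md. All target types of random variables are finite types in `Type`. -/

set_option autoImplicit false

open MeasureTheory

namespace H31.BE

noncomputable section

/-! ## Entropy of finite valued functions -/

/-- finite valued measurable function (no sigma-algebra needed on the finite target) -/
def Fm {Ω α : Type} [MeasurableSpace Ω] (f : Ω → α) : Prop := ∀ a, MeasurableSet (f ⁻¹' {a})

/-- Shannon entropy (natural logarithm) of a finite valued function -/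
def ent {Ω α : Type} [MeasurableSpace Ω] [Finite α] (P : Measure Ω) (f : Ω → α) : ℝ :=
  letI := Fintype.ofFinite α
  ∑ a, Real.negMulLog (P.real (f ⁻¹' {a}))

/-- conditional entropy `H(f|g)` -/
def entc {Ω α β : Type} [MeasurableSpace Ω] [Finite α] [Finite β] (P : Measure Ω)
    (f : Ω → α) (g : Ω → β) : ℝ :=
  ent P (fun ω => (f ω, g ω)) - ent P g

/-- independence of the instance -/
theorem ent_eq {Ω α : Type} [MeasurableSpace Ω] [inst : Fintype α] (P : Measure Ω) (f : Ω → α) :
    ent P f = ∑ a, Real.negMulLog (P.real (f ⁻¹' {a})) := by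
  unfold ent
  have : Fintype.ofFinite α = inst := Subsingleton.elim _ _
  rw [this]

/-! ## Windows -/

/-- `f^B` : the values of `f` at the points `g • y`, `g ∈ B` -/
def win {G Y α : Type} [SMul G Y] (f : Y → α) (B : Finset G) : Y → (B → α) :=
  fun y g => f ((g : G) • y)

/-- invariance of the measure under the action -/
def Inv {Y : Type} (G : Type) [MeasurableSpace Y] [SMul G Y] (P : Measure Y) : Prop :=
  ∀ g : G, MeasurePreserving (fun y : Y => g • y) P P

/-- the entropy rate of `f` in the direction of the subgroup `H` -/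
def hh {G Y α : Type} [Group G] [MeasurableSpace Y] [MulAction G Y] [Finite α] (P : Measure Y)
    (H : Subgroup G) (f : Y → α) : ℝ :=
  sInf {x : ℝ | ∃ F : Finset G, F.Nonempty ∧ (∀ g ∈ F, g ∈ H) ∧ x = ent P (win f F) / F.card}

/-- the functional `F(f) = sum_i h_i(f) - (m-1) H(f)` -/
def FF {G Y α I : Type} [Group G] [MeasurableSpace Y] [MulAction G Y] [Finite α] [Fintype I]
    (P : Measure Y) (H : I → Subgroup G) (f : Y → α) : ℝ :=
  ∑ i, hh P (H i) f - ((Fintype.card I : ℝ) - 1) * ent P f

/-! ## Group theory -/

open scoped Pointwise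

/-- Folner condition for the subgroup `H` of `G` (finite sets are sets of elements of `G` lying in `H`) -/
def Foel {G : Type} [Group G] [DecidableEq G] (H : Subgroup G) : Prop :=
  ∀ K : Finset G, (∀ g ∈ K, g ∈ H) → ∀ ε : ℝ, 0 < ε →
    ∃ F : Finset G, F.Nonempty ∧ (∀ g ∈ F, g ∈ H) ∧ ((K * F).card : ℝ) ≤ (1 + ε) * F.card

/-- number of left cosets `gH` meeting `B` -/
def kk {G : Type} [Group G] (H : Subgroup G) (B : Finset G) : ℕ :=
  ((fun g : G => (g : G ⧸ H)) '' (B : Set G)).ncard

/-- What is used of the free product `G` of the subgroups `H i`: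
universal property for actions, generation, and the Euler inequality for cosets. -/
structure FreeProd {G I : Type} [Group G] [Fintype I] (H : I → Subgroup G) : Prop where
  gen : (⨆ i, H i) = ⊤
  univ : ∀ (W : Type) (a : ∀ i, H i →* Equiv.Perm W),
    ∃ f : G →* Equiv.Perm W, ∀ i (h : H i), f (h : G) = a i h
  euler : ∀ B : Finset G, B.Nonempty →
    (Fintype.card I - 1 : ℤ) * B.card + 1 ≤ ∑ i, (kk (H i) B : ℤ)

end

end H31.BE
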