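import Pool.Agent.H31.BE.ModDefs

/-! # GlobEx : the steps inside the tiles extend to an action of the free product  (paper 3.2; module GlobEx, ~80 lines)
W := Fin n ⊕ Σ i, Fin (t i) × H i.  For every i let ι i : Fin (t i) × H i → W, ι i (a, h) := if h ∈ F i then inl ((π i).symm (a, h)) else
inr ⟨i, (a, h)⟩. It is injective. H i acts on Fin (t i) × H i by left multiplication; extend this by the identity outside of the range of
ι i : `Equiv.Perm.extendDomainHom (Equiv.ofInjective (ι i) _)` composed with the homomorphism H i →* Perm (Fin (t i) × H i).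
`FreeProd.univ` gives f : G →* Perm W extending all of them, `MulAction.compHom` the action, j := inl.
For a letter s = ⟨i, s⟩ and v with π i v = (a, f): s • j v = ι i (a, s f) (`Equiv.Perm.extendDomain_apply_image`): this is
inl ((π i).symm (a, s f)) if s f ∈ F i, and inr .. ≠ inl u otherwise. -/

set_option autoImplicit false

namespace H31.BE

theorem exists_glob {G I : Type} [Group G] [DecidableEq G] [Fintype I] (H : I → Subgroup G) (hP : FreeProd H)
    (S F : I → Finset G) (hS : ∀ i, ∀ g ∈ S i, g ∈ H i) (hF : ∀ i, ∀ g ∈ F i, g ∈ H i)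
    {n : ℕ} {t : I → ℕ} (π : ∀ i, Fin n ≃ Fin (t i) × F i) :
    ∃ (W : Type) (_ : MulAction G W) (j : Fin n → W), Glob S π j := by
  classical
  let W : Type := Fin n ⊕ (Σ i : I, Fin (t i) × H i)
  let ι : ∀ i, Fin (t i) × H i → W := fun i x =>
    if h : (x.2 : G) ∈ F i then Sum.inl ((π i).symm (x.1, ⟨(x.2 : G), h⟩)) else Sum.inr ⟨i, x⟩
  have hpos : ∀ i (x : Fin (t i) × H i) (h : (x.2 : G) ∈ F i),
      ι i x = Sum.inl ((π i).symm (x.1, ⟨(x.2 : G), h⟩)) := by
    intro i x h
    simp only [ι]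
    rw [dif_pos h]
  have hneg : ∀ i (x : Fin (t i) × H i) (_ : (x.2 : G) ∉ F i), ι i x = Sum.inr ⟨i, x⟩ := by
    intro i x h
    simp only [ι]
    rw [dif_neg h]
  have hinj : ∀ i, Function.Injective (ι i) := by
    intro i x y hxy
    by_cases hx : (x.2 : G) ∈ F i
    · by_cases hy : (y.2 : G) ∈ F i
      · rw [hpos i x hx, hpos i y hy] at hxy
        have h1 := (π i).symm.injective (Sum.inl_injective hxy)
        have h2 : x.1 = y.1 := (Prod.mk.inj h1).1
        have h3 : (x.2 : G) = y.2 := Subtype.mk.inj (Prod.mk.inj h1).2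
        exact Prod.ext h2 (Subtype.ext h3)
      · rw [hpos i x hx, hneg i y hy] at hxy
        exact absurd hxy Sum.inl_ne_inr
    · by_cases hy : (y.2 : G) ∈ F i
      · rw [hneg i x hx, hpos i y hy] at hxy
        exact absurd hxy Sum.inr_ne_inl
      · rw [hneg i x hx, hneg i y hy] at hxy
        have h1 := Sum.inr_injective hxy
        exact eq_of_heq (Sigma.mk.inj h1).2
  let lm : ∀ i, H i →* Equiv.Perm (Fin (t i) × H i) := fun i =>
    { toFun := fun h => Equiv.prodCongr (Equiv.refl _) (Equiv.mulLeft h)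
      map_one' := by ext x <;> simp
      map_mul' := by intro a b; ext x <;> simp [mul_assoc] }
  let a : ∀ i, H i →* Equiv.Perm W := fun i =>
    (Equiv.Perm.extendDomainHom (Equiv.ofInjective (ι i) (hinj i))).comp (lm i)
  have ha : ∀ i (h : H i) (x : Fin (t i) × H i), a i h (ι i x) = ι i (x.1, h * x.2) := by
    intro i h x
    have h1 := Equiv.Perm.extendDomain_apply_image (lm i h) (Equiv.ofInjective (ι i) (hinj i)) x
    exact h1
  obtain ⟨f, hf⟩ := hP.univ W a
  let act : MulAction G W := MulAction.compHom W f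
  have hact : ∀ (g : G) (w : W), g • w = f g w := fun g w => rfl
  refine ⟨W, act, Sum.inl, ?_⟩
  have hv : ∀ (i : I) (v : Fin n), (Sum.inl v : W) =
      ι i ((π i v).1, ⟨((π i v).2 : G), hF i _ (π i v).2.2⟩) := by
    intro i v
    rw [hpos i _ (π i v).2.2]
    congr 1
    exact ((π i).symm_apply_apply v).symm
  have key : ∀ (s : Gn S) (v : Fin n), gv s • (Sum.inl v : W) =
      ι s.1 ((π s.1 v).1, ⟨gv s * ((π s.1 v).2 : G),
        mul_mem (hS s.1 _ s.2.2) (hF s.1 _ (π s.1 v).2.2)⟩) := by
    intro s v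
    rw [hv s.1 v, hact]
    have h1 := hf s.1 ⟨gv s, hS s.1 _ s.2.2⟩
    have h2 : f (gv s) = a s.1 ⟨gv s, hS s.1 _ s.2.2⟩ := h1
    rw [h2, ha]
    rfl
  refine ⟨Sum.inl_injective, ?_, ?_⟩
  · intro s v u h
    rw [key s v]
    unfold SP SP1 at h
    split_ifs at h with h1
    rw [hpos s.1 _ h1]
    rw [Option.some.injEq] at h
    rw [← h]
  · intro s v u h
    rw [key s v] at h
    unfold SP SP1
    by_cases h1 : gv s * ((π s.1 v).2 : G) ∈ F s.1
    · rw [dif_pos h1]
      rw [hpos s.1 _ h1] at h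
      rw [← Sum.inl_injective h]
    · rw [hneg s.1 _ h1] at h
      exact absurd h Sum.inr_ne_inl

end H31.BE
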