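import Pool.Agent.H31.BE.DWalk
import Pool.Agent.H31.BE.GlobEx

/-! # DetMain : the decoding works outside of a small set  (paper section 4; module DetMain, ~160 lines)
C := L.C, M := maximum of C, N and all lengths of wd h (J is finite); R0 := C * (M + 1). Given R >= R0: wR g := a word of length <= R with
product g (`exists_word`). ρ := R + C * (M + 1), K := (ball S ρ).card. Given the configuration: W, j from `exists_glob`,
sg := SG L z j bad0, BB := {v | not ρ-good}, `gd_count`. For v ∉ BB, i.e. ρ-good: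
(d1) w := bw s (z v 1), |w| <= C: `SG_walk`: ev sg w v = some u, walk L (tex (z v)) w • j v = j u. η from Cfg.hz: tex (z v) = η on ball S R, so
 walk L (tex (z v)) w = walk L η w (`walk_congr`) = gv s by Adm.a1 (η 1 = z v 1). So gv s • j v = j u, SP π s v = some u by `outF`.
 This works for every v that is C (C + 1)-good.
(d2) put sp' s x := ev sg (bw s (z x 1)) x; by (d1) sp' s x = SP π s x at all C(C+1)-good x. For a word w with |w| <= R: ev sp' w v = some u with
 wprod w • j v = j u: induction; the point v' of the shorter word is C(C+1)-good by `gd_smul`, it is not in bad0, so SP π s v' = some u', and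
 `inF`. Then z u 1 = tex (z v) (wprod w) by `z_ball` with k := R, x := 1.
(d3) `SG_walk` with w := wd h.
(d4) i, w : List (S i), |w| <= N. ev of w for s ↦ sg ⟨i, s⟩ is ev sg of the word (w mapped to letters of Gn S), with the same product.
 `SG_walk`: u with walk • j v = j u, walk = walk L η. Words with the same product: Adm.a2, j injective: the same u.
 If sprod w ≠ 1: g := walk ≠ 1 by a3, g ∈ ball (C N), η g ≠ η 1 by a4, z u 1 = tex (z v) g = η g, z v 1 = η 1; so u ≠ v. -/

set_option autoImplicit false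

namespace H31.BE

private theorem ev_map {V X Y : Type} (g : Y → V → Option V) (φ : X → Y) (w : List X) (v : V) :
    ev (fun s x => g (φ s) x) w v = ev g (w.map φ) v := by
  induction w with
  | nil => rfl
  | cons a w ih =>
    change (ev (fun s x => g (φ s) x) w v).bind (g (φ a)) = (ev g (w.map φ) v).bind (g (φ a))
    rw [ih]

section
variable {G I Λ : Type} [Group G] [DecidableEq G] [Fintype I] {S : I → Finset G} {R N : ℕ} {L : Lab S Λ}
  {F : I → Finset G} {n : ℕ} {t : I → ℕ} {π : ∀ i, Fin n ≃ Fin (t i) × F i} {W : Type} [MulAction G W] {j : Fin n → W}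

private theorem tex_mem {x : Ty S R Λ} {g : G} (hg : g ∈ ball S R) : tex x g = x ⟨g, hg⟩ := by
  unfold tex
  rw [dif_pos hg]

private theorem tex_one (x : Ty S R Λ) : tex x 1 = x (one' S R) := tex_mem (one_mem_ball R)

private theorem exists_eta {z : Fin n → Ty S R Λ} {om : ∀ i, Fin (t i) → F i → Ty S R Λ}
    (hC : Cfg L N R z om) (v : Fin n) : ∃ η : G → Λ, Adm L N η ∧ (∀ g ∈ ball S R, tex (z v) g = η g) ∧
      z v (one' S R) = η 1 := by
  obtain ⟨η, hA, hη⟩ := hC.hz v
  refine ⟨η, hA, fun g hg => ?_, ?_⟩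
  · rw [tex_mem hg, hη]
  · rw [hη]; rfl

private theorem dd1 (hG : Glob S π j) {z : Fin n → Ty S R Λ} {om : ∀ i, Fin (t i) → F i → Ty S R Λ}
    (hC : Cfg L N R z om) (hR : L.C * L.C ≤ R) {v : Fin n}
    (hv : gd S j (bad0 S z om π) (L.C * (L.C + 1)) v) (s : Gn S) :
    SP π s v = ev (SG L z j (bad0 S z om π)) (L.bw s (z v (one' S R))) v := by
  obtain ⟨η, hA, hη, h1⟩ := exists_eta hC v
  have hl := L.hbw s (z v (one' S R))
  obtain ⟨u, hu1, hu2, -⟩ := SG_walk hG hC (L.bw s (z v (one' S R)))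
    (le_trans (Nat.mul_le_mul_left _ hl) hR)
    (gd_mono (Nat.mul_le_mul_left _ (Nat.succ_le_succ hl)) hv)
  have hw : walk L (tex (z v)) (L.bw s (z v (one' S R))) = gv s := by
    rw [walk_congr L (tex (z v)) η _ hl (fun g hg => hη g (ball_mono hR hg)), h1]
    exact hA.a1 s
  rw [hw] at hu2
  rw [hu1]
  exact hG.outF s v u hu2

private theorem dd2 (hG : Glob S π j) {z : Fin n → Ty S R Λ} {om : ∀ i, Fin (t i) → F i → Ty S R Λ}
    (hC : Cfg L N R z om) (hR : L.C * L.C ≤ R) {v : Fin n}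
    (hv : gd S j (bad0 S z om π) (R + L.C * (L.C + 1)) v) (w : List (Gn S)) (hw : w.length ≤ R) :
    ∃ u, ev (fun s x => ev (SG L z j (bad0 S z om π)) (L.bw s (z x (one' S R))) x) w v = some u ∧
      wprod w • j v = j u := by
  induction w with
  | nil => exact ⟨v, rfl, by simp [wprod]⟩
  | cons s w ih =>
    have hw' : w.length ≤ R := le_trans (Nat.le_succ _) hw
    obtain ⟨u', h1, h2⟩ := ih hw'
    obtain ⟨u, h3, -⟩ := gd_mono (Nat.le_add_right R _) hv (wprod (s :: w)) (wprod_mem_ball _ hw)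
    have h4 : gv s • j u' = j u := by
      rw [← h2, ← h3, ← mul_smul]
      rfl
    have h5 := hG.outF s u' u h4
    have h6 := dd1 hG hC hR (gd_smul hv (wprod_mem_ball w hw') h2) s
    refine ⟨u, ?_, h3⟩
    change (ev (fun s x => ev (SG L z j (bad0 S z om π)) (L.bw s (z x (one' S R))) x) w v).bind
      (fun x => ev (SG L z j (bad0 S z om π)) (L.bw s (z x (one' S R))) x) = some u
    rw [h1]
    change ev (SG L z j (bad0 S z om π)) (L.bw s (z u' (one' S R))) u' = some u
    rw [← h6, h5]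

private theorem dd4 (hG : Glob S π j) {z : Fin n → Ty S R Λ} {om : ∀ i, Fin (t i) → F i → Ty S R Λ}
    (hC : Cfg L N R z om) (hR : L.C * N ≤ R) {v : Fin n}
    (hv : gd S j (bad0 S z om π) (L.C * (N + 1)) v) (i : I) :
    IsReg (S i) (fun s x => SG L z j (bad0 S z om π) ⟨i, s⟩ x) N v := by
  obtain ⟨η, hA, hη, h1⟩ := exists_eta hC v
  have hmap : ∀ w : List (S i), ev (fun s x => SG L z j (bad0 S z om π) ⟨i, s⟩ x) w v =
      ev (SG L z j (bad0 S z om π)) (w.map (fun s => (⟨i, s⟩ : Gn S))) v :=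
    fun w => ev_map (SG L z j (bad0 S z om π)) (fun s => (⟨i, s⟩ : Gn S)) w v
  have hprod : ∀ w : List (S i), wprod (w.map (fun s => (⟨i, s⟩ : Gn S))) = sprod w := by
    intro w
    unfold wprod sprod
    rw [List.map_map]
    rfl
  have hkey : ∀ w : List (S i), w.length ≤ N → ∃ u,
      ev (fun s x => SG L z j (bad0 S z om π) ⟨i, s⟩ x) w v = some u ∧
      walk L η (w.map (fun s => (⟨i, s⟩ : Gn S))) • j v = j u ∧
      z u (one' S R) = η (walk L η (w.map (fun s => (⟨i, s⟩ : Gn S)))) := by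
    intro w hw
    have hl : (w.map (fun s => (⟨i, s⟩ : Gn S))).length ≤ N := by rw [List.length_map]; exact hw
    obtain ⟨u, hu1, hu2, hu3⟩ := SG_walk hG hC (w.map (fun s => (⟨i, s⟩ : Gn S)))
      (le_trans (Nat.mul_le_mul_left _ hl) hR)
      (gd_mono (Nat.mul_le_mul_left _ (Nat.succ_le_succ hl)) hv)
    have hw2 : walk L (tex (z v)) (w.map (fun s => (⟨i, s⟩ : Gn S))) =
        walk L η (w.map (fun s => (⟨i, s⟩ : Gn S))) :=
      walk_congr L (tex (z v)) η _ hl (fun g hg => hη g (ball_mono hR hg))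
    rw [hw2] at hu2 hu3
    rw [hη _ (ball_mono hR (walk_mem_ball L η _ hl))] at hu3
    exact ⟨u, by rw [hmap]; exact hu1, hu2, hu3⟩
  intro w hw
  obtain ⟨u, hu1, hu2, hu3⟩ := hkey w hw
  refine ⟨u, hu1, ?_, ?_⟩
  · intro hne huv
    have hl : (w.map (fun s => (⟨i, s⟩ : Gn S))).length ≤ N := by rw [List.length_map]; exact hw
    have h2 := hA.a3 (w.map (fun s => (⟨i, s⟩ : Gn S))) hl (by rw [hprod]; exact hne)
    have h3 := hA.a4 _ (walk_mem_ball L η _ hl) h2
    rw [huv] at hu3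
    exact h3 (by rw [← hu3, h1])
  · intro w' hw' heq
    obtain ⟨u', hu1', hu2', -⟩ := hkey w' hw'
    have hl : (w.map (fun s => (⟨i, s⟩ : Gn S))).length ≤ N := by rw [List.length_map]; exact hw
    have hl' : (w'.map (fun s => (⟨i, s⟩ : Gn S))).length ≤ N := by rw [List.length_map]; exact hw'
    have h2 := hA.a2 _ _ hl' hl (by rw [hprod, hprod]; exact heq)
    rw [h2, hu2] at hu2'
    rw [hu1', hG.inj hu2']

end

theorem det_main {G I Λ : Type} [Group G] [DecidableEq G] [Fintype I] (H : I → Subgroup G) (hP : FreeProd H)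
    (S : I → Finset G) (hS : ∀ i, ∀ g ∈ S i, g ∈ H i) (L : Lab S Λ) (N : ℕ) {J : Type} [Finite J]
    (wd : J → List (Gn S)) :
    ∃ R0 : ℕ, ∀ R, R0 ≤ R → ∃ (K : ℕ) (wR : ↥(ball S R) → List (Gn S)),
      ∀ (n : ℕ) (t : I → ℕ) (F : I → Finset G) (_ : ∀ i, ∀ g ∈ F i, g ∈ H i)
        (z : Fin n → Ty S R Λ) (om : ∀ i, Fin (t i) → F i → Ty S R Λ) (π : ∀ i, Fin n ≃ Fin (t i) × F i),
        Cfg L N R z om → ∃ (sg : Gn S → Fin n → Option (Fin n)) (BB : Set (Fin n)),
          BB.ncard ≤ K * (bad0 S z om π).ncard ∧ ∀ v, v ∉ BB → DetOK L N R wd wR z π sg v := by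
  classical
  obtain ⟨M, hM⟩ : ∃ M : ℕ, ∀ h, (wd h).length ≤ M := by
    obtain ⟨M, hM⟩ := (Set.finite_range (fun h : J => (wd h).length)).bddAbove
    exact ⟨M, fun h => hM ⟨h, rfl⟩⟩
  set M' : ℕ := L.C + N + M with hM'
  refine ⟨L.C * (M' + 1), fun R hR => ?_⟩
  refine ⟨(ball S (R + L.C * (M' + 1))).card, fun g => (exists_word g.2).choose, ?_⟩
  intro n t F hF z om π hC
  obtain ⟨W, hW, j, hG⟩ := exists_glob H hP S F hS hF π
  refine ⟨SG L z j (bad0 S z om π), {v | ¬ gd S j (bad0 S z om π) (R + L.C * (M' + 1)) v},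
    gd_count hG z om _, ?_⟩
  intro v hv
  have hv' : gd S j (bad0 S z om π) (R + L.C * (M' + 1)) v := by
    by_contra h
    exact hv h
  have hle : ∀ k, k ≤ M' → L.C * k ≤ R := fun k hk =>
    le_trans (Nat.mul_le_mul_left _ (le_trans hk (Nat.le_succ _))) hR
  have hle2 : ∀ k, k ≤ M' → L.C * (k + 1) ≤ R + L.C * (M' + 1) := fun k hk =>
    le_trans (Nat.mul_le_mul_left _ (Nat.succ_le_succ hk)) (Nat.le_add_left _ _)
  refine ⟨?_, ?_, ?_, ?_⟩
  · intro s
    exact dd1 hG hC (hle _ (by omega)) (gd_mono (hle2 _ (by omega)) hv') s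
  · intro g
    have hw := (exists_word g.2).choose_spec
    obtain ⟨u, h1, h2⟩ := dd2 hG hC (hle _ (by omega))
      (gd_mono (Nat.add_le_add_left (Nat.mul_le_mul_left _ (Nat.succ_le_succ (by omega))) R) hv')
      (exists_word g.2).choose hw.1
    refine ⟨u, h1, ?_⟩
    rw [hw.2] at h2
    have h3 := z_ball hG hC R le_rfl (gd_mono (Nat.le_add_right R _) hv') g.2 h2 1 (one_mem_ball _)
    rw [tex_one, one_mul, tex_mem g.2] at h3
    exact h3
  · intro h
    obtain ⟨u, h1, -, h3⟩ := SG_walk hG hC (wd h) (hle _ (le_trans (hM h) (by omega)))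
      (gd_mono (hle2 _ (le_trans (hM h) (by omega))) hv')
    exact ⟨u, h1, h3⟩
  · intro i
    exact dd4 hG hC (hle _ (by omega)) (gd_mono (hle2 _ (by omega)) hv') i

end H31.BE
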