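import Pool.Agent.H31.BE.Defs

/-! # EntA : submodularity for finite sums  (table be_mod, module EntA, ~90 lines)

`nml := Real.negMulLog`.  All sums are over finite types, `p ≥ 0` is NOT assumed to have total mass 1.

(1) `sub`  For `p : α → β → γ → ℝ`, `p ≥ 0`:
    sum_{abc} nml(p a b c) + sum_c nml(p(·,·,c)) <= sum_{ac} nml(p(a,·,c)) + sum_{bc} nml(p(·,b,c)).
Proof. Fix c, it is enough to prove it for every c: with x a b := p a b c, r a := sum_b x a b, s b := sum_a x a b, T := sum x:
    sum nml(x a b) + nml(T) <= sum_a nml(r a) + sum_b nml(s b).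
If T = 0 all terms vanish (all x = 0). Otherwise for every (a,b): x log x - x log r - x log s + x log T >= x - r s / T, where
for x > 0 (then r, s, T > 0) this is  log u <= u - 1 with u = r s/(x T)   (`Real.log_le_sub_one_of_pos`),
and for x = 0 it is 0 >= - r s/T. Sum over a, b: the right sides add up to T - T*T/T = 0, and
sum_{ab} x log r a = sum_a r a log r a etc.
(2) `mono`  For `p : α → β → ℝ`, `p ≥ 0` and total mass <= 1 (only needed: sum_a p a b <= 1 for each b):
    sum_b nml(sum_a p a b) <= sum_{ab} nml(p a b).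
Proof. For each b: nml(sum_a x a) <= sum_a nml(x a) for x ≥ 0, since - (sum x) log (sum x) = - sum x a log (sum x) and
x a log (x a) <= x a log(sum x) (monotonicity of log; x a = 0 trivial).  (No bound on the mass is needed.) -/

set_option autoImplicit false

namespace H31.BE

private theorem enta_core (x r s T : ℝ) (hx : 0 ≤ x) (hr : x ≤ r) (hs : x ≤ s) (hT : x ≤ T)
    (hTp : 0 < T) :
    x - r * s / T ≤ x * Real.log x - x * Real.log r - x * Real.log s + x * Real.log T := by
  rcases hx.eq_or_lt with h0 | h0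
  · subst h0
    have h1 : 0 ≤ r * s / T := div_nonneg (mul_nonneg hr hs) hTp.le
    simp only [zero_mul]
    linarith
  · have hrp : 0 < r := lt_of_lt_of_le h0 hr
    have hsp : 0 < s := lt_of_lt_of_le h0 hs
    have hu : 0 < r * s / (x * T) := by positivity
    have h1 := Real.log_le_sub_one_of_pos hu
    have h2 : Real.log (r * s / (x * T)) =
        Real.log r + Real.log s - (Real.log x + Real.log T) := by
      rw [Real.log_div (by positivity) (by positivity), Real.log_mul hrp.ne' hsp.ne',
        Real.log_mul h0.ne' hTp.ne']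
    rw [h2] at h1
    have h3 : x * (Real.log r + Real.log s - (Real.log x + Real.log T)) ≤
        x * (r * s / (x * T) - 1) := mul_le_mul_of_nonneg_left h1 h0.le
    have h4 : x * (r * s / (x * T) - 1) = r * s / T - x := by
      field_simp
    rw [h4] at h3
    nlinarith [h3]

private theorem enta_two {α β : Type} [Fintype α] [Fintype β] (x : α → β → ℝ)
    (hx : ∀ a b, 0 ≤ x a b) :
    (∑ a, ∑ b, Real.negMulLog (x a b)) + Real.negMulLog (∑ a, ∑ b, x a b) ≤
      (∑ a, Real.negMulLog (∑ b, x a b)) + ∑ b, Real.negMulLog (∑ a, x a b) := by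
  set T := ∑ a, ∑ b, x a b with hTdef
  have hT0 : 0 ≤ T := Finset.sum_nonneg fun a _ => Finset.sum_nonneg fun b _ => hx a b
  have hle_r : ∀ a b, x a b ≤ ∑ b', x a b' := fun a b =>
    Finset.single_le_sum (f := fun b' => x a b') (fun b' _ => hx a b') (Finset.mem_univ b)
  have hle_s : ∀ a b, x a b ≤ ∑ a', x a' b := fun a b =>
    Finset.single_le_sum (f := fun a' => x a' b) (fun a' _ => hx a' b) (Finset.mem_univ a)
  have hrT : ∀ a, (∑ b, x a b) ≤ T := fun a =>
    Finset.single_le_sum (f := fun a' => ∑ b, x a' b)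
      (fun a' _ => Finset.sum_nonneg fun b _ => hx a' b) (Finset.mem_univ a)
  rcases hT0.eq_or_lt with h0 | hTp
  · have hz : ∀ a b, x a b = 0 := fun a b =>
      le_antisymm ((hle_r a b).trans ((hrT a).trans h0.symm.le)) (hx a b)
    simp [hz, ← h0]
  · have key : ∑ a, ∑ b, (x a b - (∑ b', x a b') * (∑ a', x a' b) / T) ≤
        ∑ a, ∑ b, (x a b * Real.log (x a b) - x a b * Real.log (∑ b', x a b') -
          x a b * Real.log (∑ a', x a' b) + x a b * Real.log T) :=
      Finset.sum_le_sum fun a _ => Finset.sum_le_sum fun b _ =>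
        enta_core _ _ _ _ (hx a b) (hle_r a b) (hle_s a b) ((hle_r a b).trans (hrT a)) hTp
    have hL : ∑ a, ∑ b, (x a b - (∑ b', x a b') * (∑ a', x a' b) / T) = 0 := by
      simp only [Finset.sum_sub_distrib]
      have h1 : ∑ a, ∑ b, (∑ b', x a b') * (∑ a', x a' b) / T = T * T / T := by
        have h2 : ∀ a, ∑ b, (∑ b', x a b') * (∑ a', x a' b) / T =
            (∑ b', x a b') * (∑ b, ∑ a', x a' b) / T := by
          intro a
          rw [← Finset.sum_div, ← Finset.mul_sum]
        simp only [h2]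
        rw [← Finset.sum_div, ← Finset.sum_mul]
        congr 2
        rw [Finset.sum_comm]
      rw [h1, mul_div_assoc, div_self hTp.ne', mul_one, ← hTdef, sub_self]
    have hR : ∑ a, ∑ b, (x a b * Real.log (x a b) - x a b * Real.log (∑ b', x a b') -
          x a b * Real.log (∑ a', x a' b) + x a b * Real.log T) =
        -(∑ a, ∑ b, Real.negMulLog (x a b)) + (∑ a, Real.negMulLog (∑ b, x a b)) +
          (∑ b, Real.negMulLog (∑ a, x a b)) - Real.negMulLog T := by
      simp only [Finset.sum_add_distrib, Finset.sum_sub_distrib]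
      have e1 : ∑ a, ∑ b, x a b * Real.log (x a b) = -(∑ a, ∑ b, Real.negMulLog (x a b)) := by
        simp only [Real.negMulLog, neg_mul, Finset.sum_neg_distrib, neg_neg]
      have e2 : ∑ a, ∑ b, x a b * Real.log (∑ b', x a b') =
          -(∑ a, Real.negMulLog (∑ b, x a b)) := by
        simp only [Real.negMulLog, neg_mul, Finset.sum_neg_distrib, neg_neg, Finset.sum_mul]
      have e3 : ∑ a, ∑ b, x a b * Real.log (∑ a', x a' b) =
          -(∑ b, Real.negMulLog (∑ a, x a b)) := by
        rw [Finset.sum_comm]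
        simp only [Real.negMulLog, neg_mul, Finset.sum_neg_distrib, neg_neg, Finset.sum_mul]
      have e4 : ∑ a, ∑ b, x a b * Real.log T = -(Real.negMulLog T) := by
        simp only [← Finset.sum_mul]
        rw [← hTdef, Real.negMulLog]
        ring
      rw [e1, e2, e3, e4]
      ring
    rw [hL, hR] at key
    linarith

theorem sub_fin {α β γ : Type} [Fintype α] [Fintype β] [Fintype γ] (p : α → β → γ → ℝ)
    (hp : ∀ a b c, 0 ≤ p a b c) :
    (∑ a, ∑ b, ∑ c, Real.negMulLog (p a b c)) + ∑ c, Real.negMulLog (∑ a, ∑ b, p a b c) ≤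
      (∑ a, ∑ c, Real.negMulLog (∑ b, p a b c)) + ∑ b, ∑ c, Real.negMulLog (∑ a, p a b c) := by
  have h := Finset.sum_le_sum fun c (_ : c ∈ (Finset.univ : Finset γ)) =>
    enta_two (fun a b => p a b c) (fun a b => hp a b c)
  simp only [Finset.sum_add_distrib] at h
  have e1 : ∑ c, ∑ a, ∑ b, Real.negMulLog (p a b c) =
      ∑ a, ∑ b, ∑ c, Real.negMulLog (p a b c) := by
    rw [Finset.sum_comm]
    refine Finset.sum_congr rfl fun a _ => ?_
    rw [Finset.sum_comm]
  have e2 : ∑ c, ∑ a, Real.negMulLog (∑ b, p a b c) =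
      ∑ a, ∑ c, Real.negMulLog (∑ b, p a b c) := Finset.sum_comm
  have e3 : ∑ c, ∑ b, Real.negMulLog (∑ a, p a b c) =
      ∑ b, ∑ c, Real.negMulLog (∑ a, p a b c) := Finset.sum_comm
  rw [e1, e2, e3] at h
  exact h

theorem mono_fin {α : Type} [Fintype α] (x : α → ℝ) (hx : ∀ a, 0 ≤ x a) :
    Real.negMulLog (∑ a, x a) ≤ ∑ a, Real.negMulLog (x a) := by
  have h : ∀ a, -(x a * Real.log (∑ a', x a')) ≤ Real.negMulLog (x a) := by
    intro a
    have hle : x a ≤ ∑ a', x a' :=
      Finset.single_le_sum (f := fun a' => x a') (fun a' _ => hx a') (Finset.mem_univ a)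
    rw [Real.negMulLog]
    rcases (hx a).eq_or_lt with h0 | h0
    · rw [← h0]; simp
    · have h1 : Real.log (x a) ≤ Real.log (∑ a', x a') := Real.log_le_log h0 hle
      nlinarith [mul_le_mul_of_nonneg_left h1 h0.le]
  calc Real.negMulLog (∑ a, x a) = ∑ a, -(x a * Real.log (∑ a', x a')) := by
        rw [Finset.sum_neg_distrib, ← Finset.sum_mul, Real.negMulLog]; ring
    _ ≤ ∑ a, Real.negMulLog (x a) := Finset.sum_le_sum fun a _ => h a

end H31.BE
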