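import Pool.Agent.H31.BE.EntA

/-! # EntB : measure level basics  (module EntB, ~120 lines)
`Fm` = all fibres measurable. Everything is a finite sum; use `ent_eq` with `Fintype` instances obtained by
`Fintype.ofFinite` (`cases nonempty_fintype α`).
Facts: preimages of arbitrary sets under an `Fm` function into a finite type are measurable (finite unions);
`P.real (g⁻¹{b}) = ∑ a, P.real ((f,g)⁻¹{(a,b)})` (finite additivity, `measureReal_biUnion_finset` or
`MeasureTheory.measureReal_iUnion`-like lemmas; or induction); then (`ent_pair_ge`) is `mono_fin` and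
(`ent_submod`) is `sub_fin` applied to `p a b c := P.real ((f,g,h)⁻¹{(a,b,c)})`.
`ent_comp_le`: H(φ∘f) <= H(f): group the sum over the fibres of φ and use `mono_fin` on each fibre. -/

set_option autoImplicit false

open MeasureTheory

namespace H31.BE

variable {Ω α β γ : Type} [MeasurableSpace Ω] {P : Measure Ω} [IsProbabilityMeasure P]

theorem Fm.preimage {f : Ω → α} [Finite α] (hf : Fm f) (s : Set α) : MeasurableSet (f ⁻¹' s) := by
  have h : f ⁻¹' s = ⋃ a ∈ s, f ⁻¹' {a} := by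
    ext ω; simp
  rw [h]
  exact MeasurableSet.biUnion (Set.to_countable s) fun a _ => hf a

theorem Fm.comp {f : Ω → α} [Finite α] (hf : Fm f) (φ : α → β) : Fm (fun ω => φ (f ω)) := by
  intro b
  exact hf.preimage (φ ⁻¹' {b})

theorem Fm.prodMk {f : Ω → α} {g : Ω → β} (hf : Fm f) (hg : Fm g) : Fm (fun ω => (f ω, g ω)) := by
  rintro ⟨a, b⟩
  have h : (fun ω => (f ω, g ω)) ⁻¹' {(a, b)} = f ⁻¹' {a} ∩ g ⁻¹' {b} := by
    ext ω; simp [Prod.ext_iff]
  rw [h]
  exact (hf a).inter (hg b)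

theorem Fm.pi {ι : Type} [Finite ι] {κ : ι → Type} {f : ∀ i, Ω → κ i} (hf : ∀ i, Fm (f i)) :
    Fm (fun ω => fun i => f i ω) := by
  intro c
  have h : (fun ω => fun i => f i ω) ⁻¹' {c} = ⋂ i, f i ⁻¹' {c i} := by
    ext ω; simp [funext_iff]
  rw [h]
  exact MeasurableSet.iInter fun i => hf i (c i)

theorem Fm.const (a : α) : Fm (fun _ : Ω => a) := by
  intro b
  by_cases h : a = b
  · have : (fun _ : Ω => a) ⁻¹' {b} = Set.univ := by ext ω; simp [h]
    rw [this]; exact MeasurableSet.univ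
  · have : (fun _ : Ω => a) ⁻¹' {b} = ∅ := by ext ω; simp [h]
    rw [this]; exact MeasurableSet.empty

theorem ent_nonneg [Finite α] (f : Ω → α) : 0 ≤ ent P f := by
  cases nonempty_fintype α
  rw [ent_eq]
  exact Finset.sum_nonneg fun a _ =>
    Real.negMulLog_nonneg measureReal_nonneg measureReal_le_one

theorem ent_const [Finite α] (a : α) : ent P (fun _ : Ω => a) = 0 := by
  cases nonempty_fintype α
  rw [ent_eq]
  refine Finset.sum_eq_zero fun b _ => ?_
  by_cases h : a = b
  · have : (fun _ : Ω => a) ⁻¹' {b} = Set.univ := by ext ω; simp [h]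
    rw [this]; simp
  · have : (fun _ : Ω => a) ⁻¹' {b} = ∅ := by ext ω; simp [h]
    rw [this]; simp

theorem ent_congr_ae [Finite α] {f g : Ω → α} (h : ∀ᵐ ω ∂P, f ω = g ω) : ent P f = ent P g := by
  cases nonempty_fintype α
  rw [ent_eq, ent_eq]
  refine Finset.sum_congr rfl fun a _ => ?_
  congr 1
  apply measureReal_congr
  filter_upwards [h] with ω hω
  show (f ω = a) = (g ω = a)
  rw [hω]

private theorem entb_sum {δ ε : Type} [Fintype δ] {f : Ω → δ} (hf : Fm f) (φ : δ → ε)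
    [DecidableEq ε] (b : ε) :
    P.real ((fun ω => φ (f ω)) ⁻¹' {b}) =
      ∑ a ∈ Finset.univ.filter (fun a => φ a = b), P.real (f ⁻¹' {a}) := by
  have h : (fun ω => φ (f ω)) ⁻¹' {b} =
      ⋃ a ∈ (Finset.univ.filter (fun a => φ a = b) : Finset δ), f ⁻¹' {a} := by
    ext ω; simp
  rw [h, measureReal_biUnion_finset]
  · intro a _ a' _ haa
    refine Set.disjoint_left.mpr fun ω h1 h2 => haa ?_
    rw [Set.mem_preimage, Set.mem_singleton_iff] at h1 h2
    rw [← h1, h2]
  · exact fun a _ => hf a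

theorem ent_comp_le [Finite α] [Finite β] {f : Ω → α} (hf : Fm f) (φ : α → β) :
    ent P (fun ω => φ (f ω)) ≤ ent P f := by
  classical
  cases nonempty_fintype α
  cases nonempty_fintype β
  rw [ent_eq, ent_eq]
  have h1 : ∑ a, Real.negMulLog (P.real (f ⁻¹' {a})) =
      ∑ b, ∑ a ∈ Finset.univ.filter (fun a => φ a = b), Real.negMulLog (P.real (f ⁻¹' {a})) :=
    (Finset.sum_fiberwise _ _ _).symm
  rw [h1]
  refine Finset.sum_le_sum fun b _ => ?_
  rw [entb_sum hf φ b, ← Finset.sum_coe_sort, ← Finset.sum_coe_sort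
    (Finset.univ.filter (fun a => φ a = b)) (fun a => Real.negMulLog (P.real (f ⁻¹' {a})))]
  exact mono_fin _ fun a => measureReal_nonneg

private theorem entb_real {δ ε : Type} [Fintype δ] [Fintype ε] {f : Ω → δ} {g : Ω → ε}
    (hf : Fm f) (hg : Fm g) (b : ε) :
    P.real (g ⁻¹' {b}) = ∑ a, P.real ((fun ω => (f ω, g ω)) ⁻¹' {(a, b)}) := by
  have h : g ⁻¹' {b} =
      ⋃ a ∈ (Finset.univ : Finset δ), (fun ω => (f ω, g ω)) ⁻¹' {(a, b)} := by
    ext ω; simp [Prod.ext_iff]
  rw [h, measureReal_biUnion_finset]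
  · intro a _ a' _ haa
    refine Set.disjoint_left.mpr fun ω h1 h2 => haa ?_
    simp only [Set.mem_preimage, Set.mem_singleton_iff, Prod.mk.injEq] at h1 h2
    rw [← h1.1, h2.1]
  · exact fun a _ => (hf.prodMk hg) (a, b)

theorem ent_submod [Finite α] [Finite β] [Finite γ] {f : Ω → α} {g : Ω → β} {h : Ω → γ}
    (hf : Fm f) (hg : Fm g) (hh : Fm h) :
    ent P (fun ω => (f ω, g ω, h ω)) + ent P h ≤
      ent P (fun ω => (f ω, h ω)) + ent P (fun ω => (g ω, h ω)) := by
  cases nonempty_fintype α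
  cases nonempty_fintype β
  cases nonempty_fintype γ
  have key := sub_fin (fun a b c => P.real ((fun ω => (f ω, g ω, h ω)) ⁻¹' {(a, b, c)}))
    (fun a b c => measureReal_nonneg)
  simp only [ent_eq, Fintype.sum_prod_type]
  have e1 : ∀ c, P.real (h ⁻¹' {c}) =
      ∑ a, ∑ b, P.real ((fun ω => (f ω, g ω, h ω)) ⁻¹' {(a, b, c)}) := by
    intro c
    rw [entb_real hg hh c, Finset.sum_comm]
    refine Finset.sum_congr rfl fun b _ => ?_
    exact entb_real hf (hg.prodMk hh) (b, c)
  have e2 : ∀ a c, P.real ((fun ω => (f ω, h ω)) ⁻¹' {(a, c)}) =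
      ∑ b, P.real ((fun ω => (f ω, g ω, h ω)) ⁻¹' {(a, b, c)}) := by
    intro a c
    rw [entb_real hg (hf.prodMk hh) (a, c)]
    refine Finset.sum_congr rfl fun b _ => ?_
    congr 1
    ext ω
    simp only [Set.mem_preimage, Set.mem_singleton_iff, Prod.mk.injEq]
    tauto
  have e3 : ∀ b c, P.real ((fun ω => (g ω, h ω)) ⁻¹' {(b, c)}) =
      ∑ a, P.real ((fun ω => (f ω, g ω, h ω)) ⁻¹' {(a, b, c)}) := by
    intro b c
    exact entb_real hf (hg.prodMk hh) (b, c)
  simp only [e1, e2, e3]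
  exact key

end H31.BE
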