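import Pool.Agent.H31.BE.Defs

/-! # FDefs : the entropy formula of the problem, and the hypotheses on the factors. Definitions only. -/

set_option autoImplicit false

open MeasureTheory

namespace H31.BE

open scoped Pointwise

noncomputable section

/-- the base entropy, exactly as in the problem -/
def HF (μ : Measure ℝ) : ENNReal :=
  (∑' a : ℝ, ENNReal.ofReal (Real.negMulLog (μ {a}).toReal)) + (⊤ : ENNReal) * (1 - ∑' a : ℝ, μ {a})

/-- subexponential Folner function of an abstract group -/
def SubFol (A : Type) [Group A] : Prop :=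
  open Classical in
  ∀ (K : Finset A) (η : ℝ), 0 < η → ∃ k0 : ℕ, ∀ k : ℕ, k0 ≤ k →
    ∃ F : Finset A, F.Nonempty ∧ (k : ℝ) * ((K * F) \ F).card ≤ F.card ∧ (F.card : ℝ) ≤ Real.exp (η * k)

/-- generators t 0, ..., t q, the first one of infinite order, such that each t j conjugates the earlier ones into the
subgroup generated by the earlier ones -/
def HasSeries (A : Type) [Group A] : Prop :=
  ∃ (q : ℕ) (t : Fin (q + 1) → A), Subgroup.closure (Set.range t) = ⊤ ∧ (∀ m : ℕ, 1 ≤ m → (t 0) ^ m ≠ 1) ∧
    ∀ j l, l < j → t j * t l * (t j)⁻¹ ∈ Subgroup.closure {g | ∃ i, i < j ∧ g = t i}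

/-- generators t 0, ..., t (q-1) of a nilpotent group: t l is central modulo the subgroup generated by the earlier ones -/
structure NilSer (A : Type) [Group A] (q : ℕ) (t : Fin q → A) : Prop where
  gen : Subgroup.closure (Set.range t) = ⊤
  com : ∀ j l, l < j → t j * t l * (t j)⁻¹ * (t l)⁻¹ ∈ Subgroup.closure {g | ∃ i, i < l ∧ g = t i} ∧
    (t j)⁻¹ * t l * t j * (t l)⁻¹ ∈ Subgroup.closure {g | ∃ i, i < l ∧ g = t i}

end

end H31.BE
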