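import Pool.Agent.H31.BE.FEntNon

/-! # FEntLo : the base entropy is the supremum over finite partitions  (module FEntLo, ~70 lines)
Case ∑' μ {a} < 1: `fe_non` with c.toReal + 1 (c < ⊤). Case ∑' μ {a} = 1 (it is always <= 1): HF μ = the first sum > c, so some finite set T of
reals has c < ∑ a ∈ T, ofReal (nml (μ {a}).toReal); q a := index of a in T, and an extra index outside of T: ent μ q >= ∑ a ∈ T nml (μ {a}). -/

set_option autoImplicit false

open MeasureTheory

namespace H31.BE

private theorem feLo_one (μ : Measure ℝ) [IsProbabilityMeasure μ] : ∑' a : ℝ, μ {a} ≤ 1 := by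
  rw [ENNReal.tsum_eq_iSup_sum]
  refine iSup_le fun s => ?_
  rw [sum_measure_singleton]
  exact prob_le_one

private theorem feLo_fin (μ : Measure ℝ) [IsProbabilityMeasure μ] (T : Finset ℝ) :
    ∃ (k : ℕ) (q : ℝ → Fin k), Fm q ∧
      ∑ a ∈ T, Real.negMulLog (μ {a}).toReal ≤ ent μ q := by
  classical
  let q : ℝ → Fin (T.card + 1) := fun a => if h : a ∈ T then (T.equivFin ⟨a, h⟩).succ else 0
  have hq0 : ∀ a, q a = 0 ↔ a ∉ T := by
    intro a
    by_cases h : a ∈ T
    · simp [q, h, Fin.succ_ne_zero]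
    · simp [q, h]
  have hq1 : ∀ i : Fin T.card, q ⁻¹' {i.succ} = {((T.equivFin.symm i : T) : ℝ)} := by
    intro i
    ext a
    rw [Set.mem_preimage, Set.mem_singleton_iff, Set.mem_singleton_iff]
    constructor
    · intro h
      have ha : a ∈ T := by
        by_contra hn
        rw [(hq0 a).2 hn] at h
        exact Fin.succ_ne_zero i h.symm
      have h1 : q a = (T.equivFin ⟨a, ha⟩).succ := by simp [q, ha]
      rw [h1, Fin.succ_inj] at h
      rw [← h, Equiv.symm_apply_apply]
    · intro h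
      have ha : a ∈ T := by
        rw [h]
        exact (T.equivFin.symm i).2
      have h1 : q a = (T.equivFin ⟨a, ha⟩).succ := by simp [q, ha]
      rw [h1, Fin.succ_inj]
      have h2 : (⟨a, ha⟩ : T) = T.equivFin.symm i := Subtype.ext h
      rw [h2, Equiv.apply_symm_apply]
  refine ⟨T.card + 1, q, ?_, ?_⟩
  · intro j
    refine Fin.cases ?_ (fun i => ?_) j
    · have h : q ⁻¹' {0} = (T : Set ℝ)ᶜ := by
        ext a
        rw [Set.mem_preimage, Set.mem_singleton_iff, hq0 a]
        simp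
      rw [h]
      exact T.measurableSet.compl
    · rw [hq1 i]
      exact measurableSet_singleton _
  · rw [ent_eq, Fin.sum_univ_succ]
    have h0 : 0 ≤ Real.negMulLog (μ.real (q ⁻¹' {0})) :=
      Real.negMulLog_nonneg measureReal_nonneg measureReal_le_one
    have h1 : ∑ i : Fin T.card, Real.negMulLog (μ.real (q ⁻¹' {i.succ})) =
        ∑ a ∈ T, Real.negMulLog (μ {a}).toReal := by
      rw [← Finset.sum_coe_sort T, ← Equiv.sum_comp T.equivFin.symm]
      refine Finset.sum_congr rfl fun i _ => ?_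
      rw [hq1 i]
      rfl
    rw [h1]
    linarith

theorem fe_ge (μ : Measure ℝ) [IsProbabilityMeasure μ] (c : ENNReal) (hc : c < HF μ) :
    ∃ (k : ℕ) (q : ℝ → Fin k), Fm q ∧ c < ENNReal.ofReal (ent μ q) := by
  rcases (feLo_one μ).lt_or_eq with hlt | heq
  · have hct : c ≠ ⊤ := (lt_top_of_lt hc).ne
    obtain ⟨k, q, hq, h⟩ := fe_non μ hlt (c.toReal + 1)
    refine ⟨k, q, hq, ?_⟩
    rw [← ENNReal.ofReal_toReal hct]
    have h0 : (0 : ℝ) ≤ c.toReal := ENNReal.toReal_nonneg
    rw [ENNReal.ofReal_lt_ofReal_iff (by linarith)]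
    linarith
  · rw [HF, heq, tsub_self, mul_zero, add_zero, ENNReal.tsum_eq_iSup_sum, lt_iSup_iff] at hc
    obtain ⟨T, hT⟩ := hc
    obtain ⟨k, q, hq, h⟩ := feLo_fin μ T
    refine ⟨k, q, hq, lt_of_lt_of_le hT ?_⟩
    rw [← ENNReal.ofReal_sum_of_nonneg]
    · exact ENNReal.ofReal_le_ofReal h
    · intro a _
      exact Real.negMulLog_nonneg measureReal_nonneg measureReal_le_one

end H31.BE
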