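import Pool.Agent.H31.BE.FDefs

/-! # FEntNon : measures that are not purely atomic have partitions of large entropy  (module FEntNon, ~120 lines)
D := {a | μ {a} ≠ 0} is countable (`Measure.countable_meas_pos_of_disjoint_iUnion` or summability), μ D = ∑' μ {a} < 1. μ0 := μ restricted to the
complement of D: no atoms, total mass m0 > 0. For N >= 1 find measurable disjoint E_1, ..., E_N outside D with μ0 E_j = m0 / N: use the
continuous monotone function x ↦ μ0 (Iic x) (cut points by the intermediate value theorem), or any lemma of Mathlib on atomless measures;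
it is enough to have disjoint measurable sets with union of the complement of D and μ E_j <= m0/N... e.g. by halving: every measurable set E of
an atomless finite measure on ℝ splits into two sets of equal measure. q := index of the set (and 0 on D): ent μ q >= ∑ nml(μ E_j) =
m0 log (N/m0) → ∞ (for N large, cell 0 counted separately or contained; keep D as a separate cell). -/

set_option autoImplicit false

open MeasureTheory

namespace H31.BE

/-- for `x ∈ [0, 1/N]` -/
private theorem nml_ge {p : ℝ} {N : ℕ} (hN : 1 ≤ N) (h0 : 0 ≤ p) (h1 : p ≤ 1 / N) :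
    p * Real.log N ≤ Real.negMulLog p := by
  have hN' : (0 : ℝ) < N := by exact_mod_cast hN
  rcases h0.eq_or_lt with rfl | hp
  · simp
  · unfold Real.negMulLog
    have h2 : Real.log p ≤ Real.log (1 / N) := Real.log_le_log hp h1
    rw [Real.log_div one_ne_zero hN'.ne', Real.log_one, zero_sub] at h2
    nlinarith

private theorem sum_ge {N : ℕ} (hN : 1 ≤ N) (p : Fin (N + 2) → ℝ) (h0 : ∀ a, 0 ≤ p a)
    (h1 : ∀ a, p a ≤ 1) (hs : ∑ a, p a = 1) (h2 : ∀ a, a ≠ 0 → p a ≤ 1 / N) :
    (1 - p 0) * Real.log N ≤ ∑ a, Real.negMulLog (p a) := by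
  rw [← Finset.add_sum_erase _ _ (Finset.mem_univ (0 : Fin (N + 2)))] at hs ⊢
  have h3 : 0 ≤ Real.negMulLog (p 0) := Real.negMulLog_nonneg (h0 0) (h1 0)
  have h4 : ∑ a ∈ Finset.univ.erase (0 : Fin (N + 2)), p a * Real.log N ≤
      ∑ a ∈ Finset.univ.erase (0 : Fin (N + 2)), Real.negMulLog (p a) :=
    Finset.sum_le_sum fun a ha => nml_ge hN (h0 a) (h2 a (Finset.ne_of_mem_erase ha))
  rw [← Finset.sum_mul] at h4
  have h5 : ∑ a ∈ Finset.univ.erase (0 : Fin (N + 2)), p a = 1 - p 0 := by linarith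
  rw [h5] at h4
  linarith

/-- a measurable set on which the distribution function of the diffuse part varies by at most `δ` -/
private theorem cell_le (μ : Measure ℝ) [IsProbabilityMeasure μ] (D : Set ℝ)
    (hD : ∀ x, x ∉ D → μ {x} = 0) (E : Set ℝ) (hE : MeasurableSet E) (hED : ∀ x ∈ E, x ∉ D)
    (hDm : MeasurableSet D) (δ : ℝ) (hδ : 0 ≤ δ)
    (h : ∀ x ∈ E, ∀ y ∈ E, μ.real (Set.Iic y ∩ Dᶜ) ≤ μ.real (Set.Iic x ∩ Dᶜ) + δ) :
    μ.real E ≤ δ := by
  by_contra hcon
  push Not at hcon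
  have h1 : ENNReal.ofReal δ < μ E := by
    rw [ENNReal.ofReal_lt_iff_lt_toReal hδ (measure_ne_top μ E)]
    exact hcon
  obtain ⟨K, hKE, hK, hlt⟩ := hE.exists_lt_isCompact_of_ne_top (measure_ne_top μ E) h1
  have hne : K.Nonempty := by
    rw [Set.nonempty_iff_ne_empty]
    rintro rfl
    rw [measure_empty] at hlt
    exact (not_lt_bot hlt).elim
  have hx := hK.sInf_mem hne
  have hy := hK.sSup_mem hne
  have hsub : K ⊆ {sInf K} ∪ (Set.Ioc (sInf K) (sSup K) ∩ Dᶜ) := by
    intro z hz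
    have h2 : sInf K ≤ z := csInf_le hK.bddBelow hz
    have h3 : z ≤ sSup K := le_csSup hK.bddAbove hz
    rcases h2.eq_or_lt with h4 | h4
    · exact Or.inl h4.symm
    · exact Or.inr ⟨⟨h4, h3⟩, hED z (hKE hz)⟩
  have h4 : μ.real K ≤ μ.real {sInf K} + μ.real (Set.Ioc (sInf K) (sSup K) ∩ Dᶜ) :=
    (measureReal_mono hsub).trans (measureReal_union_le _ _)
  have h5 : μ.real {sInf K} = 0 := by
    rw [measureReal_def, hD _ (hED _ (hKE hx)), ENNReal.toReal_zero]
  have h6 : μ.real (Set.Iic (sInf K) ∩ Dᶜ) + μ.real (Set.Ioc (sInf K) (sSup K) ∩ Dᶜ) ≤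
      μ.real (Set.Iic (sSup K) ∩ Dᶜ) := by
    rw [← measureReal_union]
    · refine measureReal_mono ?_ (measure_ne_top μ _)
      rintro z (⟨hz, hz'⟩ | ⟨hz, hz'⟩)
      · exact ⟨(Set.mem_Iic.1 hz).trans (csInf_le_csSup hne hK.bddBelow hK.bddAbove), hz'⟩
      · exact ⟨hz.2, hz'⟩
    · rw [Set.disjoint_left]
      rintro z ⟨hz, _⟩ ⟨hz', _⟩
      exact absurd (Set.mem_Iic.1 hz) (not_le.2 hz'.1)
    · exact measurableSet_Ioc.inter hDm.compl
  have h7 := h _ (hKE hx) _ (hKE hy)
  have h8 : μ.real K ≤ δ := by linarith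
  have h9 : δ < μ.real K := by
    rwa [ENNReal.ofReal_lt_iff_lt_toReal hδ (measure_ne_top μ K)] at hlt
  linarith

theorem fe_non (μ : Measure ℝ) [IsProbabilityMeasure μ] (h : ∑' a : ℝ, μ {a} < 1) (c : ℝ) :
    ∃ (k : ℕ) (q : ℝ → Fin k), Fm q ∧ c ≤ ent μ q := by
  classical
  set D : Set ℝ := {a : ℝ | μ {a} ≠ 0} with hDdef
  have hD : D.Countable := Summable.countable_support_ennreal (ne_top_of_lt h)
  have hDm : MeasurableSet D := hD.measurableSet
  have hμD : μ D < 1 := by
    refine lt_of_le_of_lt ?_ h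
    calc μ D = μ (⋃ a ∈ D, {a}) := by rw [Set.biUnion_of_singleton]
      _ ≤ ∑' a : D, μ {(a : ℝ)} := measure_biUnion_le μ hD _
      _ ≤ ∑' a : ℝ, μ {a} :=
        ENNReal.tsum_comp_le_tsum_of_injective Subtype.val_injective (fun a : ℝ => μ {a})
  have hm0 : 0 < 1 - μ.real D := by
    have : μ.real D < 1 := by
      rw [measureReal_def, ← ENNReal.toReal_one]
      exact (ENNReal.toReal_lt_toReal (measure_ne_top μ D) ENNReal.one_ne_top).2 hμD
    linarith
  let F : ℝ → ℝ := fun x => μ.real (Set.Iic x ∩ Dᶜ)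
  have hFm : Measurable F := Monotone.measurable fun x y hxy =>
    measureReal_mono (Set.inter_subset_inter_left _ (Set.Iic_subset_Iic.2 hxy))
  have hF0 : ∀ x, 0 ≤ F x := fun x => measureReal_nonneg
  have hF1 : ∀ x, F x ≤ 1 := fun x => measureReal_le_one
  obtain ⟨N, hN1, hN⟩ : ∃ N : ℕ, 1 ≤ N ∧ c / (1 - μ.real D) ≤ Real.log N := by
    refine ⟨⌈Real.exp (c / (1 - μ.real D))⌉₊, Nat.ceil_pos.2 (Real.exp_pos _), ?_⟩
    rw [Real.le_log_iff_exp_le (by exact_mod_cast Nat.ceil_pos.2 (Real.exp_pos _))]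
    exact Nat.le_ceil _
  have hN0 : (0 : ℝ) < N := by exact_mod_cast hN1
  let q : ℝ → Fin (N + 2) := fun x => if x ∈ D then 0 else Fin.ofNat (N + 2) (⌊F x * N⌋₊ + 1)
  have hfl : ∀ x, ⌊F x * N⌋₊ ≤ N := by
    intro x
    have h1 : F x * N ≤ N := by
      have := mul_le_mul_of_nonneg_right (hF1 x) hN0.le
      linarith
    exact (Nat.floor_le_floor h1).trans (by rw [Nat.floor_natCast])
  have hval : ∀ x, x ∉ D → (q x : ℕ) = ⌊F x * N⌋₊ + 1 := by
    intro x hx
    have := hfl x
    simp only [q, if_neg hx, Fin.ofNat]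
    exact Nat.mod_eq_of_lt (by omega)
  have hqm : Measurable q := Measurable.ite hDm measurable_const
    ((measurable_from_nat (f := fun n => Fin.ofNat (N + 2) (n + 1))).comp
      (Nat.measurable_floor.comp (hFm.mul_const _)))
  have hq : Fm q := fun a => hqm (measurableSet_singleton a)
  refine ⟨N + 2, q, hq, ?_⟩
  have hmemD : ∀ x, q x ≠ 0 → x ∉ D := by
    intro x hx hxD
    exact hx (by simp only [q, if_pos hxD])
  have hcell : ∀ a : Fin (N + 2), a ≠ 0 → μ.real (q ⁻¹' {a}) ≤ 1 / N := by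
    intro a ha
    have hED : ∀ x ∈ q ⁻¹' {a}, x ∉ D := fun x hx => hmemD x (by
      rw [Set.mem_preimage, Set.mem_singleton_iff] at hx
      rw [hx]; exact ha)
    refine cell_le μ D (fun x hx => not_not.1 hx) _ (hq a) hED hDm _ (by positivity) ?_
    intro x hx y hy
    have h1 := hval x (hED x hx)
    have h2 := hval y (hED y hy)
    rw [Set.mem_preimage, Set.mem_singleton_iff] at hx hy
    rw [hx] at h1
    rw [hy] at h2
    have h3 : ⌊F x * N⌋₊ = ⌊F y * N⌋₊ := by omega
    have h4 : F y * N < ⌊F y * N⌋₊ + 1 := Nat.lt_floor_add_one _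
    have h5 : (⌊F x * N⌋₊ : ℝ) ≤ F x * N := Nat.floor_le (mul_nonneg (hF0 x) hN0.le)
    rw [← h3] at h4
    change F y ≤ F x + 1 / N
    have h6 : F y * N < F x * N + 1 := by linarith
    have h7 : F y * N < (F x + 1 / N) * N := by
      rw [add_mul, one_div, inv_mul_cancel₀ hN0.ne']
      exact h6
    exact (lt_of_mul_lt_mul_right h7 hN0.le).le
  have hq0 : μ.real (q ⁻¹' {0}) = μ.real D := by
    congr 1
    ext x
    rw [Set.mem_preimage, Set.mem_singleton_iff]
    constructor
    · intro hx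
      by_contra hxD
      have h1 := hval x hxD
      rw [hx] at h1
      simp at h1
    · intro hx
      simp only [q, if_pos hx]
  rw [ent_eq]
  have hsum : ∑ a, μ.real (q ⁻¹' {a}) = 1 := by
    have h1 := measureReal_biUnion_finset (μ := μ) (s := Finset.univ) (f := fun a => q ⁻¹' {a})
      (fun a _ b _ hab => by
        change Disjoint (q ⁻¹' {a}) (q ⁻¹' {b})
        rw [Set.disjoint_left]
        intro x hx hx'
        exact hab ((Set.mem_singleton_iff.1 hx).symm.trans (Set.mem_singleton_iff.1 hx')))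
      (fun a _ => hq a)
    rw [← h1]
    have h2 : (⋃ a ∈ (Finset.univ : Finset (Fin (N + 2))), q ⁻¹' {a}) = Set.univ := by
      ext x
      simp
    rw [h2]
    exact probReal_univ
  have h1 := sum_ge hN1 (fun a => μ.real (q ⁻¹' {a})) (fun a => measureReal_nonneg)
    (fun a => measureReal_le_one) hsum hcell
  rw [hq0] at h1
  refine le_trans ?_ h1
  rw [div_le_iff₀ hm0] at hN
  linarith

end H31.BE
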