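import Pool.Agent.H31.BE.FDefs

/-! # FEntUp : the entropy of a finite partition is at most the base entropy  (module FEntUp, ~80 lines)
If ∑' μ {a} < 1 the right side is ⊤ (⊤ times a positive number). Otherwise μ is carried by its atoms: ∑' μ {a} = 1, so
μ (q ⁻¹' {j}) = ∑' a, if q a = j then μ {a} else 0 (countable additivity over the countable set of atoms, the rest has measure 0).
nml (∑' x_a) <= ∑' nml (x_a) in the form ofReal (nml (∑' x).toReal) <= ∑' ofReal (nml x_a): if x := ∑' x_a > 0, nml x = ∑ x_a (- log x) <= ∑ x_a (- log x_a),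
all terms nonnegative since x <= 1 (termwise -log x <= -log x_a). Sum over j. -/

set_option autoImplicit false

open MeasureTheory

namespace H31.BE

private theorem feUp_fin (μ : Measure ℝ) {k : ℕ} (q : ℝ → Fin k) (j : Fin k) :
    ∑' a : ℝ, (if q a = j then μ {a} else 0) ≤ μ (q ⁻¹' {j}) := by
  rw [ENNReal.tsum_eq_iSup_sum]
  refine iSup_le fun s => ?_
  rw [← Finset.sum_filter, sum_measure_singleton]
  refine measure_mono fun x hx => ?_
  exact (Finset.mem_filter.1 (Finset.mem_coe.1 hx)).2

private theorem feUp_one (μ : Measure ℝ) [IsProbabilityMeasure μ] : ∑' a : ℝ, μ {a} ≤ 1 := by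
  rw [ENNReal.tsum_eq_iSup_sum]
  refine iSup_le fun s => ?_
  rw [sum_measure_singleton]
  exact prob_le_one

private theorem feUp_nml (x : ENNReal) (hx : x ≤ 1) (f : ℝ → ENNReal) (h : ∑' a, f a = x) :
    ENNReal.ofReal (Real.negMulLog x.toReal) ≤ ∑' a, ENNReal.ofReal (Real.negMulLog (f a).toReal) := by
  have hxt : x ≠ ⊤ := ne_top_of_le_ne_top ENNReal.one_ne_top hx
  have hx1 : x.toReal ≤ 1 := by
    have := ENNReal.toReal_mono ENNReal.one_ne_top hx
    simpa using this
  have hlog : 0 ≤ -Real.log x.toReal := by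
    have := Real.log_nonpos ENNReal.toReal_nonneg hx1
    linarith
  have h1 : ENNReal.ofReal (Real.negMulLog x.toReal) =
      x * ENNReal.ofReal (-Real.log x.toReal) := by
    have e : Real.negMulLog x.toReal = x.toReal * (-Real.log x.toReal) := by
      rw [Real.negMulLog]
      ring
    rw [e, ENNReal.ofReal_mul ENNReal.toReal_nonneg, ENNReal.ofReal_toReal hxt]
  rw [h1]
  conv_lhs => rw [← h]
  rw [← ENNReal.tsum_mul_right, h]
  refine ENNReal.tsum_le_tsum fun a => ?_
  have hfa : f a ≤ x := by
    rw [← h]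
    exact ENNReal.le_tsum a
  have hft : f a ≠ ⊤ := ne_top_of_le_ne_top hxt hfa
  conv_lhs => rw [← ENNReal.ofReal_toReal hft]
  rw [← ENNReal.ofReal_mul ENNReal.toReal_nonneg]
  refine ENNReal.ofReal_le_ofReal ?_
  have h2 : (f a).toReal ≤ x.toReal := ENNReal.toReal_mono hxt hfa
  have h3 : 0 ≤ (f a).toReal := ENNReal.toReal_nonneg
  rw [Real.negMulLog]
  rcases h3.eq_or_lt with h0 | h0
  · rw [← h0]
    simp
  · have h4 := Real.log_le_log h0 h2
    nlinarith [mul_le_mul_of_nonneg_left h4 h3]

theorem fe_le (μ : Measure ℝ) [IsProbabilityMeasure μ] {k : ℕ} (q : ℝ → Fin k) (hq : Fm q) :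
    ENNReal.ofReal (ent μ q) ≤ HF μ := by
  classical
  rcases (feUp_one μ).lt_or_eq with hlt | heq
  · have h1 : (1 : ENNReal) - ∑' a : ℝ, μ {a} ≠ 0 := (tsub_pos_of_lt hlt).ne'
    rw [HF, ENNReal.top_mul h1, add_top]
    exact le_top
  · -- the classes have the mass of their atoms
    have hsum : ∑ j : Fin k, ∑' a : ℝ, (if q a = j then μ {a} else 0) = 1 := by
      rw [← Summable.tsum_finsetSum (fun _ _ => ENNReal.summable), ← heq]
      refine tsum_congr fun a => ?_
      simp
    have hsum2 : ∑ j : Fin k, μ (q ⁻¹' {j}) = 1 := by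
      have h1 : (⋃ j : Fin k, q ⁻¹' {j}) = Set.univ := by
        ext x
        simp
      rw [← measure_univ (μ := μ), ← h1, measure_iUnion ?_ (fun j => hq j), tsum_fintype]
      intro i j hij
      refine Set.disjoint_left.2 fun x hx hy => hij ?_
      rw [← hx, ← hy]
    have hcl : ∀ j : Fin k, ∑' a : ℝ, (if q a = j then μ {a} else 0) = μ (q ⁻¹' {j}) := by
      intro j
      by_contra hne
      have h1 : ∑' a : ℝ, (if q a = j then μ {a} else 0) < μ (q ⁻¹' {j}) :=
        lt_of_le_of_ne (feUp_fin μ q j) hne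
      have h2 : ∑ j : Fin k, ∑' a : ℝ, (if q a = j then μ {a} else 0) <
          ∑ j : Fin k, μ (q ⁻¹' {j}) := by
        rw [← Finset.add_sum_erase Finset.univ
          (fun j : Fin k => ∑' a : ℝ, (if q a = j then μ {a} else 0)) (Finset.mem_univ j),
          ← Finset.add_sum_erase Finset.univ (fun j : Fin k => μ (q ⁻¹' {j})) (Finset.mem_univ j)]
        refine ENNReal.add_lt_add_of_lt_of_le ?_ h1 (Finset.sum_le_sum fun i _ => feUp_fin μ q i)
        refine ne_top_of_le_ne_top ENNReal.one_ne_top ?_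
        rw [← hsum]
        exact Finset.sum_le_sum_of_subset (Finset.erase_subset _ _)
      rw [hsum, hsum2] at h2
      exact lt_irrefl _ h2
    have hnn : ∀ j : Fin k, 0 ≤ Real.negMulLog (μ.real (q ⁻¹' {j})) := fun j =>
      Real.negMulLog_nonneg measureReal_nonneg measureReal_le_one
    rw [ent_eq, ENNReal.ofReal_sum_of_nonneg (fun j _ => hnn j)]
    calc ∑ j : Fin k, ENNReal.ofReal (Real.negMulLog (μ.real (q ⁻¹' {j}))) ≤
        ∑ j : Fin k, ∑' a : ℝ, (if q a = j then ENNReal.ofReal (Real.negMulLog (μ {a}).toReal)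
          else 0) := by
          refine Finset.sum_le_sum fun j _ => ?_
          refine (feUp_nml (μ (q ⁻¹' {j})) prob_le_one _ (hcl j)).trans ?_
          refine ENNReal.tsum_le_tsum fun a => ?_
          split_ifs
          · exact le_rfl
          · simp
      _ = ∑' a : ℝ, ENNReal.ofReal (Real.negMulLog (μ {a}).toReal) := by
          rw [← Summable.tsum_finsetSum (fun _ _ => ENNReal.summable)]
          refine tsum_congr fun a => ?_
          simp
      _ ≤ HF μ := le_self_add

end H31.BE
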