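import Pool.Agent.H31.BE.Defs

/-! # FPEuler : the free product satisfies `FreeProd`  (paper 1.4; module FPEuler, ~150 lines)
G ≃* Monoid.CoprodI A, H i := range of A i. To prove: `FreeProd H`.
* gen: `Monoid.CoprodI.iSup_range_of` or induction_on.
* univ: actions a i : H i →* Perm W; compose with A i → H i; `Monoid.CoprodI.lift`, then e.
* euler: left cosets gH_i. Length of g := length of the reduced word of g (Monoid.CoprodI.Word, `Word.toList`). Induction on
  |B|; take g in B of maximal length of g⁻¹ (it is convenient to work with the inverse: the left coset g H_i corresponds to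
  the right coset H_i g⁻¹, and left multiplication of a reduced word by a letter is `Word.rcons`/`Word.cons`/`equivPair`):
  let g⁻¹ have head letter in A i (or g = 1: then B = {1} and the sum is m). For j ≠ i and a ∈ A j, a ≠ 1: a g⁻¹ is reduced with
  length + 1, so it is not the inverse of an element of B. Hence g is the only element of B in gH_j, for all j ≠ i, and
  kk (H j) (B.erase g) = kk (H j) B - 1 for the m - 1 indices j ≠ i, kk (H i) (B.erase g) <= kk (H i) B.
  So sum kk(B) >= (m-1)(|B|-1) + 1 + (m-1).  (If g = 1 is the element of maximal length then B = {1}.) -/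

set_option autoImplicit false

namespace H31.BE

open Monoid.CoprodI in
private theorem FPEuler_word_cons {I : Type} [DecidableEq I] {A : I → Type} [∀ i, Group (A i)]
    [∀ i, DecidableEq (A i)] {i : I} (m : A i) (x : Monoid.CoprodI A)
    (hmw : (Word.equiv x).fstIdx ≠ some i) (h1 : m ≠ 1) :
    Word.equiv (of m * x) = Word.cons m (Word.equiv x) hmw h1 := by
  apply Word.equiv.symm.injective
  rw [Equiv.symm_apply_apply]
  show of m * x = Word.prod (Word.cons m (Word.equiv x) hmw h1)
  rw [Word.prod_cons]
  congr 1
  exact (Word.equiv.symm_apply_apply x).symm

private theorem FPEuler_kk_mono {G : Type} [Group G] (H : Subgroup G) {B B' : Finset G} (h : B' ⊆ B) :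
    kk H B' ≤ kk H B := by
  unfold kk
  exact Set.ncard_le_ncard (Set.image_mono (by exact_mod_cast h)) ((B.finite_toSet).image _)

private theorem FPEuler_kk_succ {G : Type} [Group G] [DecidableEq G] (H : Subgroup G) {B : Finset G} {x : G}
    (hx : x ∈ B) (h : ∀ y ∈ B, y ≠ x → ((y : G) : G ⧸ H) ≠ (x : G ⧸ H)) :
    kk H B = kk H (B.erase x) + 1 := by
  unfold kk
  have h1 : ((fun g : G => (g : G ⧸ H)) '' (B : Set G)) =
      insert ((x : G) : G ⧸ H) ((fun g : G => (g : G ⧸ H)) '' ((B.erase x : Finset G) : Set G)) := by
    have h2 : (B : Set G) = insert x ((B.erase x : Finset G) : Set G) := by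
      rw [← Finset.coe_insert, Finset.insert_erase hx]
    rw [h2, Set.image_insert_eq]
  rw [h1]
  refine Set.ncard_insert_of_notMem ?_ (((B.erase x).finite_toSet).image _)
  rintro ⟨y, hy, hyx⟩
  have hy' : y ∈ B.erase x := by exact_mod_cast hy
  rw [Finset.mem_erase] at hy'
  exact h y hy'.2 hy'.1 hyx

theorem freeProd_of_coprodI {G I : Type} [Group G] [Fintype I] [DecidableEq I] (A : I → Type)
    [∀ i, Group (A i)] (e : Monoid.CoprodI A ≃* G) :
    FreeProd (fun i => ((e : Monoid.CoprodI A →* G).comp (Monoid.CoprodI.of (i := i))).range) := by
  classical
  refine ⟨?_, ?_, ?_⟩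
  · -- generation
    rw [← Monoid.CoprodI.range_eq_iSup A (fun i => (e : Monoid.CoprodI A →* G).comp (Monoid.CoprodI.of (i := i)))]
    have hl : Monoid.CoprodI.lift (fun i => (e : Monoid.CoprodI A →* G).comp (Monoid.CoprodI.of (i := i)))
        = (e : Monoid.CoprodI A →* G) := Monoid.CoprodI.lift_comp_of' _
    rw [hl, MonoidHom.range_eq_top]
    exact e.surjective
  · -- universal property
    intro W a
    refine ⟨(Monoid.CoprodI.lift (fun i => (a i).comp
      ((e : Monoid.CoprodI A →* G).comp (Monoid.CoprodI.of (i := i))).rangeRestrict)).comp
        (e.symm : G →* Monoid.CoprodI A), ?_⟩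
    rintro i ⟨h, ⟨t, rfl⟩⟩
    simp only [MonoidHom.comp_apply, MonoidHom.coe_coe, MulEquiv.symm_apply_apply,
      Monoid.CoprodI.lift_of]
    rfl
  · -- Euler inequality
    set K : I → Subgroup G :=
      fun i => ((e : Monoid.CoprodI A →* G).comp (Monoid.CoprodI.of (i := i))).range with hK
    set w : G → Monoid.CoprodI.Word A := fun x => Monoid.CoprodI.Word.equiv (e.symm x⁻¹) with hw
    set ell : G → ℕ := fun x => (w x).toList.length with hell
    have key : ∀ (x y : G) (j : I), (w x).fstIdx ≠ some j → ((y : G) : G ⧸ K j) = (x : G ⧸ K j) →
        y ≠ x → ell y = ell x + 1 := by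
      intro x y j hj hxy hne
      have hmem : y⁻¹ * x ∈ K j := QuotientGroup.eq.1 hxy
      obtain ⟨t, ht⟩ := hmem
      have ht' : e (Monoid.CoprodI.of t) = y⁻¹ * x := ht
      have ht1 : t ≠ 1 := by
        rintro rfl
        rw [map_one, map_one] at ht'
        apply hne
        have := ht'.symm
        rw [inv_mul_eq_one] at this
        exact this
      have hy : e.symm y⁻¹ = Monoid.CoprodI.of t * e.symm x⁻¹ := by
        apply e.injective
        rw [map_mul, ht', MulEquiv.apply_symm_apply, MulEquiv.apply_symm_apply]
        group
      have hwy : w y = Monoid.CoprodI.Word.cons t (w x) hj ht1 := by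
        show Monoid.CoprodI.Word.equiv (e.symm y⁻¹) = _
        rw [hy]
        exact FPEuler_word_cons t (e.symm x⁻¹) hj ht1
      show (w y).toList.length = (w x).toList.length + 1
      rw [hwy]
      rfl
    have main : ∀ n : ℕ, ∀ B : Finset G, B.card = n → B.Nonempty →
        (Fintype.card I - 1 : ℤ) * B.card + 1 ≤ ∑ i, (kk (K i) B : ℤ) := by
      intro n
      induction n with
      | zero =>
        intro B hB hne
        exact absurd (Finset.card_pos.2 hne) (by omega)
      | succ n ih =>
        intro B hB hne
        obtain ⟨x, hx, hmax⟩ := Finset.exists_max_image B ell hne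
        have huniq : ∀ j, (w x).fstIdx ≠ some j → kk (K j) B = kk (K j) (B.erase x) + 1 := by
          intro j hj
          refine FPEuler_kk_succ (K j) hx ?_
          intro y hy hyx hco
          have h1 := key x y j hj hco hyx
          have h2 := hmax y hy
          omega
        have hmono : ∀ j, kk (K j) (B.erase x) ≤ kk (K j) B :=
          fun j => FPEuler_kk_mono (K j) (Finset.erase_subset x B)
        have hcardE : (B.erase x).card = n := by
          rw [Finset.card_erase_of_mem hx, hB]
          rfl
        rcases (B.erase x).eq_empty_or_nonempty with hE | hE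
        · -- singleton
          have hBx : B = {x} := by
            have := Finset.insert_erase hx
            rw [hE] at this
            simpa using this.symm
          have hn0 : n = 0 := by rw [← hcardE, hE]; rfl
          have hone : ∀ j, kk (K j) B = 1 := by
            intro j
            rw [hBx]
            unfold kk
            simp
          simp only [hone, hB, hn0]
          simp
        · have hIH := ih (B.erase x) hcardE hE
          have hsum : ∑ i, (kk (K i) B : ℤ) ≥ ∑ i, (kk (K i) (B.erase x) : ℤ) +
              (Fintype.card I - 1 : ℤ) := by
            rcases hfi : (w x).fstIdx with _ | i0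
            · have : ∀ j, (kk (K j) B : ℤ) = kk (K j) (B.erase x) + 1 := by
                intro j
                have := huniq j (by rw [hfi]; simp)
                exact_mod_cast this
              simp only [this, Finset.sum_add_distrib]
              simp
            · have hle : ∀ j, (kk (K j) (B.erase x) : ℤ) + (1 - if j = i0 then 1 else 0) ≤ kk (K j) B := by
                intro j
                by_cases hji : j = i0
                · rw [if_pos hji]
                  have := hmono j
                  push_cast
                  omega
                · rw [if_neg hji]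
                  have := huniq j (by
                    rw [hfi]
                    intro h
                    exact hji (Option.some_injective _ h).symm)
                  omega
              have h3 := Finset.sum_le_sum (fun j (_ : j ∈ (Finset.univ : Finset I)) => hle j)
              rw [Finset.sum_add_distrib, Finset.sum_sub_distrib] at h3
              simp only [Finset.sum_const, Finset.card_univ, nsmul_eq_mul, mul_one,
                Finset.sum_ite_eq', Finset.mem_univ, if_true] at h3
              linarith
          rw [hcardE] at hIH
          rw [hB]
          push_cast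
          push_cast at hIH
          nlinarith
    intro B hB
    exact main B.card B rfl hB

end H31.BE
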