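import Pool.Agent.H31.BE.FDefs

/-! # NilCen : central elements of infinite order  (module NilCen, ~120 lines)
N l := closure {t i | i < l}, N 0 = 1 finite, N q = A infinite: take l with N l finite and N (l+1) infinite, s := t l. N l is normal: for i < l:
t j t i (t j)⁻¹ = ⁅t j, t i⁆ t i, and the same with (t j)⁻¹ (for j <= i use t j ∈ N l). s is central modulo N l: ⁅t j, s⁆ ∈ N l for all j
(j > l: com; j < l: t j ∈ N l and N l is normal; j = l trivial), hence ⁅g, s⁆ ∈ N l for all g. No power s^m, m >= 1, lies in N l: otherwise N (l+1), generated by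
N l and s, would be finite (contained in the union of N l s^i, i < m). p := card of N l, a := p!: conjugation by s permutes N l, so s^a commutes with
all elements of N l. For g ∈ A: g s g⁻¹ = u s =: y, u ∈ N l; y^a commutes with N l too and y^a = v s^a, v ∈ N l; v commutes with s^a and
y^a, so y^(a p) = v^p s^(a p) = s^(a p). Hence z := s^(a p) is central; z^m ≠ 1 as s^(a p m) ∉ N l.
`hasSeries_of_nilSer`: the sequence z, t 0, ..., t (q-1) (Fin.cons). -/

set_option autoImplicit false

namespace H31.BE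

/-- the subgroup generated by the first `n` generators -/
def NN {A : Type} [Group A] {q : ℕ} (t : Fin q → A) (n : ℕ) : Subgroup A :=
  Subgroup.closure {g | ∃ i : Fin q, i.val < n ∧ g = t i}

theorem NN_mono {A : Type} [Group A] {q : ℕ} (t : Fin q → A) {m n : ℕ} (h : m ≤ n) : NN t m ≤ NN t n := by
  apply Subgroup.closure_mono
  rintro g ⟨i, hi, rfl⟩
  exact ⟨i, by omega, rfl⟩

theorem mem_NN {A : Type} [Group A] {q : ℕ} (t : Fin q → A) {n : ℕ} (i : Fin q) (h : i.val < n) : t i ∈ NN t n :=
  Subgroup.subset_closure ⟨i, h, rfl⟩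

theorem NN_com {A : Type} [Group A] {q : ℕ} {t : Fin q → A} (h : NilSer A q t) (j l : Fin q) (hlj : l < j) :
    t j * t l * (t j)⁻¹ * (t l)⁻¹ ∈ NN t l.val ∧ (t j)⁻¹ * t l * t j * (t l)⁻¹ ∈ NN t l.val :=
  h.com j l hlj

theorem NN_conj {A : Type} [Group A] {q : ℕ} {t : Fin q → A} (h : NilSer A q t) (n : ℕ) (j : Fin q) :
    (∀ x ∈ NN t n, t j * x * (t j)⁻¹ ∈ NN t n) ∧ (∀ x ∈ NN t n, (t j)⁻¹ * x * t j ∈ NN t n) := by
  constructor
  · intro x hx
    have hle : NN t n ≤ (NN t n).comap (MulAut.conj (t j)).toMonoidHom := by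
      refine (Subgroup.closure_le _).2 ?_
      rintro g ⟨i, hi, rfl⟩
      show t j * t i * (t j)⁻¹ ∈ NN t n
      rcases lt_or_ge i j with hij | hij
      · have h1 := NN_mono t hi.le (NN_com h j i hij).1
        have h2 := mul_mem h1 (mem_NN t i hi)
        simpa [mul_assoc] using h2
      · have hj : j.val < n := lt_of_le_of_lt hij hi
        exact mul_mem (mul_mem (mem_NN t j hj) (mem_NN t i hi)) (inv_mem (mem_NN t j hj))
    exact hle hx
  · intro x hx
    have hle : NN t n ≤ (NN t n).comap (MulAut.conj (t j)⁻¹).toMonoidHom := by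
      refine (Subgroup.closure_le _).2 ?_
      rintro g ⟨i, hi, rfl⟩
      show (t j)⁻¹ * t i * ((t j)⁻¹)⁻¹ ∈ NN t n
      rw [inv_inv]
      rcases lt_or_ge i j with hij | hij
      · have h1 := NN_mono t hi.le (NN_com h j i hij).2
        have h2 := mul_mem h1 (mem_NN t i hi)
        simpa [mul_assoc] using h2
      · have hj : j.val < n := lt_of_le_of_lt hij hi
        exact mul_mem (mul_mem (inv_mem (mem_NN t j hj)) (mem_NN t i hi)) (mem_NN t j hj)
    have h3 := hle hx
    have h4 : (t j)⁻¹ * x * ((t j)⁻¹)⁻¹ ∈ NN t n := h3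
    rwa [inv_inv] at h4

theorem NN_normal {A : Type} [Group A] {q : ℕ} {t : Fin q → A} (h : NilSer A q t) (n : ℕ) : (NN t n).Normal := by
  have key : ∀ g : A, (∀ x ∈ NN t n, g * x * g⁻¹ ∈ NN t n) ∧ (∀ x ∈ NN t n, g⁻¹ * x * g ∈ NN t n) := by
    intro g
    have hg : g ∈ Subgroup.closure (Set.range t) := by rw [h.gen]; trivial
    induction hg using Subgroup.closure_induction with
    | mem x hx =>
      obtain ⟨j, rfl⟩ := hx
      exact NN_conj h n j
    | one => simp
    | mul x y _ _ hx hy =>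
      constructor
      · intro z hz
        have := hx.1 _ (hy.1 z hz)
        simpa [mul_assoc] using this
      · intro z hz
        have := hy.2 _ (hx.2 z hz)
        simpa [mul_assoc] using this
    | inv x _ hx =>
      constructor
      · intro z hz
        simpa using hx.2 z hz
      · intro z hz
        simpa using hx.1 z hz
  exact ⟨fun x hx g => (key g).1 x hx⟩

theorem central_inf {A : Type} [Group A] [Infinite A] {q : ℕ} {t : Fin q → A} (h : NilSer A q t) :
    ∃ z : A, (∀ g, z * g = g * z) ∧ ∀ m : ℕ, 1 ≤ m → z ^ m ≠ 1 := by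
  classical
  have hNq : NN t q = ⊤ := by
    rw [eq_top_iff, ← h.gen]
    refine (Subgroup.closure_le _).2 ?_
    rintro g ⟨i, rfl⟩
    exact mem_NN t i i.isLt
  have hN0 : NN t 0 = ⊥ := by
    have : {g : A | ∃ i : Fin q, i.val < 0 ∧ g = t i} = ∅ := by
      ext g; simp
    rw [NN, this, Subgroup.closure_empty]
  have hex : ∃ n, ¬ ((NN t n : Subgroup A) : Set A).Finite := by
    refine ⟨q, ?_⟩
    rw [hNq]
    exact Set.infinite_univ
  obtain ⟨l, hl1, hl2⟩ : ∃ l, ((NN t l : Subgroup A) : Set A).Finite ∧ ¬ ((NN t (l + 1) : Subgroup A) : Set A).Finite := by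
    have h1 := Nat.find_spec hex
    have h0 : Nat.find hex ≠ 0 := by
      intro h0
      rw [h0, hN0] at h1
      exact h1 (by simp)
    refine ⟨Nat.find hex - 1, ?_, ?_⟩
    · by_contra hcon
      exact Nat.find_min hex (m := Nat.find hex - 1) (by omega) hcon
    · rw [Nat.sub_add_cancel (by omega)]
      exact h1
  have hlq : l < q := by
    by_contra hcon
    push Not at hcon
    have h3 : NN t l = ⊤ := by
      rw [eq_top_iff, ← hNq]; exact NN_mono t hcon
    apply hl2
    have h4 : NN t (l + 1) ≤ NN t l := by rw [h3]; exact le_top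
    exact hl1.subset h4
  set s : A := t ⟨l, hlq⟩ with hs
  set N : Subgroup A := NN t l with hN
  have hNn : N.Normal := NN_normal h l
  -- s is central modulo N
  have hcen : ∀ g : A, (g : A ⧸ N) * (s : A ⧸ N) = (s : A ⧸ N) * (g : A ⧸ N) := by
    have hle : Subgroup.closure (Set.range t) ≤
        (Subgroup.centralizer {(s : A ⧸ N)}).comap (QuotientGroup.mk' N) := by
      refine (Subgroup.closure_le _).2 ?_
      rintro g ⟨j, rfl⟩
      show (QuotientGroup.mk' N) (t j) ∈ Subgroup.centralizer {(s : A ⧸ N)}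
      rw [Subgroup.mem_centralizer_singleton_iff]
      show ((t j : A) : A ⧸ N) * (s : A ⧸ N) = (s : A ⧸ N) * ((t j : A) : A ⧸ N)
      have hmem : t j * s * (t j)⁻¹ * s⁻¹ ∈ N := by
        rcases lt_trichotomy j.val l with hj | hj | hj
        · have hjN : t j ∈ N := mem_NN t j hj
          have h5 : s * (t j)⁻¹ * s⁻¹ ∈ N := hNn.conj_mem _ (inv_mem hjN) s
          have h6 := mul_mem hjN h5
          simpa [mul_assoc] using h6
        · have : t j = s := by rw [hs]; congr 1; exact Fin.ext hj
          rw [this]; simp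
        · exact (NN_com h j ⟨l, hlq⟩ hj).1
      have h7 : ((t j * s * (t j)⁻¹ * s⁻¹ : A) : A ⧸ N) = 1 := (QuotientGroup.eq_one_iff _).2 hmem
      rw [QuotientGroup.mk_mul, QuotientGroup.mk_mul, QuotientGroup.mk_mul, QuotientGroup.mk_inv,
        QuotientGroup.mk_inv, mul_inv_eq_one, mul_inv_eq_iff_eq_mul] at h7
      exact h7
    intro g
    have hg : g ∈ Subgroup.closure (Set.range t) := by rw [h.gen]; trivial
    have h8 := hle hg
    rw [Subgroup.mem_comap, Subgroup.mem_centralizer_singleton_iff] at h8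
    exact h8
  -- no power of s in N
  have hpow : ∀ m : ℕ, 1 ≤ m → s ^ m ∉ N := by
    intro m hm hmem
    apply hl2
    have hfo : IsOfFinOrder ((s : A) : A ⧸ N) := by
      rw [isOfFinOrder_iff_pow_eq_one]
      refine ⟨m, hm, ?_⟩
      rw [← QuotientGroup.mk_pow]
      exact (QuotientGroup.eq_one_iff _).2 hmem
    have hz : ((Subgroup.zpowers ((s : A) : A ⧸ N) : Subgroup (A ⧸ N)) : Set (A ⧸ N)).Finite := finite_zpowers.2 hfo
    have hpre : ((QuotientGroup.mk : A → A ⧸ N) ⁻¹' (Subgroup.zpowers ((s : A) : A ⧸ N) : Set (A ⧸ N))).Finite := by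
      refine hz.preimage' ?_
      intro b _
      obtain ⟨b0, rfl⟩ := QuotientGroup.mk_surjective b
      have : (QuotientGroup.mk : A → A ⧸ N) ⁻¹' {(b0 : A ⧸ N)} ⊆ (fun x => b0 * x) '' (N : Set A) := by
        intro x hx
        have hx' : (x : A ⧸ N) = (b0 : A ⧸ N) := hx
        refine ⟨b0⁻¹ * x, ?_, by simp⟩
        exact QuotientGroup.eq.1 hx'.symm
      exact (hl1.image _).subset this
    refine hpre.subset ?_
    have hle : NN t (l + 1) ≤ (Subgroup.zpowers ((s : A) : A ⧸ N)).comap (QuotientGroup.mk' N) := by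
      refine (Subgroup.closure_le _).2 ?_
      rintro g ⟨i, hi, rfl⟩
      show ((t i : A) : A ⧸ N) ∈ Subgroup.zpowers ((s : A) : A ⧸ N)
      rcases Nat.lt_or_ge i.val l with hil | hil
      · have : ((t i : A) : A ⧸ N) = 1 := (QuotientGroup.eq_one_iff _).2 (mem_NN t i hil)
        rw [this]; exact one_mem _
      · have : t i = s := by rw [hs]; congr 1; apply Fin.ext; simp; omega
        rw [this]; exact Subgroup.mem_zpowers _
    exact hle
  have : Finite N := hl1
  set a := Nat.card (MulAut N) with ha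
  set p := Nat.card N with hp
  have ha0 : 0 < a := Nat.card_pos
  have hp0 : 0 < p := Nat.card_pos
  have hcomm : ∀ y : A, ∀ x ∈ N, y ^ a * x = x * y ^ a := by
    intro y x hx
    have h1 : (MulAut.conjNormal y : MulAut N) ^ a = 1 := pow_card_eq_one'
    rw [← map_pow] at h1
    have h2 : ((MulAut.conjNormal (y ^ a) : MulAut N) ⟨x, hx⟩ : A) = x := by rw [h1]; rfl
    rw [MulAut.conjNormal_apply] at h2
    exact (mul_inv_eq_iff_eq_mul.1 h2)
  refine ⟨s ^ (a * p), ?_, ?_⟩
  · intro g
    set y := g * s * g⁻¹ with hy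
    have hmk : (y : A ⧸ N) = (s : A ⧸ N) := by
      rw [hy, QuotientGroup.mk_mul, QuotientGroup.mk_mul, hcen g, QuotientGroup.mk_inv]
      simp
    have hv : y ^ a * (s ^ a)⁻¹ ∈ N := by
      rw [← QuotientGroup.eq_one_iff, QuotientGroup.mk_mul, QuotientGroup.mk_inv, QuotientGroup.mk_pow,
        QuotientGroup.mk_pow, hmk]
      simp
    set v := y ^ a * (s ^ a)⁻¹ with hvd
    have hya : y ^ a = v * s ^ a := by rw [hvd]; simp
    have hvp : v ^ p = 1 := by
      have : (⟨v, hv⟩ : N) ^ p = 1 := pow_card_eq_one'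
      simpa using congrArg Subtype.val this
    have hyp : y ^ (a * p) = s ^ (a * p) := by
      rw [pow_mul, hya, (show Commute v (s ^ a) from (hcomm s v hv).symm).mul_pow, hvp, one_mul, ← pow_mul]
    have hconj : g * s ^ (a * p) * g⁻¹ = s ^ (a * p) := by
      have h9 := hyp
      rw [hy, conj_pow] at h9
      exact h9
    have := mul_inv_eq_iff_eq_mul.1 hconj
    exact this.symm
  · intro m hm h1
    rw [← pow_mul] at h1
    refine hpow (a * p * m) (Nat.mul_pos (Nat.mul_pos ha0 hp0) hm) ?_
    rw [h1]; exact one_mem _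

theorem hasSeries_of_nilSer {A : Type} [Group A] [Infinite A] {q : ℕ} {t : Fin q → A} (h : NilSer A q t) :
    HasSeries A := by
  obtain ⟨z, hz, hzp⟩ := central_inf h
  refine ⟨q, Fin.cons z t, ?_, ?_, ?_⟩
  · rw [eq_top_iff, ← h.gen]
    apply Subgroup.closure_mono
    rintro g ⟨i, rfl⟩
    exact ⟨i.succ, by simp⟩
  · intro m hm
    simpa using hzp m hm
  · intro j l hlj
    have hj0 : j ≠ 0 := by
      rintro rfl
      exact absurd hlj (by simp)
    obtain ⟨j', rfl⟩ := Fin.exists_succ_eq.2 hj0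
    by_cases hl0 : l = 0
    · subst hl0
      have h1 : (Fin.cons z t : Fin (q + 1) → A) j'.succ * (Fin.cons z t : Fin (q + 1) → A) 0 *
          ((Fin.cons z t : Fin (q + 1) → A) j'.succ)⁻¹ = (Fin.cons z t : Fin (q + 1) → A) 0 := by
        simp only [Fin.cons_zero, Fin.cons_succ]
        rw [← hz (t j')]; simp
      rw [h1]
      exact Subgroup.subset_closure ⟨0, hlj, rfl⟩
    · obtain ⟨l', rfl⟩ := Fin.exists_succ_eq.2 hl0
      have hlj' : l' < j' := Fin.succ_lt_succ_iff.1 hlj
      have h2 := (h.com j' l' hlj').1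
      have hle : Subgroup.closure {g | ∃ i, i < l' ∧ g = t i} ≤
          Subgroup.closure {g | ∃ i, i < j'.succ ∧ g = (Fin.cons z t : Fin (q + 1) → A) i} := by
        apply Subgroup.closure_mono
        rintro g ⟨i, hi, rfl⟩
        exact ⟨i.succ, Fin.succ_lt_succ_iff.2 (hi.trans hlj'), by simp⟩
      have h3 := hle h2
      have h4 : t l' ∈ Subgroup.closure {g | ∃ i, i < j'.succ ∧ g = (Fin.cons z t : Fin (q + 1) → A) i} :=
        Subgroup.subset_closure ⟨l'.succ, hlj, by simp⟩
      have h5 := mul_mem h3 h4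
      simpa [mul_assoc] using h5

end H31.BE
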