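import Pool.Agent.H31.BE.FDefs

/-! # NilEx : a finitely generated nilpotent group has a nilpotent series of generators  (module NilEx, ~130 lines)
S finite generating set, closed under inverses. T 0 := S, T (w+1) := {⁅s, x⁆ | s ∈ S, x ∈ T w} (finite sets). T w ⊆ lowerCentralSeries A w
(⁅s, x⁆ = ⁅x, s⁆⁻¹), so T c = {1} or empty for c large. M w := closure of the union of the T v, v >= w (v <= c is enough).
(a) M w is normal: for s ∈ S, x ∈ T v: s x s⁻¹ = ⁅s, x⁆ x ∈ M w, and S = S⁻¹ generates A (normaliser contains S, `Subgroup.closure_induction`).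
(b) for x ∈ T v, v >= w, and every g ∈ A: ⁅g, x⁆ ∈ M (v+1): the set of g with ⁅g, x⁆ ∈ M (v+1), i.e. g commutes with x modulo the normal subgroup
 M (v+1), is a subgroup containing S. List the elements of T c, T (c-1), ..., T 0 in this order: t. For l < j, t l ∈ T v: ⁅t j, t l⁆ ∈ M (v+1), which is
 generated by elements standing before the block of T v, hence by the t i, i < l. (In Lean: build the list by recursion on the block;
 `List.ofFn`/`List.get`; a predicate on lists `good l := ∀ prefix decomposition l = p ++ x :: r, ∀ g, ⁅g, x⁆ ∈ closure {y | y ∈ p}` is convenient: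
 good is preserved by appending the elements of the next block.) -/

set_option autoImplicit false

namespace H31.BE

section NilExAux

open scoped commutatorElement

variable {A : Type} [Group A]

private def nlT (s : List A) : ℕ → List A
  | 0 => s
  | n + 1 => (s.product (nlT s n)).map (fun p => ⁅p.1, p.2⁆)

private def nlM (s : List A) (w : ℕ) : Subgroup A :=
  Subgroup.closure {y | ∃ v, w ≤ v ∧ y ∈ nlT s v}

private theorem nlT_succ {s : List A} {n : ℕ} {a x : A} (ha : a ∈ s) (hx : x ∈ nlT s n) :
    ⁅a, x⁆ ∈ nlT s (n + 1) := by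
  show ⁅a, x⁆ ∈ (s.product (nlT s n)).map (fun p => ⁅p.1, p.2⁆)
  rw [List.mem_map]
  exact ⟨(a, x), List.mem_product.2 ⟨ha, hx⟩, rfl⟩

private theorem nlT_lcs {s : List A} (v : ℕ) : ∀ y ∈ nlT s v,
    y ∈ Subgroup.lowerCentralSeries (⊤ : Subgroup A) v := by
  induction v with
  | zero => intro y _; exact Subgroup.mem_top y
  | succ n ih =>
    intro y hy
    change y ∈ (s.product (nlT s n)).map (fun p => ⁅p.1, p.2⁆) at hy
    rw [List.mem_map] at hy
    obtain ⟨p, hp, rfl⟩ := hy
    have hp2 := (List.mem_product.1 (show (p.1, p.2) ∈ s.product (nlT s n) from hp)).2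
    rw [Subgroup.lowerCentralSeries_succ, Subgroup.commutator_comm]
    exact Subgroup.commutator_mem_commutator (Subgroup.mem_top _) (ih _ hp2)

private theorem nlM_mem {s : List A} {w v : ℕ} (h : w ≤ v) {y : A} (hy : y ∈ nlT s v) :
    y ∈ nlM s w := Subgroup.subset_closure ⟨v, h, hy⟩

private theorem nlM_anti {s : List A} {w v : ℕ} (h : w ≤ v) : nlM s v ≤ nlM s w := by
  apply Subgroup.closure_mono
  rintro y ⟨u, hu, hy⟩
  exact ⟨u, h.trans hu, hy⟩

private theorem nlM_conj {s : List A} {w : ℕ} {a : A} (ha : a ∈ s) :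
    ∀ n ∈ nlM s w, a * n * a⁻¹ ∈ nlM s w := by
  intro n hn
  unfold nlM at hn
  induction hn using Subgroup.closure_induction with
  | mem x hx =>
    obtain ⟨v, hv, hx⟩ := hx
    have h1 : ⁅a, x⁆ ∈ nlM s w := nlM_mem (hv.trans (Nat.le_succ v)) (nlT_succ ha hx)
    have h2 : x ∈ nlM s w := nlM_mem hv hx
    have h3 : a * x * a⁻¹ = ⁅a, x⁆ * x := by rw [commutatorElement_def]; group
    rw [h3]; exact mul_mem h1 h2
  | one => simp
  | mul x y _ _ hx hy =>
    have h3 : a * (x * y) * a⁻¹ = (a * x * a⁻¹) * (a * y * a⁻¹) := by group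
    rw [h3]; exact mul_mem hx hy
  | inv x _ hx =>
    have h3 : a * x⁻¹ * a⁻¹ = (a * x * a⁻¹)⁻¹ := by group
    rw [h3]; exact inv_mem hx

private theorem nlM_normal {s : List A} (hs : Subgroup.closure {y | y ∈ s} = ⊤)
    (hinv : ∀ a ∈ s, a⁻¹ ∈ s) (w : ℕ) : (nlM s w).Normal := by
  have key : ∀ g : A, (∀ n ∈ nlM s w, g * n * g⁻¹ ∈ nlM s w) ∧
      (∀ n ∈ nlM s w, g⁻¹ * n * g ∈ nlM s w) := by
    intro g
    have hg : g ∈ Subgroup.closure {y | y ∈ s} := by rw [hs]; exact Subgroup.mem_top g
    induction hg using Subgroup.closure_induction with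
    | mem x hx =>
      refine ⟨nlM_conj hx, fun n hn => ?_⟩
      have := nlM_conj (hinv x hx) n hn
      rwa [inv_inv] at this
    | one => simp
    | mul x y _ _ hx hy =>
      constructor
      · intro n hn
        have h3 : (x * y) * n * (x * y)⁻¹ = x * (y * n * y⁻¹) * x⁻¹ := by group
        rw [h3]; exact hx.1 _ (hy.1 _ hn)
      · intro n hn
        have h3 : (x * y)⁻¹ * n * (x * y) = y⁻¹ * (x⁻¹ * n * x) * y := by group
        rw [h3]; exact hy.2 _ (hx.2 _ hn)
    | inv x _ hx =>
      refine ⟨fun n hn => ?_, fun n hn => ?_⟩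
      · rw [inv_inv]; exact hx.2 n hn
      · rw [inv_inv]; exact hx.1 n hn
  exact ⟨fun n hn g => (key g).1 n hn⟩

private theorem nl_comm {s : List A} (hs : Subgroup.closure {y | y ∈ s} = ⊤)
    (hinv : ∀ a ∈ s, a⁻¹ ∈ s) {v : ℕ} {x : A} (hx : x ∈ nlT s v) (g : A) :
    g * x * g⁻¹ * x⁻¹ ∈ nlM s (v + 1) := by
  have hN := nlM_normal hs hinv (v + 1)
  have hg : g ∈ Subgroup.closure {y | y ∈ s} := by rw [hs]; exact Subgroup.mem_top g
  induction hg using Subgroup.closure_induction with
  | mem a ha =>
    have := nlM_mem (le_refl (v + 1)) (nlT_succ (s := s) ha hx)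
    rwa [commutatorElement_def] at this
  | one => simp
  | mul a b _ _ ha hb =>
    have h3 : (a * b) * x * (a * b)⁻¹ * x⁻¹ = (a * (b * x * b⁻¹ * x⁻¹) * a⁻¹) * (a * x * a⁻¹ * x⁻¹) := by
      group
    rw [h3]
    exact mul_mem (hN.conj_mem _ hb a) ha
  | inv a _ ha =>
    have h3 : a⁻¹ * x * a⁻¹⁻¹ * x⁻¹ = a⁻¹ * (a * x * a⁻¹ * x⁻¹)⁻¹ * a⁻¹⁻¹ := by group
    rw [h3]
    exact hN.conj_mem _ (inv_mem ha) a⁻¹

private theorem nl_list {s : List A} (hs : Subgroup.closure {y | y ∈ s} = ⊤)
    (hinv : ∀ a ∈ s, a⁻¹ ∈ s) {c : ℕ} (hc : Subgroup.lowerCentralSeries (⊤ : Subgroup A) c = ⊥) :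
    ∀ k w : ℕ, w + k = c → ∃ l : List A, Subgroup.closure {y | y ∈ l} = nlM s w ∧
      ∀ (p r : List A) (x : A), l = p ++ x :: r → ∀ g : A,
        g * x * g⁻¹ * x⁻¹ ∈ Subgroup.closure {y | y ∈ p} := by
  intro k
  induction k with
  | zero =>
    intro w hw
    have hw' : w = c := by omega
    subst hw'
    refine ⟨[], ?_, ?_⟩
    · have h1 : nlM s w = ⊥ := by
        unfold nlM
        rw [Subgroup.closure_eq_bot_iff]
        rintro y ⟨v, hv, hy⟩
        have h2 := nlT_lcs v y hy
        have h3 := Subgroup.lowerCentralSeries_antitone (S := (⊤ : Subgroup A)) hv h2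
        rw [hc, Subgroup.mem_bot] at h3
        exact h3
      rw [h1]
      simp
    · intro p r x h
      simp at h
  | succ k ih =>
    intro w hw
    obtain ⟨l, hl, hgood⟩ := ih (w + 1) (by omega)
    refine ⟨l ++ nlT s w, ?_, ?_⟩
    · apply le_antisymm
      · rw [Subgroup.closure_le]
        intro y hy
        rcases List.mem_append.1 hy with hy | hy
        · have : y ∈ Subgroup.closure {y | y ∈ l} := Subgroup.subset_closure hy
          rw [hl] at this
          exact nlM_anti (Nat.le_succ w) this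
        · exact nlM_mem le_rfl hy
      · unfold nlM
        rw [Subgroup.closure_le]
        rintro y ⟨v, hv, hy⟩
        rcases hv.eq_or_lt with h | h
        · subst h
          exact Subgroup.subset_closure (List.mem_append.2 (Or.inr hy))
        · have h1 : y ∈ nlM s (w + 1) := nlM_mem h hy
          rw [← hl] at h1
          exact Subgroup.closure_mono (fun z hz => List.mem_append.2 (Or.inl hz)) h1
    · intro p r x hdec g
      rcases List.append_eq_append_iff.1 hdec with ⟨a', h1, h2⟩ | ⟨c', h1, h2⟩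
      · -- p = l ++ a'
        have hx : x ∈ nlT s w := by rw [h2]; simp
        have h3 := nl_comm hs hinv hx g
        rw [← hl] at h3
        refine Subgroup.closure_mono (fun z hz => ?_) h3
        show z ∈ p
        rw [h1]; exact List.mem_append.2 (Or.inl hz)
      · -- l = p ++ c'
        cases c' with
        | nil =>
          rw [List.nil_append] at h2
          rw [List.append_nil] at h1
          have hx : x ∈ nlT s w := by rw [← h2]; simp
          have h3 := nl_comm hs hinv hx g
          rw [← hl, h1] at h3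
          exact h3
        | cons z zs =>
          rw [List.cons_append] at h2
          injection h2 with h3 h4
          subst h3
          exact hgood p zs x h1 g

end NilExAux

theorem nilSer_ex (A : Type) [Group A] [Group.FG A] [Group.IsNilpotent A] : ∃ (q : ℕ) (t : Fin q → A), NilSer A q t := by
  classical
  obtain ⟨S0, hS0, hfin⟩ := Group.fg_iff.1 (inferInstance : Group.FG A)
  obtain ⟨c, hc⟩ := Subgroup.nilpotent_iff_lowerCentralSeries.1 (inferInstance : Group.IsNilpotent A)
  let F := hfin.toFinset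
  let s : List A := F.toList ++ F.toList.map (fun x => x⁻¹)
  have hs : Subgroup.closure {y | y ∈ s} = ⊤ := by
    rw [← top_le_iff, ← hS0]
    apply Subgroup.closure_mono
    intro y hy
    show y ∈ F.toList ++ F.toList.map (fun x => x⁻¹)
    refine List.mem_append.2 (Or.inl ?_)
    rw [Finset.mem_toList]
    exact hfin.mem_toFinset.2 hy
  have hinv : ∀ a ∈ s, a⁻¹ ∈ s := by
    intro a ha
    rcases List.mem_append.1 ha with h | h
    · exact List.mem_append.2 (Or.inr (List.mem_map.2 ⟨a, h, rfl⟩))
    · obtain ⟨b, hb, rfl⟩ := List.mem_map.1 h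
      refine List.mem_append.2 (Or.inl ?_)
      rw [inv_inv]; exact hb
  obtain ⟨l, hl, hgood⟩ := nl_list hs hinv hc c 0 (by omega)
  refine ⟨l.length, fun i => l.get i, ?_, ?_⟩
  · have h1 : Set.range (fun i : Fin l.length => l.get i) = {y | y ∈ l} := by
      ext y
      simp only [Set.mem_range, Set.mem_ofPred_eq]
      exact List.mem_iff_get.symm
    rw [h1, hl, ← top_le_iff, ← hs, Subgroup.closure_le]
    intro y hy
    have hy' : y ∈ nlT s 0 := hy
    exact nlM_mem le_rfl hy'
  · intro j i hij
    have hdec : l = l.take i ++ l.get i :: l.drop (i + 1) := by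
      conv_lhs => rw [← List.take_append_drop (i : ℕ) l]
      rw [List.drop_eq_getElem_cons i.isLt]
      rfl
    have hsub : Subgroup.closure {y | y ∈ l.take i} ≤
        Subgroup.closure {g | ∃ i', i' < i ∧ g = l.get i'} := by
      apply Subgroup.closure_mono
      intro y hy
      obtain ⟨k, hk, hky⟩ := List.mem_take_iff_getElem.1 hy
      refine ⟨⟨k, by omega⟩, ?_, ?_⟩
      · show k < (i : ℕ); omega
      · rw [← hky]; rfl
    refine ⟨hsub (hgood _ _ _ hdec _), ?_⟩
    have := hsub (hgood _ _ _ hdec (l.get j)⁻¹)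
    rwa [inv_inv] at this

end H31.BE
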