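import Pool.Agent.H31.BE.FDefs

/-! # NilGrow : polynomial growth  (module NilGrow, ~200 lines)
W j n := {g | g is a product of at most n factors from {t i, (t i)⁻¹ | i < j}} (Set A). Closed under: W j n * W j m ⊆ W j (n+m), inverses.
(1) Fix j, s := t j. For all l <= j there are C, d with: s^a x s^(-a) ∈ W l (C n^d) for all n >= 1, integers |a| <= n, x = (t i)^(±1), i < l.
 Induction on l. Step: x = t l: for a >= 0: s t_l s⁻¹ = u t_l with u = ⁅s, t_l⁆ ∈ closure {t i | i < l}, so u is a product of |u| letters, and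
 s^a t_l s^(-a) = (s^(a-1) u s^(-(a-1))) ⋯ (s u s⁻¹) u t_l, at most n |u| C n^d + 1 letters. For a < 0 the same with ⁅s⁻¹, t_l⁆. Inverses: invert.
(2) g ∈ W (j+1) n: g = h * s^a with |a| <= n and h ∈ W j (n C n^d): write the word, move all letters s^(±1) to the right:
 g = ∏ (s^(b_i) x_i s^(-b_i)) * s^a, x_i the letters with index < j, b_i = exponent sums, |b_i| <= n. So |W (j+1) n| <= (2n+1) |W j (C n^(d+1))|.
(3) by induction |W q n| <= C n^d (W 0 n = {1}). K ⊆ W q m for some m >= 1 (generation), K^n ⊆ W q (m n). -/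

set_option autoImplicit false

namespace H31.BE

open scoped Pointwise

section

variable {A : Type} [Group A] {q : ℕ} (t : Fin q → A)

/-- letters of index less than `j` -/
private def NLt (j : ℕ) (x : A) : Prop := ∃ i : Fin q, i.val < j ∧ (x = t i ∨ x = (t i)⁻¹)

/-- products of at most `n` letters of index less than `j` -/
private def NW (j n : ℕ) : Set A :=
  {g | ∃ w : List A, (∀ x ∈ w, NLt t j x) ∧ w.length ≤ n ∧ w.prod = g}

variable {t}

private theorem NW_one (j n : ℕ) : (1 : A) ∈ NW t j n :=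
  ⟨[], by simp, by simp, by simp⟩

private theorem NW_mul {j n m : ℕ} {g h : A} (hg : g ∈ NW t j n) (hh : h ∈ NW t j m) :
    g * h ∈ NW t j (n + m) := by
  obtain ⟨w, h1, h2, h3⟩ := hg
  obtain ⟨v, k1, k2, k3⟩ := hh
  refine ⟨w ++ v, ?_, ?_, ?_⟩
  · intro x hx
    rcases List.mem_append.1 hx with hx | hx
    · exact h1 x hx
    · exact k1 x hx
  · rw [List.length_append]
    omega
  · rw [List.prod_append, h3, k3]

private theorem NLt_inv {j : ℕ} {x : A} (hx : NLt t j x) : NLt t j x⁻¹ := by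
  obtain ⟨i, hi, rfl | rfl⟩ := hx
  · exact ⟨i, hi, Or.inr rfl⟩
  · exact ⟨i, hi, Or.inl (inv_inv _)⟩

private theorem NW_letter {j : ℕ} {x : A} (hx : NLt t j x) : x ∈ NW t j 1 :=
  ⟨[x], by simpa using hx, by simp, by simp⟩

private theorem NW_inv {j n : ℕ} {g : A} (hg : g ∈ NW t j n) : g⁻¹ ∈ NW t j n := by
  obtain ⟨w, h1, h2, rfl⟩ := hg
  refine ⟨(w.map fun x => x⁻¹).reverse, ?_, ?_, ?_⟩
  · intro x hx
    rw [List.mem_reverse, List.mem_map] at hx
    obtain ⟨y, hy, rfl⟩ := hx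
    exact NLt_inv (h1 y hy)
  · simpa using h2
  · rw [List.prod_inv_reverse]

private theorem NW_mono {j j' n n' : ℕ} (hj : j ≤ j') (hn : n ≤ n') : NW t j n ⊆ NW t j' n' := by
  rintro g ⟨w, h1, h2, h3⟩
  refine ⟨w, fun x hx => ?_, h2.trans hn, h3⟩
  obtain ⟨i, hi, hx⟩ := h1 x hx
  exact ⟨i, lt_of_lt_of_le hi hj, hx⟩

private theorem NW_closure {j : ℕ} {g : A}
    (hg : g ∈ Subgroup.closure {g | ∃ i : Fin q, i.val < j ∧ g = t i}) : ∃ n, g ∈ NW t j n := by
  induction hg using Subgroup.closure_induction with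
  | mem x hx =>
    obtain ⟨i, hi, rfl⟩ := hx
    exact ⟨1, NW_letter ⟨i, hi, Or.inl rfl⟩⟩
  | one => exact ⟨0, NW_one _ _⟩
  | mul a b _ _ iha ihb =>
    obtain ⟨n, hn⟩ := iha
    obtain ⟨m, hm⟩ := ihb
    exact ⟨n + m, NW_mul hn hm⟩
  | inv a _ iha =>
    obtain ⟨n, hn⟩ := iha
    exact ⟨n, NW_inv hn⟩

private theorem NW_conj {l B : ℕ} {c : A} (hc : ∀ i : Fin q, i.val < l → c * t i * c⁻¹ ∈ NW t l B)
    {x : A} (hx : NLt t l x) : c * x * c⁻¹ ∈ NW t l B := by
  obtain ⟨i, hi, rfl | rfl⟩ := hx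
  · exact hc i hi
  · have h1 := NW_inv (hc i hi)
    have h2 : (c * t i * c⁻¹)⁻¹ = c * (t i)⁻¹ * c⁻¹ := by group
    rwa [h2] at h1

private theorem NW_conj_word {l B : ℕ} {c : A}
    (hc : ∀ i : Fin q, i.val < l → c * t i * c⁻¹ ∈ NW t l B) (w : List A)
    (hw : ∀ x ∈ w, NLt t l x) : c * w.prod * c⁻¹ ∈ NW t l (w.length * B) := by
  induction w with
  | nil =>
    have : c * ([] : List A).prod * c⁻¹ = 1 := by simp
    rw [this]
    exact NW_one _ _
  | cons x w ih =>
    have h1 := NW_conj hc (hw x List.mem_cons_self)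
    have h2 := ih (fun y hy => hw y (List.mem_cons_of_mem _ hy))
    have h3 : c * (x :: w).prod * c⁻¹ = (c * x * c⁻¹) * (c * w.prod * c⁻¹) := by
      rw [List.prod_cons]
      group
    rw [h3]
    refine NW_mono le_rfl ?_ (NW_mul h1 h2)
    rw [List.length_cons, Nat.add_mul]
    omega

private theorem NW_conj_mem {l B m : ℕ} {c g : A}
    (hc : ∀ i : Fin q, i.val < l → c * t i * c⁻¹ ∈ NW t l B) (hg : g ∈ NW t l m) :
    c * g * c⁻¹ ∈ NW t l (m * B) := by
  obtain ⟨w, h1, h2, rfl⟩ := hg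
  exact NW_mono le_rfl (Nat.mul_le_mul_right _ h2) (NW_conj_word hc w h1)

private theorem conj_grow (s : A) (j : ℕ) (hj : j ≤ q)
    (hs : ∀ l : Fin q, l.val < j →
      s * t l * s⁻¹ * (t l)⁻¹ ∈ Subgroup.closure {g | ∃ i : Fin q, i < l ∧ g = t i}) :
    ∀ l ≤ j, ∃ C d : ℕ, ∀ n, 1 ≤ n → ∀ a ≤ n, ∀ i : Fin q, i.val < l →
      s ^ a * t i * (s ^ a)⁻¹ ∈ NW t l (C * n ^ d) := by
  intro l
  induction l with
  | zero =>
    intro _
    exact ⟨0, 0, fun n _ a _ i hi => absurd hi (Nat.not_lt_zero _)⟩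
  | succ l ih =>
    intro hl
    obtain ⟨C, d, hC⟩ := ih (by omega)
    obtain ⟨m, hm⟩ : ∃ m, s * t ⟨l, by omega⟩ * s⁻¹ * (t ⟨l, by omega⟩)⁻¹ ∈ NW t l m := by
      apply NW_closure
      exact hs ⟨l, by omega⟩ (by simpa using hl)
    set x := t ⟨l, by omega⟩ with hx
    set u := s * x * s⁻¹ * x⁻¹ with hu
    refine ⟨m * C + C + 1, d + 1, fun n hn a ha i hi => ?_⟩
    have hnd : 1 ≤ n ^ d := Nat.one_le_pow _ _ hn
    have hpow : n ^ d ≤ n ^ (d + 1) := Nat.pow_le_pow_right hn (Nat.le_succ d)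
    by_cases hil : i.val < l
    · refine NW_mono (Nat.le_succ l) ?_ (hC n hn a ha i hil)
      calc C * n ^ d ≤ C * n ^ (d + 1) := Nat.mul_le_mul_left _ hpow
        _ ≤ (m * C + C + 1) * n ^ (d + 1) := Nat.mul_le_mul_right _ (by omega)
    · have hix : t i = x := by
        rw [hx]
        congr 1
        apply Fin.ext
        simp only
        omega
      rw [hix]
      have claim : ∀ a ≤ n, ∃ P ∈ NW t l (a * (m * (C * n ^ d))),
          s ^ a * x * (s ^ a)⁻¹ = P * x := by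
        intro a
        induction a with
        | zero =>
          intro _
          exact ⟨1, NW_one _ _, by simp⟩
        | succ a iha =>
          intro ha
          obtain ⟨P, hP, hPe⟩ := iha (by omega)
          have h1 := NW_conj_mem (hC n hn a (by omega)) hm
          refine ⟨(s ^ a * u * (s ^ a)⁻¹) * P, ?_, ?_⟩
          · refine NW_mono le_rfl ?_ (NW_mul h1 hP)
            rw [Nat.add_mul]
            omega
          · rw [mul_assoc _ P x, ← hPe, hu, pow_succ]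
            group
      obtain ⟨P, hP, hPe⟩ := claim a ha
      rw [hPe]
      have h2 : x ∈ NW t (l + 1) 1 := NW_letter ⟨⟨l, by omega⟩, by simp, Or.inl rfl⟩
      refine NW_mono le_rfl ?_ (NW_mul (NW_mono (Nat.le_succ l) le_rfl hP) h2)
      have h3 : a * (m * (C * n ^ d)) ≤ n * (m * (C * n ^ d)) := Nat.mul_le_mul_right _ ha
      have h4 : n * (m * (C * n ^ d)) = m * C * n ^ (d + 1) := by ring
      have h5 : (m * C + C + 1) * n ^ (d + 1) =
          m * C * n ^ (d + 1) + C * n ^ (d + 1) + n ^ (d + 1) := by ring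
      have h6 : 0 ≤ C * n ^ (d + 1) := Nat.zero_le _
      omega

private theorem conj_grow_int (s : A) (j : ℕ) (hj : j ≤ q)
    (hs : ∀ l : Fin q, l.val < j →
      s * t l * s⁻¹ * (t l)⁻¹ ∈ Subgroup.closure {g | ∃ i : Fin q, i < l ∧ g = t i} ∧
      s⁻¹ * t l * s * (t l)⁻¹ ∈ Subgroup.closure {g | ∃ i : Fin q, i < l ∧ g = t i}) :
    ∃ C d : ℕ, ∀ n : ℕ, 1 ≤ n → ∀ a : ℤ, |a| ≤ n → ∀ i : Fin q, i.val < j →
      s ^ a * t i * (s ^ a)⁻¹ ∈ NW t j (C * n ^ d) := by
  obtain ⟨C1, d1, h1⟩ := conj_grow (t := t) s j hj (fun l hl => (hs l hl).1) j le_rfl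
  obtain ⟨C2, d2, h2⟩ := conj_grow (t := t) s⁻¹ j hj (fun l hl => by
    rw [inv_inv]; exact (hs l hl).2) j le_rfl
  refine ⟨C1 + C2, d1 + d2, fun n hn a ha i hi => ?_⟩
  rw [Int.abs_eq_natAbs] at ha
  have e1 : n ^ d1 ≤ n ^ (d1 + d2) := Nat.pow_le_pow_right hn (Nat.le_add_right _ _)
  have e2 : n ^ d2 ≤ n ^ (d1 + d2) := Nat.pow_le_pow_right hn (Nat.le_add_left _ _)
  rcases Int.natAbs_eq a with hk | hk
  · have hk' : a.natAbs ≤ n := by omega
    have h3 := h1 n hn a.natAbs hk' i hi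
    rw [hk, zpow_natCast]
    refine NW_mono le_rfl ?_ h3
    exact Nat.mul_le_mul (Nat.le_add_right _ _) e1
  · have hk' : a.natAbs ≤ n := by omega
    have h3 := h2 n hn a.natAbs hk' i hi
    rw [hk, zpow_neg, zpow_natCast, ← inv_pow]
    refine NW_mono le_rfl ?_ h3
    exact Nat.mul_le_mul (Nat.le_add_left _ _) e2

private theorem NW_split {j B n : ℕ} (hj : j < q)
    (hB : ∀ a : ℤ, |a| ≤ n → ∀ i : Fin q, i.val < j →
      (t ⟨j, hj⟩) ^ a * t i * ((t ⟨j, hj⟩) ^ a)⁻¹ ∈ NW t j B) (w : List A) :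
    (∀ x ∈ w, NLt t (j + 1) x) → w.length ≤ n →
    ∃ a : ℤ, |a| ≤ w.length ∧ ∃ h ∈ NW t j (w.length * B), w.prod = h * (t ⟨j, hj⟩) ^ a := by
  induction w using List.reverseRecOn with
  | nil =>
    intro _ _
    exact ⟨0, by simp, 1, NW_one _ _, by simp⟩
  | append_singleton w x ih =>
    intro hw hn
    rw [List.length_append, List.length_singleton] at hn
    obtain ⟨a, ha, h, hh, he⟩ := ih (fun y hy => hw y (List.mem_append_left _ hy)) (by omega)
    rw [List.length_append, List.length_singleton, List.prod_append, List.prod_singleton, he]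
    obtain ⟨i, hi, hx⟩ := hw x (by simp)
    by_cases hij : i.val < j
    · have h1 := NW_conj (hB a (ha.trans (by exact_mod_cast (by omega : w.length ≤ n))))
        (x := x) ⟨i, hij, hx⟩
      refine ⟨a, ha.trans (by push_cast; omega), h * (t ⟨j, hj⟩ ^ a * x * (t ⟨j, hj⟩ ^ a)⁻¹),
        ?_, by group⟩
      refine NW_mono le_rfl ?_ (NW_mul hh h1)
      rw [Nat.add_mul]
      omega
    · have hie : i = ⟨j, hj⟩ := by
        apply Fin.ext
        simp only
        omega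
      subst hie
      rcases hx with hx | hx
      · refine ⟨a + 1, ?_, h, NW_mono le_rfl (Nat.mul_le_mul_right _ (Nat.le_succ _)) hh, ?_⟩
        · rw [abs_le] at ha ⊢
          push_cast
          omega
        · rw [hx, zpow_add_one, mul_assoc]
      · refine ⟨a - 1, ?_, h, NW_mono le_rfl (Nat.mul_le_mul_right _ (Nat.le_succ _)) hh, ?_⟩
        · rw [abs_le] at ha ⊢
          push_cast
          omega
        · rw [hx, zpow_sub_one, mul_assoc]

private theorem NW_count (h : NilSer A q t) (j : ℕ) (hj : j ≤ q) :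
    ∃ C d : ℕ, ∀ n : ℕ, 1 ≤ n → (NW t j n).Finite ∧ (NW t j n).ncard ≤ C * n ^ d := by
  induction j with
  | zero =>
    refine ⟨1, 0, fun n _ => ?_⟩
    have : NW t 0 n = {1} := by
      apply Set.eq_singleton_iff_unique_mem.2
      refine ⟨NW_one _ _, ?_⟩
      rintro g ⟨w, h1, _, rfl⟩
      cases w with
      | nil => simp
      | cons x w =>
        obtain ⟨i, hi, _⟩ := h1 x List.mem_cons_self
        exact absurd hi (Nat.not_lt_zero _)
    rw [this]
    simp
  | succ j ih =>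
    obtain ⟨C', d', hC'⟩ := ih (by omega)
    have hjq : j < q := by omega
    obtain ⟨C, d, hC⟩ := conj_grow_int (t := t) (t ⟨j, hjq⟩) j (by omega) (fun l hl => by
      have := h.com ⟨j, hjq⟩ l hl
      exact this)
    refine ⟨3 * C' * (C + 1) ^ d', (d + 1) * d' + 1, fun n hn => ?_⟩
    have hN : 1 ≤ (C + 1) * n ^ (d + 1) := Nat.mul_pos (Nat.succ_pos _) (Nat.pow_pos hn)
    obtain ⟨hfin, hcard⟩ := hC' _ hN
    have hsub : NW t (j + 1) n ⊆ (fun p : ℤ × A => p.2 * (t ⟨j, hjq⟩) ^ p.1) ''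
        (↑(Finset.Icc (-(n : ℤ)) n) ×ˢ NW t j ((C + 1) * n ^ (d + 1))) := by
      rintro g ⟨w, h1, h2, rfl⟩
      obtain ⟨a, ha, g', hg', he⟩ := NW_split hjq (hC n hn) w h1 h2
      refine ⟨(a, g'), ⟨?_, ?_⟩, he.symm⟩
      · simp only [Finset.coe_Icc, Set.mem_Icc]
        rw [abs_le] at ha
        constructor <;> omega
      · refine NW_mono le_rfl ?_ hg'
        calc w.length * (C * n ^ d) ≤ n * (C * n ^ d) := Nat.mul_le_mul_right _ h2
          _ = C * n ^ (d + 1) := by ring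
          _ ≤ (C + 1) * n ^ (d + 1) := Nat.mul_le_mul_right _ (Nat.le_succ _)
    have hfin2 : ((↑(Finset.Icc (-(n : ℤ)) n) : Set ℤ) ×ˢ NW t j ((C + 1) * n ^ (d + 1))).Finite :=
      (Finset.finite_toSet _).prod hfin
    refine ⟨(hfin2.image _).subset hsub, ?_⟩
    calc (NW t (j + 1) n).ncard ≤ _ := Set.ncard_le_ncard hsub (hfin2.image _)
      _ ≤ ((↑(Finset.Icc (-(n : ℤ)) n) : Set ℤ) ×ˢ NW t j ((C + 1) * n ^ (d + 1))).ncard :=
          Set.ncard_image_le hfin2
      _ = (2 * n + 1) * (NW t j ((C + 1) * n ^ (d + 1))).ncard := by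
          rw [Set.ncard_prod, Set.ncard_coe_finset, Int.card_Icc]
          congr 1
          omega
      _ ≤ (3 * n) * (C' * ((C + 1) * n ^ (d + 1)) ^ d') :=
          Nat.mul_le_mul (by omega) hcard
      _ = 3 * C' * (C + 1) ^ d' * n ^ ((d + 1) * d' + 1) := by
          rw [mul_pow, ← pow_mul]
          ring

end

theorem nil_growth {A : Type} [Group A] [DecidableEq A] {q : ℕ} {t : Fin q → A} (h : NilSer A q t) (K : Finset A) :
    ∃ C d : ℕ, ∀ n : ℕ, 1 ≤ n → (K ^ n).card ≤ C * n ^ d := by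
  obtain ⟨C, d, hC⟩ := NW_count h q le_rfl
  have hm : ∀ g : A, ∃ m, g ∈ NW t q m := by
    intro g
    apply NW_closure
    have h1 : {g | ∃ i : Fin q, i.val < q ∧ g = t i} = Set.range t := by
      ext x
      constructor
      · rintro ⟨i, _, rfl⟩
        exact ⟨i, rfl⟩
      · rintro ⟨i, rfl⟩
        exact ⟨i, i.2, rfl⟩
    rw [h1, h.gen]
    exact Subgroup.mem_top g
  choose m hm using hm
  set M := ∑ g ∈ K, m g + 1 with hM
  have hK : ∀ g ∈ K, g ∈ NW t q M := by
    intro g hg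
    refine NW_mono le_rfl ?_ (hm g)
    have := Finset.single_le_sum (f := m) (fun i _ => Nat.zero_le _) hg
    omega
  have hKn : ∀ n : ℕ, ∀ g ∈ K ^ n, g ∈ NW t q (n * M) := by
    intro n
    induction n with
    | zero =>
      intro g hg
      rw [pow_zero, Finset.mem_one] at hg
      rw [hg]
      exact NW_one _ _
    | succ n ih =>
      intro g hg
      rw [pow_succ, Finset.mem_mul] at hg
      obtain ⟨a, ha, b, hb, rfl⟩ := hg
      refine NW_mono le_rfl ?_ (NW_mul (ih a ha) (hK b hb))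
      rw [Nat.add_mul, one_mul]
  refine ⟨C * M ^ d, d, fun n hn => ?_⟩
  have hnM : 1 ≤ n * M := Nat.mul_pos hn (Nat.succ_pos _)
  obtain ⟨hfin, hcard⟩ := hC _ hnM
  calc (K ^ n).card = ((K ^ n : Finset A) : Set A).ncard := (Set.ncard_coe_finset _).symm
    _ ≤ (NW t q (n * M)).ncard := Set.ncard_le_ncard (fun g hg => hKn n g hg) hfin
    _ ≤ C * (n * M) ^ d := hcard
    _ = C * M ^ d * n ^ d := by rw [mul_pow]; ring

end H31.BE
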