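import Pool.Agent.H31.BE.FDefs

/-! # SmallG : polynomial growth implies a subexponential Folner function  (module SmallG, ~100 lines)
Given K, put L := insert 1 K, F j := L^j (increasing, nonempty, K * F j ⊆ F (j+1)). If |F (j+1)| > (1 + 1/k) |F j| for all j < k^2 then
|F (k^2)| > (1 + 1/k)^(k^2) >= e^(k/2)  (log(1 + x) >= x/2 for 0 <= x <= 1), but |F (k^2)| <= C k^(2d): impossible for k >= k0. So some j < k^2 has
|(K F j) \ F j| <= |F (j+1)| - |F j| <= |F j| / k, and |F j| <= |F (k^2)| <= C k^(2d) <= e^(η k) for k large. -/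

set_option autoImplicit false

namespace H31.BE

open scoped Pointwise

theorem subFol_of_poly (A : Type) [Group A] [DecidableEq A]
    (h : ∀ K : Finset A, ∃ C d : ℕ, ∀ n : ℕ, 1 ≤ n → (K ^ n).card ≤ C * n ^ d) : SubFol A := by
  rename_i inst
  obtain rfl : inst = fun a b => Classical.propDecidable (a = b) := Subsingleton.elim _ _
  classical
  intro K η hη
  obtain ⟨C, d, hCd⟩ := h (insert 1 K)
  generalize hL : (insert 1 K : Finset A) = L at hCd
  have h1L : (1 : A) ∈ L := by rw [← hL]; exact Finset.mem_insert_self _ _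
  have hKL : K ⊆ L := by rw [← hL]; exact Finset.subset_insert _ _
  have hb : 0 < min η (1 / 2) := lt_min hη (by norm_num)
  have hev : ∀ᶠ k : ℕ in Filter.atTop,
      (C : ℝ) * ((k : ℝ) ^ 2) ^ d ≤ Real.exp (min η (1 / 2) * k) := by
    have h2 := (isLittleO_pow_exp_pos_mul_atTop (k := 2 * d) hb).def
      (c := 1 / ((C : ℝ) + 1)) (by positivity)
    have h3 := tendsto_natCast_atTop_atTop (R := ℝ) |>.eventually h2
    filter_upwards [h3] with k hk
    rw [Real.norm_of_nonneg (by positivity), Real.norm_of_nonneg (by positivity)] at hk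
    rw [← pow_mul]
    have hC : (0 : ℝ) ≤ (C : ℝ) := Nat.cast_nonneg C
    have h4 : ((C : ℝ) + 1) * (k : ℝ) ^ (2 * d) ≤ Real.exp (min η (1 / 2) * k) := by
      calc ((C : ℝ) + 1) * (k : ℝ) ^ (2 * d)
          ≤ ((C : ℝ) + 1) * (1 / ((C : ℝ) + 1) * Real.exp (min η (1 / 2) * k)) := by
            gcongr
        _ = Real.exp (min η (1 / 2) * k) := by field_simp
    have h5 : (0 : ℝ) ≤ (k : ℝ) ^ (2 * d) := by positivity
    nlinarith
  obtain ⟨k1, hk1⟩ := Filter.eventually_atTop.1 hev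
  refine ⟨max k1 1, fun k hk => ?_⟩
  have hkk1 : k1 ≤ k := le_trans (le_max_left _ _) hk
  have hk0 : 1 ≤ k := le_trans (le_max_right _ _) hk
  have hkR : (1 : ℝ) ≤ (k : ℝ) := by exact_mod_cast hk0
  have hmono : ∀ i j : ℕ, i ≤ j → L ^ i ⊆ L ^ j := fun i j hij =>
    Finset.pow_subset_pow_right h1L hij
  have hne : ∀ j : ℕ, (L ^ j).Nonempty := fun j => ⟨1, Finset.one_mem_pow h1L⟩
  have hbig : ∀ j : ℕ, j ≤ k ^ 2 → ((L ^ j).card : ℝ) ≤ Real.exp (min η (1 / 2) * k) := by
    intro j hj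
    have h2 : (L ^ j).card ≤ (L ^ (k ^ 2)).card := Finset.card_le_card (hmono _ _ hj)
    have h3 := hCd (k ^ 2) (Nat.one_le_pow _ _ hk0)
    have h4 : ((L ^ j).card : ℝ) ≤ (C : ℝ) * ((k : ℝ) ^ 2) ^ d := by exact_mod_cast h2.trans h3
    exact h4.trans (hk1 k hkk1)
  have hex : ∃ j, j < k ^ 2 ∧
      (k : ℝ) * (((L ^ (j + 1)).card : ℝ) - (L ^ j).card) ≤ (L ^ j).card := by
    by_contra hcon
    push Not at hcon
    have hgr : ∀ j : ℕ, j ≤ k ^ 2 → (1 + 1 / (k : ℝ)) ^ j ≤ (L ^ j).card := by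
      intro j
      induction j with
      | zero => intro _; simp
      | succ j ih =>
        intro hj
        have h2 := ih (by omega)
        have h3 := hcon j (by omega)
        have h4 : (1 + 1 / (k : ℝ)) * (L ^ j).card ≤ (L ^ (j + 1)).card := by
          have hk' : (0 : ℝ) < k := by linarith
          have h5 : (1 / (k : ℝ)) * (L ^ j).card ≤ ((L ^ (j + 1)).card : ℝ) - (L ^ j).card := by
            rw [one_div, inv_mul_le_iff₀ hk']
            exact h3.le
          linarith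
        calc (1 + 1 / (k : ℝ)) ^ (j + 1) = (1 + 1 / (k : ℝ)) * (1 + 1 / (k : ℝ)) ^ j := by ring
          _ ≤ (1 + 1 / (k : ℝ)) * (L ^ j).card := by gcongr
          _ ≤ _ := h4
    have h2 := hgr (k ^ 2) le_rfl
    have h3 := hbig (k ^ 2) le_rfl
    have h4 : (2 : ℝ) ≤ (1 + 1 / (k : ℝ)) ^ k := by
      have h5 := one_add_mul_le_pow (a := 1 / (k : ℝ))
        (by have : (0 : ℝ) ≤ 1 / (k : ℝ) := by positivity
            linarith) k
      have h6 : (k : ℝ) * (1 / (k : ℝ)) = 1 := by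
        have : (k : ℝ) ≠ 0 := by linarith
        field_simp
      linarith
    have h5 : (2 : ℝ) ^ k ≤ (1 + 1 / (k : ℝ)) ^ (k ^ 2) := by
      rw [sq, pow_mul]
      gcongr
    have h6 : (2 : ℝ) ^ k = Real.exp (Real.log 2 * k) := by
      rw [mul_comm, Real.exp_nat_mul, Real.exp_log (by norm_num)]
    have h7 : min η (1 / 2) * (k : ℝ) < Real.log 2 * k := by
      have h8 : min η (1 / 2) ≤ 1 / 2 := min_le_right _ _
      have h9 := Real.log_two_gt_d9
      have : min η (1 / 2) < Real.log 2 := by linarith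
      have hk' : (0 : ℝ) < k := by linarith
      exact mul_lt_mul_of_pos_right this hk'
    have h8 := Real.exp_lt_exp.2 h7
    rw [← h6] at h8
    linarith
  obtain ⟨j, hj, hj2⟩ := hex
  refine ⟨L ^ j, hne j, ?_, ?_⟩
  · refine le_trans ?_ hj2
    have h2 : (K * L ^ j) \ L ^ j ⊆ L ^ (j + 1) \ L ^ j := by
      refine Finset.sdiff_subset_sdiff ?_ subset_rfl
      rw [pow_succ']
      exact Finset.mul_subset_mul_right hKL
    have h3 := Finset.card_le_card h2
    rw [Finset.card_sdiff_of_subset (hmono j (j + 1) (by omega))] at h3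
    have h4 : (L ^ j).card ≤ (L ^ (j + 1)).card := Finset.card_le_card (hmono j (j + 1) (by omega))
    have h5 : ((((K * L ^ j) \ L ^ j).card : ℕ) : ℝ) ≤
        ((L ^ (j + 1)).card : ℝ) - (L ^ j).card := by
      rw [← Nat.cast_sub h4]
      exact_mod_cast h3
    gcongr
  · refine (hbig j hj.le).trans (Real.exp_le_exp.2 ?_)
    have hk' : (0 : ℝ) ≤ k := by linarith
    exact mul_le_mul_of_nonneg_right (min_le_left _ _) hk'

end H31.BE
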