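import Pool.Agent.H31.BE.FreeB
import Pool.Agent.H31.BE.Bern

/-! # TrivB : degenerate base measures  (module TrivB, ~80 lines)
`nontriv_of_map`: suppose μ s ∈ {0, 1} for all measurable s. The sets s with (bern μ) s = 0 or (bern μ) sᶜ = 0 form a σ-algebra m0
(complements, countable unions); it contains the sets {y | y g ∈ t} (bern_pi for one coordinate), hence the product σ-algebra
(`MeasurableSpace.pi` = ⨆ comap). So bern μ takes the values 0, 1 only. For A with 0 < ν A < 1: ν A = bern ν {y | y 1 ∈ A} = bern μ (T ⁻¹' ..).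
`ent_triv`: all cells have mass 0 or 1. -/

set_option autoImplicit false

open MeasureTheory

namespace H31.BE

private theorem zero_or {μ : Measure ℝ} [IsProbabilityMeasure μ] (h : ¬ Nontriv μ) (s : Set ℝ)
    (hs : MeasurableSet s) : μ s = 0 ∨ μ sᶜ = 0 := by
  by_contra hcon
  push Not at hcon
  refine h ⟨s, hs, pos_iff_ne_zero.2 hcon.1, ?_⟩
  refine lt_of_le_of_ne prob_le_one fun h1 => hcon.2 ?_
  exact (prob_compl_eq_zero_iff hs).2 h1

/-- the sets which are null or conull -/
@[instance_reducible] private def m0 {Ω : Type} [MeasurableSpace Ω] (P : Measure Ω) : MeasurableSpace Ω where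
  MeasurableSet' s := P s = 0 ∨ P sᶜ = 0
  measurableSet_empty := Or.inl measure_empty
  measurableSet_compl s hs := by
    rw [compl_compl]
    exact hs.symm
  measurableSet_iUnion f hf := by
    by_cases h : ∃ n, P (f n)ᶜ = 0
    · obtain ⟨n, hn⟩ := h
      right
      refine measure_mono_null ?_ hn
      exact Set.compl_subset_compl.2 (Set.subset_iUnion f n)
    · push Not at h
      left
      exact measure_iUnion_null fun n => (hf n).resolve_right (h n)

private theorem bern_eval {G : Type} [Group G] (μ : Measure ℝ) [IsProbabilityMeasure μ] (g : G)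
    (t : Set ℝ) (ht : MeasurableSet t) : bern G μ {y : Bsh G | y g ∈ t} = μ t := by
  classical
  have h1 := bern_pi μ {g} (fun _ : G => t) (fun _ _ => ht)
  simpa using h1

private theorem bern_zero_or {G : Type} [Group G] {μ : Measure ℝ} [IsProbabilityMeasure μ]
    (h : ¬ Nontriv μ) (s : Set (Bsh G)) (hs : MeasurableSet s) :
    bern G μ s = 0 ∨ bern G μ sᶜ = 0 := by
  have h1 : (MeasurableSpace.pi : MeasurableSpace (G → ℝ)) ≤ m0 (bern G μ) := by
    refine iSup_le fun g => ?_
    rintro _ ⟨t, ht, rfl⟩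
    rcases zero_or h t ht with h2 | h2
    · left
      exact (bern_eval μ g t ht).trans h2
    · right
      exact (bern_eval μ g tᶜ ht.compl).trans h2
  exact h1 s hs

theorem nontriv_of_map {G : Type} [Group G] (μ ν : Measure ℝ) [IsProbabilityMeasure μ] [IsProbabilityMeasure ν]
    (T : Bsh G → Bsh G) (hT : MeasurePreserving T (bern G μ) (bern G ν)) (hν : Nontriv ν) : Nontriv μ := by
  classical
  by_contra hcon
  obtain ⟨A, hA, hA0, hA1⟩ := hν
  have hm : MeasurableSet {y : Bsh G | y 1 ∈ A} := measurable_eval (1 : G) hA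
  have h1 : bern G μ (T ⁻¹' {y : Bsh G | y 1 ∈ A}) = ν A := by
    rw [hT.measure_preimage hm.nullMeasurableSet]
    exact bern_eval ν 1 A hA
  have h2 : bern G μ (T ⁻¹' {y : Bsh G | y 1 ∈ A})ᶜ = ν Aᶜ := by
    rw [← Set.preimage_compl, hT.measure_preimage hm.compl.nullMeasurableSet]
    exact bern_eval ν 1 Aᶜ hA.compl
  rcases bern_zero_or hcon _ (hT.measurable hm) with h3 | h3
  · rw [h1] at h3
    exact hA0.ne' h3
  · rw [h2, prob_compl_eq_zero_iff hA] at h3
    exact hA1.ne h3

theorem ent_triv (ν : Measure ℝ) [IsProbabilityMeasure ν] (h : ¬ Nontriv ν) {k : ℕ} (q : ℝ → Fin k) (hq : Fm q) :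
    ent ν q = 0 := by
  rw [ent_eq]
  refine Finset.sum_eq_zero fun a _ => ?_
  rcases zero_or h _ (hq a) with h1 | h1
  · rw [Measure.real, h1]
    simp
  · rw [prob_compl_eq_zero_iff (hq a)] at h1
    rw [Measure.real, h1]
    simp

end H31.BE
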