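import Pool.Agent.H31.BE.OneSide
import Pool.Agent.H31.BE.FEntUp
import Pool.Agent.H31.BE.FEntLo
import Pool.Agent.H31.BE.TrivB
import Pool.Agent.H31.BE.CntFinB
import Pool.Agent.H31.BE.CntInf
import Pool.Agent.H31.BE.FPEuler
import Pool.Agent.H31.BE.NilEx
import Pool.Agent.H31.BE.NilCen
import Pool.Agent.H31.BE.NilGrow
import Pool.Agent.H31.BE.SmallG

/-! # Final : assembly of the theorem. -/

set_option autoImplicit false

open MeasureTheory

namespace H31.BE

/-- the data needed for one factor -/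
theorem factor_data {A G : Type} [Group A] [Group G] [DecidableEq G] (φ : A →* G) (hφ : Function.Injective φ)
    (h : Finite A ∨ (Group.FG A ∧ Group.IsNilpotent A) ∨ (SubFol A ∧ HasSeries A)) :
    ∃ S : Finset G, Subgroup.closure (S : Set G) = φ.range ∧ (∀ s ∈ S, s⁻¹ ∈ S) ∧ CountProp φ.range S ∧
      (Finite φ.range ∨ SubF φ.range) := by
  classical
  have hfin : Finite A → ∃ S : Finset G, Subgroup.closure (S : Set G) = φ.range ∧ (∀ s ∈ S, s⁻¹ ∈ S) ∧
      CountProp φ.range S ∧ (Finite φ.range ∨ SubF φ.range) := by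
    intro hA
    haveI : Finite φ.range := by
      have := Finite.of_surjective φ.rangeRestrict φ.rangeRestrict_surjective
      exact this
    have hfs : (φ.range : Set G).Finite := Set.toFinite _
    refine ⟨hfs.toFinset, ?_, ?_, ?_, Or.inl inferInstance⟩
    · rw [Set.Finite.coe_toFinset]
      exact Subgroup.closure_eq _
    · intro s hs
      rw [Set.Finite.mem_toFinset] at hs ⊢
      exact Subgroup.inv_mem _ hs
    · refine countProp_fin φ.range _ ?_
      intro g
      rw [Set.Finite.mem_toFinset]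
      rfl
  have hser : SubFol A ∧ HasSeries A → ∃ S : Finset G, Subgroup.closure (S : Set G) = φ.range ∧
      (∀ s ∈ S, s⁻¹ ∈ S) ∧ CountProp φ.range S ∧ (Finite φ.range ∨ SubF φ.range) := by
    rintro ⟨h1, h2⟩
    obtain ⟨S, q, t, hst⟩ := series_range φ hφ h2
    obtain ⟨hc, hi⟩ := series_closure hst
    exact ⟨S, hc, hi, countProp_inf _ S q t hst, Or.inr (subF_range φ hφ h1)⟩
  rcases h with h | ⟨h1, h2⟩ | h
  · exact hfin h
  · by_cases hA : Finite A
    · exact hfin hA
    · haveI : Infinite A := not_finite_iff_infinite.1 hA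
      haveI := h1
      haveI := h2
      obtain ⟨q, t, ht⟩ := nilSer_ex A
      exact hser ⟨subFol_of_poly A (fun K => nil_growth ht K), hasSeries_of_nilSer ht⟩
  · exact hser h

theorem HF_le_of {G I : Type} [Group G] [DecidableEq G] [Countable G] [Infinite G] [Fintype I]
    (H : I → Subgroup G) (hP : FreeProd H) (hsub : ∀ i, Finite (H i) ∨ SubF (H i))
    (S : I → Finset G) (hS : ∀ i, Subgroup.closure (S i : Set G) = H i) (hsym : ∀ i, ∀ s ∈ S i, s⁻¹ ∈ S i)
    (hcp : ∀ i, CountProp (H i) (S i))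
    (μ ν : Measure ℝ) [IsProbabilityMeasure μ] [IsProbabilityMeasure ν]
    (T U : Bsh G → Bsh G) (h : OE G μ ν T U) : HF ν ≤ HF μ := by
  refine le_of_forall_lt fun c hc => ?_
  obtain ⟨k0, q0, hq0, hlt⟩ := fe_ge ν c hc
  refine lt_of_lt_of_le hlt ?_
  by_cases hν : Nontriv ν
  · have hμ : Nontriv μ := nontriv_of_map μ ν T h.mT hν
    refine ENNReal.le_of_forall_pos_le_add fun ε hε _ => ?_
    obtain ⟨k, q, hq, hle⟩ := one_side H hP hsub S hS hsym hcp μ ν hμ hν T U h ε hε k0 q0 hq0
    calc ENNReal.ofReal (ent ν q0) ≤ ENNReal.ofReal (ent μ q + ε) := ENNReal.ofReal_le_ofReal hle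
      _ = ENNReal.ofReal (ent μ q) + ENNReal.ofReal ε :=
          ENNReal.ofReal_add (ent_nonneg q) hε.le
      _ = ENNReal.ofReal (ent μ q) + ε := by rw [ENNReal.ofReal_coe_nnreal]
      _ ≤ HF μ + ε := by gcongr; exact fe_le μ q hq
  · rw [ent_triv ν hν q0 hq0, ENNReal.ofReal_zero]
    exact bot_le

theorem main_thm (G : Type) [Group G] [Infinite G] (I : Type) [Fintype I] (A : I → Type) [∀ i, Group (A i)]
    (e : Monoid.CoprodI A ≃* G)
    (hA : ∀ i, Finite (A i) ∨ (Group.FG (A i) ∧ Group.IsNilpotent (A i)) ∨ (SubFol (A i) ∧ HasSeries (A i)))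
    (μ ν : Measure ℝ) [IsProbabilityMeasure μ] [IsProbabilityMeasure ν]
    (h : ∃ T S : (G → ℝ) → (G → ℝ),
        MeasurePreserving T (Measure.infinitePi (fun _ : G => μ))
          (Measure.infinitePi (fun _ : G => ν)) ∧
        MeasurePreserving S (Measure.infinitePi (fun _ : G => ν))
          (Measure.infinitePi (fun _ : G => μ)) ∧
        (∀ᵐ x ∂(Measure.infinitePi (fun _ : G => μ)), S (T x) = x) ∧
        (∀ᵐ y ∂(Measure.infinitePi (fun _ : G => ν)), T (S y) = y) ∧
        (∀ g : G, ∃ F : Finset G, ∀ᵐ x ∂(Measure.infinitePi (fun _ : G => μ)),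
          ∃ f ∈ F, T (fun h => x (g⁻¹ * h)) = fun h => T x (f⁻¹ * h)) ∧
        (∀ g : G, ∃ F : Finset G, ∀ᵐ y ∂(Measure.infinitePi (fun _ : G => ν)),
          ∃ f ∈ F, S (fun h => y (g⁻¹ * h)) = fun h => S y (f⁻¹ * h))) :
    HF μ = HF ν := by
  classical
  obtain ⟨T, U, hT, hU, hUT, hTU, bT, bU⟩ := h
  set φ : ∀ i, A i →* G := fun i => (e : Monoid.CoprodI A →* G).comp (Monoid.CoprodI.of (i := i)) with hφ
  have hinj : ∀ i, Function.Injective (φ i) := fun i =>
    e.injective.comp (Monoid.CoprodI.of_injective i)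
  set H : I → Subgroup G := fun i => (φ i).range with hH
  have hP : FreeProd H := freeProd_of_coprodI A e
  choose S hS hsym hcp hsub using fun i => factor_data (φ i) (hinj i) (hA i)
  haveI : Countable G := by
    have hgen : ∀ g : G, ∃ r, g ∈ ball S r := fun g => ball_univ H hP.gen S hS hsym g
    rw [← Set.countable_univ_iff]
    have : (Set.univ : Set G) = ⋃ r : ℕ, (ball S r : Set G) := by
      ext g
      simp only [Set.mem_univ, Set.mem_iUnion, true_iff]
      obtain ⟨r, hr⟩ := hgen g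
      exact ⟨r, hr⟩
    rw [this]
    exact Set.countable_iUnion fun r => (ball S r).countable_toSet
  have h1 : OE G μ ν T U := ⟨hT, hU, hUT, hTU, bT, bU⟩
  have h2 : OE G ν μ U T := ⟨hU, hT, hTU, hUT, bU, bT⟩
  exact le_antisymm (HF_le_of H hP hsub S hS hsym hcp ν μ U T h2)
    (HF_le_of H hP hsub S hS hsym hcp μ ν T U h1)

end H31.BE
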