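import Pool.Agent.H31.BE.Bern

/-! # FreeB : essential freeness of the Bernoulli shift  (module FreeB, ~100 lines)
μ is not a point mass in the form: there is a measurable s with 0 < μ s < 1. G infinite, g ≠ 1. Then g•y ≠ y a.e.
Proof. {y | g•y = y} ⊆ {y | 1_s(y h_j) = 1_s(y (g⁻¹h_j)) for j < N} where the pairs {h_j, g⁻¹h_j} are pairwise disjoint
(choose them one after the other: G is infinite, each new h has to avoid a finite set; h ≠ g⁻¹h). These events are
independent with probability r := p² + (1-p)² < 1, p = μ s: so the measure is <= r^N for every N, i.e. 0.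
(Compute the measure of {1_s(y h_j) = 1_s(y h'_j), j < N} as a finite sum over patterns in {0,1}^N of products
(`infinitePi_pi`), or by induction on N.) -/

set_option autoImplicit false

open MeasureTheory

namespace H31.BE

/-- `μ` is not concentrated on an atom of the sigma-algebra -/
def Nontriv (μ : Measure ℝ) : Prop := ∃ s, MeasurableSet s ∧ 0 < μ s ∧ μ s < 1

private theorem exT {G : Type} [Group G] [Infinite G] [DecidableEq G] (g : G) (hg : g ≠ 1) (N : ℕ) :
    ∃ T : Finset G, T.card = N ∧ ∀ x ∈ T, g⁻¹ * x ∉ T := by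
  induction N with
  | zero => exact ⟨∅, rfl, by simp⟩
  | succ n ih =>
    obtain ⟨T, hT, h⟩ := ih
    obtain ⟨x, hx⟩ := Infinite.exists_notMem_finset
      (T ∪ T.image (fun y => g * y) ∪ T.image (fun y => g⁻¹ * y))
    simp only [Finset.mem_union, Finset.mem_image, not_or, not_exists, not_and] at hx
    obtain ⟨⟨h1, h2⟩, h3⟩ := hx
    refine ⟨insert x T, by rw [Finset.card_insert_of_notMem h1, hT], ?_⟩
    intro y hy
    rw [Finset.mem_insert] at hy ⊢
    rcases hy with rfl | hy
    · rintro (h4 | h4)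
      · exact hg (by simpa using h4)
      · exact h2 _ h4 (by simp)
    · rintro (h4 | h4)
      · exact h3 _ hy h4
      · exact h _ hy h4

private theorem fixed_le {G : Type} [Group G] [DecidableEq G] (μ : Measure ℝ)
    [IsProbabilityMeasure μ] {s : Set ℝ} (hs : MeasurableSet s) (g : G) (T : Finset G)
    (hT : ∀ x ∈ T, g⁻¹ * x ∉ T) :
    bern G μ {y | g • y = y} ≤ (μ s * μ s + μ sᶜ * μ sᶜ) ^ T.card := by
  classical
  have hsub : {y : Bsh G | g • y = y} ⊆ ⋃ A ∈ T.powerset,
      {y : Bsh G | ∀ i ∈ T ∪ T.image (fun x => g⁻¹ * x), y i ∈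
        (if i ∈ A ∨ g * i ∈ A then s else sᶜ)} := by
    intro y hy
    have hy' : ∀ i, y (g⁻¹ * i) = y i := by
      intro i
      have h1 := congrFun (show g • y = y from hy) i
      rwa [Bsh.smul_apply] at h1
    simp only [Set.mem_iUnion, Finset.mem_powerset]
    refine ⟨T.filter (fun i => y i ∈ s), Finset.filter_subset _ _, ?_⟩
    intro i hi
    rw [Finset.mem_union, Finset.mem_image] at hi
    rcases hi with hi | ⟨x, hx, rfl⟩
    · by_cases h : y i ∈ s
      · rw [if_pos (Or.inl (Finset.mem_filter.2 ⟨hi, h⟩))]; exact h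
      · rw [if_neg]
        · exact h
        · rintro (h1 | h1)
          · exact h (Finset.mem_filter.1 h1).2
          · apply hT _ (Finset.mem_filter.1 h1).1
            simpa using hi
    · by_cases h : y x ∈ s
      · rw [if_pos]
        · rw [hy']; exact h
        · right
          rw [mul_inv_cancel_left]
          exact Finset.mem_filter.2 ⟨hx, h⟩
      · rw [if_neg]
        · rw [hy']; exact h
        · rintro (h1 | h1)
          · exact hT x hx (Finset.mem_filter.1 h1).1
          · rw [mul_inv_cancel_left] at h1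
            exact h (Finset.mem_filter.1 h1).2
  refine (measure_mono hsub).trans ?_
  refine (measure_biUnion_finset_le _ _).trans ?_
  rw [← Finset.sum_pow_mul_eq_add_pow]
  refine Finset.sum_le_sum (fun A hA => ?_)
  rw [Finset.mem_powerset] at hA
  rw [bern_pi μ _ _ (fun i _ => by split_ifs; exacts [hs, hs.compl])]
  have hdis : Disjoint T (T.image (fun x => g⁻¹ * x)) := by
    rw [Finset.disjoint_left]
    intro x hx hx'
    obtain ⟨z, hz, rfl⟩ := Finset.mem_image.1 hx'
    exact hT z hz hx
  rw [Finset.prod_union hdis, Finset.prod_image (by intro x _ y _ hxy; simpa using hxy),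
    ← Finset.prod_mul_distrib]
  have h1 : ∀ i ∈ T, μ (if i ∈ A ∨ g * i ∈ A then s else sᶜ) *
      μ (if g⁻¹ * i ∈ A ∨ g * (g⁻¹ * i) ∈ A then s else sᶜ) =
      if i ∈ A then μ s * μ s else μ sᶜ * μ sᶜ := by
    intro i hi
    have h2 : ¬ g * i ∈ A := fun h => hT _ (hA h) (by simpa using hi)
    have h3 : ¬ g⁻¹ * i ∈ A := fun h => hT _ hi (hA h)
    simp only [h2, h3, or_false, false_or, mul_inv_cancel_left]
    split_ifs <;> rfl
  rw [Finset.prod_congr rfl h1, ← Finset.prod_sdiff hA,
    Finset.prod_congr (g := fun _ => μ sᶜ * μ sᶜ) rfl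
      (fun i hi => if_neg (Finset.mem_sdiff.1 hi).2),
    Finset.prod_congr (s₁ := A) (g := fun _ => μ s * μ s) rfl (fun i hi => if_pos hi),
    Finset.prod_const, Finset.prod_const, Finset.card_sdiff_of_subset hA, mul_comm]

theorem free_bern {G : Type} [Group G] [Infinite G] (μ : Measure ℝ) [IsProbabilityMeasure μ]
    (hμ : Nontriv μ) (g : G) (hg : g ≠ 1) : ∀ᵐ y ∂(bern G μ), g • y ≠ y := by
  classical
  obtain ⟨s, hs, h0, h1⟩ := hμ
  have hr : μ s * μ s + μ sᶜ * μ sᶜ < 1 := by
    have hsum : μ s + μ sᶜ = 1 := prob_add_prob_compl hs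
    have ha : μ s * μ s < μ s := by
      conv_rhs => rw [← mul_one (μ s)]
      exact ENNReal.mul_lt_mul_right h0.ne' (measure_ne_top μ s) h1
    have hb : μ sᶜ * μ sᶜ ≤ μ sᶜ := by
      conv_rhs => rw [← mul_one (μ sᶜ)]
      gcongr
      exact prob_le_one
    calc μ s * μ s + μ sᶜ * μ sᶜ < μ s + μ sᶜ :=
          ENNReal.add_lt_add_of_lt_of_le (ne_top_of_le_ne_top (measure_ne_top μ sᶜ) hb) ha hb
      _ = 1 := hsum
  have hle : ∀ N : ℕ, bern G μ {y | g • y = y} ≤ (μ s * μ s + μ sᶜ * μ sᶜ) ^ N := by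
    intro N
    obtain ⟨T, hT, h⟩ := exT g hg N
    rw [← hT]
    exact fixed_le μ hs g T h
  have hlim := ENNReal.tendsto_pow_atTop_nhds_zero_of_lt_one hr
  have h2 : bern G μ {y | g • y = y} ≤ 0 := ge_of_tendsto' hlim hle
  rw [ae_iff]
  simpa using h2

end H31.BE
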