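import Pool.Agent.H31.BE.FunA

/-! # FunB : splitting lemma and the iid lower bound (paper 1.3, 1.5; module FunB, ~120 lines)
* `FF_split`: f function of f' (f = φ ∘ f'), f' function of win f W with W ⊆ H i0, 1 ∈ W: FF f' <= FF f.
  sum: for i0: hh f' <= hh f (hh_win_le); for i ≠ i0: hh f' <= hh f + c, c := H(f'|f) (hh_le_add);
  H(f') = H(f) + c (f function of f').  FF f' <= sum hh f + (m-1) c - (m-1)(H(f) + c) = FF f.
* `FF_le_add`: FF f' <= FF f + H(f'|f) if f is a function of f' (all m terms: + m c, H(f') = H(f) + c).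
* `FF_cont`: FF f' <= FF f + m H(f'|f) + (m-1) H(f|f')  (hh_le_add, H(f) <= H(f') + H(f|f'); m >= 1).
* `FF_iid`: if H(γ^B) = |B| H(γ) for all finite B, then FF (γ^B) >= H(γ) for B nonempty:
  win (win γ B) F is γ^{B*F} up to relabelling (value at (a,b) is γ(b•a•y) = γ((b a)•y)), so H = |B*F| H(γ) and
  |B*F| >= kk (H i) B * |F| (for each coset choose b in it; the sets b F ⊆ b H are pairwise disjoint of size |F|);
  so hh >= kk * H(γ) (`le_hh`), and `FreeProd.euler`. -/

set_option autoImplicit false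

open MeasureTheory

namespace H31.BE

open scoped Pointwise

variable {G Y α β I : Type} [Group G] [DecidableEq G] [MeasurableSpace Y] [MulAction G Y] [Finite α]
  [Finite β] [Fintype I] [Nonempty I] {P : Measure Y} [IsProbabilityMeasure P]

private theorem ent_of_fun {f : Y → α} {f' : Y → β} (hf' : Fm f') (ψ : β → α)
    (h' : ∀ y, f y = ψ (f' y)) : ent P f' = ent P f + entc P f' f := by
  have e : (fun y => (f' y, f y)) = fun y => (fun b : β => (b, ψ b)) (f' y) := by
    funext y
    rw [h' y]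
  have h1 := ent_inj (P := P) hf' (fun b : β => (b, ψ b)) (fun a b h => (Prod.mk.inj h).1)
  unfold entc
  rw [e, h1]
  ring

private theorem sum_hh_le (hP : Inv G P) (H : I → Subgroup G) {f : Y → α} {f' : Y → β}
    (hf : Fm f) (hf' : Fm f') :
    ∑ i, hh P (H i) f' ≤ ∑ i, hh P (H i) f + Fintype.card I * entc P f' f := by
  have h1 : ∑ i, hh P (H i) f' ≤ ∑ i, (hh P (H i) f + entc P f' f) :=
    Finset.sum_le_sum fun i _ => hh_le_add hP (H i) hf hf'
  refine h1.trans (le_of_eq ?_)
  rw [Finset.sum_add_distrib, Finset.sum_const, nsmul_eq_mul, Finset.card_univ]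

theorem FF_split (hP : Inv G P) (H : I → Subgroup G) (hH : ∀ i, Foel (H i)) {f : Y → α} {f' : Y → β}
    (hf : Fm f) (hf' : Fm f') (i0 : I) (W : Finset G) (hW : ∀ g ∈ W, g ∈ H i0)
    (φ : (W → α) → β) (h : ∀ y, f' y = φ (win f W y)) (ψ : β → α) (h' : ∀ y, f y = ψ (f' y)) :
    FF P H f' ≤ FF P H f := by
  classical
  have e1 := ent_of_fun (P := P) hf' ψ h'
  have h1 : ∑ i, hh P (H i) f' ≤
      ∑ i, (hh P (H i) f + (entc P f' f - if i = i0 then entc P f' f else 0)) := by
    refine Finset.sum_le_sum fun i _ => ?_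
    by_cases hi : i = i0
    · rw [if_pos hi, hi, sub_self, add_zero]
      exact hh_win_le hP (H i0) (hH i0) hf hf' W hW φ h
    · rw [if_neg hi, sub_zero]
      exact hh_le_add hP (H i) hf hf'
  have h2 : ∑ i, (hh P (H i) f + (entc P f' f - if i = i0 then entc P f' f else 0)) =
      ∑ i, hh P (H i) f + ((Fintype.card I : ℝ) - 1) * entc P f' f := by
    rw [Finset.sum_add_distrib, Finset.sum_sub_distrib, Finset.sum_const, nsmul_eq_mul,
      Finset.card_univ, Finset.sum_ite_eq' Finset.univ i0, if_pos (Finset.mem_univ _)]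
    ring
  unfold FF
  rw [e1]
  rw [h2] at h1
  linarith

theorem FF_le_add (hP : Inv G P) (H : I → Subgroup G) {f : Y → α} {f' : Y → β}
    (hf : Fm f) (hf' : Fm f') (ψ : β → α) (h' : ∀ y, f y = ψ (f' y)) :
    FF P H f' ≤ FF P H f + entc P f' f := by
  have e1 := ent_of_fun (P := P) hf' ψ h'
  have h1 := sum_hh_le hP H hf hf'
  unfold FF
  rw [e1]
  linarith

theorem FF_cont (hP : Inv G P) (H : I → Subgroup G) {f : Y → α} {f' : Y → β}
    (hf : Fm f) (hf' : Fm f') :
    FF P H f' ≤ FF P H f + Fintype.card I * entc P f' f + ((Fintype.card I : ℝ) - 1) * entc P f f' := by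
  have h1 := sum_hh_le hP H hf hf'
  have h2 : ent P f ≤ ent P f' + entc P f f' := by
    have h3 := ent_comp_le (P := P) (hf.prodMk hf') (Prod.fst : α × β → α)
    unfold entc
    simp only at h3
    linarith
  have h4 : (1 : ℝ) ≤ Fintype.card I := by
    exact_mod_cast Fintype.card_pos
  unfold FF
  nlinarith [mul_le_mul_of_nonneg_left h2 (by linarith : (0 : ℝ) ≤ (Fintype.card I : ℝ) - 1)]

theorem card_mul_ge (H : Subgroup G) (B F : Finset G) (hF : ∀ g ∈ F, g ∈ H) :
    kk H B * F.card ≤ (B * F).card := by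
  classical
  have e : kk H B = (B.image (fun g : G => (g : G ⧸ H))).card := by
    unfold kk
    rw [← Set.ncard_coe_finset, Finset.coe_image]
  rw [e, ← Finset.card_product]
  set r : G ⧸ H → G := fun c => if h : ∃ b ∈ B, (b : G ⧸ H) = c then Classical.choose h else 1
    with hr
  have hr1 : ∀ c ∈ B.image (fun g : G => (g : G ⧸ H)), r c ∈ B ∧ (r c : G ⧸ H) = c := by
    intro c hc
    have h : ∃ b ∈ B, (b : G ⧸ H) = c := by simpa using hc
    have h2 : r c = Classical.choose h := by
      rw [hr]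
      exact dif_pos h
    rw [h2]
    exact Classical.choose_spec h
  refine Finset.card_le_card_of_injOn (fun p => r p.1 * p.2) ?_ ?_
  · rintro ⟨c, g⟩ hp
    have hp' := Finset.mem_product.1 hp
    exact Finset.mul_mem_mul (hr1 c hp'.1).1 hp'.2
  · rintro ⟨c, g⟩ hp ⟨c', g'⟩ hp' hpp
    have h1 := Finset.mem_product.1 hp
    have h2 := Finset.mem_product.1 hp'
    simp only at hpp h1 h2
    have h3 : (r c : G ⧸ H) = (r c' : G ⧸ H) := by
      rw [← QuotientGroup.mk_mul_of_mem (r c) (hF g h1.2), hpp,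
        QuotientGroup.mk_mul_of_mem (r c') (hF g' h2.2)]
    rw [(hr1 c h1.1).2, (hr1 c' h2.1).2] at h3
    subst h3
    rw [mul_right_inj] at hpp
    rw [hpp]

private theorem ent_win_win (hP : Inv G P) {γ : Y → α} (hγ : Fm γ) (B F : Finset G) :
    ent P (win γ (B * F)) ≤ ent P (win (win γ B) F) := by
  have hch : ∀ x : (B * F : Finset G), ∃ b : B, ∃ g : F, (b : G) * (g : G) = (x : G) := by
    intro x
    obtain ⟨b, hb, g, hg, h⟩ := Finset.mem_mul.1 x.2
    exact ⟨⟨b, hb⟩, ⟨g, hg⟩, h⟩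
  choose bb gg hbg using hch
  have e : win γ (B * F) = fun y => (fun (v : F → B → α) => fun x => v (gg x) (bb x))
      (win (win γ B) F y) := by
    funext y x
    simp only [win]
    rw [← mul_smul, hbg]
  have hfm : Fm (win (win γ B) F) := Fm.win hP (Fm.win hP hγ B) F
  have h := ent_comp_le (P := P) hfm (fun (v : F → B → α) => fun x => v (gg x) (bb x))
  rw [← e] at h
  exact h

theorem FF_iid (hP : Inv G P) (H : I → Subgroup G) (hfree : FreeProd H) {γ : Y → α} (hγ : Fm γ)
    (hind : ∀ B : Finset G, ent P (win γ B) = B.card * ent P γ) (B : Finset G) (hB : B.Nonempty) :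
    ent P γ ≤ FF P H (win γ B) := by
  have hpos : 0 ≤ ent P γ := ent_nonneg γ
  have h1 : ∀ i, (kk (H i) B : ℝ) * ent P γ ≤ hh P (H i) (win γ B) := by
    intro i
    refine le_hh (H i) (win γ B) _ fun F _ hFH => ?_
    refine le_trans ?_ (ent_win_win hP hγ B F)
    rw [hind (B * F)]
    have h2 : ((kk (H i) B * F.card : ℕ) : ℝ) ≤ ((B * F).card : ℝ) := by
      exact_mod_cast card_mul_ge (H i) B F hFH
    push_cast at h2
    nlinarith
  have h2 : (∑ i, (kk (H i) B : ℝ)) * ent P γ ≤ ∑ i, hh P (H i) (win γ B) := by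
    rw [Finset.sum_mul]
    exact Finset.sum_le_sum fun i _ => h1 i
  have h3 : ((Fintype.card I : ℝ) - 1) * B.card + 1 ≤ ∑ i, (kk (H i) B : ℝ) := by
    exact_mod_cast hfree.euler B hB
  unfold FF
  rw [hind B]
  nlinarith [mul_le_mul_of_nonneg_right h3 hpos]

end H31.BE
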