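import Pool.Agent.H31.BE.FunB

/-! # FunC : F(β) >= H(γ0) for functions of finitely many iid labels (paper 1.6, 1.7; module FunC, ~130 lines)
γ : Y → α iid in the sense hind; β = φ ∘ win γ B.  Claim: ent γ0 <= FF β if γ0 = q ∘ γ and γ0 = q' ∘ β.
1.6 For β0 := (β, γ) : FF β0 >= H(γ).  Consider, for finite D ∋ 1, the function β_D := (β, win γ D) : Y → β × (D → α).
 (i) If W ⊆ H i0 finite, 1 ∈ W, D' := D * W (⊇ D), then β_{D'} is a function of win β_D W (γ(d•w•y) = γ((d w)•y)) and β_D is a
     function of β_{D'}: FF_split gives FF β_{D'} <= FF β_D.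
 (ii) By `FreeProd.gen` every finite B is contained in some D = W_1 * ... * W_k (each W_j finite, in some H i, 1 ∈ W_j): the union of
     such products contains every product of elements of the H i (Subgroup.closure_induction / iSup_induction), and
     W*W' ⊇ W ∪ W' when 1 is in both; so products for single elements can be multiplied together.
 (iii) For D ⊇ B: β_D and win γ D determine each other, so FF β_D = FF (win γ D) >= H(γ) (FF_iid; FF is invariant under
     relabelling: FF_le_add with entc = 0 in both directions, or FF_cont). For D = {1}: β_D ~ (β, γ).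
1.7 FF (β,γ) <= FF β + H((β,γ)|β) (FF_le_add), H((β,γ)|β) = H(γ|β) <= H(γ|γ0) = H(γ) - H(γ0) (entc_anti since γ0 = q'∘β;
    γ0 = q∘γ). Hence FF β >= H(γ) - H(γ) + H(γ0). -/

set_option autoImplicit false

open MeasureTheory

namespace H31.BE

open scoped Pointwise

variable {G Y α β κ I : Type} [Group G] [DecidableEq G] [MeasurableSpace Y] [MulAction G Y] [Finite α]
  [Finite β] [Finite κ] [Fintype I] [Nonempty I] {P : Measure Y} [IsProbabilityMeasure P]

/-- `β` together with the labels in `D` -/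
private def bD (b : Y → β) (γ : Y → α) (D : Finset G) : Y → β × (D → α) := fun y => (b y, win γ D y)

private theorem bD_fm (hP : Inv G P) {γ : Y → α} (hγ : Fm γ) {b : Y → β} (hb : Fm b) (D : Finset G) :
    Fm (bD b γ D) := hb.prodMk (hγ.win hP D)

private theorem bD_step (hP : Inv G P) (H : I → Subgroup G) (hH : ∀ i, Foel (H i))
    {γ : Y → α} (hγ : Fm γ) {b : Y → β} (hb : Fm b) (D W : Finset G) (i0 : I)
    (hW : ∀ g ∈ W, g ∈ H i0) (h1 : (1 : G) ∈ W) :
    FF P H (bD b γ (D * W)) ≤ FF P H (bD b γ D) := by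
  have hdec : ∀ x : (D * W : Finset G), ∃ d : D, ∃ w : W, d.1 * w.1 = x.1 := by
    intro x
    obtain ⟨d, hd, w, hw, hx⟩ := Finset.mem_mul.1 x.2
    exact ⟨⟨d, hd⟩, ⟨w, hw⟩, hx⟩
  choose dd ww hdw using hdec
  refine FF_split hP H hH (bD_fm hP hγ hb D) (bD_fm hP hγ hb (D * W)) i0 W hW
    (fun v => ((v ⟨1, h1⟩).1, fun x => (v (ww x)).2 (dd x))) ?_
    (fun p => (p.1, fun d => p.2 ⟨d.1, by
      have := Finset.mul_mem_mul d.2 h1
      rwa [mul_one] at this⟩)) ?_
  · intro y
    refine Prod.ext ?_ ?_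
    · change b y = b ((1 : G) • y)
      rw [one_smul]
    · funext x
      change γ (x.1 • y) = γ ((dd x).1 • (ww x).1 • y)
      rw [← mul_smul, hdw]
  · intro y
    rfl

/-- one step of the growth of a good set -/
private def Reach {G : Type} [Group G] [DecidableEq G] (Good : Finset G → Prop) (g : G) : Prop :=
  ∀ D : Finset G, Good D → ∃ D' : Finset G, Good D' ∧ D ⊆ D' ∧ ∀ d ∈ D, d * g ∈ D'

private theorem reach_all {G I : Type} [Group G] [DecidableEq G] (H : I → Subgroup G)
    (hgen : (⨆ i, H i) = ⊤) (Good : Finset G → Prop)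
    (hstep : ∀ (D W : Finset G) (i : I), Good D → (∀ g ∈ W, g ∈ H i) → (1 : G) ∈ W → Good (D * W))
    (g : G) : Reach Good g := by
  have hg : g ∈ ⨆ i, H i := by rw [hgen]; exact Subgroup.mem_top g
  have hmem : ∀ i, ∀ x ∈ H i, Reach Good x := by
    intro i x hx D hD
    have h1 : (1 : G) ∈ ({1, x} : Finset G) := by simp
    refine ⟨D * {1, x}, hstep D {1, x} i hD ?_ h1, ?_, ?_⟩
    · intro g hg
      rcases Finset.mem_insert.1 hg with rfl | hg
      · exact (H i).one_mem
      · rw [Finset.mem_singleton.1 hg]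
        exact hx
    · intro d hd
      have := Finset.mul_mem_mul hd h1
      rwa [mul_one] at this
    · intro d hd
      exact Finset.mul_mem_mul hd (by simp)
  have hone : Reach Good 1 := fun D hD => ⟨D, hD, Finset.Subset.refl D, fun d hd => by
    rwa [mul_one]⟩
  have hmul : ∀ x y, Reach Good x → Reach Good y → Reach Good (x * y) := by
    intro x y hx hy D hD
    obtain ⟨D₁, hD₁, h1, h2⟩ := hx D hD
    obtain ⟨D₂, hD₂, h3, h4⟩ := hy D₁ hD₁
    refine ⟨D₂, hD₂, h1.trans h3, fun d hd => ?_⟩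
    rw [← mul_assoc]
    exact h4 _ (h2 d hd)
  exact Subgroup.iSup_induction H (C := Reach Good) hg hmem hone hmul

private theorem gen_reach {G I : Type} [Group G] [DecidableEq G] (H : I → Subgroup G)
    (hgen : (⨆ i, H i) = ⊤) (Good : Finset G → Prop) (hone : ∀ D, Good D → (1 : G) ∈ D)
    (hstep : ∀ (D W : Finset G) (i : I), Good D → (∀ g ∈ W, g ∈ H i) → (1 : G) ∈ W → Good (D * W))
    (h1 : Good {1}) (B : Finset G) : ∃ D : Finset G, B ⊆ D ∧ Good D := by
  induction B using Finset.induction_on with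
  | empty => exact ⟨{1}, Finset.empty_subset _, h1⟩
  | insert g s _ ih =>
    obtain ⟨D, h2, h3⟩ := ih
    obtain ⟨D', hD', h4, h5⟩ := reach_all H hgen Good hstep g D h3
    refine ⟨D', ?_, hD'⟩
    intro x hx
    rcases Finset.mem_insert.1 hx with rfl | hx
    · have := h5 1 (hone D h3)
      rwa [one_mul] at this
    · exact h4 (h2 hx)

private theorem bD_exists (hP : Inv G P) (H : I → Subgroup G) (hH : ∀ i, Foel (H i))
    (hgen : (⨆ i, H i) = ⊤) {γ : Y → α} (hγ : Fm γ) {b : Y → β} (hb : Fm b) (B : Finset G) :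
    ∃ D : Finset G, (1 : G) ∈ D ∧ B ⊆ D ∧ FF P H (bD b γ D) ≤ FF P H (bD b γ ({1} : Finset G)) := by
  obtain ⟨D, h1, h2⟩ := gen_reach H hgen
    (fun D => (1 : G) ∈ D ∧ FF P H (bD b γ D) ≤ FF P H (bD b γ ({1} : Finset G)))
    (fun D hD => hD.1)
    (fun D W i hD hW h1W => ⟨by
      have := Finset.mul_mem_mul hD.1 h1W
      rwa [mul_one] at this, (bD_step hP H hH hγ hb D W i hW h1W).trans hD.2⟩)
    ⟨Finset.mem_singleton_self 1, le_refl _⟩ B
  exact ⟨D, h2.1, h1, h2.2⟩

theorem FF_ge_ent (hP : Inv G P) (H : I → Subgroup G) (hH : ∀ i, Foel (H i)) (hfree : FreeProd H)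
    {γ : Y → α} (hγ : Fm γ) (hind : ∀ B : Finset G, ent P (win γ B) = B.card * ent P γ)
    {b : Y → β} (B : Finset G) (φ : (B → α) → β) (hb : ∀ y, b y = φ (win γ B y))
    (q : α → κ) (q' : β → κ) (hq : ∀ y, q (γ y) = q' (b y)) :
    ent P (fun y => q (γ y)) ≤ FF P H b := by
  have hbm : Fm b := by
    have h1 := (hγ.win hP B).comp φ
    have h2 : b = fun y => φ (win γ B y) := funext hb
    rwa [← h2] at h1
  obtain ⟨D, h1D, hBD, hFD⟩ := bD_exists hP H hH hfree.gen hγ hbm B
  -- `bD D` and `win γ D` determine each other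
  have h1 : FF P H (win γ D) ≤ FF P H (bD b γ D) := by
    have h2 := FF_le_add hP H (f := bD b γ D) (f' := win γ D) (bD_fm hP hγ hbm D) (hγ.win hP D)
      (fun v => (φ fun x => v ⟨x.1, hBD x.2⟩, v)) (fun y => by
        refine Prod.ext ?_ rfl
        change b y = φ (win γ B y)
        exact hb y)
    have h3 : entc P (win γ D) (bD b γ D) = 0 :=
      entc_of_fun (bD_fm hP hγ hbm D) (fun p => p.2) (Filter.Eventually.of_forall fun y => rfl)
    rw [h3, add_zero] at h2
    exact h2
  have h4 := FF_iid hP H hfree hγ hind D ⟨1, h1D⟩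
  have h5 := FF_le_add hP H (f := b) (f' := bD b γ ({1} : Finset G)) hbm (bD_fm hP hγ hbm {1})
    (fun p => p.1) (fun y => rfl)
  have h6 : entc P (bD b γ ({1} : Finset G)) b = entc P γ b := by
    unfold entc
    congr 1
    refine ent_eq_of_determine ((bD_fm hP hγ hbm {1}).prodMk hbm) (hγ.prodMk hbm)
      (fun p => (p.1.2 ⟨1, Finset.mem_singleton_self 1⟩, p.2)) (fun p => ((p.2, fun _ => p.1), p.2))
      (Filter.Eventually.of_forall fun y => ?_) (Filter.Eventually.of_forall fun y => ?_)
    · change (γ ((1 : G) • y), b y) = (γ y, b y)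
      rw [one_smul]
    · refine Prod.ext (Prod.ext rfl ?_) rfl
      funext x
      change γ y = γ (x.1 • y)
      rw [Finset.mem_singleton.1 x.2, one_smul]
  have h7 : entc P γ b ≤ ent P γ - ent P (fun y => q (γ y)) := by
    have h8 := entc_anti (P := P) hγ hbm q'
    have h9 : (fun y => q' (b y)) = fun y => q (γ y) := funext fun y => (hq y).symm
    rw [h9] at h8
    refine h8.trans (le_of_eq ?_)
    unfold entc
    congr 1
    exact ent_inj (P := P) hγ (fun a : α => (a, q a)) fun a a' h => (Prod.mk.inj h).1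
  linarith

end H31.BE
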