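import Pool.Agent.H31.BE.ModDefs

/-! # Good : good vertices  (paper 3.2, 3.3; module Good, ~130 lines)
`gd_count`: if v is not ρ-good there are g ∈ ball S ρ and u ∈ bad0 with g • j v = j u: take a word s_k ... s_1 of length <= ρ
(`exists_word`) whose product violates goodness, and its first prefix (applied from the right) for which g' • j v is not j u with u ∉ bad0;
if the prefix is empty: v itself is in bad0 (j injective); otherwise the previous point is j u', u' ∉ bad0, so u' is not a seam vertex and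
SP π s u' = some u (definition of SP1), hence s • j u' = j u (`Glob.inF`), and u must be bad. The map v ↦ (g, u) is injective: j v = g⁻¹ • j u.
`gd_smul`: g' * g ∈ ball (ρ' + ρ).
`z_step`: u, v ∉ bad0, gv s • j v = j u, s = ⟨i, s'⟩: SP π s v = some u (`outF`), so π i u = ((π i v).1, s' * (π i v).2). Both are matched for i:
z v = om i a f, z u = om i a (s' f), and om i a f' g = η (g * f'). So z u g = η (g * (s' * f)) = z v (g * s') if g, g * s' ∈ ball S R.
`z_ball`: by induction on k, for words: g = s * g', u' with g' • j v = j u' (gd), z u x = z u' (x * s) = z v (x * s * g'),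
for x ∈ ball (R - k) (x * s ∈ ball (R - (k-1))). -/

set_option autoImplicit false

namespace H31.BE

variable {G I Λ : Type} [Group G] [DecidableEq G] [Fintype I] {S : I → Finset G} {R N : ℕ} {L : Lab S Λ}
  {F : I → Finset G} {n : ℕ} {t : I → ℕ} {π : ∀ i, Fin n ≃ Fin (t i) × F i} {W : Type} [MulAction G W] {j : Fin n → W}

theorem gd_mono {bad : Set (Fin n)} {ρ ρ' : ℕ} (h : ρ ≤ ρ') {v : Fin n} (hv : gd S j bad ρ' v) : gd S j bad ρ v :=
  fun g hg => hv g (ball_mono h hg)

theorem gd_smul {bad : Set (Fin n)} {ρ ρ' : ℕ} {v u : Fin n} (hv : gd S j bad (ρ + ρ') v) {g : G}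
    (hg : g ∈ ball S ρ) (hu : g • j v = j u) : gd S j bad ρ' u := by
  intro g' hg'
  have h1 := mul_mem_ball hg' hg
  rw [add_comm] at h1
  obtain ⟨u', hu', hb⟩ := hv _ h1
  refine ⟨u', ?_, hb⟩
  rw [← hu, ← mul_smul, hu']

private lemma good_aux (hG : Glob S π j) {X : Type} (z : Fin n → X) (om : ∀ i, Fin (t i) → F i → X) (ρ : ℕ)
    (v : Fin n) (h : ∀ g ∈ ball S ρ, ∀ u ∈ bad0 S z om π, g • j v ≠ j u) (w : List (Gn S))
    (hw : w.length ≤ ρ) : ∃ u, wprod w • j v = j u ∧ u ∉ bad0 S z om π := by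
  induction w with
  | nil =>
    have h1 : wprod ([] : List (Gn S)) = 1 := by simp [wprod]
    refine ⟨v, by rw [h1, one_smul], fun hv => ?_⟩
    exact h 1 (one_mem_ball ρ) v hv (one_smul _ _)
  | cons s w ih =>
    obtain ⟨u', hu', hb'⟩ := ih (le_trans (Nat.le_succ _) hw)
    have h1 : gv s * ((π s.1 u').2 : G) ∈ F s.1 := by
      by_contra hcon
      exact hb' ⟨s.1, Or.inr ⟨gv s, s.2.2, hcon⟩⟩
    have h2 : wprod (s :: w) = gv s * wprod w := by simp [wprod]
    have h3 : SP π s u' = some ((π s.1).symm ((π s.1 u').1, ⟨gv s * ((π s.1 u').2 : G), h1⟩)) := by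
      unfold SP SP1
      rw [dif_pos h1]
    have h4 := hG.inF s u' _ h3
    have h5 : wprod (s :: w) • j v = j ((π s.1).symm ((π s.1 u').1, ⟨gv s * ((π s.1 u').2 : G), h1⟩)) := by
      rw [h2, mul_smul, hu', h4]
    exact ⟨_, h5, fun hu => h _ (wprod_mem_ball _ hw) _ hu h5⟩

theorem gd_count {X : Type} (hG : Glob S π j) (z : Fin n → X) (om : ∀ i, Fin (t i) → F i → X) (ρ : ℕ) :
    {v | ¬ gd S j (bad0 S z om π) ρ v}.ncard ≤ (ball S ρ).card * (bad0 S z om π).ncard := by
  classical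
  have h1 : ∀ v ∈ {v | ¬ gd S j (bad0 S z om π) ρ v}, ∃ p : G × Fin n, p.1 ∈ ball S ρ ∧
      p.2 ∈ bad0 S z om π ∧ p.1 • j v = j p.2 := by
    intro v hv
    by_contra hcon
    push Not at hcon
    apply hv
    intro g hg
    obtain ⟨w, hw, rfl⟩ := exists_word hg
    exact good_aux hG z om ρ v (fun g hg u hu => hcon (g, u) hg hu) w hw
  choose! f hf1 hf2 hf3 using h1
  rw [← Set.ncard_coe_finset (ball S ρ), ← Set.ncard_prod]
  refine Set.ncard_le_ncard_of_injOn f (fun v hv => ⟨hf1 v hv, hf2 v hv⟩) ?_ (Set.toFinite _)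
  intro v hv v' hv' hvv
  have h2 := hf3 v hv
  rw [hvv, ← hf3 v' hv'] at h2
  exact hG.inj (smul_left_cancel _ h2)

private lemma z_step (hG : Glob S π j) {z : Fin n → Ty S R Λ} {om : ∀ i, Fin (t i) → F i → Ty S R Λ}
    (hC : Cfg L N R z om) {v u : Fin n} (hv : v ∉ bad0 S z om π) (hu : u ∉ bad0 S z om π) {s : Gn S}
    (hs : gv s • j v = j u) (x : G) (hx : x ∈ ball S R) (hx' : x * gv s ∈ ball S R) :
    tex (z u) x = tex (z v) (x * gv s) := by
  have h1 := hG.outF s v u hs
  unfold SP SP1 at h1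
  split_ifs at h1 with h2
  rw [Option.some.injEq] at h1
  have h3 : π s.1 u = ((π s.1 v).1, ⟨gv s * ((π s.1 v).2 : G), h2⟩) := by
    rw [← h1, Equiv.apply_symm_apply]
  have hmv : om s.1 (π s.1 v).1 (π s.1 v).2 = z v := by
    by_contra hcon
    exact hv ⟨s.1, Or.inl hcon⟩
  have hmu : om s.1 (π s.1 u).1 (π s.1 u).2 = z u := by
    by_contra hcon
    exact hu ⟨s.1, Or.inl hcon⟩
  obtain ⟨η, hη⟩ := hC.hom s.1 (π s.1 v).1
  unfold tex
  rw [dif_pos hx, dif_pos hx', ← hmv, ← hmu, h3, hη, hη]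
  simp only [mul_assoc]

private lemma z_word (hG : Glob S π j) {z : Fin n → Ty S R Λ} {om : ∀ i, Fin (t i) → F i → Ty S R Λ}
    (hC : Cfg L N R z om) (k : ℕ) (hk : k ≤ R) {v : Fin n} (hv : gd S j (bad0 S z om π) k v)
    (w : List (Gn S)) (hw : w.length ≤ k) (u : Fin n) (hu : wprod w • j v = j u) (x : G)
    (hx : x ∈ ball S (R - w.length)) : tex (z u) x = tex (z v) (x * wprod w) := by
  induction w generalizing u x with
  | nil =>
    have h1 : wprod ([] : List (Gn S)) = 1 := by simp [wprod]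
    rw [h1, one_smul] at hu
    rw [h1, mul_one, hG.inj hu]
  | cons s w ih =>
    have hw' : w.length ≤ k := le_trans (Nat.le_succ _) hw
    have h2 : wprod (s :: w) = gv s * wprod w := by simp [wprod]
    obtain ⟨u', hu', hb'⟩ := hv _ (wprod_mem_ball w hw')
    obtain ⟨u'', hu'', hb''⟩ := hv _ (wprod_mem_ball (s :: w) hw)
    have h3 : u'' = u := hG.inj (by rw [← hu'', ← hu])
    subst h3
    have h4 : gv s • j u' = j u'' := by rw [← hu', ← mul_smul, ← h2, hu'']
    have hl : R - (s :: w).length + 1 = R - w.length := by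
      rw [List.length_cons] at hw ⊢
      omega
    have h5 : x * gv s ∈ ball S (R - w.length) := by
      rw [← hl]; exact mul_mem_ball hx (gv_mem_ball s)
    rw [z_step hG hC hb' hb'' h4 x (ball_mono (Nat.sub_le _ _) hx)
      (ball_mono (Nat.sub_le _ _) h5), ih hw' u' hu' (x * gv s) h5, h2, mul_assoc]

theorem z_ball (hG : Glob S π j) {z : Fin n → Ty S R Λ} {om : ∀ i, Fin (t i) → F i → Ty S R Λ}
    (hC : Cfg L N R z om) (k : ℕ) (hk : k ≤ R) {v u : Fin n} (hv : gd S j (bad0 S z om π) k v) {g : G}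
    (hg : g ∈ ball S k) (hu : g • j v = j u) (x : G) (hx : x ∈ ball S (R - k)) :
    tex (z u) x = tex (z v) (x * g) := by
  obtain ⟨w, hw, rfl⟩ := exists_word hg
  exact z_word hG hC k hk hv w hw u hu x (ball_mono (Nat.sub_le_sub_left hw R) hx)

end H31.BE
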