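import Pool.Agent.H31.BE.Words

/-! # WordsL : elementary facts on balls, words, walks, evaluation  (module WordsL, ~120 lines)
`ball S r = (insert 1 (univ.biUnion S))^r` (Finset pointwise power, pow_succ, Finset.mem_mul). -/

set_option autoImplicit false

namespace H31.BE

open scoped Pointwise

variable {G I Λ V X : Type} [Group G] [DecidableEq G] [Fintype I] {S : I → Finset G}

theorem one_mem_ball (r : ℕ) : (1 : G) ∈ ball S r :=
  Finset.one_mem_pow (Finset.mem_insert_self _ _)

theorem ball_mono {r s : ℕ} (h : r ≤ s) : ball S r ⊆ ball S s :=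
  Finset.pow_subset_pow_right (Finset.mem_insert_self _ _) h

theorem ball_zero : ball S 0 = ({1} : Finset G) := by
  unfold ball
  rw [pow_zero]
  rfl

theorem mul_mem_ball {r s : ℕ} {g h : G} (hg : g ∈ ball S r) (hh : h ∈ ball S s) : g * h ∈ ball S (r + s) := by
  unfold ball at *
  rw [pow_add]
  exact Finset.mul_mem_mul hg hh

theorem gv_mem_ball (s : Gn S) : gv s ∈ ball S 1 := by
  unfold ball
  rw [pow_one]
  exact Finset.mem_insert_of_mem (Finset.mem_biUnion.2 ⟨s.1, Finset.mem_univ _, s.2.2⟩)

theorem wprod_mem_ball (w : List (Gn S)) {r : ℕ} (h : w.length ≤ r) : wprod w ∈ ball S r := by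
  refine ball_mono h ?_
  clear h
  induction w with
  | nil => exact one_mem_ball _
  | cons a w ih =>
    have h1 := mul_mem_ball (gv_mem_ball a) ih
    rw [add_comm] at h1
    exact h1

theorem exists_word {g : G} {r : ℕ} (hg : g ∈ ball S r) : ∃ w : List (Gn S), w.length ≤ r ∧ wprod w = g := by
  induction r generalizing g with
  | zero =>
    rw [ball_zero, Finset.mem_singleton] at hg
    exact ⟨[], le_rfl, hg.symm⟩
  | succ r ih =>
    have h1 : g ∈ (insert 1 (Finset.univ.biUnion S)) * ball S r := by
      unfold ball at hg ⊢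
      rwa [← pow_succ']
    obtain ⟨a, ha, b, hb, rfl⟩ := Finset.mem_mul.1 h1
    obtain ⟨w, hw, rfl⟩ := ih hb
    rcases Finset.mem_insert.1 ha with rfl | ha
    · exact ⟨w, by omega, (one_mul _).symm⟩
    · obtain ⟨i, -, hi⟩ := Finset.mem_biUnion.1 ha
      exact ⟨⟨i, a, hi⟩ :: w, by simpa using hw, rfl⟩

/-- if every letter value has its inverse among the letters, balls are symmetric -/
theorem inv_mem_ball (hS : ∀ i, ∀ s ∈ S i, s⁻¹ ∈ S i) {g : G} {r : ℕ} (hg : g ∈ ball S r) : g⁻¹ ∈ ball S r := by
  obtain ⟨w, hw, rfl⟩ := exists_word hg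
  refine ball_mono hw ?_
  clear hw hg
  induction w with
  | nil =>
    have h1 : (wprod ([] : List (Gn S)))⁻¹ = 1 := by simp [wprod]
    rw [h1]
    exact one_mem_ball _
  | cons a w ih =>
    have h1 : (wprod (a :: w))⁻¹ = (wprod w)⁻¹ * (gv a)⁻¹ := by
      simp [wprod, mul_inv_rev]
    rw [h1]
    have h2 : (gv a)⁻¹ = gv (⟨a.1, (gv a)⁻¹, hS a.1 _ a.2.2⟩ : Gn S) := rfl
    rw [h2]
    exact mul_mem_ball ih (gv_mem_ball _)

theorem wprod_append (w w' : List (Gn S)) : wprod (w ++ w') = wprod w * wprod w' := by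
  simp [wprod]

theorem walk_mem_ball (L : Lab S Λ) (t : G → Λ) (w : List (Gn S)) {r : ℕ} (h : w.length ≤ r) :
    walk L t w ∈ ball S (L.C * r) := by
  refine ball_mono (Nat.mul_le_mul_left _ h) ?_
  clear h
  induction w with
  | nil => exact one_mem_ball _
  | cons a w ih =>
    have h1 := mul_mem_ball (L.hc a (t (walk L t w))) ih
    have h2 : L.C + L.C * w.length = L.C * (a :: w).length := by
      rw [List.length_cons]; ring
    rw [h2] at h1
    exact h1

/-- walks only look at the positions in the ball of radius `C * (length - 1)` -/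
theorem walk_congr (L : Lab S Λ) (t t' : G → Λ) (w : List (Gn S)) {r : ℕ} (h : w.length ≤ r)
    (ht : ∀ g ∈ ball S (L.C * r), t g = t' g) : walk L t w = walk L t' w := by
  induction w with
  | nil => rfl
  | cons a w ih =>
    have h1 : w.length ≤ r := le_trans (Nat.le_succ _) h
    have h2 := ih h1
    have h3 := ht _ (walk_mem_ball L t w h1)
    change L.c a (t (walk L t w)) * walk L t w = L.c a (t' (walk L t' w)) * walk L t' w
    rw [h3, h2]

theorem ev_append (f : X → V → Option V) (w w' : List X) (v : V) :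
    ev f (w ++ w') v = (ev f w' v).bind (ev f w) := by
  induction w with
  | nil =>
    change ev f w' v = (ev f w' v).bind (fun v => some v)
    cases ev f w' v <;> rfl
  | cons a w ih =>
    change (ev f (w ++ w') v).bind (f a) = (ev f w' v).bind (fun v => (ev f w v).bind (f a))
    rw [ih]
    cases ev f w' v <;> rfl

end H31.BE
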