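import Pool.Agent.H31.BE.FDefs
import Pool.Agent.H31.BE.WordsL
import Pool.Agent.H31.BE.CntDefs

/-! # GrpT : from abstract factors to subgroups  (module GrpT, ~110 lines)
φ : A →* G injective, H := φ.range. `subF_range`: K ⊆ H finite: preimage K' (Finset.preimage), F' from SubFol, F := image of F' under φ;
(K * F) \ F = image of (K' * F') \ F'. `series_range`: t := φ ∘ t', S := {t j, (t j)⁻¹} (Finset.univ.image ..); closures are mapped by φ
(`MonoidHom.map_closure`). `ball_univ`: the union of the balls is a subgroup (`mul_mem_ball`, `inv_mem_ball`, `one_mem_ball`) containing all S i,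
hence all H i = closure (S i), hence everything. -/

set_option autoImplicit false

namespace H31.BE

open scoped Pointwise

theorem subF_range {A G : Type} [Group A] [Group G] [DecidableEq G] (φ : A →* G) (hφ : Function.Injective φ)
    (h : SubFol A) : SubF φ.range := by
  classical
  intro K hK η hη
  obtain ⟨k0, hk0⟩ := h (K.preimage φ hφ.injOn) η hη
  refine ⟨k0, fun k hk => ?_⟩
  obtain ⟨F, hF1, hF2, hF3⟩ := hk0 k hk
  have himK : (K.preimage φ hφ.injOn).image φ = K := by
    ext g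
    rw [Finset.mem_image]
    constructor
    · rintro ⟨a, ha, rfl⟩
      exact Finset.mem_preimage.1 ha
    · intro hg
      obtain ⟨a, ha⟩ := hK g hg
      exact ⟨a, Finset.mem_preimage.2 (ha ▸ hg), ha⟩
  refine ⟨F.image φ, hF1.image φ, ?_, ?_, ?_⟩
  · intro g hg
    obtain ⟨a, _, rfl⟩ := Finset.mem_image.1 hg
    exact ⟨a, rfl⟩
  · have h1 : (K * F.image φ) \ F.image φ = (((K.preimage φ hφ.injOn) * F) \ F).image φ := by
      rw [Finset.image_sdiff _ _ hφ, Finset.image_mul, himK]
    rw [h1, Finset.card_image_of_injective _ hφ, Finset.card_image_of_injective _ hφ]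
    exact hF2
  · rw [Finset.card_image_of_injective _ hφ]
    exact hF3

theorem series_range {A G : Type} [Group A] [Group G] [DecidableEq G] (φ : A →* G) (hφ : Function.Injective φ)
    (h : HasSeries A) : ∃ (S : Finset G) (q : ℕ) (t : Fin (q + 1) → G), Series φ.range S q t := by
  classical
  obtain ⟨q, t, h1, h2, h3⟩ := h
  refine ⟨Finset.univ.image (fun j => φ (t j)) ∪ Finset.univ.image (fun j => (φ (t j))⁻¹), q,
    fun j => φ (t j), ?_, ?_, ?_, ?_⟩
  · intro g
    simp only [Finset.mem_union, Finset.mem_image, Finset.mem_univ, true_and]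
    constructor
    · rintro (⟨j, rfl⟩ | ⟨j, rfl⟩)
      · exact ⟨j, Or.inl rfl⟩
      · exact ⟨j, Or.inr rfl⟩
    · rintro ⟨j, rfl | rfl⟩
      · exact Or.inl ⟨j, rfl⟩
      · exact Or.inr ⟨j, rfl⟩
  · have e : Set.range (fun j => φ (t j)) = φ '' Set.range t := by
      rw [← Set.range_comp]
      rfl
    rw [e, ← MonoidHom.map_closure, h1, ← MonoidHom.range_eq_map]
  · intro m hm hc
    apply h2 m hm
    apply hφ
    rw [map_pow, map_one]
    exact hc
  · intro j l hl
    have h4 := h3 j l hl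
    have h5 : φ (t j * t l * (t j)⁻¹) ∈
        (Subgroup.closure {g | ∃ i, i < j ∧ g = t i}).map φ := ⟨_, h4, rfl⟩
    rw [MonoidHom.map_closure] at h5
    rw [map_mul, map_mul, map_inv] at h5
    refine Subgroup.closure_mono ?_ h5
    rintro _ ⟨_, ⟨i, hi, rfl⟩, rfl⟩
    exact ⟨i, hi, rfl⟩

theorem series_closure {G : Type} [Group G] {H : Subgroup G} {S : Finset G} {q : ℕ} {t : Fin (q + 1) → G}
    (h : Series H S q t) : Subgroup.closure (S : Set G) = H ∧ ∀ s ∈ S, s⁻¹ ∈ S := by
  constructor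
  · rw [← h.gen]
    apply le_antisymm
    · rw [Subgroup.closure_le]
      intro g hg
      obtain ⟨j, hj | hj⟩ := (h.hS g).1 hg
      · rw [hj]
        exact Subgroup.subset_closure ⟨j, rfl⟩
      · rw [hj]
        exact Subgroup.inv_mem _ (Subgroup.subset_closure ⟨j, rfl⟩)
    · apply Subgroup.closure_mono
      rintro _ ⟨j, rfl⟩
      exact (h.hS _).2 ⟨j, Or.inl rfl⟩
  · intro s hs
    obtain ⟨j, hj | hj⟩ := (h.hS s).1 hs
    · exact (h.hS _).2 ⟨j, Or.inr (by rw [hj])⟩
    · exact (h.hS _).2 ⟨j, Or.inl (by rw [hj, inv_inv])⟩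

theorem ball_univ {G I : Type} [Group G] [DecidableEq G] [Fintype I] (H : I → Subgroup G) (hH : (⨆ i, H i) = ⊤)
    (S : I → Finset G) (hS : ∀ i, Subgroup.closure (S i : Set G) = H i) (hsym : ∀ i, ∀ s ∈ S i, s⁻¹ ∈ S i) (g : G) :
    ∃ r, g ∈ ball S r := by
  let K : Subgroup G :=
    { carrier := {g | ∃ r, g ∈ ball S r}
      mul_mem' := by
        rintro a b ⟨r, hr⟩ ⟨r', hr'⟩
        exact ⟨r + r', mul_mem_ball hr hr'⟩
      one_mem' := ⟨0, one_mem_ball 0⟩
      inv_mem' := by
        rintro a ⟨r, hr⟩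
        exact ⟨r, inv_mem_ball hsym hr⟩ }
  have hle : (⨆ i, H i) ≤ K := by
    apply iSup_le
    intro i
    rw [← hS i, Subgroup.closure_le]
    intro s hs
    exact ⟨1, gv_mem_ball (⟨i, ⟨s, hs⟩⟩ : Gn S)⟩
  rw [hH] at hle
  exact hle (Subgroup.mem_top g)

end H31.BE
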