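import Pool.Agent.H31.BE.OEDef

/-! # LabAdm : the labelled configuration of a good point is admissible (paper (A1)-(A4); module LabAdm, ~90 lines)
Deterministic. y is a GoodPt, lb : Bsh G → Λ with L.c s (lb z) = c s z and wprod (L.bw s (lb z)) = b s z for all z; t g := lb (g•y).
(1) `walk_eq`: T (wprod w • S y) = walk L t w • y, and S (walk L t w • y) = wprod w • S y. Induction on w: w = s :: w', g' := walk w':
    S(g'•y) = S(T(wprod w'•S y)) = wprod w'•S y (hST), so T(gv s • wprod w' • S y) = T(gv s • S(g'•y)) = c s (g'•y) • g' • y and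
    c s (g'•y) = L.c s (t g').
(2) `adm_of_good`: a1: walk(bw s (t 1)) • y = T(b s y • S y) = T(S(gv s • y)) = gv s • y, then freeY (a•y = b•y → a = b). a2: T of the same point.
    a3: walk = 1 would give T(wprod w • S y) = y, so wprod w • S y = S(T(..)) = S y, contradiction to freeX. a4 is the hypothesis. -/

set_option autoImplicit false

open MeasureTheory

namespace H31.BE

variable {G I Λ : Type} [Group G] [DecidableEq G] [Fintype I] {S' : I → Finset G}

theorem walk_eq {T S : Bsh G → Bsh G} {c b : Gn S' → Bsh G → G} {y : Bsh G} (h : GoodPt T S c b y)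
    (L : Lab S' Λ) (lb : Bsh G → Λ) (h1 : ∀ s z, L.c s (lb z) = c s z) (w : List (Gn S')) :
    T (wprod w • S y) = walk L (fun g => lb (g • y)) w • y ∧
      S (walk L (fun g => lb (g • y)) w • y) = wprod w • S y := by
  induction w with
  | nil =>
    have h0 := h.hTS 1
    simp only [one_smul] at h0
    simp [walk, wprod, h0]
  | cons s w' ih =>
    obtain ⟨ih1, ih2⟩ := ih
    have key : T (wprod (s :: w') • S y) = walk L (fun g => lb (g • y)) (s :: w') • y := by
      have e1 : wprod (s :: w') = gv s * wprod w' := by simp [wprod]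
      rw [e1, mul_smul, ← ih2, h.hc]
      show _ = (L.c s (lb (walk L (fun g => lb (g • y)) w' • y)) * walk L (fun g => lb (g • y)) w') • y
      rw [h1, mul_smul]
    refine ⟨key, ?_⟩
    rw [← key, h.hST]

theorem adm_of_good {T S : Bsh G → Bsh G} {c b : Gn S' → Bsh G → G} {y : Bsh G} (h : GoodPt T S c b y)
    (L : Lab S' Λ) (lb : Bsh G → Λ) (h1 : ∀ s z, L.c s (lb z) = c s z)
    (h2 : ∀ s z, wprod (L.bw s (lb z)) = b s z) (N : ℕ)
    (h4 : ∀ g ∈ ball S' (L.C * N), g ≠ 1 → lb (g • y) ≠ lb y) :
    Adm L N (fun g => lb (g • y)) := by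
  have inj : ∀ a b : G, a • y = b • y → a = b := by
    intro a b hab
    by_contra hne
    have h3 : (b⁻¹ * a) ≠ 1 := by
      intro h4
      apply hne
      have := congrArg (fun x => b * x) h4
      simpa using this
    apply h.freeY _ h3
    rw [mul_smul, hab, inv_smul_smul]
  refine ⟨?_, ?_, ?_, ?_⟩
  · intro s
    apply inj
    rw [← (walk_eq h L lb h1 _).1]
    simp only [one_smul]
    have hb := h.hb 1 s
    simp only [one_smul] at hb
    rw [h2, ← hb, h.hTS]
  · intro w w' _ _ hw
    apply inj
    rw [← (walk_eq h L lb h1 w).1, ← (walk_eq h L lb h1 w').1, hw]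
  · intro w _ hw h3
    have h4 := (walk_eq h L lb h1 w).2
    rw [h3, one_smul] at h4
    exact h.freeX _ hw h4.symm
  · intro g hg hg1
    simp only [one_smul]
    exact h4 g hg hg1

end H31.BE
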