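import Mathlib

/-! # MStab : the multinomial lower bound and the best matching  (paper 3.1 and section 3; module MStab, ~130 lines)
`stab_lower`: all z ∘ ρ, ρ ∈ Perm (Fin n), have the same weight ∏ v, μ (z v) (`Equiv.prod_comp`), there are n!/|Stab z| different ones
(orbit stabiliser; or: the map ρ ↦ z ∘ ρ has fibres with |Stab z| elements, all fibres are cosets; `Finset.card_eq_of_equiv`..,
`Finset.sum_comp` ...), and the sum of the weights over all functions Fin n → X is (∑ μ)^n = 1. So n! * ∏ μ(z v) <= |Stab z| * 1.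
`match_bij`: a : V → X, b : W → X, |V| = |W|. In every class x match min(#a⁻¹x, #b⁻¹x) pairs, then the rest arbitrarily: mismatched
vertices: ∑ x (#a⁻¹x - min) <= ∑ x |#a⁻¹x - #b⁻¹x|. (Induction alternative: take a bijection e with the least number of mismatches; if for some
x there are more than |#a⁻¹x - #b⁻¹x| mismatched v with a v = x, then some w with b w = x is hit by a v' with a v' ≠ x, and a swap of the
images of v and v' gives fewer mismatches.) -/

set_option autoImplicit false

namespace H31.BE

theorem stab_lower {X : Type} [Fintype X] [DecidableEq X] (μ : X → ℝ) (h0 : ∀ x, 0 ≤ μ x) (h1 : ∑ x, μ x = 1)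
    (n : ℕ) (z : Fin n → X) :
    (n.factorial : ℝ) * ∏ v, μ (z v) ≤ Nat.card {ρ : Equiv.Perm (Fin n) // ∀ v, z (ρ v) = z v} := by
  classical
  have e1 : (n.factorial : ℝ) * ∏ v, μ (z v) = ∑ ρ : Equiv.Perm (Fin n), ∏ v, μ (z (ρ v)) := by
    have : ∀ ρ : Equiv.Perm (Fin n), ∏ v, μ (z (ρ v)) = ∏ v, μ (z v) :=
      fun ρ => Equiv.prod_comp ρ (fun v => μ (z v))
    rw [Finset.sum_congr rfl (fun ρ _ => this ρ), Finset.sum_const, Finset.card_univ,
      Fintype.card_perm, Fintype.card_fin, nsmul_eq_mul]
  have e2 : ∑ ρ : Equiv.Perm (Fin n), ∏ v, μ (z (ρ v)) =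
      ∑ y : Fin n → X, ∑ ρ ∈ Finset.univ.filter (fun ρ : Equiv.Perm (Fin n) => (fun v => z (ρ v)) = y),
        ∏ v, μ (z (ρ v)) :=
    (Finset.sum_fiberwise Finset.univ (fun ρ : Equiv.Perm (Fin n) => (fun v => z (ρ v)))
      (fun ρ => ∏ v, μ (z (ρ v)))).symm
  rw [e1, e2]
  have hcard : ∀ y : Fin n → X,
      (Finset.univ.filter (fun ρ : Equiv.Perm (Fin n) => (fun v => z (ρ v)) = y)).card ≤
      Nat.card {ρ : Equiv.Perm (Fin n) // ∀ v, z (ρ v) = z v} := by
    intro y
    rw [Nat.card_eq_fintype_card, Fintype.card_subtype]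
    rcases (Finset.univ.filter
      (fun ρ : Equiv.Perm (Fin n) => (fun v => z (ρ v)) = y)).eq_empty_or_nonempty with h | ⟨ρ0, hρ0⟩
    · rw [h]; simp
    · refine Finset.card_le_card_of_injOn (fun ρ => ρ0.symm.trans ρ) ?_ ?_
      · intro ρ hρ
        simp only [Finset.coe_filter, Finset.mem_univ, true_and, Set.mem_setOf_eq] at hρ hρ0 ⊢
        simp only [Finset.mem_filter, Finset.mem_univ, true_and] at hρ0
        intro v
        have h2 := congrFun hρ (ρ0.symm v)
        have h3 := congrFun hρ0 (ρ0.symm v)
        simp only [Equiv.apply_symm_apply] at h3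
        simp only [Equiv.trans_apply]
        exact h2.trans h3.symm
      · intro ρ _ ρ' _ h
        refine Equiv.ext (fun v => ?_)
        have := congrArg (fun e : Equiv.Perm (Fin n) => e (ρ0 v)) h
        simpa using this
  calc ∑ y : Fin n → X, ∑ ρ ∈ Finset.univ.filter
        (fun ρ : Equiv.Perm (Fin n) => (fun v => z (ρ v)) = y), ∏ v, μ (z (ρ v))
      = ∑ y : Fin n → X, ((Finset.univ.filter
        (fun ρ : Equiv.Perm (Fin n) => (fun v => z (ρ v)) = y)).card : ℝ) * ∏ v, μ (y v) := by
        refine Finset.sum_congr rfl (fun y _ => ?_)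
        rw [Finset.sum_congr rfl (g := fun _ => ∏ v, μ (y v)), Finset.sum_const, nsmul_eq_mul]
        intro ρ hρ
        have := (Finset.mem_filter.1 hρ).2
        exact Finset.prod_congr rfl (fun v _ => by rw [← this])
    _ ≤ ∑ y : Fin n → X, (Nat.card {ρ : Equiv.Perm (Fin n) // ∀ v, z (ρ v) = z v} : ℝ) *
          ∏ v, μ (y v) := by
        refine Finset.sum_le_sum (fun y _ => ?_)
        refine mul_le_mul_of_nonneg_right ?_ (Finset.prod_nonneg (fun v _ => h0 _))
        exact_mod_cast hcard y
    _ = Nat.card {ρ : Equiv.Perm (Fin n) // ∀ v, z (ρ v) = z v} := by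
        rw [← Finset.mul_sum]
        have e3 : ∑ y : Fin n → X, ∏ v, μ (y v) = 1 := by
          have := Finset.prod_univ_sum (fun _ : Fin n => (Finset.univ : Finset X)) (fun _ x => μ x)
          rw [Fintype.piFinset_univ] at this
          rw [← this]
          simp [h1]
        rw [e3, mul_one]

theorem match_bij {V W X : Type} [Fintype V] [Fintype W] [Fintype X] [DecidableEq X]
    (h : Fintype.card V = Fintype.card W) (a : V → X) (b : W → X) :
    ∃ e : V ≃ W, ({v | b (e v) ≠ a v}.ncard : ℝ) ≤
      ∑ x, |(({v | a v = x}.ncard : ℝ) - ({w | b w = x}.ncard : ℝ))| := by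
  classical
  have hne : (Finset.univ : Finset (V ≃ W)).Nonempty := ⟨Fintype.equivOfCardEq h, Finset.mem_univ _⟩
  obtain ⟨e, -, he⟩ := Finset.exists_min_image Finset.univ
    (fun e : V ≃ W => (Finset.univ.filter (fun v => b (e v) ≠ a v)).card) hne
  refine ⟨e, ?_⟩
  have hcast : ∀ (p : V → Prop) [DecidablePred p], {v | p v}.ncard = (Finset.univ.filter p).card := by
    intro p _
    rw [← Set.ncard_coe_finset]
    congr 1
    ext v
    simp
  have hcastW : ∀ (p : W → Prop) [DecidablePred p], {v | p v}.ncard = (Finset.univ.filter p).card := by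
    intro p _
    rw [← Set.ncard_coe_finset]
    congr 1
    ext v
    simp
  rw [hcast (fun v => b (e v) ≠ a v)]
  set p : X → ℕ := fun x => (Finset.univ.filter (fun v => b (e v) ≠ a v ∧ a v = x)).card with hp
  set q : X → ℕ := fun x => (Finset.univ.filter (fun v => b (e v) ≠ a v ∧ b (e v) = x)).card with hq
  set m : X → ℕ := fun x => (Finset.univ.filter (fun v => b (e v) = a v ∧ a v = x)).card with hm
  have ha : ∀ x, {v | a v = x}.ncard = m x + p x := by
    intro x
    rw [hcast (fun v => a v = x), hm, hp]
    simp only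
    rw [← Finset.card_union_of_disjoint]
    · congr 1
      ext v
      simp only [Finset.mem_filter, Finset.mem_univ, true_and, Finset.mem_union]
      tauto
    · rw [Finset.disjoint_filter]
      intro v _ h1 h2
      exact h2.1 h1.1
  have hb : ∀ x, {w | b w = x}.ncard = m x + q x := by
    intro x
    rw [hcastW (fun w => b w = x)]
    have h1 : (Finset.univ.filter (fun w => b w = x)).card =
        (Finset.univ.filter (fun v => b (e v) = x)).card := by
      refine (Finset.card_bij (fun v _ => e v) ?_ ?_ ?_).symm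
      · intro v hv; simpa using hv
      · intro v _ v' _ h2; exact e.injective h2
      · intro w hw
        exact ⟨e.symm w, by simpa using hw, by simp⟩
    rw [h1, hm, hq]
    simp only
    rw [← Finset.card_union_of_disjoint]
    · congr 1
      ext v
      simp only [Finset.mem_filter, Finset.mem_univ, true_and, Finset.mem_union]
      constructor
      · intro h2
        by_cases h3 : b (e v) = a v
        · exact Or.inl ⟨h3, by rw [← h3, h2]⟩
        · exact Or.inr ⟨h3, h2⟩
      · rintro (⟨h2, h3⟩ | ⟨_, h3⟩)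
        · rw [h2, h3]
        · exact h3
    · rw [Finset.disjoint_filter]
      intro v _ h1 h2
      exact h2.1 h1.1
  have hzero : ∀ x, p x = 0 ∨ q x = 0 := by
    intro x
    by_contra hcon
    push Not at hcon
    obtain ⟨v, hv⟩ := Finset.card_pos.1 (Nat.pos_of_ne_zero hcon.1)
    obtain ⟨v', hv'⟩ := Finset.card_pos.1 (Nat.pos_of_ne_zero hcon.2)
    simp only [Finset.mem_filter, Finset.mem_univ, true_and] at hv hv'
    have hvv : v ≠ v' := by
      rintro rfl
      exact hv.1 (hv'.2.trans hv.2.symm)
    have hlt : (Finset.univ.filter (fun u => b (((Equiv.swap v v').trans e) u) ≠ a u)).card <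
        (Finset.univ.filter (fun u => b (e u) ≠ a u)).card := by
      refine Finset.card_lt_card ?_
      rw [Finset.ssubset_iff_of_subset]
      · refine ⟨v, by simpa using hv.1, ?_⟩
        simp only [Finset.mem_filter, Finset.mem_univ, true_and, not_not, Equiv.trans_apply,
          Equiv.swap_apply_left]
        rw [hv'.2, hv.2]
      · intro u hu
        simp only [Finset.mem_filter, Finset.mem_univ, true_and, Equiv.trans_apply] at hu ⊢
        by_cases h1 : u = v
        · rw [h1]; exact hv.1
        · by_cases h2 : u = v'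
          · rw [h2]; exact hv'.1
          · rwa [Equiv.swap_apply_of_ne_of_ne h1 h2] at hu
    exact absurd (he _ (Finset.mem_univ _)) (not_le.2 hlt)
  have hsum : (Finset.univ.filter (fun v => b (e v) ≠ a v)).card = ∑ x, p x := by
    rw [Finset.card_eq_sum_card_fiberwise (f := a) (t := Finset.univ) (fun _ _ => by simp)]
    refine Finset.sum_congr rfl (fun x _ => ?_)
    rw [hp, Finset.filter_filter]
  rw [hsum]
  push_cast
  refine Finset.sum_le_sum (fun x _ => ?_)
  rw [ha, hb]
  push_cast
  have h3 : (m x : ℝ) + p x - (m x + q x) = p x - q x := by ring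
  rw [h3]
  rcases hzero x with h4 | h4
  · rw [h4]; simp
  · rw [h4]
    simp

end H31.BE
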