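import Mathlib

/-! # MWgt : weights on finite sets  (module MWgt, ~110 lines)
`wgt_measure`: take `⊤` as measurable space and Q := ∑ ω, ENNReal.ofReal (w ω) • Measure.dirac ω.
`pw_sum`: `Finset.prod_univ_sum` / `Fintype.piFinset_univ`. `pw_marg`: replace p i0 by p i0 * φ in one coordinate
(`Function.update`), the same formula. `pw_marg2`: two coordinates. `pw_var`: the second moment
E (∑ i, g i (x i))^2 = ∑ i E g_i^2 if E g_i = 0 (expand the square, `pw_marg` for i = j, `pw_marg2` for i ≠ j), then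
(E|X|)^2 <= E X^2 (Cauchy-Schwarz with weights, `inner_mul_le_norm_mul_norm` or `Finset.sum_mul_sq_le_sq_mul_sq`). -/

set_option autoImplicit false

open MeasureTheory

namespace H31.BE

theorem wgt_measure {Ω : Type} [Fintype Ω] (w : Ω → ℝ) (h0 : ∀ ω, 0 ≤ w ω) (h1 : ∑ ω, w ω = 1) :
    ∃ (_ : MeasurableSpace Ω) (_ : DiscreteMeasurableSpace Ω) (Q : Measure Ω), IsProbabilityMeasure Q ∧
      (∀ ω, Q.real {ω} = w ω) ∧ (∀ f : Ω → ℝ, ∫ ω, f ω ∂Q = ∑ ω, w ω * f ω) := by
  classical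
  letI : MeasurableSpace Ω := ⊤
  haveI : DiscreteMeasurableSpace Ω := ⟨fun _ => trivial⟩
  let Q : Measure Ω := ∑ ω, ENNReal.ofReal (w ω) • Measure.dirac ω
  have hsing : ∀ ω, Q {ω} = ENNReal.ofReal (w ω) := by
    intro ω
    simp only [Q, Measure.coe_finsetSum, Finset.sum_apply, Measure.smul_apply, smul_eq_mul]
    rw [Finset.sum_eq_single ω]
    · simp
    · intro b _ hb
      rw [Measure.dirac_apply' _ (MeasurableSet.of_discrete)]
      simp [hb]
    · simp
  have huniv : Q Set.univ = 1 := by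
    simp only [Q, Measure.coe_finsetSum, Finset.sum_apply, Measure.smul_apply, smul_eq_mul,
      measure_univ, mul_one]
    rw [← ENNReal.ofReal_sum_of_nonneg (fun i _ => h0 i), h1, ENNReal.ofReal_one]
  haveI hQ : IsProbabilityMeasure Q := ⟨huniv⟩
  have hreal : ∀ ω, Q.real {ω} = w ω := fun ω => by
    rw [measureReal_def, hsing, ENNReal.toReal_ofReal (h0 ω)]
  refine ⟨inferInstance, inferInstance, Q, hQ, hreal, fun f => ?_⟩
  rw [integral_fintype Integrable.of_finite]
  exact Finset.sum_congr rfl (fun ω _ => by rw [hreal, smul_eq_mul])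

variable {ι : Type} [Fintype ι] [DecidableEq ι] {α : ι → Type} [∀ i, Fintype (α i)]

private theorem pw_fac (q : ∀ i, α i → ℝ) :
    ∑ x : ∀ i, α i, ∏ i, q i (x i) = ∏ i, ∑ a, q i a := by
  rw [Finset.prod_univ_sum, Fintype.piFinset_univ]

theorem pw_sum (p : ∀ i, α i → ℝ) (hp : ∀ i, ∑ a, p i a = 1) : ∑ x : ∀ i, α i, ∏ i, p i (x i) = 1 := by
  rw [pw_fac]
  exact Finset.prod_eq_one (fun i _ => hp i)

theorem pw_marg (p : ∀ i, α i → ℝ) (hp : ∀ i, ∑ a, p i a = 1) (i0 : ι) (φ : α i0 → ℝ) :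
    ∑ x : ∀ i, α i, (∏ i, p i (x i)) * φ (x i0) = ∑ a, p i0 a * φ a := by
  have h := pw_fac (fun i a => p i a * (if h : i = i0 then φ (h ▸ a) else 1))
  have hl : ∀ x : ∀ i, α i, ∏ i, (p i (x i) * (if h : i = i0 then φ (h ▸ x i) else 1)) =
      (∏ i, p i (x i)) * φ (x i0) := by
    intro x
    rw [Finset.prod_mul_distrib]
    congr 1
    rw [Finset.prod_eq_single i0 (fun b _ hb => by rw [dif_neg hb]) (by simp)]
    simp
  have hr : ∏ i, ∑ a, p i a * (if h : i = i0 then φ (h ▸ a) else 1) = ∑ a, p i0 a * φ a := by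
    rw [Finset.prod_eq_single i0 (fun b _ hb => by simp [hb, hp]) (by simp)]
    simp
  rw [← hr, ← h]
  exact Finset.sum_congr rfl (fun x _ => (hl x).symm)

theorem pw_marg2 (p : ∀ i, α i → ℝ) (hp : ∀ i, ∑ a, p i a = 1) (i0 i1 : ι) (h : i0 ≠ i1) (φ : α i0 → ℝ)
    (ψ : α i1 → ℝ) :
    ∑ x : ∀ i, α i, (∏ i, p i (x i)) * (φ (x i0) * ψ (x i1)) = (∑ a, p i0 a * φ a) * ∑ a, p i1 a * ψ a := by
  have hf := pw_fac (fun i a => p i a * ((if h : i = i0 then φ (h ▸ a) else 1) *
    (if h : i = i1 then ψ (h ▸ a) else 1)))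
  have hl : ∀ x : ∀ i, α i, ∏ i, (p i (x i) * ((if h : i = i0 then φ (h ▸ x i) else 1) *
      (if h : i = i1 then ψ (h ▸ x i) else 1))) =
      (∏ i, p i (x i)) * (φ (x i0) * ψ (x i1)) := by
    intro x
    rw [Finset.prod_mul_distrib, Finset.prod_mul_distrib]
    congr 2
    · rw [Finset.prod_eq_single i0 (fun b _ hb => by rw [dif_neg hb]) (by simp)]
      simp
    · rw [Finset.prod_eq_single i1 (fun b _ hb => by rw [dif_neg hb]) (by simp)]
      simp
  have hr : ∏ i, ∑ a, p i a * ((if h : i = i0 then φ (h ▸ a) else 1) *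
      (if h : i = i1 then ψ (h ▸ a) else 1)) = (∑ a, p i0 a * φ a) * ∑ a, p i1 a * ψ a := by
    rw [← Finset.prod_subset (Finset.subset_univ {i0, i1}), Finset.prod_pair h]
    · simp [h, h.symm]
    · intro i _ hi
      have hi0 : i ≠ i0 := fun e => hi (by simp [e])
      have hi1 : i ≠ i1 := fun e => hi (by simp [e])
      simp [hi0, hi1, hp]
  rw [← hr, ← hf]
  exact Finset.sum_congr rfl (fun x _ => (hl x).symm)

/-- mean absolute deviation of a sum of independent bounded terms -/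
theorem pw_dev (p : ∀ i, α i → ℝ) (h0 : ∀ i a, 0 ≤ p i a) (hp : ∀ i, ∑ a, p i a = 1)
    (φ : ∀ i, α i → ℝ) (c B : ℝ) (hc : ∀ i, ∑ a, p i a * φ i a = c) (hB : ∀ i a, |φ i a - c| ≤ B) :
    ∑ x : ∀ i, α i, (∏ i, p i (x i)) * |∑ i, φ i (x i) - Fintype.card ι * c| ≤ Real.sqrt (Fintype.card ι) * B := by
  set P : (∀ i, α i) → ℝ := fun x => ∏ i, p i (x i) with hP
  have hP0 : ∀ x, 0 ≤ P x := fun x => Finset.prod_nonneg (fun i _ => h0 i _)
  have hX : ∀ x : ∀ i, α i, ∑ i, φ i (x i) - Fintype.card ι * c = ∑ i, (φ i (x i) - c) := by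
    intro x
    rw [Finset.sum_sub_distrib]
    simp
  have hmean : ∀ i, ∑ a, p i a * (φ i a - c) = 0 := by
    intro i
    have : ∀ a, p i a * (φ i a - c) = p i a * φ i a - p i a * c := fun a => by ring
    rw [Finset.sum_congr rfl (fun a _ => this a), Finset.sum_sub_distrib, hc, ← Finset.sum_mul, hp]
    ring
  have hvar : ∑ x, P x * (∑ i, (φ i (x i) - c)) ^ 2 ≤ Fintype.card ι * B ^ 2 := by
    have e1 : ∀ x, P x * (∑ i, (φ i (x i) - c)) ^ 2 =
        ∑ i, ∑ j, P x * ((φ i (x i) - c) * (φ j (x j) - c)) := by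
      intro x
      rw [sq, Finset.sum_mul_sum, Finset.mul_sum]
      exact Finset.sum_congr rfl (fun i _ => Finset.mul_sum _ _ _)
    rw [Finset.sum_congr rfl (fun x _ => e1 x), Finset.sum_comm]
    have e2 : ∀ i ∈ (Finset.univ : Finset ι),
        ∑ x, ∑ j, P x * ((φ i (x i) - c) * (φ j (x j) - c)) ≤ B ^ 2 := by
      intro i _
      rw [Finset.sum_comm, Finset.sum_eq_single i]
      · have e3 := pw_marg p hp i (fun a => (φ i a - c) * (φ i a - c))
        have e4 : ∑ x, P x * ((φ i (x i) - c) * (φ i (x i) - c)) =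
            ∑ a, p i a * ((φ i a - c) * (φ i a - c)) := e3
        rw [e4]
        calc ∑ a, p i a * ((φ i a - c) * (φ i a - c)) ≤ ∑ a, p i a * B ^ 2 := by
              refine Finset.sum_le_sum (fun a _ => mul_le_mul_of_nonneg_left ?_ (h0 i a))
              have := hB i a
              rw [← sq, ← sq_abs]
              exact pow_le_pow_left₀ (abs_nonneg _) this 2
          _ = B ^ 2 := by rw [← Finset.sum_mul, hp, one_mul]
      · intro j _ hj
        have e3 := pw_marg2 p hp i j hj.symm (fun a => φ i a - c) (fun a => φ j a - c)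
        rw [hmean, hmean, mul_zero] at e3
        exact e3
      · simp
    calc ∑ i, ∑ x, ∑ j, P x * ((φ i (x i) - c) * (φ j (x j) - c)) ≤ ∑ _i : ι, B ^ 2 :=
          Finset.sum_le_sum e2
      _ = Fintype.card ι * B ^ 2 := by simp
  have hCS : (∑ x, P x * |∑ i, (φ i (x i) - c)|) ^ 2 ≤ Fintype.card ι * B ^ 2 := by
    have h1 := Finset.sum_mul_sq_le_sq_mul_sq Finset.univ (fun x => Real.sqrt (P x))
      (fun x => Real.sqrt (P x) * |∑ i, (φ i (x i) - c)|)
    have h2 : ∀ x, Real.sqrt (P x) * (Real.sqrt (P x) * |∑ i, (φ i (x i) - c)|) =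
        P x * |∑ i, (φ i (x i) - c)| := fun x => by
      rw [← mul_assoc, Real.mul_self_sqrt (hP0 x)]
    have h3 : ∀ x, Real.sqrt (P x) ^ 2 = P x := fun x => Real.sq_sqrt (hP0 x)
    have h4 : ∀ x, (Real.sqrt (P x) * |∑ i, (φ i (x i) - c)|) ^ 2 =
        P x * (∑ i, (φ i (x i) - c)) ^ 2 := fun x => by
      rw [mul_pow, h3, sq_abs]
    rw [Finset.sum_congr rfl (fun x _ => h2 x), Finset.sum_congr rfl (fun x _ => h3 x),
      Finset.sum_congr rfl (fun x _ => h4 x)] at h1
    have h5 : ∑ x, P x = 1 := pw_sum p hp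
    rw [h5, one_mul] at h1
    exact h1.trans hvar
  rw [Finset.sum_congr rfl (fun x _ => by rw [hX x])]
  rcases isEmpty_or_nonempty ι with hι | ⟨⟨i0⟩⟩
  · simp
  · have hne : Nonempty (α i0) := by
      by_contra hn
      rw [not_nonempty_iff] at hn
      have := hp i0
      simp at this
    have hB0 : 0 ≤ B := (abs_nonneg _).trans (hB i0 hne.some)
    refine abs_le_of_sq_le_sq' ?_ (by positivity) |>.2
    rw [mul_pow, Real.sq_sqrt (Nat.cast_nonneg _)]
    exact hCS

end H31.BE
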