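import Pool.Agent.H31.BE.MWgt
import Pool.Agent.H31.BE.MStab
import Pool.Agent.H31.BE.EntF

/-! # ModelEx : the random model  (paper section 3, 3.1; module ModelEx, ~220 lines; elementary, finite sums only)
X = types, μ = weights of one type, μi i = weights of a tile pattern, all one-point marginals of μi i are μ.
Ω := (Fin n → X) × (∀ i, Fin (t i) → Fi i → X) × (∀ i, Fin n ≃ Fin (t i) × Fi i), ω = (z, om, π).
For z and b = om i let e0 = e0 (z, b) : Fin n ≃ Fin (t i) × Fi i be as in `match_bij` (a := z, b (j, f) := om i j f) and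
C_i := {ρ.trans e0 | ρ ∈ Stab z}, |C_i| = |Stab z| =: s(z) >= 1. Weight w ω := ∏ v, μ (z v) * ∏ i ∏ j, μi i (om i j) * ∏ i (1[π i ∈ C_i] / s(z)).
(0) sum over π i of 1[π i ∈ C_i]/s(z) = 1 (`Finset.prod_univ_sum` for the product over i), so for every function φ of (z, om) the sum of w φ
 equals the sum over (z, om) of the first two factors times φ; `pw_sum`, `pw_marg` (for om: index set Σ i, Fin (t i), or two steps). Apply `wgt_measure`.
(b) `pw_marg` with φ = indicator. (c) if w ω > 0 then all factors are positive; the measure of {ω | w ω = 0} is 0.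
(d) for π i = ρ.trans e0 ∈ C_i: {v | om i (π i v) ≠ z v} = ρ⁻¹ {mismatches of e0} (z ρ = z), so the number is at most
 ∑ x |#{v | z v = x} - #{(j, f) | om i j f = x}| <= ∑ x (|#{v | z v = x} - n μ x| + |∑ j #{f | om i j f = x} - n μ x|); expectation by `pw_dev`: the first
 with B = 1: <= √n, the second with φ j (b) := #{f | b f = x}, c := |Fi| μ x (the marginals!), B := |Fi|: <= √(t i) |Fi| = n / √(t i).
(a) ent Q of the identity = ∑ w (- log w). If w ω > 0: - log w = - ∑ log μ (z v) - ∑ log μi (om i j) + m log s(z) and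
 log s(z) >= log n! + ∑ v log μ (z v) (`stab_lower`), m = card I. So - log w >= (m - 1) ∑ v log μ (z v) - ∑ log μi (om i j) + m log n!. Take
 expectations with `pw_marg`: (m - 1) n ∑ μ log μ + ∑ t i H(μi i) + m log n!. (I may be empty? then m = 0: s(z) does not occur, the same formula holds.) -/

set_option autoImplicit false

open MeasureTheory

namespace H31.BE

private lemma mx_fst {A B C : Type} [Fintype A] [Fintype B] [Fintype C] (W1 : A → ℝ) (W2 : B → ℝ)
    (k : A → B → C → ℝ) (h2 : ∑ b, W2 b = 1) (hk : ∀ a b, ∑ c, k a b c = 1) (φ : A → ℝ) :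
    ∑ ω : A × B × C, (W1 ω.1 * W2 ω.2.1 * k ω.1 ω.2.1 ω.2.2) * φ ω.1 = ∑ a, W1 a * φ a := by
  rw [Fintype.sum_prod_type]
  apply Finset.sum_congr rfl
  intro a _
  rw [Fintype.sum_prod_type]
  simp only
  have e : ∀ b, ∑ c, W1 a * W2 b * k a b c * φ a = W2 b * (W1 a * φ a) := by
    intro b
    rw [← Finset.sum_mul, ← Finset.mul_sum, hk]
    ring
  simp only [e]
  rw [← Finset.sum_mul, h2, one_mul]

private lemma mx_snd {A B C : Type} [Fintype A] [Fintype B] [Fintype C] (W1 : A → ℝ) (W2 : B → ℝ)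
    (k : A → B → C → ℝ) (h1 : ∑ a, W1 a = 1) (hk : ∀ a b, ∑ c, k a b c = 1) (φ : B → ℝ) :
    ∑ ω : A × B × C, (W1 ω.1 * W2 ω.2.1 * k ω.1 ω.2.1 ω.2.2) * φ ω.2.1 = ∑ b, W2 b * φ b := by
  rw [Fintype.sum_prod_type]
  have e : ∀ a, ∑ y : B × C, W1 a * W2 y.1 * k a y.1 y.2 * φ y.1 = W1 a * ∑ b, W2 b * φ b := by
    intro a
    rw [Fintype.sum_prod_type, Finset.mul_sum]
    apply Finset.sum_congr rfl
    intro b _
    simp only
    rw [← Finset.sum_mul, ← Finset.mul_sum, hk]
    ring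
  simp only [e]
  rw [← Finset.sum_mul, h1, one_mul]

/-- the mismatch numbers -/
private lemma mx_mis {V W X : Type} [Fintype V] [Fintype W] [Fintype X] (a : V → X) (b : W → X)
    (e : V ≃ W) (π : V ≃ W) (h : ∀ v, a (e.symm (π v)) = a v) :
    {v | b (π v) ≠ a v}.ncard = {v | b (e v) ≠ a v}.ncard := by
  have h1 : {v | b (π v) ≠ a v} = (π.trans e.symm) ⁻¹' {v | b (e v) ≠ a v} := by
    ext v
    simp only [Set.mem_ofPred_eq, Set.mem_preimage, Equiv.trans_apply, Equiv.apply_symm_apply, h v]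
  rw [h1]
  have h2 : (π.trans e.symm) '' ((π.trans e.symm) ⁻¹' {v | b (e v) ≠ a v}) =
      {v | b (e v) ≠ a v} := Equiv.image_preimage _ _
  conv_rhs => rw [← h2]
  exact (Set.ncard_image_of_injective _ (π.trans e.symm).injective).symm

private lemma mx_stab {n : ℕ} {W X : Type} [Fintype W] [DecidableEq X] [DecidableEq W]
    (z : Fin n → X) (e : Fin n ≃ W) :
    (Finset.univ.filter (fun π : Fin n ≃ W => ∀ v, z (e.symm (π v)) = z v)).card =
      Nat.card {ρ : Equiv.Perm (Fin n) // ∀ v, z (ρ v) = z v} := by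
  classical
  rw [Nat.card_eq_fintype_card, Fintype.card_subtype]
  apply Finset.card_bij (fun π _ => π.trans e.symm)
  · intro π hπ
    simpa using hπ
  · intro π _ π' _ h
    have h1 : (π.trans e.symm).trans e = (π'.trans e.symm).trans e := by rw [h]
    simpa [Equiv.trans_assoc] using h1
  · intro ρ hρ
    refine ⟨ρ.trans e, ?_, ?_⟩
    · simpa using hρ
    · simp [Equiv.trans_assoc]

theorem model_ex {X I : Type} [Fintype X] [Fintype I] (Fi : I → Type) [∀ i, Fintype (Fi i)]
    [∀ i, DecidableEq (Fi i)]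
    (μ : X → ℝ) (μ0 : ∀ x, 0 ≤ μ x) (μ1 : ∑ x, μ x = 1)
    (μi : ∀ i, (Fi i → X) → ℝ) (μi0 : ∀ i b, 0 ≤ μi i b) (μi1 : ∀ i, ∑ b, μi i b = 1)
    (marg : ∀ i (f : Fi i) (φ : X → ℝ), ∑ b, μi i b * φ (b f) = ∑ x, μ x * φ x)
    (n : ℕ) (t : I → ℕ) (hn : ∀ i, t i * Fintype.card (Fi i) = n) (ht : ∀ i, 1 ≤ t i) :
    ∃ (Ω : Type) (_ : Fintype Ω) (_ : MeasurableSpace Ω) (_ : DiscreteMeasurableSpace Ω) (Q : Measure Ω)
      (_ : IsProbabilityMeasure Q) (z : Ω → Fin n → X) (om : Ω → ∀ i, Fin (t i) → Fi i → X)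
      (π : Ω → ∀ i, Fin n ≃ Fin (t i) × Fi i),
      (∑ i, ((t i : ℝ) * (∑ b, Real.negMulLog (μi i b)) + Real.log n.factorial) -
          ((Fintype.card I : ℝ) - 1) * (n * ∑ x, Real.negMulLog (μ x)) ≤ ent Q (fun ω => (z ω, om ω, π ω))) ∧
      (∀ v x, Q.real {ω | z ω v = x} = μ x) ∧
      (∀ᵐ ω ∂Q, (∀ v, 0 < μ (z ω v)) ∧ ∀ i j, 0 < μi i (om ω i j)) ∧
      (∀ i, ∫ ω, ({v | om ω i (π ω i v).1 (π ω i v).2 ≠ z ω v}.ncard : ℝ) ∂Q ≤
        Fintype.card X * (Real.sqrt n + n / Real.sqrt (t i))) := by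
  classical
  -- the matchings
  have hcard : ∀ i, Fintype.card (Fin n) = Fintype.card (Fin (t i) × Fi i) := by
    intro i
    rw [Fintype.card_prod, Fintype.card_fin, Fintype.card_fin, hn i]
  have hmatch : ∀ i (z : Fin n → X) (b : Fin (t i) → Fi i → X),
      ∃ e : Fin n ≃ Fin (t i) × Fi i, ({v | b (e v).1 (e v).2 ≠ z v}.ncard : ℝ) ≤
        ∑ x, |(({v | z v = x}.ncard : ℝ) -
          ({w : Fin (t i) × Fi i | b w.1 w.2 = x}.ncard : ℝ))| := by
    intro i z b
    exact match_bij (hcard i) z (fun w => b w.1 w.2)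
  choose e0 he0 using hmatch
  let st : (Fin n → X) → ℕ := fun z => Nat.card {ρ : Equiv.Perm (Fin n) // ∀ v, z (ρ v) = z v}
  have hst : ∀ z, 1 ≤ st z := by
    intro z
    have : Nonempty {ρ : Equiv.Perm (Fin n) // ∀ v, z (ρ v) = z v} := ⟨⟨1, fun v => rfl⟩⟩
    exact Nat.card_pos
  let W1 : (Fin n → X) → ℝ := fun z => ∏ v, μ (z v)
  let W2 : (∀ i, Fin (t i) → Fi i → X) → ℝ := fun b => ∏ i, ∏ j, μi i (b i j)
  let k1 : ∀ i, (Fin n → X) → (Fin (t i) → Fi i → X) → (Fin n ≃ Fin (t i) × Fi i) → ℝ :=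
    fun i z b π => if (∀ v, z ((e0 i z b).symm (π v)) = z v) then (1 / (st z : ℝ)) else 0
  let k : (Fin n → X) → (∀ i, Fin (t i) → Fi i → X) → (∀ i, Fin n ≃ Fin (t i) × Fi i) → ℝ :=
    fun z b π => ∏ i, k1 i z (b i) (π i)
  let w : (Fin n → X) × (∀ i, Fin (t i) → Fi i → X) × (∀ i, Fin n ≃ Fin (t i) × Fi i) → ℝ :=
    fun ω => W1 ω.1 * W2 ω.2.1 * k ω.1 ω.2.1 ω.2.2
  have hW1 : ∑ z, W1 z = 1 := pw_sum (fun _ : Fin n => μ) (fun _ => μ1)
  have hW2i : ∀ i, ∑ b : Fin (t i) → Fi i → X, ∏ j, μi i (b j) = 1 := fun i =>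
    pw_sum (fun _ : Fin (t i) => μi i) (fun _ => μi1 i)
  have hW2 : ∑ b, W2 b = 1 :=
    pw_sum (fun i => fun b : Fin (t i) → Fi i → X => ∏ j, μi i (b j)) hW2i
  have hk1 : ∀ i z b, ∑ π, k1 i z b π = 1 := by
    intro i z b
    simp only [k1]
    rw [← Finset.sum_filter, Finset.sum_const, mx_stab z (e0 i z b), nsmul_eq_mul]
    have h1 : (st z : ℝ) ≠ 0 := by
      have := hst z
      positivity
    exact mul_one_div_cancel h1
  have hk : ∀ z b, ∑ π, k z b π = 1 := by
    intro z b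
    exact pw_sum (fun i => k1 i z (b i)) (fun i => hk1 i z (b i))
  have hk1n : ∀ i z b π, 0 ≤ k1 i z b π := by
    intro i z b π
    simp only [k1]
    split_ifs
    · positivity
    · exact le_rfl
  have hwn : ∀ ω, 0 ≤ w ω := by
    intro ω
    refine mul_nonneg (mul_nonneg ?_ ?_) ?_
    · exact Finset.prod_nonneg fun v _ => μ0 _
    · exact Finset.prod_nonneg fun i _ => Finset.prod_nonneg fun j _ => μi0 _ _
    · exact Finset.prod_nonneg fun i _ => hk1n _ _ _ _
  have E1 : ∀ φ : (Fin n → X) → ℝ, ∑ ω, w ω * φ ω.1 = ∑ z, W1 z * φ z := fun φ =>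
    mx_fst W1 W2 k hW2 hk φ
  have E2 : ∀ φ : (∀ i, Fin (t i) → Fi i → X) → ℝ, ∑ ω, w ω * φ ω.2.1 = ∑ b, W2 b * φ b :=
    fun φ => mx_snd W1 W2 k hW1 hk φ
  have hw1 : ∑ ω, w ω = 1 := by
    have := E1 (fun _ => 1)
    simpa [hW1] using this
  have Ez : ∀ (v : Fin n) (φ : X → ℝ), ∑ z, W1 z * φ (z v) = ∑ x, μ x * φ x := fun v φ =>
    pw_marg (fun _ : Fin n => μ) (fun _ => μ1) v φ
  have Eb : ∀ (i : I) (φ : (Fin (t i) → Fi i → X) → ℝ), ∑ b, W2 b * φ (b i) =
      ∑ c : Fin (t i) → Fi i → X, (∏ j, μi i (c j)) * φ c := fun i φ =>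
    pw_marg (fun i => fun b : Fin (t i) → Fi i → X => ∏ j, μi i (b j)) hW2i i φ
  -- positivity
  have hpos : ∀ ω, w ω ≠ 0 → (∀ v, 0 < μ (ω.1 v)) ∧ (∀ i j, 0 < μi i (ω.2.1 i j)) ∧
      ∀ i v, ω.1 ((e0 i ω.1 (ω.2.1 i)).symm (ω.2.2 i v)) = ω.1 v := by
    intro ω hω
    have h1 := (mul_ne_zero_iff.mp hω).1
    have h2 := (mul_ne_zero_iff.mp hω).2
    have h3 := (mul_ne_zero_iff.mp h1).1
    have h4 := (mul_ne_zero_iff.mp h1).2
    refine ⟨fun v => ?_, fun i j => ?_, fun i => ?_⟩
    · exact lt_of_le_of_ne (μ0 _) (Ne.symm (Finset.prod_ne_zero_iff.mp h3 v (Finset.mem_univ _)))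
    · have h5 := Finset.prod_ne_zero_iff.mp h4 i (Finset.mem_univ _)
      exact lt_of_le_of_ne (μi0 _ _)
        (Ne.symm (Finset.prod_ne_zero_iff.mp h5 j (Finset.mem_univ _)))
    · have h5 := Finset.prod_ne_zero_iff.mp h2 i (Finset.mem_univ _)
      by_contra hne
      exact h5 (if_neg hne)
  obtain ⟨mΩ, dΩ, Q, pQ, hQ, hint⟩ := wgt_measure w hwn hw1
  have hreal : ∀ S : Set ((Fin n → X) × (∀ i, Fin (t i) → Fi i → X) ×
      (∀ i, Fin n ≃ Fin (t i) × Fi i)), Q.real S = ∑ ω, w ω * S.indicator (fun _ => 1) ω := by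
    intro S
    rw [← hint, integral_indicator_const _ (MeasurableSet.of_discrete)]
    simp
  refine ⟨_, inferInstance, mΩ, dΩ, Q, pQ, fun ω => ω.1, fun ω => ω.2.1, fun ω => ω.2.2,
    ?_, ?_, ?_, ?_⟩
  · -- entropy
    set m : ℝ := (Fintype.card I : ℝ) with hm
    have hm0 : 0 ≤ m := Nat.cast_nonneg _
    rw [ent_eq]
    have h1 : ∀ ω : (Fin n → X) × (∀ i, Fin (t i) → Fi i → X) × (∀ i, Fin n ≃ Fin (t i) × Fi i),
        Real.negMulLog (Q.real ((fun ω : (Fin n → X) × (∀ i, Fin (t i) → Fi i → X) ×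
          (∀ i, Fin n ≃ Fin (t i) × Fi i) => (ω.1, ω.2.1, ω.2.2)) ⁻¹' {ω})) =
        Real.negMulLog (w ω) := by
      intro ω
      congr 1
      rw [← hQ ω]
      congr 1
    rw [Finset.sum_congr rfl (fun ω _ => h1 ω)]
    have h2 : ∀ ω, w ω * ((m - 1) * (∑ v, Real.log (μ (ω.1 v)))) +
        w ω * (- ∑ i, ∑ j, Real.log (μi i (ω.2.1 i j))) + w ω * (m * Real.log n.factorial) ≤
        Real.negMulLog (w ω) := by
      intro ω
      by_cases hω : w ω = 0
      · rw [hω]; simp
      obtain ⟨p1, p2, p3⟩ := hpos ω hω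
      have hk1v : ∀ i, k1 i ω.1 (ω.2.1 i) (ω.2.2 i) = 1 / (st ω.1 : ℝ) := fun i =>
        if_pos (p3 i)
      have hs1 : (0 : ℝ) < st ω.1 := by
        have := hst ω.1
        positivity
      have hlog : Real.log (w ω) = ∑ v, Real.log (μ (ω.1 v)) +
          ∑ i, ∑ j, Real.log (μi i (ω.2.1 i j)) - m * Real.log (st ω.1) := by
        have q1 : W1 ω.1 ≠ 0 := (Finset.prod_pos fun v _ => p1 v).ne'
        have q2 : W2 ω.2.1 ≠ 0 :=
          (Finset.prod_pos fun i _ => Finset.prod_pos fun j _ => p2 i j).ne'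
        have q3 : k ω.1 ω.2.1 ω.2.2 = (1 / (st ω.1 : ℝ)) ^ Fintype.card I := by
          simp only [k]
          rw [Finset.prod_congr rfl (fun i _ => hk1v i), Finset.prod_const, Finset.card_univ]
        have q4 : k ω.1 ω.2.1 ω.2.2 ≠ 0 := by rw [q3]; positivity
        change Real.log (W1 ω.1 * W2 ω.2.1 * k ω.1 ω.2.1 ω.2.2) = _
        rw [Real.log_mul (mul_ne_zero q1 q2) q4, Real.log_mul q1 q2, q3, Real.log_pow,
          one_div, Real.log_inv]
        simp only [W1, W2]
        rw [Real.log_prod (fun v _ => (p1 v).ne'), Real.log_prod (fun i _ =>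
          (Finset.prod_pos fun j _ => p2 i j).ne')]
        rw [Finset.sum_congr rfl (fun i _ => Real.log_prod (fun j _ => (p2 i j).ne'))]
        rw [hm]; ring
      have hstl : Real.log n.factorial + ∑ v, Real.log (μ (ω.1 v)) ≤ Real.log (st ω.1) := by
        have h3 := stab_lower μ μ0 μ1 n ω.1
        have h4 : (0 : ℝ) < ∏ v, μ (ω.1 v) := Finset.prod_pos fun v _ => p1 v
        have h5 : (0 : ℝ) < (n.factorial : ℝ) := by positivity
        rw [← Real.log_prod (fun v _ => (p1 v).ne'), ← Real.log_mul h5.ne' h4.ne']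
        exact Real.log_le_log (mul_pos h5 h4) h3
      have hwpos : 0 < w ω := lt_of_le_of_ne (hwn ω) (Ne.symm hω)
      rw [Real.negMulLog, hlog]
      have h6 : m * (Real.log n.factorial + ∑ v, Real.log (μ (ω.1 v))) ≤
          m * Real.log (st ω.1) := mul_le_mul_of_nonneg_left hstl hm0
      have h7 := mul_le_mul_of_nonneg_left h6 hwpos.le
      nlinarith [h7]
    have h3 := Finset.sum_le_sum (fun ω (_ : ω ∈ Finset.univ) => h2 ω)
    refine le_trans (le_of_eq ?_) h3
    have hsplit : ∑ ω, (w ω * ((m - 1) * (∑ v, Real.log (μ (ω.1 v)))) +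
        w ω * (- ∑ i, ∑ j, Real.log (μi i (ω.2.1 i j))) + w ω * (m * Real.log n.factorial)) =
        ∑ z, W1 z * ((m - 1) * ∑ v, Real.log (μ (z v))) +
        ∑ b, W2 b * (- ∑ i, ∑ j, Real.log (μi i (b i j))) + m * Real.log n.factorial := by
      rw [Finset.sum_add_distrib, Finset.sum_add_distrib]
      rw [E1 (fun z => (m - 1) * ∑ v, Real.log (μ (z v))),
        E2 (fun b => - ∑ i, ∑ j, Real.log (μi i (b i j))), ← Finset.sum_mul, hw1, one_mul]
    rw [hsplit]
    have h4 : ∑ z, W1 z * ((m - 1) * ∑ v, Real.log (μ (z v))) =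
        - ((m - 1) * (n * ∑ x, Real.negMulLog (μ x))) := by
      have h5 : ∀ z, W1 z * ((m - 1) * ∑ v, Real.log (μ (z v))) =
          (m - 1) * ∑ v, W1 z * Real.log (μ (z v)) := by
        intro z
        rw [Finset.mul_sum, Finset.mul_sum, Finset.mul_sum]
        apply Finset.sum_congr rfl
        intro v _
        ring
      rw [Finset.sum_congr rfl (fun z _ => h5 z), ← Finset.mul_sum, Finset.sum_comm]
      rw [Finset.sum_congr rfl (fun v _ => Ez v (fun x => Real.log (μ x)))]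
      rw [Finset.sum_const, Finset.card_univ, Fintype.card_fin, nsmul_eq_mul]
      have h6 : ∑ x, Real.negMulLog (μ x) = - ∑ x, μ x * Real.log (μ x) := by
        rw [← Finset.sum_neg_distrib]
        apply Finset.sum_congr rfl
        intro x _
        rw [Real.negMulLog]; ring
      rw [h6]; ring
    have h5 : ∑ b, W2 b * (- ∑ i, ∑ j, Real.log (μi i (b i j))) =
        ∑ i, (t i : ℝ) * ∑ b, Real.negMulLog (μi i b) := by
      have h6 : ∀ b, W2 b * (- ∑ i, ∑ j, Real.log (μi i (b i j))) =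
          ∑ i, W2 b * (- ∑ j, Real.log (μi i (b i j))) := by
        intro b
        rw [← Finset.sum_neg_distrib, Finset.mul_sum]
      rw [Finset.sum_congr rfl (fun b _ => h6 b), Finset.sum_comm]
      apply Finset.sum_congr rfl
      intro i _
      rw [Eb i (fun c => - ∑ j, Real.log (μi i (c j)))]
      have h7 : ∀ c : Fin (t i) → Fi i → X, (∏ j, μi i (c j)) * (- ∑ j, Real.log (μi i (c j))) =
          ∑ j, (∏ j, μi i (c j)) * (- Real.log (μi i (c j))) := by
        intro c
        rw [← Finset.sum_neg_distrib, Finset.mul_sum]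
      rw [Finset.sum_congr rfl (fun c _ => h7 c), Finset.sum_comm]
      have h8 : ∀ j : Fin (t i), ∑ c : Fin (t i) → Fi i → X,
          (∏ j, μi i (c j)) * (- Real.log (μi i (c j))) = ∑ b, Real.negMulLog (μi i b) := by
        intro j
        rw [pw_marg (fun _ : Fin (t i) => μi i) (fun _ => μi1 i) j
          (fun b => - Real.log (μi i b))]
        apply Finset.sum_congr rfl
        intro b _
        rw [Real.negMulLog]; ring
      rw [Finset.sum_congr rfl (fun j _ => h8 j), Finset.sum_const, Finset.card_univ,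
        Fintype.card_fin, nsmul_eq_mul]
    rw [h4, h5, Finset.sum_add_distrib, Finset.sum_const, Finset.card_univ, nsmul_eq_mul]
    ring
  · intro v x
    rw [hreal]
    have h1 : ∀ ω : (Fin n → X) × (∀ i, Fin (t i) → Fi i → X) × (∀ i, Fin n ≃ Fin (t i) × Fi i),
        w ω * ({ω : (Fin n → X) × (∀ i, Fin (t i) → Fi i → X) × (∀ i, Fin n ≃ Fin (t i) × Fi i) |
          ω.1 v = x}).indicator (fun _ => (1 : ℝ)) ω = w ω * (if ω.1 v = x then 1 else 0) := by
      intro ω
      congr 1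
    rw [Finset.sum_congr rfl (fun ω _ => h1 ω), E1 (fun z => if z v = x then 1 else 0),
      Ez v (fun y => if y = x then 1 else 0)]
    simp
  · rw [ae_iff]
    rw [← measureReal_eq_zero_iff, hreal]
    apply Finset.sum_eq_zero
    intro ω _
    by_cases hω : w ω = 0
    · rw [hω, zero_mul]
    · obtain ⟨p1, p2, -⟩ := hpos ω hω
      rw [Set.indicator_of_notMem, mul_zero]
      intro h
      exact h ⟨p1, p2⟩
  · intro i
    rw [hint]
    -- the pointwise bound
    have h1 : ∀ ω, w ω * ({v | ω.2.1 i (ω.2.2 i v).1 (ω.2.2 i v).2 ≠ ω.1 v}.ncard : ℝ) ≤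
        w ω * (∑ x, |∑ v, (if ω.1 v = x then (1 : ℝ) else 0) - Fintype.card (Fin n) * μ x|) +
        w ω * (∑ x, |∑ j, (∑ f, if ω.2.1 i j f = x then (1 : ℝ) else 0) -
          Fintype.card (Fin (t i)) * (Fintype.card (Fi i) * μ x)|) := by
      intro ω
      by_cases hω : w ω = 0
      · rw [hω]; simp
      obtain ⟨-, -, p3⟩ := hpos ω hω
      rw [← mul_add]
      apply mul_le_mul_of_nonneg_left _ (hwn ω)
      have h2 := mx_mis ω.1 (fun u : Fin (t i) × Fi i => ω.2.1 i u.1 u.2) (e0 i ω.1 (ω.2.1 i))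
        (ω.2.2 i) (p3 i)
      rw [h2]
      refine (he0 i ω.1 (ω.2.1 i)).trans ?_
      rw [← Finset.sum_add_distrib]
      apply Finset.sum_le_sum
      intro x _
      have h3 : ({v | ω.1 v = x}.ncard : ℝ) = ∑ v, (if ω.1 v = x then (1 : ℝ) else 0) := by
        rw [Finset.sum_boole, Set.ncard_eq_toFinset_card']
        congr 2
        ext v; simp
      have h4 : ({u : Fin (t i) × Fi i | ω.2.1 i u.1 u.2 = x}.ncard : ℝ) =
          ∑ j, (∑ f, if ω.2.1 i j f = x then (1 : ℝ) else 0) := by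
        rw [← Fintype.sum_prod_type (fun u : Fin (t i) × Fi i =>
          if ω.2.1 i u.1 u.2 = x then (1 : ℝ) else 0), Finset.sum_boole,
          Set.ncard_eq_toFinset_card']
        congr 2
        ext v; simp
      rw [h3, h4]
      have h5 : (Fintype.card (Fin (t i)) : ℝ) * (Fintype.card (Fi i) * μ x) =
          Fintype.card (Fin n) * μ x := by
        rw [Fintype.card_fin, Fintype.card_fin, ← hn i]
        push_cast
        ring
      rw [h5]
      have h6 := abs_sub_le (∑ v, (if ω.1 v = x then (1 : ℝ) else 0))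
        (Fintype.card (Fin n) * μ x) (∑ j, (∑ f, if ω.2.1 i j f = x then (1 : ℝ) else 0))
      rw [abs_sub_comm (Fintype.card (Fin n) * μ x)] at h6
      exact h6
    refine (Finset.sum_le_sum (fun ω _ => h1 ω)).trans ?_
    rw [Finset.sum_add_distrib]
    rw [E1 (fun z => ∑ x, |∑ v, (if z v = x then (1 : ℝ) else 0) - Fintype.card (Fin n) * μ x|),
      E2 (fun b => ∑ x, |∑ j, (∑ f, if b i j f = x then (1 : ℝ) else 0) -
          Fintype.card (Fin (t i)) * (Fintype.card (Fi i) * μ x)|)]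
    rw [Eb i (fun c => ∑ x, |∑ j, (∑ f, if c j f = x then (1 : ℝ) else 0) -
          Fintype.card (Fin (t i)) * (Fintype.card (Fi i) * μ x)|)]
    have hμ1 : ∀ x, μ x ≤ 1 := by
      intro x
      rw [← μ1]
      exact Finset.single_le_sum (fun y _ => μ0 y) (Finset.mem_univ x)
    have h2 : ∑ z, W1 z * (∑ x, |∑ v, (if z v = x then (1 : ℝ) else 0) -
        Fintype.card (Fin n) * μ x|) ≤ Fintype.card X * Real.sqrt n := by
      simp only [Finset.mul_sum]
      rw [Finset.sum_comm]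
      have h3 : ∀ x ∈ (Finset.univ : Finset X), ∑ z, W1 z * |∑ v, (if z v = x then (1 : ℝ) else 0) -
          Fintype.card (Fin n) * μ x| ≤ Real.sqrt n := by
        intro x _
        have h4 := pw_dev (fun _ : Fin n => μ) (fun _ => μ0) (fun _ => μ1)
          (fun _ y => if y = x then (1 : ℝ) else 0) (μ x) 1 (fun _ => by simp) (fun _ y => by
            have := μ0 x
            have := hμ1 x
            rw [abs_le]
            split_ifs <;> constructor <;> linarith)
        rw [mul_one] at h4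
        simpa using h4
      refine (Finset.sum_le_sum h3).trans ?_
      rw [Finset.sum_const, Finset.card_univ, nsmul_eq_mul]
    have h3 : ∑ c : Fin (t i) → Fi i → X, (∏ j, μi i (c j)) *
        (∑ x, |∑ j, (∑ f, if c j f = x then (1 : ℝ) else 0) -
          Fintype.card (Fin (t i)) * (Fintype.card (Fi i) * μ x)|) ≤
        Fintype.card X * (n / Real.sqrt (t i)) := by
      simp only [Finset.mul_sum (Finset.univ : Finset X)]
      rw [Finset.sum_comm]
      have hc : ∀ x, ∑ b, μi i b * (∑ f, if b f = x then (1 : ℝ) else 0) =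
          Fintype.card (Fi i) * μ x := by
        intro x
        simp only [Finset.mul_sum]
        rw [Finset.sum_comm]
        rw [Finset.sum_congr rfl (fun f _ => marg i f (fun y => if y = x then (1 : ℝ) else 0))]
        simp
      have h4 : ∀ x ∈ (Finset.univ : Finset X), ∑ c : Fin (t i) → Fi i → X, (∏ j, μi i (c j)) *
          |∑ j, (∑ f, if c j f = x then (1 : ℝ) else 0) -
          Fintype.card (Fin (t i)) * (Fintype.card (Fi i) * μ x)| ≤ n / Real.sqrt (t i) := by
        intro x _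
        have h5 := pw_dev (fun _ : Fin (t i) => μi i) (fun _ => μi0 i) (fun _ => μi1 i)
          (fun _ b => ∑ f, if b f = x then (1 : ℝ) else 0) (Fintype.card (Fi i) * μ x)
          (Fintype.card (Fi i)) (fun _ => hc x) (fun _ b => by
            have e1 := μ0 x
            have e2 := hμ1 x
            have e3 : (0 : ℝ) ≤ Fintype.card (Fi i) := Nat.cast_nonneg _
            have e4 : (Fintype.card (Fi i) : ℝ) * μ x ≤ Fintype.card (Fi i) := by
              nlinarith
            have e5 : (0 : ℝ) ≤ Fintype.card (Fi i) * μ x := mul_nonneg e3 e1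
            have e6 : (0 : ℝ) ≤ ∑ f, if b f = x then (1 : ℝ) else 0 :=
              Finset.sum_nonneg fun f _ => by split_ifs <;> norm_num
            have e7 : (∑ f, if b f = x then (1 : ℝ) else 0) ≤ Fintype.card (Fi i) := by
              calc (∑ f, if b f = x then (1 : ℝ) else 0) ≤ ∑ _f : Fi i, (1 : ℝ) :=
                    Finset.sum_le_sum fun f _ => by split_ifs <;> norm_num
                _ = Fintype.card (Fi i) := by simp
            rw [abs_le]
            constructor <;> linarith)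
        refine h5.trans (le_of_eq ?_)
        rw [Fintype.card_fin]
        have h6 : (0 : ℝ) < t i := by
          have := ht i
          positivity
        rw [eq_div_iff (Real.sqrt_pos.mpr h6).ne', ← hn i]
        push_cast
        have h7 := Real.mul_self_sqrt h6.le
        calc Real.sqrt (t i) * Fintype.card (Fi i) * Real.sqrt (t i)
            = (Real.sqrt (t i) * Real.sqrt (t i)) * Fintype.card (Fi i) := by ring
          _ = (t i : ℝ) * Fintype.card (Fi i) := by rw [h7]
      refine (Finset.sum_le_sum h4).trans ?_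
      rw [Finset.sum_const, Finset.card_univ, nsmul_eq_mul]
    calc _ ≤ Fintype.card X * Real.sqrt n + Fintype.card X * (n / Real.sqrt (t i)) :=
          add_le_add h2 h3
      _ = _ := by ring

end H31.BE
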