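import Pool.Agent.H31.BE.ChDefs
import Pool.Agent.H31.BE.DetMain
import Pool.Agent.H31.BE.ModelEx
import Pool.Agent.H31.BE.FunA

/-! # MdlEx : the random model with its decoding exists  (assembly of ModelEx and DetMain; module MdlEx, ~170 lines)
R0, K, wR from `det_main`. X := Ty S R Λ, τ := win lb (ball S R) (Fm: `Fm.win`), Fi i := ↥(F i), μ x := P.real (τ ⁻¹' {x}),
μi i b := P.real ((win τ (F i)) ⁻¹' {b}). marg: the law of y ↦ τ (f • y) is the law of τ by `Inv` (write both sides as sums over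
b, resp. as integrals of φ (τ (f • y)) and φ (τ y)). t i >= 1 since n >= 1. `model_ex`, `ent_eq`.
Cfg for almost all ω, by the positivity statement of `model_ex`: hz: μ (z ω v) > 0 and the almost sure property hadm give a point y with τ y = z ω v
and Adm; η g := lb (g • y). hom: a point y with win τ (F i) y = om ω i j, η g := lb (g • y): om ω i j f g = τ (f • y) g = lb (g • f • y).
sg ω, BB ω: choose from `det_main` if Cfg holds (`Classical.choose`), otherwise anything and BB ω := univ... (a null set of ω).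
bb: |BB| <= K |bad0| a.e., bad0 ⊆ ⋃ i (unm i ∪ seam i), |seam i| = cs i (the map π i is a bijection). -/

set_option autoImplicit false

open MeasureTheory

namespace H31.BE

private theorem mdlex_sum {Y δ ε : Type} [MeasurableSpace Y] {P : Measure Y} [IsProbabilityMeasure P]
    [Fintype δ] {f : Y → δ} (hf : Fm f) (φ : δ → ε) [DecidableEq ε] (b : ε) :
    P.real ((fun y => φ (f y)) ⁻¹' {b}) =
      ∑ a ∈ Finset.univ.filter (fun a => φ a = b), P.real (f ⁻¹' {a}) := by
  have h : (fun y => φ (f y)) ⁻¹' {b} =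
      ⋃ a ∈ (Finset.univ.filter (fun a => φ a = b) : Finset δ), f ⁻¹' {a} := by
    ext y; simp
  rw [h, measureReal_biUnion_finset]
  · intro a _ a' _ haa
    refine Set.disjoint_left.mpr fun y h1 h2 => haa ?_
    rw [Set.mem_preimage, Set.mem_singleton_iff] at h1 h2
    rw [← h1, h2]
  · exact fun a _ => hf a

private theorem mdlex_marg {Y δ ε : Type} [MeasurableSpace Y] {P : Measure Y} [IsProbabilityMeasure P]
    [Fintype δ] [Fintype ε] [DecidableEq ε] {f : Y → δ} (hf : Fm f) (pr : δ → ε) (φ : ε → ℝ) :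
    ∑ b, P.real (f ⁻¹' {b}) * φ (pr b) = ∑ x, P.real ((fun y => pr (f y)) ⁻¹' {x}) * φ x := by
  rw [← Finset.sum_fiberwise Finset.univ pr]
  refine Finset.sum_congr rfl fun x _ => ?_
  rw [mdlex_sum hf pr x, Finset.sum_mul]
  refine Finset.sum_congr rfl fun b hb => ?_
  rw [(Finset.mem_filter.1 hb).2]

private theorem mdlex_seam {G I : Type} [Group G] [DecidableEq G] (S F : I → Finset G) {n : ℕ}
    {t : I → ℕ} (π : ∀ i, Fin n ≃ Fin (t i) × F i) (i : I) : (seam S π i).ncard = cs S F t i := by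
  classical
  have h1 : seam S π i = (π i) ⁻¹' {p : Fin (t i) × F i | ∃ s ∈ S i, s * (p.2 : G) ∉ F i} := rfl
  rw [h1, Set.ncard_preimage_of_injective_subset_range (π i).injective
    (by rw [(π i).surjective.range_eq]; exact Set.subset_univ _)]
  have h2 : {p : Fin (t i) × F i | ∃ s ∈ S i, s * (p.2 : G) ∉ F i} =
      (Set.univ : Set (Fin (t i))) ×ˢ {f : F i | ∃ s ∈ S i, s * (f : G) ∉ F i} := by
    ext p; simp
  rw [h2, Set.ncard_prod, Set.ncard_univ, Nat.card_eq_fintype_card, Fintype.card_fin]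
  unfold cs
  congr 1
  have h3 : (fun f : F i => (f : G)) '' {f : F i | ∃ s ∈ S i, s * (f : G) ∉ F i} =
      (((F i).filter (fun f => ∃ s ∈ S i, s * f ∉ F i) : Finset G) : Set G) := by
    ext g
    simp only [Set.mem_image, Set.mem_setOf_eq, Finset.coe_filter]
    constructor
    · rintro ⟨f, hf, rfl⟩
      exact ⟨f.2, hf⟩
    · rintro ⟨hg, hs⟩
      exact ⟨⟨g, hg⟩, hs, rfl⟩
  rw [← Set.ncard_image_of_injective _ (Subtype.val_injective : Function.Injective
    (fun f : F i => (f : G))), h3, Set.ncard_coe_finset]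

theorem mdl_ex {G I Λ Y : Type} [Group G] [DecidableEq G] [Fintype I] [MeasurableSpace Y] [MulAction G Y]
    [Finite Λ] (H : I → Subgroup G) (hP : FreeProd H) (S : I → Finset G) (hS : ∀ i, ∀ g ∈ S i, g ∈ H i)
    (P : Measure Y) [IsProbabilityMeasure P] (hI : Inv G P) (lb : Y → Λ) (hlb : Fm lb)
    (L : Lab S Λ) (N : ℕ) (hadm : ∀ᵐ y ∂P, Adm L N (fun g => lb (g • y)))
    {J : Type} [Finite J] (wd : J → List (Gn S)) :
    ∃ R0 : ℕ, ∀ R, R0 ≤ R → ∃ (K : ℕ) (wR : ↥(ball S R) → List (Gn S)),
      ∀ (n : ℕ) (t : I → ℕ) (F : I → Finset G), 1 ≤ n → (∀ i, ∀ g ∈ F i, g ∈ H i) →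
        (∀ i, t i * (F i).card = n) →
        ∃ (Ω : Type) (_ : Fintype Ω) (_ : MeasurableSpace Ω) (_ : DiscreteMeasurableSpace Ω)
          (Q : Measure Ω) (_ : IsProbabilityMeasure Q) (z : Ω → Fin n → Ty S R Λ)
          (om : Ω → ∀ i, Fin (t i) → F i → Ty S R Λ) (π : Ω → ∀ i, Fin n ≃ Fin (t i) × F i)
          (sg : Ω → Gn S → Fin n → Option (Fin n)) (BB : Ω → Set (Fin n)),
          Mdl L N R wd wR K P lb F n t Q z om π sg BB := by
  classical
  obtain ⟨R0, h0⟩ := det_main H hP S hS L N wd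
  refine ⟨R0, fun R hR => ?_⟩
  obtain ⟨K, wR, hdet⟩ := h0 R hR
  refine ⟨K, wR, fun n t F hn hF hnt => ?_⟩
  letI iX : Fintype (Ty S R Λ) := Fintype.ofFinite _
  have hτ : Fm (win lb (ball S R)) := hlb.win hI (ball S R)
  have hτF : ∀ i, Fm (win (win lb (ball S R)) (F i)) := fun i => hτ.win hI (F i)
  obtain ⟨Ω, i1, i2, i3, Q, i4, z, om, π, hent, hlaw, hae, hun⟩ :=
    model_ex (X := Ty S R Λ) (fun i => ↥(F i)) (fun x => P.real ((win lb (ball S R)) ⁻¹' {x}))
      (fun x => measureReal_nonneg) (entF_sum hτ)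
      (fun i b => P.real ((win (win lb (ball S R)) (F i)) ⁻¹' {b}))
      (fun i b => measureReal_nonneg) (fun i => entF_sum (hτF i))
      (by
        intro i f φ
        rw [mdlex_marg (hτF i) (fun b => b f) φ]
        refine Finset.sum_congr rfl fun x _ => ?_
        congr 1
        have e : (fun y => win (win lb (ball S R)) (F i) y f) ⁻¹' {x} =
            (fun y : Y => (f : G) • y) ⁻¹' ((win lb (ball S R)) ⁻¹' {x}) := rfl
        rw [e, Measure.real, Measure.real, (hI f).measure_preimage (hτ x).nullMeasurableSet])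
      n t (fun i => by rw [Fintype.card_coe]; exact hnt i)
      (fun i => by
        rcases Nat.eq_zero_or_pos (t i) with h | h
        · have := hnt i
          rw [h, zero_mul] at this
          omega
        · exact h)
  have hcfg : ∀ᵐ ω ∂Q, Cfg L N R (z ω) (om ω) := by
    filter_upwards [hae] with ω hω
    refine ⟨fun v => ?_, fun i j => ?_⟩
    · have h1 : 0 < P ((win lb (ball S R)) ⁻¹' {z ω v}) := by
        have := hω.1 v
        by_contra hc
        have hz : P ((win lb (ball S R)) ⁻¹' {z ω v}) = 0 := by simpa using hc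
        rw [Measure.real, hz] at this
        simp at this
      obtain ⟨y, hy, hy'⟩ : ∃ y, y ∈ (win lb (ball S R)) ⁻¹' {z ω v} ∧ Adm L N (fun g => lb (g • y)) := by
        by_contra hc
        push Not at hc
        have h2 : (win lb (ball S R)) ⁻¹' {z ω v} ⊆ {y | Adm L N (fun g => lb (g • y))}ᶜ :=
          fun y hy => hc y hy
        have h3 := measure_mono_null h2 (ae_iff.1 hadm)
        rw [h3] at h1
        exact lt_irrefl _ h1
      refine ⟨fun g => lb (g • y), hy', fun g => ?_⟩
      rw [← (show win lb (ball S R) y = z ω v from hy)]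
      rfl
    · have h1 := hω.2 i j
      obtain ⟨y, hy⟩ : ∃ y, y ∈ (win (win lb (ball S R)) (F i)) ⁻¹' {om ω i j} := by
        by_contra hc
        push Not at hc
        have : (win (win lb (ball S R)) (F i)) ⁻¹' {om ω i j} = ∅ := Set.eq_empty_of_forall_notMem hc
        rw [this] at h1
        simp at h1
      refine ⟨fun g => lb (g • y), fun f g => ?_⟩
      rw [← (show win (win lb (ball S R)) (F i) y = om ω i j from hy)]
      change lb ((g : G) • (f : G) • y) = lb (((g : G) * f) • y)
      rw [mul_smul]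
  have hdet' : ∀ ω, ∃ (sg : Gn S → Fin n → Option (Fin n)) (BB : Set (Fin n)),
      Cfg L N R (z ω) (om ω) → BB.ncard ≤ K * (bad0 S (z ω) (om ω) (π ω)).ncard ∧
        ∀ v, v ∉ BB → DetOK L N R wd wR (z ω) (π ω) sg v := by
    intro ω
    by_cases h : Cfg L N R (z ω) (om ω)
    · obtain ⟨sg, BB, h1⟩ := hdet n t F hF (z ω) (om ω) (π ω) h
      exact ⟨sg, BB, fun _ => h1⟩
    · exact ⟨fun _ _ => none, ∅, fun h' => absurd h' h⟩
  choose sg BB hsb using hdet'
  refine ⟨Ω, i1, i2, i3, Q, i4, z, om, π, sg, BB, ?_, ?_, ?_, ?_, ?_⟩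
  · refine le_trans (le_of_eq ?_) hent
    rw [ent_eq P (win lb (ball S R))]
    congr 1
    refine Finset.sum_congr rfl fun i _ => ?_
    rw [ent_eq P (win (win lb (ball S R)) (F i))]
  · exact hlaw
  · intro i
    have := hun i
    rw [← Nat.card_eq_fintype_card] at this
    exact this
  · have hint : ∀ g : Ω → ℝ, Integrable g Q := fun g => Integrable.of_finite
    have h1 : ∀ᵐ ω ∂Q, ((BB ω).ncard : ℝ) ≤
        K * ∑ i, (((unm (z ω) (om ω) (π ω) i).ncard : ℝ) + cs S F t i) := by
      filter_upwards [hcfg] with ω hω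
      have h2 := (hsb ω hω).1
      have h3 : (bad0 S (z ω) (om ω) (π ω)).ncard ≤
          ∑ i, ((unm (z ω) (om ω) (π ω) i).ncard + cs S F t i) := by
        have h4 : bad0 S (z ω) (om ω) (π ω) ⊆
            ⋃ i ∈ (Finset.univ : Finset I), (unm (z ω) (om ω) (π ω) i ∪ seam S (π ω) i) := by
          rintro v ⟨i, hv⟩
          simp only [Set.mem_iUnion]
          exact ⟨i, Finset.mem_univ i, hv⟩
        refine (Set.ncard_le_ncard h4 (Set.toFinite _)).trans ?_
        refine (Finset.set_ncard_biUnion_le Finset.univ _).trans ?_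
        refine Finset.sum_le_sum fun i _ => ?_
        refine (Set.ncard_union_le _ _).trans ?_
        rw [mdlex_seam S F (π ω) i]
      have h5 : ((BB ω).ncard : ℝ) ≤ K * ((bad0 S (z ω) (om ω) (π ω)).ncard : ℝ) := by exact_mod_cast h2
      have h6 : ((bad0 S (z ω) (om ω) (π ω)).ncard : ℝ) ≤
          ∑ i, (((unm (z ω) (om ω) (π ω) i).ncard : ℝ) + cs S F t i) := by exact_mod_cast h3
      exact h5.trans (mul_le_mul_of_nonneg_left h6 (Nat.cast_nonneg _))
    refine (integral_mono_ae (hint _) (hint _) h1).trans (le_of_eq ?_)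
    rw [integral_const_mul, integral_finset_sum _ (fun i _ => hint _)]
    congr 1
    refine Finset.sum_congr rfl fun i _ => ?_
    rw [integral_add (hint _) (hint _)]
    simp
  · filter_upwards [hcfg] with ω hω v hv
    exact (hsb ω hω).2 v hv

end H31.BE
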