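import Pool.Agent.H31.BE.WordsL
import Pool.Agent.H31.BE.CntDefs

/-! # ModDefs : finite configurations (paper section 3). Definitions only.
`n` vertices (Fin n), tiles F i, `t i` copies of the tile F i, π i : Fin n ≃ Fin (t i) × F i. -/

set_option autoImplicit false

namespace H31.BE

noncomputable section

variable {G I Λ : Type} [Group G] [DecidableEq G] [Fintype I]

/-- types: labelled balls of radius `R` -/
abbrev Ty (S : I → Finset G) (R : ℕ) (Λ : Type) : Type := ↥(ball S R) → Λ

/-- the unit as an element of the ball -/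
def one' (S : I → Finset G) (R : ℕ) : ↥(ball S R) := ⟨1, one_mem_ball R⟩

/-- extension of a type to all of `G` -/
def tex {S : I → Finset G} {R : ℕ} (x : Ty S R Λ) : G → Λ := fun g =>
  if h : g ∈ ball S R then x ⟨g, h⟩ else x (one' S R)

/-- explicit partial step map of one letter, inside the tiles -/
def SP1 (F : Finset G) {n t : ℕ} (π : Fin n ≃ Fin t × F) (s : G) (v : Fin n) : Option (Fin n) :=
  if h : s * ((π v).2 : G) ∈ F then some (π.symm ((π v).1, ⟨s * ((π v).2 : G), h⟩)) else none

/-- all the step maps -/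
def SP {S F : I → Finset G} {n : ℕ} {t : I → ℕ} (π : ∀ i, Fin n ≃ Fin (t i) × F i) :
    Gn S → Fin n → Option (Fin n) := fun s v => SP1 (F s.1) (π s.1) (gv s) v

/-- unmatched vertices for the factor `i` -/
def unm {X : Type} {F : I → Finset G} {n : ℕ} {t : I → ℕ} (z : Fin n → X)
    (om : ∀ i, Fin (t i) → F i → X) (π : ∀ i, Fin n ≃ Fin (t i) × F i) (i : I) : Set (Fin n) :=
  {v | om i (π i v).1 (π i v).2 ≠ z v}

/-- seam vertices for the factor `i` -/
def seam (S : I → Finset G) {F : I → Finset G} {n : ℕ} {t : I → ℕ}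
    (π : ∀ i, Fin n ≃ Fin (t i) × F i) (i : I) : Set (Fin n) :=
  {v | ∃ s ∈ S i, s * ((π i v).2 : G) ∉ F i}

/-- all bad vertices -/
def bad0 (S : I → Finset G) {X : Type} {F : I → Finset G} {n : ℕ} {t : I → ℕ} (z : Fin n → X)
    (om : ∀ i, Fin (t i) → F i → X) (π : ∀ i, Fin n ≃ Fin (t i) × F i) : Set (Fin n) :=
  {v | ∃ i, v ∈ unm z om π i ∨ v ∈ seam S π i}

/-- an admissible configuration: the types and the tile patterns come from true points -/
structure Cfg {S : I → Finset G} (L : Lab S Λ) (N R : ℕ) {F : I → Finset G} {n : ℕ} {t : I → ℕ}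
    (z : Fin n → Ty S R Λ) (om : ∀ i, Fin (t i) → F i → Ty S R Λ) : Prop where
  hz : ∀ v, ∃ η : G → Λ, Adm L N η ∧ ∀ g : ↥(ball S R), z v g = η g
  hom : ∀ i j, ∃ η : G → Λ, ∀ (f : F i) (g : ↥(ball S R)), om i j f g = η ((g : G) * f)

/-- a global action of `G` extending the steps inside the tiles -/
structure Glob (S : I → Finset G) {F : I → Finset G} {n : ℕ} {t : I → ℕ}
    (π : ∀ i, Fin n ≃ Fin (t i) × F i) {W : Type} [MulAction G W] (j : Fin n → W) : Prop where
  inj : Function.Injective j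
  inF : ∀ (s : Gn S) (v u : Fin n), SP π s v = some u → gv s • j v = j u
  outF : ∀ (s : Gn S) (v u : Fin n), gv s • j v = j u → SP π s v = some u

/-- `v` is `ρ`-good: the whole ball of radius `ρ` around `v` avoids the bad set -/
def gd (S : I → Finset G) {n : ℕ} {W : Type} [MulAction G W] (j : Fin n → W) (bad : Set (Fin n)) (ρ : ℕ)
    (v : Fin n) : Prop :=
  ∀ g ∈ ball S ρ, ∃ u, g • j v = j u ∧ u ∉ bad

/-- the decoded map of the letter `s` -/
def SG {S : I → Finset G} (L : Lab S Λ) {R n : ℕ} (z : Fin n → Ty S R Λ) {W : Type} [MulAction G W]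
    (j : Fin n → W) (bad : Set (Fin n)) : Gn S → Fin n → Option (Fin n) := fun s v =>
  open Classical in
  if h : gd S j bad L.C v ∧ ∃ u, L.c s (z v (one' S R)) • j v = j u then some h.2.choose else none

/-- what the decoding gives at a vertex `v` outside of the exceptional set -/
structure DetOK {S : I → Finset G} (L : Lab S Λ) (N R : ℕ) {J : Type} (wd : J → List (Gn S))
    (wR : ↥(ball S R) → List (Gn S)) {F : I → Finset G} {n : ℕ} {t : I → ℕ}
    (z : Fin n → Ty S R Λ) (π : ∀ i, Fin n ≃ Fin (t i) × F i)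
    (sg : Gn S → Fin n → Option (Fin n)) (v : Fin n) : Prop where
  d1 : ∀ s : Gn S, SP π s v = ev sg (L.bw s (z v (one' S R))) v
  d2 : ∀ g : ↥(ball S R), ∃ u,
    ev (fun s x => ev sg (L.bw s (z x (one' S R))) x) (wR g) v = some u ∧ z u (one' S R) = z v g
  d3 : ∀ h : J, ∃ u, ev sg (wd h) v = some u ∧
    z u (one' S R) = tex (z v) (walk L (tex (z v)) (wd h))
  d4 : ∀ i, IsReg (S i) (fun s x => sg ⟨i, s⟩ x) N v

end

end H31.BE
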