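import Pool.Agent.H31.BE.ChDefs

/-! # Tiles : choice of the tiles and of n  (paper section 3, first lines, and section 6, limit; module Tiles, ~160 lines)
`tile`: for finite H i: F := H i as a Finset (no seam elements: s f ∈ H i), card <= exp(η k) for k large. Otherwise `SubF` with
K := S i: k |S F \ F| <= |F|; the filter set injects into S × (S F \ F) by f ↦ (s, s f), so k * #filter <= |S| |F|.
`tiles`: a := ∑ i (2 + |S i|) + 1, m := card I, choose η with Cst * a * m * η <= δ/4, then k large, F i from `tile`, n := k^4 ∏ |F i|, t i := n / |F i|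
= k^4 ∏ j≠i |F j| >= k^4. Then n/√(t i) <= n/k^2 <= n/k, √n <= n/k^2 <= n/k (n >= k^4), 1 <= n/k, cs i <= |S i| n/k. So the bracket is at most
a n/k and log(n+1) <= log 2 + 4 log k + m η k. Cst * a * (log 2 + 4 log k + m η k)/k <= δ for k large. n >= k >= n0. -/

set_option autoImplicit false

open MeasureTheory
open scoped Pointwise

namespace H31.BE

theorem tile {G : Type} [Group G] [DecidableEq G] (H : Subgroup G) (h : Finite H ∨ SubF H)
    (S : Finset G) (hS : ∀ g ∈ S, g ∈ H) (η : ℝ) (hη : 0 < η) :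
    ∃ k0 : ℕ, ∀ k, k0 ≤ k → ∃ F : Finset G, F.Nonempty ∧ (∀ g ∈ F, g ∈ H) ∧
      (Finite H → ∀ g ∈ H, g ∈ F) ∧
      (k : ℝ) * (F.filter (fun f => ∃ s ∈ S, s * f ∉ F)).card ≤ S.card * F.card ∧
      (F.card : ℝ) ≤ Real.exp (η * k) := by
  classical
  by_cases hfin : Finite H
  · have hHfin : (H : Set G).Finite := Set.toFinite _
    set F : Finset G := hHfin.toFinset with hF
    have hmem : ∀ g, g ∈ F ↔ g ∈ H := fun g => by rw [hF, Set.Finite.mem_toFinset]; rfl
    refine ⟨⌈(F.card : ℝ) / η⌉₊, fun k hk => ⟨F, ⟨1, (hmem 1).2 H.one_mem⟩, fun g hg => (hmem g).1 hg,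
      fun _ g hg => (hmem g).2 hg, ?_, ?_⟩⟩
    · have h0 : F.filter (fun f => ∃ s ∈ S, s * f ∉ F) = ∅ := by
        rw [Finset.filter_eq_empty_iff]
        rintro f hf ⟨s, hs, hsf⟩
        exact hsf ((hmem _).2 (H.mul_mem (hS s hs) ((hmem f).1 hf)))
      rw [h0]
      simp only [Finset.card_empty, Nat.cast_zero, mul_zero]
      positivity
    · have h1 : (F.card : ℝ) / η ≤ k := (Nat.le_ceil _).trans (by exact_mod_cast hk)
      rw [div_le_iff₀ hη] at h1
      have h2 := Real.add_one_le_exp (η * k)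
      nlinarith
  · have hsub : SubF H := h.resolve_left hfin
    obtain ⟨k0, hk0⟩ := hsub S hS η hη
    refine ⟨k0, fun k hk => ?_⟩
    obtain ⟨F, hF, hFH, hbd, hexp⟩ := hk0 k hk
    refine ⟨F, hF, hFH, fun h1 => absurd h1 hfin, ?_, hexp⟩
    set B := F.filter (fun f => ∃ s ∈ S, s * f ∉ F) with hB
    have hch : ∀ f ∈ B, ∃ s ∈ S, s * f ∉ F := fun f hf => (Finset.mem_filter.1 hf).2
    choose! σ hσ1 hσ2 using hch
    have hcard : B.card ≤ (S ×ˢ ((S * F) \ F)).card := by
      refine Finset.card_le_card_of_injOn (fun f => (σ f, σ f * f)) ?_ ?_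
      · intro f hf
        have hfF : f ∈ F := (Finset.mem_filter.1 hf).1
        simp only [Finset.coe_product, Set.mem_prod, Finset.mem_coe, Finset.mem_sdiff]
        exact ⟨hσ1 f hf, Finset.mul_mem_mul (hσ1 f hf) hfF, hσ2 f hf⟩
      · intro f hf g hg hfg
        have h1 : σ f = σ g := congrArg Prod.fst hfg
        have h2 : σ f * f = σ g * g := congrArg Prod.snd hfg
        rw [h1] at h2
        exact mul_left_cancel h2
    rw [Finset.card_product] at hcard
    have h1 : (B.card : ℝ) ≤ S.card * ((S * F) \ F).card := by exact_mod_cast hcard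
    calc (k : ℝ) * B.card ≤ k * (S.card * ((S * F) \ F).card) := by
          exact mul_le_mul_of_nonneg_left h1 (Nat.cast_nonneg k)
      _ = S.card * (k * ((S * F) \ F).card) := by ring
      _ ≤ S.card * F.card := mul_le_mul_of_nonneg_left hbd (Nat.cast_nonneg _)

theorem tiles {G I : Type} [Group G] [DecidableEq G] [Fintype I] (H : I → Subgroup G)
    (h : ∀ i, Finite (H i) ∨ SubF (H i)) (S : I → Finset G) (hS : ∀ i, ∀ g ∈ S i, g ∈ H i)
    (Cst : ℝ) (hC : 0 ≤ Cst) (δ : ℝ) (hδ : 0 < δ) (n0 : ℕ) :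
    ∃ (n : ℕ) (t : I → ℕ) (F : I → Finset G), n0 ≤ n ∧ 1 ≤ n ∧ (∀ i, ∀ g ∈ F i, g ∈ H i) ∧
      (∀ i, Finite (H i) → ∀ g ∈ H i, g ∈ F i) ∧ (∀ i, t i * (F i).card = n) ∧
      Cst * (Real.log (n + 1) * (1 + ∑ i, (Real.sqrt n + n / Real.sqrt (t i) + (cs S F t i : ℝ)))) ≤ δ * n := by
  classical
  obtain ⟨a, ha⟩ : ∃ a : ℝ, a = 1 + ∑ i, (2 + ((S i).card : ℝ)) := ⟨_, rfl⟩
  obtain ⟨m, hm⟩ : ∃ m : ℝ, m = (Fintype.card I : ℝ) := ⟨_, rfl⟩
  have ha1 : 1 ≤ a := by
    have : 0 ≤ ∑ i, (2 + ((S i).card : ℝ)) := Finset.sum_nonneg fun i _ => by positivity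
    linarith
  have hm0 : 0 ≤ m := hm ▸ Nat.cast_nonneg _
  have hca : 0 ≤ Cst * a := mul_nonneg hC (by linarith)
  have hcam : 0 ≤ Cst * a * m := mul_nonneg hca hm0
  obtain ⟨η, hη⟩ : ∃ η : ℝ, η = δ / (2 * (Cst * a * m + 1)) := ⟨_, rfl⟩
  have hη0 : 0 < η := by
    rw [hη]; exact div_pos hδ (by linarith)
  have hηb : Cst * a * m * η ≤ δ / 2 := by
    rw [hη, ← mul_div_assoc, div_le_div_iff₀ (by linarith) (by norm_num)]
    nlinarith
  have htile := fun i => tile (H i) (h i) (S i) (hS i) η hη0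
  choose k0 hk0 using htile
  set k : ℕ := ∑ i, k0 i + n0 + 1 + ⌈(18 * (Cst * a) / δ) ^ 2⌉₊ with hk
  have hkk0 : ∀ i, k0 i ≤ k := fun i => by
    have := Finset.single_le_sum (f := k0) (fun j _ => Nat.zero_le _) (Finset.mem_univ i)
    omega
  have hkn0 : n0 ≤ k := by omega
  have hk1 : 1 ≤ k := by omega
  have hkR : (1 : ℝ) ≤ k := by exact_mod_cast hk1
  have hkpos : (0 : ℝ) < k := by linarith
  have hkK : (18 * (Cst * a) / δ) ^ 2 ≤ (k : ℝ) := by
    refine (Nat.le_ceil _).trans ?_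
    exact_mod_cast (by omega : ⌈(18 * (Cst * a) / δ) ^ 2⌉₊ ≤ k)
  have htl := fun i => hk0 i k (hkk0 i)
  choose F hFne hFH hFfin hFfil hFexp using htl
  have hFpos : ∀ i, 0 < (F i).card := fun i => (hFne i).card_pos
  set t : I → ℕ := fun i => k ^ 4 * ∏ j ∈ Finset.univ.erase i, (F j).card with ht
  set n : ℕ := k ^ 4 * ∏ j, (F j).card with hn
  have htn : ∀ i, t i * (F i).card = n := by
    intro i
    rw [ht, hn]
    simp only
    rw [mul_assoc, mul_comm (∏ j ∈ Finset.univ.erase i, (F j).card),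
      Finset.mul_prod_erase Finset.univ (fun j => (F j).card) (Finset.mem_univ i)]
  have hprodpos : ∀ T : Finset I, 1 ≤ ∏ j ∈ T, (F j).card := fun T =>
    Nat.one_le_iff_ne_zero.2 (Finset.prod_ne_zero_iff.2 fun j _ => (hFpos j).ne')
  have hk4n : k ^ 4 ≤ n := Nat.le_mul_of_pos_right _ (hprodpos _)
  have hk4t : ∀ i, k ^ 4 ≤ t i := fun i => Nat.le_mul_of_pos_right _ (hprodpos _)
  have hkn : k ≤ n := (Nat.le_self_pow (by norm_num) k).trans hk4n
  have hn1 : 1 ≤ n := hk1.trans hkn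
  refine ⟨n, t, F, hkn0.trans hkn, hn1, hFH, hFfin, htn, ?_⟩
  have hnR : (1 : ℝ) ≤ n := by exact_mod_cast hn1
  have hnpos : (0 : ℝ) < n := by linarith
  have hk4nR : (k : ℝ) ^ 4 ≤ n := by exact_mod_cast hk4n
  have hk4tR : ∀ i, (k : ℝ) ^ 4 ≤ t i := fun i => by exact_mod_cast hk4t i
  have hknR : (k : ℝ) ≤ n := by exact_mod_cast hkn
  have hsq : ∀ x : ℝ, (k : ℝ) ^ 4 ≤ x → (k : ℝ) ≤ Real.sqrt x := by
    intro x hx
    refine Real.le_sqrt_of_sq_le (le_trans ?_ hx)
    exact pow_le_pow_right₀ hkR (by norm_num)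
  -- the bracket
  have hbr : 1 + ∑ i, (Real.sqrt n + n / Real.sqrt (t i) + (cs S F t i : ℝ)) ≤ a * (n / k) := by
    have e1 : (1 : ℝ) ≤ n / k := by rw [le_div_iff₀ hkpos]; linarith
    have e2 : Real.sqrt n ≤ n / k := by
      rw [le_div_iff₀ hkpos]
      calc Real.sqrt n * k ≤ Real.sqrt n * Real.sqrt n :=
            mul_le_mul_of_nonneg_left (hsq n hk4nR) (Real.sqrt_nonneg _)
        _ = n := Real.mul_self_sqrt hnpos.le
    have e3 : ∀ i, (n : ℝ) / Real.sqrt (t i) ≤ n / k := fun i =>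
      div_le_div_of_nonneg_left hnpos.le hkpos (hsq _ (hk4tR i))
    have e4 : ∀ i, (cs S F t i : ℝ) ≤ ((S i).card : ℝ) * (n / k) := by
      intro i
      have h1 : (cs S F t i : ℝ) =
          t i * ((F i).filter (fun f => ∃ s ∈ S i, s * f ∉ F i)).card := by
        rw [cs]; push_cast; rfl
      have h2 : (n : ℝ) = t i * (F i).card := by exact_mod_cast (htn i).symm
      rw [h1, h2, ← mul_div_assoc, le_div_iff₀ hkpos]
      have h3 := hFfil i
      have h4 : (0 : ℝ) ≤ t i := Nat.cast_nonneg _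
      nlinarith
    have e5 : ∑ i, (Real.sqrt n + n / Real.sqrt (t i) + (cs S F t i : ℝ)) ≤
        ∑ i, (2 + ((S i).card : ℝ)) * (n / k) := by
      refine Finset.sum_le_sum fun i _ => ?_
      have := e3 i
      have := e4 i
      nlinarith
    rw [← Finset.sum_mul] at e5
    rw [ha, add_mul, one_mul]
    linarith
  -- the logarithm
  have hlog : Real.log (n + 1) ≤ 9 * Real.sqrt k + m * η * k := by
    have h1 : ((n : ℝ) + 1) ≤ 2 * n := by linarith
    have h2 : Real.log (n + 1) ≤ Real.log (2 * n) := Real.log_le_log (by linarith) h1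
    have h3 : (n : ℝ) = (k : ℝ) ^ 4 * ∏ j, ((F j).card : ℝ) := by rw [hn]; push_cast; rfl
    have h4 : Real.log (∏ j, ((F j).card : ℝ)) ≤ m * (η * k) := by
      rw [Real.log_prod (fun j _ => by exact_mod_cast (hFpos j).ne')]
      calc ∑ j, Real.log ((F j).card : ℝ) ≤ ∑ _j : I, η * k := by
            refine Finset.sum_le_sum fun j _ => ?_
            rw [Real.log_le_iff_le_exp (by exact_mod_cast hFpos j)]
            exact hFexp j
        _ = m * (η * k) := by rw [Finset.sum_const, Finset.card_univ, nsmul_eq_mul, hm]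
    have hp : (0 : ℝ) < ∏ j, ((F j).card : ℝ) :=
      Finset.prod_pos fun j _ => by exact_mod_cast hFpos j
    have h5 : Real.log (2 * n) = Real.log 2 + (4 * Real.log k + Real.log (∏ j, ((F j).card : ℝ))) := by
      rw [Real.log_mul (by norm_num) hnpos.ne', h3, Real.log_mul (by positivity) hp.ne', Real.log_pow]
      norm_num
    have h6 : Real.log 2 ≤ 1 := by
      have := Real.log_two_lt_d9; linarith
    have h7 : Real.log k ≤ 2 * Real.sqrt k := by
      have h8 : Real.log (Real.sqrt k) ≤ Real.sqrt k - 1 :=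
        Real.log_le_sub_one_of_pos (Real.sqrt_pos.2 hkpos)
      rw [Real.log_sqrt hkpos.le] at h8
      linarith
    have h9 : 1 ≤ Real.sqrt k := by
      rw [Real.one_le_sqrt]; exact hkR
    nlinarith
  have hsk : 18 * (Cst * a) ≤ δ * Real.sqrt k := by
    have h1 : 18 * (Cst * a) / δ ≤ Real.sqrt k := Real.le_sqrt_of_sq_le hkK
    rw [div_le_iff₀ hδ] at h1
    linarith
  have hlog0 : 0 ≤ Real.log (n + 1) := Real.log_nonneg (by linarith)
  have hnk : (0 : ℝ) ≤ n / k := by positivity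
  have hsq0 := Real.sqrt_nonneg (k : ℝ)
  have hsqk : Real.sqrt k * Real.sqrt k = k := Real.mul_self_sqrt hkpos.le
  calc Cst * (Real.log (n + 1) * (1 + ∑ i, (Real.sqrt n + n / Real.sqrt (t i) + (cs S F t i : ℝ))))
      ≤ Cst * (Real.log (n + 1) * (a * (n / k))) := by
        exact mul_le_mul_of_nonneg_left (mul_le_mul_of_nonneg_left hbr hlog0) hC
    _ = (Cst * a) * Real.log (n + 1) * (n / k) := by ring
    _ ≤ (Cst * a) * (9 * Real.sqrt k + m * η * k) * (n / k) := by
        exact mul_le_mul_of_nonneg_right (mul_le_mul_of_nonneg_left hlog hca) hnk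
    _ ≤ (δ * k) * (n / k) := by
        refine mul_le_mul_of_nonneg_right ?_ hnk
        have h1 : 18 * (Cst * a) * Real.sqrt k ≤ δ * Real.sqrt k * Real.sqrt k :=
          mul_le_mul_of_nonneg_right hsk hsq0
        have h2 : Cst * a * m * η * k ≤ δ / 2 * k := mul_le_mul_of_nonneg_right hηb hkpos.le
        nlinarith
    _ = δ * n := by field_simp

/-- `SubF` implies the Folner condition -/
theorem foel_of_subF {G : Type} [Group G] [DecidableEq G] (H : Subgroup G) (h : Finite H ∨ SubF H) : Foel H := by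
  classical
  intro K hK ε hε
  rcases h with hfin | hsub
  · have hHfin : (H : Set G).Finite := Set.toFinite _
    set F : Finset G := hHfin.toFinset with hF
    have hmem : ∀ g, g ∈ F ↔ g ∈ H := fun g => by rw [hF, Set.Finite.mem_toFinset]; rfl
    refine ⟨F, ⟨1, (hmem 1).2 H.one_mem⟩, fun g hg => (hmem g).1 hg, ?_⟩
    have h1 : K * F ⊆ F := by
      intro x hx
      obtain ⟨a, ha, b, hb, rfl⟩ := Finset.mem_mul.1 hx
      exact (hmem _).2 (H.mul_mem (hK a ha) ((hmem b).1 hb))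
    have h2 : ((K * F).card : ℝ) ≤ F.card := by exact_mod_cast Finset.card_le_card h1
    have h3 : (0 : ℝ) ≤ F.card := Nat.cast_nonneg _
    nlinarith
  · obtain ⟨k0, hk0⟩ := hsub K hK 1 one_pos
    obtain ⟨F, hF, hFH, hbd, -⟩ := hk0 (k0 + ⌈1 / ε⌉₊) (by omega)
    refine ⟨F, hF, hFH, ?_⟩
    have h1 : 1 / ε ≤ ((k0 + ⌈1 / ε⌉₊ : ℕ) : ℝ) := by
      refine (Nat.le_ceil _).trans ?_
      exact_mod_cast Nat.le_add_left _ _
    rw [div_le_iff₀ hε] at h1
    have h2 : (K * F).card ≤ F.card + ((K * F) \ F).card := by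
      have : K * F ⊆ F ∪ ((K * F) \ F) := by
        intro x hx
        by_cases h : x ∈ F
        · exact Finset.mem_union_left _ h
        · exact Finset.mem_union_right _ (Finset.mem_sdiff.2 ⟨hx, h⟩)
      exact (Finset.card_le_card this).trans (Finset.card_union_le _ _)
    have h3 : ((K * F).card : ℝ) ≤ F.card + ((K * F) \ F).card := by exact_mod_cast h2
    have h4 : (((K * F) \ F).card : ℝ) ≤ ε * F.card := by
      have h5 : (0 : ℝ) ≤ (((K * F) \ F).card : ℝ) := Nat.cast_nonneg _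
      calc (((K * F) \ F).card : ℝ) ≤ (((k0 + ⌈1 / ε⌉₊ : ℕ) : ℝ) * ε) * ((K * F) \ F).card := by
            nlinarith
        _ = ε * (((k0 + ⌈1 / ε⌉₊ : ℕ) : ℝ) * ((K * F) \ F).card) := by ring
        _ ≤ ε * F.card := mul_le_mul_of_nonneg_left hbd hε.le
    linarith

end H31.BE
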