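import Pool.Agent.H31.BE.MdlEx
import Pool.Agent.H31.BE.ChSum
import Pool.Agent.H31.BE.Tiles

/-! # ModelIneq : the upper bound for F(τ)  (paper section 6; module ModelIneq, ~70 lines, assembly)
R0 := max of the R0 of `mdl_ex` and of all L.C * (wd h).length (J finite). For R >= R0: K, wR from `mdl_ex`, Cst from `ch_sum`. Choose for every
i the n0 of hcp; n0 := their maximum; for δ > 0: n, t, F from `tiles`. Nat.card (H i) = (F i).card divides n if H i is finite. Model from `mdl_ex`,
inequality from `ch_sum`, divide by n: FF <= ent + entc + m ε + δ. δ arbitrary. -/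

set_option autoImplicit false

open MeasureTheory

namespace H31.BE

theorem model_ineq {G I Λ Y : Type} [Group G] [DecidableEq G] [Fintype I] [MeasurableSpace Y] [MulAction G Y]
    [Finite Λ] (H : I → Subgroup G) (hP : FreeProd H) (hsub : ∀ i, Finite (H i) ∨ SubF (H i))
    (S : I → Finset G) (hS : ∀ i, Subgroup.closure (S i : Set G) = H i)
    (P : Measure Y) [IsProbabilityMeasure P] (hI : Inv G P) (lb : Y → Λ) (hlb : Fm lb)
    (L : Lab S Λ) (N : ℕ) (hadm : ∀ᵐ y ∂P, Adm L N (fun g => lb (g • y)))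
    {k : ℕ} (pf : Λ → Fin k) {J : Type} [Finite J] (wd : J → List (Gn S))
    (ε : ℝ) (hε : 0 ≤ ε) (r C n0 : I → ℕ) (hr : ∀ i, r i ≤ N)
    (hcp : ∀ i n, n0 i ≤ n → (Finite (H i) → Nat.card (H i) ∣ n) → ∀ D : ℕ,
      ({f : S i → Fin n → Option (Fin n) | nonreg (S i) f (r i) ≤ D}.ncard : ℝ) ≤
        Real.exp (Real.log n.factorial - kap (H i) n + ε * n + C i * D * Real.log (n + 1))) :
    ∃ R0 : ℕ, ∀ R, R0 ≤ R →
      FF P H (win lb (ball S R)) ≤ ent P (fun y => pf (lb y)) +
        entc P lb (fun y => fun h : J => pf (lb (walk L (fun g => lb (g • y)) (wd h) • y))) +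
        Fintype.card I * ε := by
  classical
  cases nonempty_fintype J
  have hSH : ∀ i, ∀ g ∈ S i, g ∈ H i := by
    intro i g hg
    rw [← hS i]
    exact Subgroup.subset_closure hg
  obtain ⟨R1, hR1⟩ := mdl_ex H hP S hSH P hI lb hlb L N hadm wd
  refine ⟨max R1 (∑ h : J, L.C * (wd h).length), fun R hR => ?_⟩
  have hRa : R1 ≤ R := (le_max_left _ _).trans hR
  have hRb : ∀ h : J, L.C * (wd h).length ≤ R := by
    intro h
    refine le_trans ?_ ((le_max_right _ _).trans hR)
    exact Finset.single_le_sum (f := fun h : J => L.C * (wd h).length)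
      (fun _ _ => Nat.zero_le _) (Finset.mem_univ h)
  obtain ⟨K, wR, hM⟩ := hR1 R hRa
  obtain ⟨Cst, hCst, hch⟩ := ch_sum H S hS P hI lb hlb L N pf wd r C hr R K wR hRb
  refine le_of_forall_pos_le_add fun δ hδ => ?_
  obtain ⟨n, t, F, hn0, hn1, hFH, hFf, htn, hbd⟩ :=
    tiles H hsub S hSH Cst hCst δ hδ (∑ i, n0 i)
  obtain ⟨Ω, iΩ, mΩ, dΩ, Q, pQ, z, om, π, sg, BB, hmdl⟩ := hM n t F hn1 hFH htn
  have hcount : ∀ i (D : ℕ), ({f : S i → Fin n → Option (Fin n) |
      nonreg (S i) f (r i) ≤ D}.ncard : ℝ) ≤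
      Real.exp (Real.log n.factorial - kap (H i) n + ε * n + C i * D * Real.log (n + 1)) := by
    intro i D
    refine hcp i n ?_ ?_ D
    · refine le_trans ?_ hn0
      exact Finset.single_le_sum (f := fun i : I => n0 i)
        (fun _ _ => Nat.zero_le _) (Finset.mem_univ i)
    · intro hfin
      have h1 : Nat.card (H i) = (F i).card := by
        have h2 : ((H i : Subgroup G) : Set G) = ((F i : Finset G) : Set G) := by
          ext g
          exact ⟨fun hg => Finset.mem_coe.2 (hFf i hfin g hg),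
            fun hg => hFH i g (Finset.mem_coe.1 hg)⟩
        have h3 : Nat.card (H i) = ((H i : Subgroup G) : Set G).ncard := rfl
        rw [h3, h2, Set.ncard_coe_finset]
      rw [h1]
      exact ⟨t i, by rw [← htn i, mul_comm]⟩
  have hkey := hch n t F ε hn1 hε hFH hFf htn hcount Ω Q z om π sg BB hmdl
  have hnpos : (0 : ℝ) < n := by exact_mod_cast hn1
  have h5 : (n : ℝ) * FF P H (win lb (ball S R)) ≤ n * (ent P (fun y => pf (lb y)) +
        entc P lb (fun y => fun h : J => pf (lb (walk L (fun g => lb (g • y)) (wd h) • y))) +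
        Fintype.card I * ε + δ) := by
    calc (n : ℝ) * FF P H (win lb (ball S R)) ≤ _ := hkey
      _ ≤ n * ent P (fun y => pf (lb y)) +
          n * entc P lb (fun y => fun h : J => pf (lb (walk L (fun g => lb (g • y)) (wd h) • y))) +
          Fintype.card I * (ε * n) + δ * n := by
            gcongr
      _ = _ := by ring
  exact le_of_mul_le_mul_left h5 hnpos

end H31.BE
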