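import Pool.Agent.H31.BE.Defs

/-! # Words : letters, words, balls, labels, walks, admissible configurations. Definitions only. -/

set_option autoImplicit false

namespace H31.BE

open scoped Pointwise

section
variable {G I Λ : Type} [Group G]

/-- letters: a pair (i, s) with `s ∈ S i` -/
abbrev Gn (S : I → Finset G) : Type := Σ i, (S i : Finset G)

/-- value of a letter -/
def gv {S : I → Finset G} (s : Gn S) : G := ((s.2 : (S s.1 : Finset G)) : G)

/-- product of a word; the HEAD of the list is the LAST letter applied -/
def wprod {S : I → Finset G} (w : List (Gn S)) : G := (w.map gv).prod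

/-- products of at most `r` letters -/
noncomputable def ball [DecidableEq G] [Fintype I] (S : I → Finset G) (r : ℕ) : Finset G :=
  (insert 1 (Finset.univ.biUnion S)) ^ r

/-- label data: `c s l` = the cocycle value of the letter `s` at a point with label `l`,
`bw s l` = a word for the inverse cocycle -/
structure Lab [DecidableEq G] [Fintype I] (S : I → Finset G) (Λ : Type) where
  C : ℕ
  c : Gn S → Λ → G
  bw : Gn S → Λ → List (Gn S)
  hc : ∀ s l, c s l ∈ ball S C
  hbw : ∀ s l, (bw s l).length ≤ C

/-- the position reached from 1 along the word `w` in the labelled configuration `t : G → Λ` -/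
def walk [DecidableEq G] [Fintype I] {S : I → Finset G} (L : Lab S Λ) (t : G → Λ) : List (Gn S) → G
  | [] => 1
  | s :: w => L.c s (t (walk L t w)) * walk L t w

/-- admissible configurations, up to word length `N` -/
structure Adm [DecidableEq G] [Fintype I] {S : I → Finset G} (L : Lab S Λ) (N : ℕ) (t : G → Λ) : Prop where
  a1 : ∀ s : Gn S, walk L t (L.bw s (t 1)) = gv s
  a2 : ∀ w w' : List (Gn S), w.length ≤ N → w'.length ≤ N → wprod w = wprod w' → walk L t w = walk L t w'
  a3 : ∀ w : List (Gn S), w.length ≤ N → wprod w ≠ 1 → walk L t w ≠ 1
  a4 : ∀ g ∈ ball S (L.C * N), g ≠ 1 → t g ≠ t 1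

/-- evaluation of a word for a family of partial maps -/
def ev {V X : Type} (f : X → V → Option V) : List X → V → Option V
  | [], v => some v
  | s :: w, v => (ev f w v).bind (f s)

end

end H31.BE
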