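import Pool.Agent.H31.BE.Bern
import Pool.Agent.H31.BE.Words
import Pool.Agent.H31.BE.FreeB

/-! # OEDef : bounded orbit equivalence of two Bernoulli shifts (definition), and the cocycle package. Definitions only. -/

set_option autoImplicit false

open MeasureTheory

namespace H31.BE

/-- bounded orbit equivalence, exactly as in the problem (T and S = the inverse) -/
structure OE (G : Type) [Group G] (μ ν : Measure ℝ) (T S : Bsh G → Bsh G) : Prop where
  mT : MeasurePreserving T (bern G μ) (bern G ν)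
  mS : MeasurePreserving S (bern G ν) (bern G μ)
  ST : ∀ᵐ x ∂(bern G μ), S (T x) = x
  TS : ∀ᵐ y ∂(bern G ν), T (S y) = y
  bT : ∀ g : G, ∃ F : Finset G, ∀ᵐ x ∂(bern G μ), ∃ f ∈ F, T (g • x) = f • T x
  bS : ∀ g : G, ∃ F : Finset G, ∀ᵐ y ∂(bern G ν), ∃ f ∈ F, S (g • y) = f • S y

/-- the good points `y`: all cocycle identities hold along the whole orbit of `y`.
`c s y`, `b s y` are the cocycle values of the letter `s`. -/
structure GoodPt {G I : Type} [Group G] {S' : I → Finset G} (T S : Bsh G → Bsh G)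
    (c b : Gn S' → Bsh G → G) (y : Bsh G) : Prop where
  hc : ∀ (g : G) (s : Gn S'), T (gv s • S (g • y)) = c s (g • y) • (g • y)
  hb : ∀ (g : G) (s : Gn S'), S (gv s • (g • y)) = b s (g • y) • S (g • y)
  hTS : ∀ g : G, T (S (g • y)) = g • y
  hST : ∀ g : G, S (T (g • S y)) = g • S y
  freeY : ∀ g : G, g ≠ 1 → g • y ≠ y
  freeX : ∀ g : G, g ≠ 1 → g • S y ≠ S y

end H31.BE
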