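import Pool.Agent.H31.BE.FunC
import Pool.Agent.H31.BE.Appr

/-! # ThmA : Theorem A, F(β) >= H(γ0)  (paper 1.8; module ThmA, ~90 lines)
For ε > 0 choose δ from `entc_small β (ε/(2m))` (m = card I), then q, B, Φ from `appr` for b and δ.
γ := lab (q, q0) : values in Fin k × κ; b' := Φ(win (lab q) B) is a function of win γ B; b'' := (b', q0(y 1)) is a function of
win γ (B ∪ {1}) and q0(y 1) is a function of b'' and of γ. `FF_ge_ent`: H(γ0) <= FF b''. `FF_cont`:
FF b'' <= FF b + m H(b''|b) + (m-1) H(b|b''), where H(b''|b) = H(b'|b) (γ0 is a function of b: entc_chain, entc_of_fun)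
and H(b|b'') <= H(b|b') (entc_anti). Both are <= ε/(2m). ε arbitrary. -/

set_option autoImplicit false

open MeasureTheory

namespace H31.BE

theorem thmA {G β κ I : Type} [Group G] [DecidableEq G] [Finite β] [Finite κ] [Fintype I] [Nonempty I]
    (H : I → Subgroup G) (hH : ∀ i, Foel (H i)) (hfree : FreeProd H)
    (μ : Measure ℝ) [IsProbabilityMeasure μ] (q0 : ℝ → κ) (hq0 : Fm q0)
    (b : Bsh G → β) (hb : Fm b) (q' : β → κ) (hq : ∀ y : Bsh G, q0 (y 1) = q' (b y)) :
    ent μ q0 ≤ FF (bern G μ) H b := by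
  classical
  refine le_of_forall_pos_le_add ?_
  intro ε hε
  have hm : (1 : ℝ) ≤ (Fintype.card I : ℝ) := by
    exact_mod_cast Fintype.card_pos
  have hm0 : (0 : ℝ) < (Fintype.card I : ℝ) := by linarith
  have hε' : 0 < ε / (2 * (Fintype.card I : ℝ)) := by positivity
  obtain ⟨δ, hδ, hsmall⟩ := entc_small β (ε / (2 * (Fintype.card I : ℝ))) hε'
  obtain ⟨k, q, hqm, B, Φ, hΦ⟩ := appr μ b hb δ hδ
  have hI : Inv G (bern G μ) := inv_bern μ
  set b' : Bsh G → β := fun y => Φ (win (lab q) B y) with hb'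
  have hb'm : Fm b' := Fm.comp (Fm.win (P := bern G μ) hI (Fm.lab hqm) B) Φ
  set γ : Bsh G → Fin k × κ := lab (fun r => (q r, q0 r)) with hγ
  have hγq : Fm (fun r => (q r, q0 r)) := Fm.prodMk hqm hq0
  have hγm : Fm γ := Fm.lab hγq
  set γ0 : Bsh G → κ := lab q0 with hγ0
  have hγ0m : Fm γ0 := Fm.lab hq0
  set b'' : Bsh G → β × κ := fun y => (b' y, γ0 y) with hb''
  have hb''m : Fm b'' := Fm.prodMk hb'm hγ0m
  have hind : ∀ B : Finset G, ent (bern G μ) (win γ B) = B.card * ent (bern G μ) γ :=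
    fun B => hind_lab μ hγq B
  have h1 : ent (bern G μ) (fun y => (γ y).2) ≤ FF (bern G μ) H b'' := by
    refine FF_ge_ent (P := bern G μ) hI H hH hfree hγm hind (insert 1 B)
      (fun w => (Φ (fun g => (w ⟨(g : G), Finset.mem_insert_of_mem g.2⟩).1),
        (w ⟨1, Finset.mem_insert_self 1 B⟩).2)) ?_ Prod.snd Prod.snd ?_
    · intro y
      show (Φ (win (lab q) B y), lab q0 y) = _
      refine Prod.ext rfl ?_
      show lab q0 y = (γ ((1 : G) • y)).2
      rw [one_smul]
      rfl
    · intro y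
      rfl
  have h2 : ent (bern G μ) (fun y => (γ y).2) = ent μ q0 := by
    have : (fun y => (γ y).2) = lab (G := G) q0 := rfl
    rw [this]
    exact ent_lab μ hq0
  have h3 := FF_cont (P := bern G μ) hI H hb hb''m
  have h4 : entc (bern G μ) b'' b ≤ ε / (2 * (Fintype.card I : ℝ)) := by
    have hc := entc_chain (P := bern G μ) hb'm hγ0m hb
    have hz : entc (bern G μ) γ0 b = 0 :=
      entc_of_fun (P := bern G μ) hb q' (Filter.Eventually.of_forall (fun y => hq y))
    have ha := entc_anti (P := bern G μ) hb'm (Fm.prodMk hγ0m hb) Prod.snd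
    have hs := hsmall (Bsh G) (bern G μ) b' b hb'm hb (by
      have : {ω | b' ω ≠ b ω} = {y | b y ≠ Φ (win (lab q) B y)} := by
        ext y
        exact ne_comm
      rw [this]
      exact hΦ)
    calc entc (bern G μ) b'' b = entc (bern G μ) γ0 b + entc (bern G μ) b' (fun ω => (γ0 ω, b ω)) := hc
      _ = entc (bern G μ) b' (fun ω => (γ0 ω, b ω)) := by rw [hz, zero_add]
      _ ≤ entc (bern G μ) b' b := ha
      _ ≤ _ := hs
  have h5 : entc (bern G μ) b b'' ≤ ε / (2 * (Fintype.card I : ℝ)) := by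
    have ha := entc_anti (P := bern G μ) hb hb''m Prod.fst
    have hs := hsmall (Bsh G) (bern G μ) b b' hb hb'm hΦ
    exact ha.trans hs
  have h6 : (Fintype.card I : ℝ) * entc (bern G μ) b'' b ≤ ε / 2 := by
    calc (Fintype.card I : ℝ) * entc (bern G μ) b'' b
        ≤ (Fintype.card I : ℝ) * (ε / (2 * (Fintype.card I : ℝ))) :=
          mul_le_mul_of_nonneg_left h4 hm0.le
      _ = ε / 2 := by field_simp
  have h7 : ((Fintype.card I : ℝ) - 1) * entc (bern G μ) b b'' ≤ ε / 2 := by
    calc ((Fintype.card I : ℝ) - 1) * entc (bern G μ) b b''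
        ≤ ((Fintype.card I : ℝ) - 1) * (ε / (2 * (Fintype.card I : ℝ))) :=
          mul_le_mul_of_nonneg_left h5 (by linarith)
      _ ≤ (Fintype.card I : ℝ) * (ε / (2 * (Fintype.card I : ℝ))) :=
          mul_le_mul_of_nonneg_right (by linarith) hε'.le
      _ = ε / 2 := by field_simp
  rw [h2] at h1
  linarith

end H31.BE
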