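import Pool.Agent.H31.BE.LabMain
import Pool.Agent.H31.BE.ThmA
import Pool.Agent.H31.BE.ModelIneq
import Pool.Agent.H31.BE.GrpT

/-! # OneSide : one half of the theorem (assembly). -/

set_option autoImplicit false

open MeasureTheory

namespace H31.BE

theorem one_side {G I : Type} [Group G] [DecidableEq G] [Countable G] [Infinite G] [Fintype I]
    (H : I → Subgroup G) (hP : FreeProd H) (hsub : ∀ i, Finite (H i) ∨ SubF (H i))
    (S : I → Finset G) (hS : ∀ i, Subgroup.closure (S i : Set G) = H i) (hsym : ∀ i, ∀ s ∈ S i, s⁻¹ ∈ S i)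
    (hcp : ∀ i, CountProp (H i) (S i))
    (μ ν : Measure ℝ) [IsProbabilityMeasure μ] [IsProbabilityMeasure ν] (hμ : Nontriv μ) (hν : Nontriv ν)
    (T U : Bsh G → Bsh G) (h : OE G μ ν T U) (ε : ℝ) (hε : 0 < ε) (k0 : ℕ) (q0 : ℝ → Fin k0) (hq0 : Fm q0) :
    ∃ (k : ℕ) (q : ℝ → Fin k), Fm q ∧ ent ν q0 ≤ ent μ q + ε := by
  classical
  -- the index set is nonempty
  haveI hne : Nonempty I := by
    by_contra hI
    rw [not_nonempty_iff] at hI
    have h1 : (⊤ : Subgroup G) = ⊥ := by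
      rw [← hP.gen]
      exact iSup_of_empty _
    obtain ⟨a, b, hab⟩ := exists_pair_ne G
    have ha : a ∈ (⊥ : Subgroup G) := h1 ▸ Subgroup.mem_top a
    have hb : b ∈ (⊥ : Subgroup G) := h1 ▸ Subgroup.mem_top b
    rw [Subgroup.mem_bot] at ha hb
    exact hab (ha.trans hb.symm)
  set m : ℝ := (Fintype.card I : ℝ) with hm
  have hm0 : 0 ≤ m := by rw [hm]; positivity
  set ε' : ℝ := ε / (m + 1) with hε'
  have hε'0 : 0 < ε' := by rw [hε']; positivity
  choose r C n0 hrc using fun i => hcp i ε' hε'0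
  set N : ℕ := Finset.univ.sup r with hN
  have hr : ∀ i, r i ≤ N := fun i => Finset.le_sup (Finset.mem_univ i)
  have hgen : ∀ g : G, ∃ r, g ∈ ball S r := fun g => ball_univ H hP.gen S hS hsym g
  obtain ⟨Λ, hΛ, L, lb, hlb, q', k, q, hq, pf, J, hJ, wd, hadm, hq', hent, hentc⟩ :=
    labels S hgen μ ν hμ hν T U h N ε' hε'0 k0 q0 hq0
  have hI : Inv G (bern G ν) := inv_bern ν
  obtain ⟨R0, hR0⟩ := model_ineq H hP hsub S hS (bern G ν) hI lb hlb L N hadm pf wd ε' hε'0.le r C n0 hr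
    (fun i n hn hd D => hrc i n hn hd D)
  have h1 := hR0 R0 le_rfl
  have h2 : ent ν q0 ≤ FF (bern G ν) H (win lb (ball S R0)) := by
    refine thmA H (fun i => foel_of_subF (H i) (hsub i)) hP ν q0 hq0 (win lb (ball S R0))
      (Fm.win (P := bern G ν) hI hlb _) (fun x => q' (x (one' S R0))) ?_
    intro y
    show q0 (y 1) = q' (lb ((1 : G) • y))
    rw [one_smul, hq' y]
  refine ⟨k, q, hq, ?_⟩
  have h3 : (m + 1) * ε' = ε := by
    rw [hε']; field_simp
  rw [hent] at h1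
  have h4 : m * ε' + ε' = ε := by rw [← h3]; ring
  calc ent ν q0 ≤ _ := h2
    _ ≤ _ := h1
    _ ≤ ent μ q + ε' + m * ε' := by
        have := hentc
        linarith
    _ = ent μ q + ε := by rw [← h4]; ring

end H31.BE
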